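import Pool.Agent.H69.Hep.Defs

/-! # A1: no four points with mutual distances at least 2 in a disc of radius less than √2 -/

set_option autoImplicit false

namespace Hepta

open Complex MeasureTheory

/-- two vectors of square length `≤ s < 2` and distance `≥ 2` have a negative inner product -/
private theorem A1_neg {x y x' y' s : ℝ} (hs : s < 2) (h1 : x * x + y * y ≤ s)
    (h2 : x' * x' + y' * y' ≤ s)
    (h : 4 ≤ (x - x') * (x - x') + (y - y') * (y - y')) : x * x' + y * y' < 0 := by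
  nlinarith

/-- there are no four plane vectors with pairwise negative inner products -/
private theorem A1_four {x0 y0 x1 y1 x2 y2 x3 y3 : ℝ} (h01 : x0 * x1 + y0 * y1 < 0)
    (h02 : x0 * x2 + y0 * y2 < 0) (h03 : x0 * x3 + y0 * y3 < 0) (h12 : x1 * x2 + y1 * y2 < 0)
    (h13 : x1 * x3 + y1 * y3 < 0) (h23 : x2 * x3 + y2 * y3 < 0) : False := by
  have hN : 0 ≤ x0 * x0 + y0 * y0 := by nlinarith [mul_self_nonneg x0, mul_self_nonneg y0]
  have key : ∀ x y x' y' : ℝ, x0 * x + y0 * y < 0 → x0 * x' + y0 * y' < 0 →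
      x * x' + y * y' < 0 → (x0 * y - y0 * x) * (x0 * y' - y0 * x') < 0 := by
    intro x y x' y' h1 h2 h3
    have e : (x0 * x0 + y0 * y0) * (x * x' + y * y')
        = (x0 * x + y0 * y) * (x0 * x' + y0 * y')
          + (x0 * y - y0 * x) * (x0 * y' - y0 * x') := by ring
    have h4 : 0 < (x0 * x + y0 * y) * (x0 * x' + y0 * y') := mul_pos_of_neg_of_neg h1 h2
    have h5 : (x0 * x0 + y0 * y0) * (x * x' + y * y') ≤ 0 :=
      mul_nonpos_of_nonneg_of_nonpos hN h3.le
    linarith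
  have k12 := key x1 y1 x2 y2 h01 h02 h12
  have k13 := key x1 y1 x3 y3 h01 h03 h13
  have k23 := key x2 y2 x3 y3 h02 h03 h23
  have h1 : 0 < ((x0 * y1 - y0 * x1) * (x0 * y2 - y0 * x2))
      * ((x0 * y1 - y0 * x1) * (x0 * y3 - y0 * x3)) := mul_pos_of_neg_of_neg k12 k13
  have h2 : ((x0 * y1 - y0 * x1) * (x0 * y2 - y0 * x2))
      * ((x0 * y1 - y0 * x1) * (x0 * y3 - y0 * x3))
      * ((x0 * y2 - y0 * x2) * (x0 * y3 - y0 * x3)) < 0 := mul_neg_of_pos_of_neg h1 k23
  have h3 : ((x0 * y1 - y0 * x1) * (x0 * y2 - y0 * x2))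
      * ((x0 * y1 - y0 * x1) * (x0 * y3 - y0 * x3))
      * ((x0 * y2 - y0 * x2) * (x0 * y3 - y0 * x3))
      = ((x0 * y1 - y0 * x1) * (x0 * y2 - y0 * x2) * (x0 * y3 - y0 * x3)) ^ 2 := by ring
  rw [h3] at h2
  exact absurd h2 (not_lt.2 (sq_nonneg _))

theorem four_points {a b c d v : ℂ} {s : ℝ} (hs : s < 2) (ha : normSq (a - v) ≤ s)
    (hb : normSq (b - v) ≤ s) (hc : normSq (c - v) ≤ s) (hd : normSq (d - v) ≤ s)
    (hab : 4 ≤ normSq (a - b)) (hac : 4 ≤ normSq (a - c)) (had : 4 ≤ normSq (a - d))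
    (hbc : 4 ≤ normSq (b - c)) (hbd : 4 ≤ normSq (b - d)) (hcd : 4 ≤ normSq (c - d)) : False := by
  have key : ∀ x y : ℂ, normSq (x - v) ≤ s → normSq (y - v) ≤ s → 4 ≤ normSq (x - y) →
      (x - v).re * (y - v).re + (x - v).im * (y - v).im < 0 := by
    intro x y hx hy hxy
    rw [normSq_apply] at hx hy hxy
    refine A1_neg hs hx hy ?_
    have e1 : (x - v).re - (y - v).re = (x - y).re := by
      rw [sub_re, sub_re, sub_re]; ring
    have e2 : (x - v).im - (y - v).im = (x - y).im := by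
      rw [sub_im, sub_im, sub_im]; ring
    rw [e1, e2]
    exact hxy
  exact A1_four (key a b ha hb hab) (key a c ha hc hac) (key a d ha hd had) (key b c hb hc hbc)
    (key b d hb hd hbd) (key c d hc hd hcd)

end Hepta
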