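import Pool.Agent.H69.Hep.Defs

/-! # A10: the area in polar coordinates -/

set_option autoImplicit false

namespace Hepta

open Complex MeasureTheory

open scoped ENNReal

private theorem A10_ui (φ : ℝ) : ui φ = (Real.cos φ : ℂ) + (Real.sin φ : ℂ) * I := by
  apply Complex.ext <;> simp [ui, -Complex.ofReal_cos, -Complex.ofReal_sin]

private theorem A10_ui' (φ : ℝ) : ui φ = Complex.cos (φ : ℂ) + Complex.sin (φ : ℂ) * I := by
  rw [A10_ui, Complex.ofReal_cos, Complex.ofReal_sin]

private theorem A10_arg {r φ : ℝ} (hr : 0 < r) (hφ : φ ∈ Set.Ioo (-Real.pi) Real.pi) :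
    arg ((r : ℂ) * ui φ) = φ := by
  rw [A10_ui']
  exact arg_mul_cos_add_sin_mul_I hr ⟨hφ.1, hφ.2.le⟩

private theorem A10_norm {r φ : ℝ} (hr : 0 < r) : ‖(r : ℂ) * ui φ‖ = r := by
  rw [norm_mul, A10_ui', Complex.norm_real, Complex.norm_cos_add_sin_mul_I, mul_one,
    Real.norm_of_nonneg hr.le]

private theorem A10_eq (z : ℂ) (g : ℝ → ℝ) :
    star z g = {y | arg (y - z) ∈ Set.Ioo (-Real.pi) Real.pi ∧ 0 < ‖y - z‖ ∧
      ‖y - z‖ < g (arg (y - z))} := by
  ext y
  constructor
  · rintro ⟨φ, hφ, r, h0, h1, rfl⟩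
    rw [Set.mem_ofPred_eq, add_sub_cancel_left, A10_arg h0 hφ, A10_norm h0]
    exact ⟨hφ, h0, h1⟩
  · rintro ⟨h1, h2, h3⟩
    refine ⟨arg (y - z), h1, ‖y - z‖, h2, h3, ?_⟩
    rw [A10_ui', norm_mul_cos_add_sin_mul_I, add_sub_cancel]

theorem measurableSet_star (z : ℂ) {g : ℝ → ℝ} (hg : Measurable g) :
    MeasurableSet (star z g) := by
  rw [A10_eq]
  have h1 : Measurable fun y : ℂ => arg (y - z) := measurable_arg.comp (measurable_id.sub_const z)
  have h2 : Measurable fun y : ℂ => ‖y - z‖ := (measurable_id.sub_const z).norm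
  exact (h1 measurableSet_Ioo).inter ((measurableSet_lt measurable_const h2).inter
    (measurableSet_lt h2 (hg.comp h1)))

private theorem A10_inner {R : ℝ} (hR : 0 ≤ R) :
    ∫⁻ r in Set.Ioi (0 : ℝ), ENNReal.ofReal r * (Set.Iio R).indicator 1 r =
      ENNReal.ofReal (R ^ 2 / 2) := by
  have h1 : ∀ r : ℝ, ENNReal.ofReal r * (Set.Iio R).indicator 1 r =
      (Set.Iio R).indicator (fun r => ENNReal.ofReal r) r := by
    intro r
    by_cases h : r ∈ Set.Iio R
    · simp [Set.indicator_of_mem h]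
    · simp [Set.indicator_of_notMem h]
  simp only [h1]
  rw [setLIntegral_indicator measurableSet_Iio]
  have h2 : Set.Iio R ∩ Set.Ioi 0 = Set.Ioo 0 R := by
    rw [Set.inter_comm]
    rfl
  rw [h2, ← ofReal_integral_eq_lintegral_ofReal]
  · congr 1
    rw [← integral_Ioc_eq_integral_Ioo, ← intervalIntegral.integral_of_le hR]
    rw [integral_id]
    ring
  · refine (continuous_id.integrableOn_Icc (a := 0) (b := R)).mono_set Set.Ioo_subset_Icc_self
  · exact (ae_restrict_iff' measurableSet_Ioo).2 (Filter.Eventually.of_forall fun r hr => hr.1.le)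

theorem volume_star (z : ℂ) {g : ℝ → ℝ} (hg : Measurable g) {B : ℝ} (h0 : ∀ φ, 0 ≤ g φ)
    (hB : ∀ φ, g φ ≤ B) :
    volume (star z g) = ENNReal.ofReal (∫ φ in Set.Ioo (-Real.pi) Real.pi, g φ ^ 2 / 2) := by
  have htr : volume (star z g) = volume (star 0 g) := by
    have h1 : star 0 g = (fun y => z + y) ⁻¹' star z g := by
      ext y
      simp only [A10_eq, Set.mem_ofPred_eq, Set.mem_preimage, add_sub_cancel_left, sub_zero]
    rw [h1, measure_preimage_add]
  rw [htr, ← lintegral_indicator_one (measurableSet_star 0 hg),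
    ← Complex.lintegral_comp_polarCoord_symm]
  have hmi : Measurable fun p : ℝ × ℝ => ENNReal.ofReal p.1 * (Set.Iio (g p.2)).indicator 1 p.1 := by
    have h1 : (fun p : ℝ × ℝ => (Set.Iio (g p.2)).indicator (1 : ℝ → ℝ≥0∞) p.1) =
        {p : ℝ × ℝ | p.1 < g p.2}.indicator 1 := by
      funext p
      by_cases h : p.1 < g p.2
      · rw [Set.indicator_of_mem (show p.1 ∈ Set.Iio (g p.2) from h),
          Set.indicator_of_mem (show p ∈ {p : ℝ × ℝ | p.1 < g p.2} from h)]
        rfl
      · rw [Set.indicator_of_notMem (show p.1 ∉ Set.Iio (g p.2) from h),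
          Set.indicator_of_notMem (show p ∉ {p : ℝ × ℝ | p.1 < g p.2} from h)]
    refine (ENNReal.measurable_ofReal.comp measurable_fst).mul ?_
    rw [h1]
    exact measurable_one.indicator (measurableSet_lt measurable_fst (hg.comp measurable_snd))
  have h1 : ∫⁻ p in _root_.polarCoord.target, ENNReal.ofReal p.1 •
      (star 0 g).indicator 1 (Complex.polarCoord.symm p) =
      ∫⁻ p in _root_.polarCoord.target, ENNReal.ofReal p.1 *
        (Set.Iio (g p.2)).indicator 1 p.1 := by
    refine setLIntegral_congr_fun (polarCoord.open_target.measurableSet) fun p hp => ?_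
    have hp' : p.1 ∈ Set.Ioi (0 : ℝ) ∧ p.2 ∈ Set.Ioo (-Real.pi) Real.pi := hp
    have h2 : Complex.polarCoord.symm p = (p.1 : ℂ) * ui p.2 := by
      rw [Complex.polarCoord_symm_apply, A10_ui]
    have h3 : (Complex.polarCoord.symm p ∈ star 0 g) ↔ p.1 < g p.2 := by
      rw [h2, A10_eq, Set.mem_ofPred_eq, sub_zero, A10_arg hp'.1 hp'.2, A10_norm hp'.1]
      exact ⟨fun h => h.2.2, fun h => ⟨hp'.2, hp'.1, h⟩⟩
    change ENNReal.ofReal p.1 * (star 0 g).indicator 1 (Complex.polarCoord.symm p) = _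
    congr 1
    by_cases h : p.1 < g p.2
    · rw [Set.indicator_of_mem (h3.2 h), Set.indicator_of_mem (show p.1 ∈ Set.Iio (g p.2) from h)]
      rfl
    · rw [Set.indicator_of_notMem (fun h' => h (h3.1 h')),
        Set.indicator_of_notMem (show p.1 ∉ Set.Iio (g p.2) from h)]
  rw [h1]
  have h2 : _root_.polarCoord.target = Set.Ioi (0 : ℝ) ×ˢ Set.Ioo (-Real.pi) Real.pi := rfl
  rw [h2, Measure.volume_eq_prod, ← Measure.prod_restrict, lintegral_prod_symm _ hmi.aemeasurable]
  have h3 : ∀ φ : ℝ, ∫⁻ r in Set.Ioi (0 : ℝ), ENNReal.ofReal r * (Set.Iio (g φ)).indicator 1 r =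
      ENNReal.ofReal (g φ ^ 2 / 2) := fun φ => A10_inner (h0 φ)
  simp only [h3]
  rw [← ofReal_integral_eq_lintegral_ofReal]
  · refine Measure.integrableOn_of_bounded (M := B ^ 2 / 2) ?_ ?_ ?_
    · rw [Real.volume_Ioo]
      exact ENNReal.ofReal_ne_top
    · exact ((hg.pow_const 2).div_const 2).aestronglyMeasurable
    · refine Filter.Eventually.of_forall fun φ => ?_
      rw [Real.norm_of_nonneg (by positivity)]
      have := pow_le_pow_left₀ (h0 φ) (hB φ) 2
      linarith
  · exact Filter.Eventually.of_forall fun φ => by positivity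

end Hepta
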