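import Pool.Agent.H69.Hep.Defs

/-! # A11: the integral over a half sector -/

set_option autoImplicit false

namespace Hepta

open Complex MeasureTheory

private theorem A11_cr (z : ℂ) (φ : ℝ) : cr z (ui φ) = ‖z‖ * Real.sin (φ - arg z) := by
  have h1 := Complex.norm_mul_cos_arg z
  have h2 := Complex.norm_mul_sin_arg z
  rw [cr, ui, Real.sin_sub, ← h1, ← h2]
  simp only
  ring

private theorem A11_dt (z : ℂ) (φ : ℝ) : dt z (ui φ) = ‖z‖ * Real.cos (φ - arg z) := by
  have h1 := Complex.norm_mul_cos_arg z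
  have h2 := Complex.norm_mul_sin_arg z
  rw [dt, ui, Real.cos_sub, ← h1, ← h2]
  simp only
  ring

private theorem A11_int {u v : ℝ} (hu : -(Real.pi / 2) < u) (huv : u ≤ v) (hv : v < Real.pi / 2)
    (A B : ℝ) : ∫ t in Set.Ioo u v, (A / Real.cos t ^ 2 - B) =
      A * (Real.tan v - Real.tan u) - B * (v - u) := by
  rw [← integral_Ioc_eq_integral_Ioo, ← intervalIntegral.integral_of_le huv]
  have hc : ∀ t ∈ Set.uIcc u v, Real.cos t ≠ 0 := by
    intro t ht
    rw [Set.uIcc_of_le huv] at ht
    exact (Real.cos_pos_of_mem_Ioo ⟨by linarith [ht.1], by linarith [ht.2]⟩).ne'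
  have hd : ∀ t ∈ Set.uIcc u v, HasDerivAt (fun t => A * Real.tan t - B * t)
      (A / Real.cos t ^ 2 - B) t := by
    intro t ht
    have h1 := (Real.hasDerivAt_tan (hc t ht)).const_mul A
    have h2 := (hasDerivAt_id t).const_mul B
    have h3 := h1.sub h2
    rw [show A / Real.cos t ^ 2 - B = A * (1 / Real.cos t ^ 2) - B * 1 by ring]
    exact h3
  rw [intervalIntegral.integral_eq_sub_of_hasDerivAt hd]
  · ring
  · refine ContinuousOn.intervalIntegrable ?_
    refine ContinuousOn.sub ?_ continuousOn_const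
    refine ContinuousOn.div continuousOn_const (Real.continuous_cos.continuousOn.pow 2) ?_
    intro t ht
    exact pow_ne_zero 2 (hc t ht)

private theorem A11_shift (G : ℝ → ℝ) (hG : Function.Periodic G (2 * Real.pi)) (a : ℝ) :
    ∫ φ in Set.Ioo (-Real.pi) Real.pi, G (φ - a) = ∫ φ in Set.Ioo (-Real.pi) Real.pi, G φ := by
  have hp := Real.pi_pos
  rw [← integral_Ioc_eq_integral_Ioo, ← integral_Ioc_eq_integral_Ioo,
    ← intervalIntegral.integral_of_le (by linarith), ← intervalIntegral.integral_of_le (by linarith),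
    intervalIntegral.integral_comp_sub_right]
  have h1 := hG.intervalIntegral_add_eq (-Real.pi - a) (-Real.pi)
  rw [show -Real.pi - a + 2 * Real.pi = Real.pi - a by ring,
    show -Real.pi + 2 * Real.pi = Real.pi by ring] at h1
  exact h1

open scoped Classical in
private theorem A11_main (G : ℝ → ℝ) (u v A B : ℝ) (hu : -(Real.pi / 2) < u) (huv : u ≤ v)
    (hv : v < Real.pi / 2) (hG : ∀ t ∈ Set.Ioo (-Real.pi) Real.pi,
      G t = if t ∈ Set.Ioo u v then A / Real.cos t ^ 2 - B else 0) :
    ∫ φ in Set.Ioo (-Real.pi) Real.pi, G φ = A * (Real.tan v - Real.tan u) - B * (v - u) := by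
  have hp := Real.pi_pos
  rw [← A11_int hu huv hv A B]
  have h1 : ∫ φ in Set.Ioo (-Real.pi) Real.pi, G φ =
      ∫ φ in Set.Ioo (-Real.pi) Real.pi,
        (Set.Ioo u v).indicator (fun t => A / Real.cos t ^ 2 - B) φ := by
    refine setIntegral_congr_fun measurableSet_Ioo fun t ht => ?_
    rw [hG t ht, Set.indicator_apply]
  rw [h1, setIntegral_indicator measurableSet_Ioo]
  congr 1
  rw [Set.inter_eq_right.2]
  intro t ht
  exact ⟨by linarith [ht.1], by linarith [ht.2]⟩

open scoped Classical in
/-- The function of the angle. -/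
private noncomputable def A11_F (L R B s : ℝ) (t : ℝ) : ℝ :=
  if 0 < s * (L * Real.sin t) ∧ L ^ 2 < 2 * R * (L * Real.cos t) then
    (L ^ 2 / (2 * (L * Real.cos t))) ^ 2 / 2 - B else 0

private theorem A11_per (L R B s : ℝ) : Function.Periodic (A11_F L R B s) (2 * Real.pi) := by
  intro t
  unfold A11_F
  rw [Real.sin_add_two_pi, Real.cos_add_two_pi]

private theorem A11_val {L R : ℝ} (hL : 0 < L) (hR : 0 < R) (B : ℝ) {s : ℝ} (hs : s = 1 ∨ s = -1) :
    ∫ φ in Set.Ioo (-Real.pi) Real.pi, A11_F L R B s φ =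
      L ^ 2 / 8 * Real.tan (Real.arccos (L / (2 * R))) - B * Real.arccos (L / (2 * R)) := by
  classical
  have hp := Real.pi_pos
  set κ : ℝ := L / (2 * R) with hκ
  have hκ0 : 0 < κ := by positivity
  have hcos : ∀ t, (L ^ 2 < 2 * R * (L * Real.cos t) ↔ κ < Real.cos t) := by
    intro t
    rw [hκ, div_lt_iff₀ (by positivity)]
    constructor
    · intro h
      have h1 : L * L < L * (Real.cos t * (2 * R)) := by nlinarith
      exact lt_of_mul_lt_mul_left h1 hL.le
    · intro h
      have h1 : L * L < L * (Real.cos t * (2 * R)) := mul_lt_mul_of_pos_left h hL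
      nlinarith
  have hval : ∀ t, (L ^ 2 / (2 * (L * Real.cos t))) ^ 2 / 2 - B =
      L ^ 2 / 8 / Real.cos t ^ 2 - B := by
    intro t
    by_cases hc : Real.cos t = 0
    · rw [hc]; simp
    · field_simp
      ring
  rcases le_or_gt 1 κ with h1 | h1
  · have h2 : ∀ t, A11_F L R B s t = 0 := by
      intro t
      unfold A11_F
      rw [if_neg]
      rintro ⟨_, h3⟩
      rw [hcos] at h3
      linarith [Real.cos_le_one t]
    simp only [h2, integral_zero]
    rw [Real.arccos_of_one_le h1, Real.tan_zero]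
    ring
  · set β := Real.arccos κ with hβ
    have hβ0 : 0 < β := Real.arccos_pos.2 h1
    have hβ1 : β < Real.pi / 2 := Real.arccos_lt_pi_div_two.2 hκ0
    have hcβ : Real.cos β = κ := Real.cos_arccos (by linarith) h1.le
    have hpos : ∀ t, 0 < t → t < Real.pi → (κ < Real.cos t ↔ t < β) := by
      intro t ht0 htp
      rw [← hcβ]
      constructor
      · intro h
        by_contra h2
        exact absurd (Real.cos_le_cos_of_nonneg_of_le_pi hβ0.le htp.le (not_lt.1 h2)) (not_le.2 h)
      · intro h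
        exact Real.cos_lt_cos_of_nonneg_of_le_pi ht0.le (by linarith) h
    rcases hs with rfl | rfl
    · rw [A11_main (A11_F L R B 1) 0 β (L ^ 2 / 8) B (by linarith) hβ0.le hβ1]
      · rw [Real.tan_zero]; ring
      · intro t ht
        unfold A11_F
        rw [hval]
        refine if_congr ?_ rfl rfl
        rw [hcos, one_mul]
        constructor
        · rintro ⟨h2, h3⟩
          have h4 : 0 < Real.sin t := by
            by_contra h5
            nlinarith [not_lt.1 h5]
          have h5 : 0 < t := by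
            by_contra h6
            exact absurd (Real.sin_nonpos_of_nonpos_of_neg_pi_le (not_lt.1 h6) ht.1.le)
              (not_le.2 h4)
          exact ⟨h5, (hpos t h5 ht.2).1 h3⟩
        · rintro ⟨h2, h3⟩
          exact ⟨mul_pos hL (Real.sin_pos_of_pos_of_lt_pi h2 ht.2), (hpos t h2 ht.2).2 h3⟩
    · rw [A11_main (A11_F L R B (-1)) (-β) 0 (L ^ 2 / 8) B (by linarith) (by linarith)
        (by linarith)]
      · rw [Real.tan_zero, Real.tan_neg]; ring
      · intro t ht
        unfold A11_F
        rw [hval]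
        refine if_congr ?_ rfl rfl
        rw [hcos]
        constructor
        · rintro ⟨h2, h3⟩
          have h4 : Real.sin t < 0 := by
            by_contra h5
            nlinarith [not_lt.1 h5, mul_nonneg hL.le (not_lt.1 h5)]
          have h5 : t < 0 := by
            by_contra h6
            exact absurd (Real.sin_nonneg_of_nonneg_of_le_pi (not_lt.1 h6) ht.2.le)
              (not_le.2 h4)
          have h6 := (hpos (-t) (by linarith) (by linarith [ht.1])).1 (by rwa [Real.cos_neg])
          exact ⟨by linarith, h5⟩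
        · rintro ⟨h2, h3⟩
          have h4 := Real.sin_neg_of_neg_of_neg_pi_lt h3 ht.1
          have h5 := (hpos (-t) (by linarith) (by linarith [ht.1])).2 (by linarith)
          rw [Real.cos_neg] at h5
          exact ⟨by nlinarith, h5⟩

open scoped Classical in
private theorem A11_meas (z : ℂ) (R M s : ℝ) : Measurable (fun φ : ℝ =>
    if 0 < s * cr z (ui φ) ∧ normSq z < 2 * R * dt z (ui φ) then
        (normSq z / (2 * dt z (ui φ))) ^ 2 / 2 - M / (2 * Real.pi) else 0) := by
  have h1 : Continuous (fun φ : ℝ => cr z (ui φ)) := by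
    unfold cr ui
    fun_prop
  have h2 : Continuous (fun φ : ℝ => dt z (ui φ)) := by
    unfold dt ui
    fun_prop
  refine Measurable.ite ?_ ?_ measurable_const
  · refine MeasurableSet.inter ?_ ?_
    · exact measurableSet_lt measurable_const (h1.measurable.const_mul s)
    · exact measurableSet_lt measurable_const (h2.measurable.const_mul (2 * R))
  · refine Measurable.sub_const ?_ _
    refine Measurable.div_const ?_ _
    refine Measurable.pow_const ?_ _
    exact measurable_const.div (h2.measurable.const_mul 2)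

open scoped Classical in
private theorem A11_intble {z : ℂ} (hz : z ≠ 0) {R : ℝ} (hR : 0 < R) (M s : ℝ) :
    IntegrableOn (fun φ => if 0 < s * cr z (ui φ) ∧ normSq z < 2 * R * dt z (ui φ) then
        (normSq z / (2 * dt z (ui φ))) ^ 2 / 2 - M / (2 * Real.pi) else 0)
      (Set.Ioo (-Real.pi) Real.pi) := by
  refine Measure.integrableOn_of_bounded (M := R ^ 2 / 2 + |M / (2 * Real.pi)|) ?_
    (A11_meas z R M s).aestronglyMeasurable ?_
  · exact measure_Ioo_lt_top.ne
  · refine Filter.Eventually.of_forall fun φ => ?_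
    rw [Real.norm_eq_abs]
    split_ifs with h
    · have h0 : 0 < normSq z := normSq_pos.2 hz
      have h1 : 0 < 2 * dt z (ui φ) := by
        by_contra h2
        nlinarith [h.2, not_lt.1 h2]
      have h2 : normSq z / (2 * dt z (ui φ)) ≤ R := by
        rw [div_le_iff₀ h1]
        nlinarith [h.2]
      have h3 : 0 ≤ normSq z / (2 * dt z (ui φ)) := by positivity
      refine (abs_sub _ _).trans ?_
      rw [abs_of_nonneg (by positivity)]
      have h4 : (normSq z / (2 * dt z (ui φ))) ^ 2 ≤ R ^ 2 := pow_le_pow_left₀ h3 h2 2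
      linarith
    · rw [abs_zero]; positivity

private theorem A11_all {z : ℂ} (hz : z ≠ 0) {R : ℝ} (hR : 0 < R) (M : ℝ) {s : ℝ}
    (hs : s = 1 ∨ s = -1) : ∫ φ in Set.Ioo (-Real.pi) Real.pi,
      A11_F ‖z‖ R (M / (2 * Real.pi)) s (φ - arg z) = Gf M ‖z‖ R := by
  rw [A11_shift _ (A11_per _ _ _ _), A11_val (norm_pos_iff.2 hz) hR _ hs, Gf]

open scoped Classical in
theorem sector_integral {z : ℂ} (hz : z ≠ 0) {R : ℝ} (hR : 0 < R) (M : ℝ) :
    ∫ φ in Set.Ioo (-Real.pi) Real.pi,
      (if 0 < cr z (ui φ) ∧ normSq z < 2 * R * dt z (ui φ) then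
        (normSq z / (2 * dt z (ui φ))) ^ 2 / 2 - M / (2 * Real.pi) else 0) = Gf M ‖z‖ R := by
  rw [← A11_all hz hR M (Or.inl rfl)]
  refine setIntegral_congr_fun measurableSet_Ioo fun φ _ => ?_
  simp only [A11_F, A11_cr, A11_dt, normSq_eq_norm_sq, one_mul]

open scoped Classical in
theorem sector_integral' {z : ℂ} (hz : z ≠ 0) {R : ℝ} (hR : 0 < R) (M : ℝ) :
    ∫ φ in Set.Ioo (-Real.pi) Real.pi,
      (if cr z (ui φ) < 0 ∧ normSq z < 2 * R * dt z (ui φ) then
        (normSq z / (2 * dt z (ui φ))) ^ 2 / 2 - M / (2 * Real.pi) else 0) = Gf M ‖z‖ R := by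
  rw [← A11_all hz hR M (Or.inr rfl)]
  refine setIntegral_congr_fun measurableSet_Ioo fun φ _ => ?_
  simp only [A11_F, A11_cr, A11_dt, normSq_eq_norm_sq, neg_mul, one_mul, Left.neg_pos_iff]

open scoped Classical in
theorem sector_integrable {z : ℂ} (hz : z ≠ 0) {R : ℝ} (hR : 0 < R) (M : ℝ) :
    IntegrableOn (fun φ => if 0 < cr z (ui φ) ∧ normSq z < 2 * R * dt z (ui φ) then
        (normSq z / (2 * dt z (ui φ))) ^ 2 / 2 - M / (2 * Real.pi) else 0)
      (Set.Ioo (-Real.pi) Real.pi) := by
  have h := A11_intble hz hR M 1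
  simp only [one_mul] at h
  exact h

open scoped Classical in
theorem sector_integrable' {z : ℂ} (hz : z ≠ 0) {R : ℝ} (hR : 0 < R) (M : ℝ) :
    IntegrableOn (fun φ => if cr z (ui φ) < 0 ∧ normSq z < 2 * R * dt z (ui φ) then
        (normSq z / (2 * dt z (ui φ))) ^ 2 / 2 - M / (2 * Real.pi) else 0)
      (Set.Ioo (-Real.pi) Real.pi) := by
  have h := A11_intble hz hR M (-1)
  simp only [neg_mul, one_mul, Left.neg_pos_iff] at h
  exact h

end Hepta
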