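import Pool.Agent.H69.Hep.A7
import Pool.Agent.H69.Hep.A11

/-! # A12: the radius function of a cell and its integral -/

set_option autoImplicit false

namespace Hepta

open Complex MeasureTheory

variable {ι : Type*} [Fintype ι] [DecidableEq ι] {c : ι → ℂ}

omit [Fintype ι] [DecidableEq ι] in
private theorem A12_eq (hs : Sep c) {i j : ι} {φ : ℝ} (hj : j ≠ i)
    (h : SL c i j φ ∨ SR c i j φ) :
    rad c i φ = normSq (c j - c i) / (2 * dt (c j - c i) (ui φ)) := by
  have h1 : ∃ j, j ≠ i ∧ (SL c i j φ ∨ SR c i j φ) := ⟨j, hj, h⟩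
  unfold rad
  rw [dif_pos h1]
  have h2 := Classical.choose_spec h1
  have h3 := sector_disj hs h2.1.symm hj.symm h2.2 h
  rw [h3]

omit [Fintype ι] [DecidableEq ι] in
private theorem A12_none {i : ι} {φ : ℝ} (h : ¬ ∃ j, j ≠ i ∧ (SL c i j φ ∨ SR c i j φ)) :
    rad c i φ = Real.sqrt 2 := by
  unfold rad
  rw [dif_neg h]

omit [Fintype ι] [DecidableEq ι] in
private theorem A12_pos (hs : Sep c) (i : ι) (φ : ℝ) : 0 < rad c i φ := by
  by_cases h : ∃ j, j ≠ i ∧ (SL c i j φ ∨ SR c i j φ)
  · obtain ⟨j, hj, h1⟩ := h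
    rw [A12_eq hs hj h1]
    have h2 := hs j i hj
    have h3 := sector_pos hj.symm hs h1
    exact div_pos (by linarith) (by linarith)
  · rw [A12_none h]
    exact Real.sqrt_pos.2 (by norm_num)

omit [Fintype ι] [DecidableEq ι] in
private theorem A12_le (hs : Sep c) (i : ι) (φ : ℝ) : rad c i φ ≤ Real.sqrt 2 := by
  by_cases h : ∃ j, j ≠ i ∧ (SL c i j φ ∨ SR c i j φ)
  · obtain ⟨j, hj, h1⟩ := h
    rw [A12_eq hs hj h1]
    have h3 := sector_pos hj.symm hs h1
    have h4 := sector_lt hs hj.symm h1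
    rw [div_le_iff₀ (by linarith)]
    linarith
  · rw [A12_none h]

theorem rad_pos (hs : Sep c) (i : ι) (φ : ℝ) : 0 < rad c i φ := A12_pos hs i φ

theorem rad_le (hs : Sep c) (i : ι) (φ : ℝ) : rad c i φ ≤ Real.sqrt 2 := A12_le hs i φ

open scoped Classical in
private theorem A12_sum (hs : Sep c) (i : ι) (φ : ℝ) :
    rad c i φ = Real.sqrt 2 + ∑ j ∈ Finset.univ.erase i,
      (if SL c i j φ ∨ SR c i j φ then
        normSq (c j - c i) / (2 * dt (c j - c i) (ui φ)) - Real.sqrt 2 else 0) := by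
  by_cases h : ∃ j, j ≠ i ∧ (SL c i j φ ∨ SR c i j φ)
  · obtain ⟨j, hj, h1⟩ := h
    rw [A12_eq hs hj h1, Finset.sum_eq_single_of_mem j (Finset.mem_erase.2 ⟨hj, Finset.mem_univ _⟩),
      if_pos h1]
    · ring
    · intro k hk hkj
      rw [if_neg]
      intro h2
      exact hkj (sector_disj hs (Finset.ne_of_mem_erase hk).symm hj.symm h2 h1)
  · rw [A12_none h, Finset.sum_eq_zero, add_zero]
    intro k hk
    rw [if_neg]
    exact fun h2 => h ⟨k, Finset.ne_of_mem_erase hk, h2⟩

private theorem A12_ccr (z : ℂ) : Continuous (fun φ : ℝ => cr z (ui φ)) := by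
  unfold cr ui
  fun_prop

private theorem A12_cdt (z : ℂ) : Continuous (fun φ : ℝ => dt z (ui φ)) := by
  unfold dt ui
  fun_prop

omit [Fintype ι] [DecidableEq ι] in
private theorem A12_mset (c : ι → ℂ) (i j : ι) :
    MeasurableSet {φ | SL c i j φ ∨ SR c i j φ} := by
  refine MeasurableSet.union (MeasurableSet.inter ?_ ?_) (MeasurableSet.inter ?_ ?_)
  · exact measurableSet_lt measurable_const (A12_ccr _).measurable
  · exact measurableSet_lt measurable_const ((A12_cdt _).measurable.const_mul _)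
  · exact measurableSet_lt (A12_ccr _).measurable measurable_const
  · exact measurableSet_lt measurable_const ((A12_cdt _).measurable.const_mul _)

theorem measurable_rad (hs : Sep c) (i : ι) : Measurable (rad c i) := by
  classical
  have h : rad c i = fun φ => Real.sqrt 2 + ∑ j ∈ Finset.univ.erase i,
      (if SL c i j φ ∨ SR c i j φ then
        normSq (c j - c i) / (2 * dt (c j - c i) (ui φ)) - Real.sqrt 2 else 0) := by
    funext φ
    rw [A12_sum hs i φ]
  rw [h]
  refine measurable_const.add (Finset.measurable_sum _ fun j _ => ?_)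
  refine Measurable.ite (A12_mset c i j) ?_ measurable_const
  exact (measurable_const.div ((A12_cdt _).measurable.const_mul 2)).sub_const _

theorem rad_integral (hs : Sep c) {M : ℝ} (hM : M ≤ 2 * Real.pi) (i : ι) :
    M + ∑ j ∈ Finset.univ.erase i,
      (Gf M ‖c i - c j‖ (Rp c i j) + Gf M ‖c i - c j‖ (Rp c j i)) ≤
    ∫ φ in Set.Ioo (-Real.pi) Real.pi, rad c i φ ^ 2 / 2 := by
  classical
  have hp := Real.pi_pos
  let f : ι → ℝ → ℝ := fun j φ =>
    if 0 < cr (c j - c i) (ui φ) ∧ normSq (c j - c i) < 2 * Rp c i j * dt (c j - c i) (ui φ) then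
      (normSq (c j - c i) / (2 * dt (c j - c i) (ui φ))) ^ 2 / 2 - M / (2 * Real.pi) else 0
  let f' : ι → ℝ → ℝ := fun j φ =>
    if cr (c j - c i) (ui φ) < 0 ∧ normSq (c j - c i) < 2 * Rp c j i * dt (c j - c i) (ui φ) then
      (normSq (c j - c i) / (2 * dt (c j - c i) (ui φ))) ^ 2 / 2 - M / (2 * Real.pi) else 0
  have hz : ∀ j ∈ Finset.univ.erase i, c j - c i ≠ 0 := by
    intro j hj h0
    have h1 := hs j i (Finset.ne_of_mem_erase hj)
    rw [h0, map_zero] at h1
    linarith
  have hf : ∀ j ∈ Finset.univ.erase i, IntegrableOn (f j) (Set.Ioo (-Real.pi) Real.pi) :=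
    fun j hj => sector_integrable (hz j hj) (Rp_pos c i j) M
  have hf' : ∀ j ∈ Finset.univ.erase i, IntegrableOn (f' j) (Set.Ioo (-Real.pi) Real.pi) :=
    fun j hj => sector_integrable' (hz j hj) (Rp_pos c j i) M
  have hff : ∀ j ∈ Finset.univ.erase i,
      IntegrableOn (fun φ => f j φ + f' j φ) (Set.Ioo (-Real.pi) Real.pi) :=
    fun j hj => (hf j hj).add (hf' j hj)
  have hconst : IntegrableOn (fun _ : ℝ => M / (2 * Real.pi)) (Set.Ioo (-Real.pi) Real.pi) :=
    integrableOn_const (measure_Ioo_lt_top.ne)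
  have hL : M + ∑ j ∈ Finset.univ.erase i,
      (Gf M ‖c i - c j‖ (Rp c i j) + Gf M ‖c i - c j‖ (Rp c j i)) =
      ∫ φ in Set.Ioo (-Real.pi) Real.pi,
        (M / (2 * Real.pi) + ∑ j ∈ Finset.univ.erase i, (f j φ + f' j φ)) := by
    rw [integral_add hconst (integrable_finsetSum _ hff), integral_finsetSum _ hff]
    congr 1
    · rw [setIntegral_const, Real.volume_real_Ioo_of_le (by linarith), smul_eq_mul]
      field_simp
      ring
    · refine Finset.sum_congr rfl fun j hj => ?_
      rw [integral_add (hf j hj) (hf' j hj)]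
      change _ = (∫ φ in Set.Ioo (-Real.pi) Real.pi,
        (if 0 < cr (c j - c i) (ui φ) ∧
            normSq (c j - c i) < 2 * Rp c i j * dt (c j - c i) (ui φ) then
          (normSq (c j - c i) / (2 * dt (c j - c i) (ui φ))) ^ 2 / 2 - M / (2 * Real.pi)
          else 0)) + ∫ φ in Set.Ioo (-Real.pi) Real.pi,
        (if cr (c j - c i) (ui φ) < 0 ∧
            normSq (c j - c i) < 2 * Rp c j i * dt (c j - c i) (ui φ) then
          (normSq (c j - c i) / (2 * dt (c j - c i) (ui φ))) ^ 2 / 2 - M / (2 * Real.pi)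
          else 0)
      rw [sector_integral (hz j hj) (Rp_pos c i j) M, sector_integral' (hz j hj) (Rp_pos c j i) M,
        norm_sub_rev]
  rw [hL]
  refine integral_mono ?_ ?_ ?_
  · exact hconst.add (integrable_finsetSum _ hff)
  · refine Measure.integrableOn_of_bounded (M := 1) measure_Ioo_lt_top.ne ?_ ?_
    · exact (((measurable_rad hs i).pow_const 2).div_const 2).aestronglyMeasurable
    · refine Filter.Eventually.of_forall fun φ => ?_
      rw [Real.norm_eq_abs, abs_of_nonneg (by positivity)]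
      have h1 : rad c i φ ^ 2 ≤ (Real.sqrt 2) ^ 2 :=
        pow_le_pow_left₀ (rad_pos hs i φ).le (rad_le hs i φ) 2
      rw [Real.sq_sqrt (by norm_num)] at h1
      linarith
  · intro φ
    simp only
    by_cases h : ∃ j, j ≠ i ∧ (SL c i j φ ∨ SR c i j φ)
    · obtain ⟨j, hj, h1⟩ := h
      rw [A12_eq hs hj h1,
        Finset.sum_eq_single_of_mem j (Finset.mem_erase.2 ⟨hj, Finset.mem_univ _⟩)]
      · have h2 : f j φ + f' j φ = (normSq (c j - c i) / (2 * dt (c j - c i) (ui φ))) ^ 2 / 2 -
            M / (2 * Real.pi) := by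
          rcases h1 with h1 | h1
          · have e1 : f j φ = (normSq (c j - c i) / (2 * dt (c j - c i) (ui φ))) ^ 2 / 2 -
              M / (2 * Real.pi) := if_pos h1
            have e2 : f' j φ = 0 := if_neg (fun h3 => absurd h1.1 (not_lt.2 h3.1.le))
            rw [e1, e2, add_zero]
          · have e1 : f' j φ = (normSq (c j - c i) / (2 * dt (c j - c i) (ui φ))) ^ 2 / 2 -
              M / (2 * Real.pi) := if_pos h1
            have e2 : f j φ = 0 := if_neg (fun h3 => absurd h3.1 (not_lt.2 h1.1.le))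
            rw [e1, e2, zero_add]
        rw [h2]
        linarith
      · intro k hk hkj
        have hk' := Finset.ne_of_mem_erase hk
        have h2 : ¬ (SL c i k φ ∨ SR c i k φ) := fun h2 =>
          hkj (sector_disj hs hk'.symm hj.symm h2 h1)
        have e1 : f k φ = 0 := if_neg (fun h3 => h2 (Or.inl h3))
        have e2 : f' k φ = 0 := if_neg (fun h3 => h2 (Or.inr h3))
        rw [e1, e2, add_zero]
    · rw [A12_none h, Finset.sum_eq_zero, add_zero, Real.sq_sqrt (by norm_num)]
      · rw [div_le_iff₀ (by positivity)]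
        linarith
      · intro k hk
        have hk' := Finset.ne_of_mem_erase hk
        have e1 : f k φ = 0 := if_neg (fun h3 => h ⟨k, hk', Or.inl h3⟩)
        have e2 : f' k φ = 0 := if_neg (fun h3 => h ⟨k, hk', Or.inr h3⟩)
        rw [e1, e2, add_zero]

end Hepta
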