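import Pool.Agent.H69.Hep.A4

/-! # A9: almost all directions are not exceptional -/

set_option autoImplicit false

namespace Hepta

open Complex MeasureTheory

theorem null_dir {z : ℂ} (hz : z ≠ 0) : ∀ᵐ φ : ℝ, cr z (ui φ) ≠ 0 := by
  rw [ae_iff]
  have hset : {φ : ℝ | ¬ cr z (ui φ) ≠ 0} = {φ : ℝ | cr z (ui φ) = 0} := by
    ext φ
    simp
  rw [hset]
  rcases Set.eq_empty_or_nonempty {φ : ℝ | cr z (ui φ) = 0} with h | ⟨φ₀, h₀⟩
  · rw [h, measure_empty]
  · have hsub : {φ : ℝ | cr z (ui φ) = 0} ⊆ Set.range (fun n : ℤ => φ₀ + n * Real.pi) := by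
      intro φ h
      have e0 : z.re * Real.sin φ₀ - z.im * Real.cos φ₀ = 0 := h₀
      have e1 : z.re * Real.sin φ - z.im * Real.cos φ = 0 := h
      have a1 : z.re * Real.sin (φ - φ₀) = 0 := by
        rw [Real.sin_sub]
        linear_combination Real.cos φ₀ * e1 - Real.cos φ * e0
      have a2 : z.im * Real.sin (φ - φ₀) = 0 := by
        rw [Real.sin_sub]
        linear_combination Real.sin φ₀ * e1 - Real.sin φ * e0
      have a3 : Real.sin (φ - φ₀) = 0 := by
        by_contra hne
        apply hz
        apply Complex.ext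
        · exact (mul_eq_zero.1 a1).resolve_right hne
        · exact (mul_eq_zero.1 a2).resolve_right hne
      obtain ⟨n, hn⟩ := Real.sin_eq_zero_iff.1 a3
      exact ⟨n, by simp only; linarith⟩
    exact measure_mono_null hsub ((Set.countable_range _).measure_zero volume)

variable {ι : Type*} [Finite ι] {c : ι → ℂ}

private theorem A9_ne {z w : ℂ} {R : ℝ} (hR : 0 < R) (h : normSq (z - w) = R ^ 2) : w - z ≠ 0 := by
  intro h0
  have h1 : z - w = 0 := by
    rw [← neg_sub, h0, neg_zero]
  rw [h1, map_zero] at h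
  have : 0 < R ^ 2 := by positivity
  linarith

theorem ae_dir (hs : Sep c) (i : ι) : ∀ᵐ φ : ℝ,
    (∀ j, j ≠ i → cr (c j - c i) (ui φ) ≠ 0) ∧
    ∀ j k v R, Short c i j k v R ∨ Short c j i k v R → cr (v - c i) (ui φ) ≠ 0 := by
  refine Filter.Eventually.and ?_ ?_
  · rw [ae_all_iff]
    intro j
    by_cases hj : j = i
    · exact Filter.Eventually.of_forall (fun φ h => absurd hj h)
    · have hne : c j - c i ≠ 0 := by
        intro h
        have h4 := hs j i hj
        rw [h, map_zero] at h4
        linarith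
      filter_upwards [null_dir hne] with φ hφ _
      exact hφ
  · rw [ae_all_iff]
    intro j
    rw [ae_all_iff]
    intro k
    have h1 : ∀ᵐ φ : ℝ, ∀ v R, Short c i j k v R → cr (v - c i) (ui φ) ≠ 0 := by
      by_cases hex : ∃ v R, Short c i j k v R
      · obtain ⟨v₀, R₀, h₀⟩ := hex
        filter_upwards [null_dir (A9_ne h₀.R0 h₀.hi)] with φ hφ
        intro v R h
        have hv := (Short.unique hs h₀ h).2.1
        rw [← hv]
        exact hφ
      · exact Filter.Eventually.of_forall (fun φ v R h => absurd ⟨v, R, h⟩ hex)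
    have h2 : ∀ᵐ φ : ℝ, ∀ v R, Short c j i k v R → cr (v - c i) (ui φ) ≠ 0 := by
      by_cases hex : ∃ v R, Short c j i k v R
      · obtain ⟨v₀, R₀, h₀⟩ := hex
        filter_upwards [null_dir (A9_ne h₀.R0 h₀.hj)] with φ hφ
        intro v R h
        have hv := (Short.unique hs h₀ h).2.1
        rw [← hv]
        exact hφ
      · exact Filter.Eventually.of_forall (fun φ v R h => absurd ⟨v, R, h⟩ hex)
    filter_upwards [h1, h2] with φ a b v R h
    rcases h with h | h
    · exact a v R h
    · exact b v R h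

end Hepta
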