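import Pool.Agent.H69.Hep.A8
import Pool.Agent.H69.Hep.A9
import Pool.Agent.H69.Hep.A10
import Pool.Agent.H69.Hep.A12

/-! # A13: the cells are almost disjoint -/

set_option autoImplicit false

namespace Hepta

open Complex MeasureTheory

section

variable {ι : Type*} [Finite ι] {c : ι → ℂ}

private theorem A13_vor (hs : Sep c) {i : ι} {φ : ℝ}
    (hE : ∀ j, j ≠ i → cr (c j - c i) (ui φ) ≠ 0)
    (hE' : ∀ j k v R, Short c i j k v R ∨ Short c j i k v R → cr (v - c i) (ui φ) ≠ 0)
    {r : ℝ} (h0 : 0 < r) (hr : r < rad c i φ) {k : ι} (hk : k ≠ i) :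
    2 * r * dt (c k - c i) (ui φ) < normSq (c k - c i) := by
  unfold rad at hr
  split_ifs at hr with h
  · have h1 := Classical.choose_spec h
    exact sector_vor hs h1.1.symm h1.2 h0 hr hk
  · exact free_vor hs (fun j hj h2 => h ⟨j, hj, h2⟩) hE hE' h0 hr hk

private theorem A13_nsq (z w : ℂ) (r φ : ℝ) :
    normSq (z + r * ui φ - w) = r ^ 2 - 2 * r * dt (w - z) (ui φ) + normSq (w - z) := by
  simp only [normSq_apply, ui, dt, add_re, sub_re, mul_re, ofReal_re, ofReal_im, add_im, sub_im,
    mul_im, zero_mul, sub_zero, add_zero]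
  linear_combination r ^ 2 * (Real.sin_sq_add_cos_sq φ)

end

variable {ι : Type*} [Fintype ι] [DecidableEq ι] {c : ι → ℂ}

theorem cell_sum (hs : Sep c) :
    ∑ i, ∫ φ in Set.Ioo (-Real.pi) Real.pi, rad c i φ ^ 2 / 2 ≤
      (volume (⋃ i, Metric.ball (c i) (Real.sqrt 2))).toReal := by
  classical
  -- the exceptional directions
  let P : ι → ℝ → Prop := fun i φ => (∀ j, j ≠ i → cr (c j - c i) (ui φ) ≠ 0) ∧
    ∀ j k v R, Short c i j k v R ∨ Short c j i k v R → cr (v - c i) (ui φ) ≠ 0
  have hP : ∀ i, volume {φ | ¬ P i φ} = 0 := fun i => ae_iff.1 (ae_dir hs i)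
  let T : ι → Set ℝ := fun i => toMeasurable volume {φ | ¬ P i φ}
  have hTm : ∀ i, MeasurableSet (T i) := fun i => measurableSet_toMeasurable _ _
  have hT0 : ∀ i, volume (T i) = 0 := fun i => by
    change volume (toMeasurable volume _) = 0
    rw [measure_toMeasurable, hP i]
  have hTP : ∀ i φ, φ ∉ T i → P i φ := by
    intro i φ h
    by_contra h1
    exact h (subset_toMeasurable _ _ h1)
  let g : ι → ℝ → ℝ := fun i φ => if φ ∈ T i then 0 else rad c i φ
  have hgm : ∀ i, Measurable (g i) := fun i =>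
    Measurable.ite (hTm i) measurable_const (measurable_rad hs i)
  have hg0 : ∀ i φ, 0 ≤ g i φ := by
    intro i φ
    change 0 ≤ (if φ ∈ T i then 0 else rad c i φ)
    split_ifs
    · exact le_rfl
    · exact (rad_pos hs i φ).le
  have hgB : ∀ i φ, g i φ ≤ Real.sqrt 2 := by
    intro i φ
    change (if φ ∈ T i then 0 else rad c i φ) ≤ Real.sqrt 2
    split_ifs
    · exact Real.sqrt_nonneg _
    · exact rad_le hs i φ
  have hint : ∀ i, ∫ φ in Set.Ioo (-Real.pi) Real.pi, rad c i φ ^ 2 / 2 =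
      ∫ φ in Set.Ioo (-Real.pi) Real.pi, g i φ ^ 2 / 2 := by
    intro i
    refine integral_congr_ae ?_
    refine ae_restrict_of_ae ?_
    have h1 : ∀ᵐ φ : ℝ, φ ∉ T i := by
      rw [ae_iff]
      simpa using hT0 i
    filter_upwards [h1] with φ h
    change rad c i φ ^ 2 / 2 = (if φ ∈ T i then 0 else rad c i φ) ^ 2 / 2
    rw [if_neg h]
  let S : ι → Set ℂ := fun i => star (c i) (g i)
  have hSm : ∀ i, MeasurableSet (S i) := fun i => measurableSet_star _ (hgm i)
  have hSv : ∀ i, volume (S i) =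
      ENNReal.ofReal (∫ φ in Set.Ioo (-Real.pi) Real.pi, g i φ ^ 2 / 2) := fun i =>
    volume_star (c i) (hgm i) (hg0 i) (hgB i)
  -- the cells are contained in the Voronoi cells
  have hV : ∀ i, ∀ y ∈ S i, ∀ k, k ≠ i → normSq (y - c i) < normSq (y - c k) := by
    intro i y hy k hk
    obtain ⟨φ, hφ, r, hr0, hr, rfl⟩ := hy
    have hr' : r < (if φ ∈ T i then 0 else rad c i φ) := hr
    split_ifs at hr' with h
    · exact absurd hr0 (not_lt.2 hr'.le)
    · have h1 := hTP i φ h
      have h2 := A13_vor hs h1.1 h1.2 hr0 hr' hk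
      have e1 := A13_nsq (c i) (c i) r φ
      have e2 := A13_nsq (c i) (c k) r φ
      rw [sub_self] at e1
      rw [e1, e2]
      simp only [dt, zero_re, zero_im, zero_mul, add_zero, mul_zero, sub_zero, map_zero]
      unfold dt at h2
      linarith
  have hD : Pairwise (Function.onFun Disjoint S) := by
    intro i j hij
    rw [Function.onFun, Set.disjoint_left]
    intro y hi hj
    exact absurd (hV i y hi j hij.symm) (not_lt.2 (hV j y hj i hij).le)
  have hB : (⋃ i, S i) ⊆ ⋃ i, Metric.ball (c i) (Real.sqrt 2) := by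
    refine Set.iUnion_mono fun i => ?_
    intro y hy
    obtain ⟨φ, hφ, r, hr0, hr, rfl⟩ := hy
    rw [Metric.mem_ball, dist_eq_norm, add_sub_cancel_left, norm_mul, norm_real,
      Real.norm_of_nonneg hr0.le]
    have h1 : ‖ui φ‖ = 1 := by
      rw [← sq_eq_sq₀ (norm_nonneg _) zero_le_one, ← normSq_eq_norm_sq, normSq_apply, ui]
      have := Real.sin_sq_add_cos_sq φ
      simp only
      linarith
    rw [h1, mul_one]
    exact hr.trans_le (hgB i φ)
  have hfin : volume (⋃ i, Metric.ball (c i) (Real.sqrt 2)) ≠ ⊤ := by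
    refine (measure_iUnion_le _).trans_lt ?_ |>.ne
    rw [tsum_fintype, ENNReal.sum_lt_top]
    exact fun i _ => measure_ball_lt_top
  have h1 : ∑ i, ∫ φ in Set.Ioo (-Real.pi) Real.pi, rad c i φ ^ 2 / 2 =
      (volume (⋃ i, S i)).toReal := by
    rw [measure_iUnion hD hSm, tsum_fintype, ENNReal.toReal_sum]
    · refine Finset.sum_congr rfl fun i _ => ?_
      rw [hSv i, ENNReal.toReal_ofReal, hint i]
      exact integral_nonneg fun φ => by positivity
    · intro i _
      rw [hSv i]
      exact ENNReal.ofReal_ne_top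
  rw [h1]
  exact ENNReal.toReal_mono hfin (measure_mono hB)

end Hepta
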