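import Pool.Agent.H69.Hep.A5

/-! # A14: the sum over the edges -/

set_option autoImplicit false

namespace Hepta

open Complex MeasureTheory

variable {ι : Type*} [Fintype ι] [DecidableEq ι] {c : ι → ℂ}

private theorem A14_rot {ι : Type*} [Fintype ι] (f : ι → ι → ι → ℝ) :
    ∑ i, ∑ j, ∑ k, f j k i = ∑ i, ∑ j, ∑ k, f i j k := by
  rw [Finset.sum_comm]
  refine Finset.sum_congr rfl fun j _ => ?_
  rw [Finset.sum_comm]

private theorem A14_antisymm (η : ι → ι → ℝ) (hη : ∀ i j, η i j = -η j i) :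
    ∑ i, ∑ j ∈ Finset.univ.erase i, η i j = 0 := by
  have h0 : ∀ i, η i i = 0 := fun i => by linarith [hη i i]
  have h1 : ∀ i, ∑ j ∈ Finset.univ.erase i, η i j = ∑ j, η i j := by
    intro i
    rw [← Finset.add_sum_erase Finset.univ _ (Finset.mem_univ i), h0 i, zero_add]
  simp_rw [h1]
  have h2 : ∑ i, ∑ j, η i j = - ∑ i, ∑ j, η i j := by
    calc ∑ i, ∑ j, η i j = ∑ i, ∑ j, (- η j i) :=
          Finset.sum_congr rfl fun i _ => Finset.sum_congr rfl fun j _ => hη i j
      _ = - ∑ i, ∑ j, η j i := by simp only [Finset.sum_neg_distrib]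
      _ = - ∑ i, ∑ j, η i j := by rw [Finset.sum_comm]
  linarith

private theorem A14_swap (f : ι → ι → ℝ) :
    ∑ i, ∑ j ∈ Finset.univ.erase i, f j i = ∑ i, ∑ j ∈ Finset.univ.erase i, f i j := by
  have h1 : ∀ (g : ι → ι → ℝ) (i : ι), ∑ j ∈ Finset.univ.erase i, g i j
      = ∑ j, (if j = i then 0 else g i j) := by
    intro g i
    rw [← Finset.add_sum_erase Finset.univ _ (Finset.mem_univ i)]
    simp only [if_true, zero_add]
    refine Finset.sum_congr rfl fun j hj => ?_
    rw [if_neg (Finset.ne_of_mem_erase hj)]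
  rw [Finset.sum_congr rfl fun i _ => h1 (fun i j => f j i) i,
    Finset.sum_congr rfl fun i _ => h1 f i, Finset.sum_comm]
  refine Finset.sum_congr rfl fun i _ => Finset.sum_congr rfl fun j _ => ?_
  by_cases h : i = j
  · subst h; simp
  · rw [if_neg h, if_neg (Ne.symm h)]

theorem edge_sum (hs : Sep c) {M : ℝ} {η : ι → ι → ℝ} (hη : ∀ i j, η i j = -η j i)
    (h2 : ∀ i j, i ≠ j → η i j ≤ 2 * Gf M ‖c i - c j‖ (Real.sqrt 2))
    (h3 : ∀ i j k v R, Short c i j k v R → η i j + η j k + η k i ≤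
      2 * (Gf M ‖c i - c j‖ R + Gf M ‖c j - c k‖ R + Gf M ‖c k - c i‖ R)) :
    0 ≤ ∑ i, ∑ j ∈ Finset.univ.erase i,
      (Gf M ‖c i - c j‖ (Rp c i j) + Gf M ‖c i - c j‖ (Rp c j i)) := by
  classical
  set G : ι → ι → ℝ := fun i j => Gf M ‖c i - c j‖ (Rp c i j) with hG
  have hswap : ∑ i, ∑ j ∈ Finset.univ.erase i,
      (Gf M ‖c i - c j‖ (Rp c i j) + Gf M ‖c i - c j‖ (Rp c j i))
      = ∑ i, ∑ j ∈ Finset.univ.erase i, (2 * G i j - η i j) := by
    have e1 : ∑ i, ∑ j ∈ Finset.univ.erase i,
        (Gf M ‖c i - c j‖ (Rp c i j) + Gf M ‖c i - c j‖ (Rp c j i))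
        = ∑ i, ∑ j ∈ Finset.univ.erase i, G i j
          + ∑ i, ∑ j ∈ Finset.univ.erase i, G j i := by
      rw [← Finset.sum_add_distrib]
      refine Finset.sum_congr rfl fun i _ => ?_
      rw [← Finset.sum_add_distrib]
      refine Finset.sum_congr rfl fun j _ => ?_
      simp only [hG]
      rw [norm_sub_rev (c j) (c i)]
    rw [e1, A14_swap G]
    have e2 : ∑ i, ∑ j ∈ Finset.univ.erase i, (2 * G i j - η i j)
        = 2 * ∑ i, ∑ j ∈ Finset.univ.erase i, G i j
          - ∑ i, ∑ j ∈ Finset.univ.erase i, η i j := by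
      rw [Finset.mul_sum, ← Finset.sum_sub_distrib]
      refine Finset.sum_congr rfl fun i _ => ?_
      rw [Finset.mul_sum, ← Finset.sum_sub_distrib]
    rw [e2, A14_antisymm η hη]
    ring
  rw [hswap]
  set E : ι → ι → ℝ := fun i j => 2 * G i j - η i j with hE
  let P : ι → ι → ι → Prop := fun i j k => ∃ v R, Short c i j k v R
  have hProt : ∀ i j k, P j k i ↔ P i j k := by
    intro i j k
    constructor
    · rintro ⟨v, R, h⟩
      exact ⟨v, R, h.rot.rot⟩
    · rintro ⟨v, R, h⟩
      exact ⟨v, R, h.rot⟩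
  have hPne : ∀ i j k, P i j k → i ≠ j := by
    rintro i j k ⟨v, R, h⟩
    exact h.ne.1
  have hPuniq : ∀ i j k k', P i j k → P i j k' → k = k' := by
    rintro i j k k' ⟨v, R, h⟩ ⟨v', R', h'⟩
    exact (Short.unique hs h h').1
  have hF : ∀ i j, i ≠ j → ∑ k, (if P i j k then E i j else 0) ≤ E i j := by
    intro i j hij
    by_cases hk : ∃ k, P i j k
    · obtain ⟨k, hk⟩ := hk
      rw [Finset.sum_eq_single k]
      · rw [if_pos hk]
      · intro b _ hb
        rw [if_neg]
        intro hb'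
        exact hb (hPuniq i j b k hb' hk)
      · intro h
        exact absurd (Finset.mem_univ k) h
    · have h0 : ∑ k, (if P i j k then E i j else 0) = 0 := by
        refine Finset.sum_eq_zero fun k _ => ?_
        rw [if_neg]
        intro h
        exact hk ⟨k, h⟩
      rw [h0]
      have hR : Rp c i j = Real.sqrt 2 := by
        rcases Rp_cases c i j with ⟨h1, _⟩ | ⟨k', v', h'⟩
        · exact h1
        · exact absurd ⟨k', v', _, h'⟩ hk
      have := h2 i j hij
      simp only [hE, hG, hR]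
      linarith
  have hS1 : ∑ i, ∑ j, ∑ k, (if P i j k then E i j else 0)
      ≤ ∑ i, ∑ j ∈ Finset.univ.erase i, E i j := by
    refine Finset.sum_le_sum fun i _ => ?_
    rw [← Finset.add_sum_erase Finset.univ _ (Finset.mem_univ i)]
    have h0 : ∑ k, (if P i i k then E i i else 0) = 0 := by
      refine Finset.sum_eq_zero fun k _ => ?_
      rw [if_neg]
      intro h
      exact hPne i i k h rfl
    rw [h0, zero_add]
    refine Finset.sum_le_sum fun j hj => ?_
    exact hF i j (Finset.ne_of_mem_erase hj).symm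
  refine le_trans ?_ hS1
  have r1 : ∑ i, ∑ j, ∑ k, (if P i j k then E j k else 0)
      = ∑ i, ∑ j, ∑ k, (if P i j k then E i j else 0) := by
    rw [← A14_rot (fun i j k => if P i j k then E i j else 0)]
    refine Finset.sum_congr rfl fun i _ => Finset.sum_congr rfl fun j _ =>
      Finset.sum_congr rfl fun k _ => ?_
    simp only [hProt i j k]
  have r2 : ∑ i, ∑ j, ∑ k, (if P i j k then E k i else 0)
      = ∑ i, ∑ j, ∑ k, (if P i j k then E i j else 0) := by
    rw [← r1, ← A14_rot (fun i j k => if P i j k then E j k else 0)]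
    refine Finset.sum_congr rfl fun i _ => Finset.sum_congr rfl fun j _ =>
      Finset.sum_congr rfl fun k _ => ?_
    simp only [hProt i j k]
  have hpos : 0 ≤ ∑ i, ∑ j, ∑ k, (if P i j k then (E i j + E j k + E k i) else 0) := by
    refine Finset.sum_nonneg fun i _ => Finset.sum_nonneg fun j _ =>
      Finset.sum_nonneg fun k _ => ?_
    by_cases h : P i j k
    · rw [if_pos h]
      obtain ⟨v, R, hS⟩ := h
      have a1 := Rp_eq hs hS
      have a2 := Rp_eq hs hS.rot
      have a3 := Rp_eq hs hS.rot.rot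
      have := h3 i j k v R hS
      simp only [hE, hG, a1, a2, a3]
      linarith
    · rw [if_neg h]
  have hsplit : ∑ i, ∑ j, ∑ k, (if P i j k then (E i j + E j k + E k i) else 0)
      = ∑ i, ∑ j, ∑ k, (if P i j k then E i j else 0)
        + ∑ i, ∑ j, ∑ k, (if P i j k then E j k else 0)
        + ∑ i, ∑ j, ∑ k, (if P i j k then E k i else 0) := by
    simp only [← Finset.sum_add_distrib]
    refine Finset.sum_congr rfl fun i _ => Finset.sum_congr rfl fun j _ =>
      Finset.sum_congr rfl fun k _ => ?_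
    by_cases h : P i j k
    · simp only [if_pos h]
    · simp only [if_neg h, add_zero]
  rw [hsplit, r1, r2] at hpos
  linarith

end Hepta
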