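import Pool.Agent.H69.Hep.A13
import Pool.Agent.H69.Hep.A14

/-! # A15: the global inequality -/

set_option autoImplicit false

namespace Hepta

open Complex MeasureTheory

variable {ι : Type*} [Fintype ι] [DecidableEq ι] {c : ι → ℂ}

theorem global (hs : Sep c) {M : ℝ} (hM : M ≤ 2 * Real.pi) {η : ι → ι → ℝ}
    (hη : ∀ i j, η i j = -η j i)
    (h2 : ∀ i j, i ≠ j → η i j ≤ 2 * Gf M ‖c i - c j‖ (Real.sqrt 2))
    (h3 : ∀ i j k v R, Short c i j k v R → η i j + η j k + η k i ≤
      2 * (Gf M ‖c i - c j‖ R + Gf M ‖c j - c k‖ R + Gf M ‖c k - c i‖ R)) :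
    (Fintype.card ι : ℝ) * M ≤ (volume (⋃ i, Metric.ball (c i) (Real.sqrt 2))).toReal := by
  have h := Finset.sum_le_sum fun (i : ι) (_ : i ∈ Finset.univ) => rad_integral hs hM i
  rw [Finset.sum_add_distrib, Finset.sum_const, Finset.card_univ, nsmul_eq_mul] at h
  have h' := edge_sum hs hη h2 h3
  have h'' := cell_sum hs
  linarith

end Hepta
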