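import Pool.Agent.H69.Hep.Defs

/-! # A2: the bisector of an edge -/

set_option autoImplicit false

namespace Hepta

open Complex MeasureTheory

/-- A third point does not lie in the disc whose diameter is a short edge. -/
theorem gabriel {a b z : ℂ} (ha : 4 ≤ normSq (a - z)) (hb : 4 ≤ normSq (b - z))
    (hab : normSq (a - b) < 8) : 0 < dt (a - z) (b - z) := by
  unfold dt
  rw [normSq_apply] at ha hb hab
  simp only [sub_re, sub_im] at ha hb hab ⊢
  nlinarith

/-- The points of the bisector of `a` and `b`. -/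
theorem bisector {a b y : ℂ} (hab : a ≠ b) (h : normSq (y - a) = normSq (y - b)) :
    ∃ t : ℝ, y = (a + b) / 2 + (t : ℂ) * (I * (b - a)) := by
  rw [normSq_apply, normSq_apply] at h
  simp only [sub_re, sub_im] at h
  have hD : (b.re - a.re) ^ 2 + (b.im - a.im) ^ 2 ≠ 0 := by
    intro h0
    apply hab
    have h1 : b.re - a.re = 0 := by nlinarith [sq_nonneg (b.re - a.re), sq_nonneg (b.im - a.im)]
    have h2 : b.im - a.im = 0 := by nlinarith [sq_nonneg (b.re - a.re), sq_nonneg (b.im - a.im)]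
    apply Complex.ext <;> linarith
  refine ⟨((b.re - a.re) * (y.im - a.im) - (b.im - a.im) * (y.re - a.re)) /
    ((b.re - a.re) ^ 2 + (b.im - a.im) ^ 2), ?_⟩
  set t := ((b.re - a.re) * (y.im - a.im) - (b.im - a.im) * (y.re - a.re)) /
    ((b.re - a.re) ^ 2 + (b.im - a.im) ^ 2) with ht
  have ht2 : t * ((b.re - a.re) ^ 2 + (b.im - a.im) ^ 2) =
      (b.re - a.re) * (y.im - a.im) - (b.im - a.im) * (y.re - a.re) := by
    rw [ht, div_mul_cancel₀ _ hD]
  have e : (a + b) / 2 = ((1 / 2 : ℝ) : ℂ) * (a + b) := by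
    push_cast
    ring
  rw [e]
  apply Complex.ext
  · apply mul_right_cancel₀ hD
    simp only [add_re, mul_re, ofReal_re, ofReal_im, I_re, I_im, sub_re, sub_im, add_im, mul_im]
    linear_combination (b.re - a.re) / 2 * h - (-(b.im - a.im)) * ht2
  · apply mul_right_cancel₀ hD
    simp only [add_re, mul_re, ofReal_re, ofReal_im, I_re, I_im, sub_re, sub_im, add_im, mul_im]
    linear_combination (b.im - a.im) / 2 * h - (b.re - a.re) * ht2

theorem bisector_normSq (a b : ℂ) (t : ℝ) :
    normSq ((a + b) / 2 + (t : ℂ) * (I * (b - a)) - a) = (1 / 4 + t ^ 2) * normSq (b - a) := by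
  have e : (a + b) / 2 = ((1 / 2 : ℝ) : ℂ) * (a + b) := by
    push_cast
    ring
  rw [e]
  simp only [normSq_apply, add_re, mul_re, ofReal_re, ofReal_im, I_re, I_im, sub_re, sub_im,
    add_im, mul_im]
  ring

theorem bisector_cr (a b : ℂ) (t : ℝ) :
    cr (b - a) ((a + b) / 2 + (t : ℂ) * (I * (b - a)) - a) = t * normSq (b - a) := by
  have e : (a + b) / 2 = ((1 / 2 : ℝ) : ℂ) * (a + b) := by
    push_cast
    ring
  rw [e]
  unfold cr
  simp only [normSq_apply, add_re, mul_re, ofReal_re, ofReal_im, I_re, I_im, sub_re, sub_im,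
    add_im, mul_im]
  ring

theorem bisector_power (a b z : ℂ) (t : ℝ) :
    normSq (z - ((a + b) / 2 + (t : ℂ) * (I * (b - a)))) -
      normSq (a - ((a + b) / 2 + (t : ℂ) * (I * (b - a)))) =
    dt (a - z) (b - z) - 2 * t * cr (b - a) (z - a) := by
  have e : (a + b) / 2 = ((1 / 2 : ℝ) : ℂ) * (a + b) := by
    push_cast
    ring
  rw [e]
  unfold cr dt
  simp only [normSq_apply, add_re, mul_re, ofReal_re, ofReal_im, I_re, I_im, sub_re, sub_im,
    add_im, mul_im]
  ring

end Hepta
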