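import Pool.Agent.H69.Hep.Defs

/-! # A3: three separated points in a disc of radius less than √2 form a short triple -/

set_option autoImplicit false

namespace Hepta

open Complex MeasureTheory

/-- the circumcentre, in coordinates -/
private theorem A3_real {p1 p2 q1 q2 e1 e2 s : ℝ} (h2 : s < 2) (h0 : e1 * e1 + e2 * e2 ≤ s)
    (h1 : (p1 - e1) * (p1 - e1) + (p2 - e2) * (p2 - e2) ≤ s)
    (h3 : (q1 - e1) * (q1 - e1) + (q2 - e2) * (q2 - e2) ≤ s)
    (hp : 4 ≤ p1 * p1 + p2 * p2) (hq : 4 ≤ q1 * q1 + q2 * q2)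
    (hpq : 4 ≤ (p1 - q1) * (p1 - q1) + (p2 - q2) * (p2 - q2)) (hC : 0 < p1 * q2 - p2 * q1) :
    ∃ v1 v2 : ℝ, v1 * v1 + v2 * v2 ≤ s ∧ 0 < v1 * v1 + v2 * v2 ∧
      (p1 - v1) * (p1 - v1) + (p2 - v2) * (p2 - v2) = v1 * v1 + v2 * v2 ∧
      (q1 - v1) * (q1 - v1) + (q2 - v2) * (q2 - v2) = v1 * v1 + v2 * v2 := by
  set C : ℝ := p1 * q2 - p2 * q1 with hCdef
  set P : ℝ := p1 * p1 + p2 * p2 with hP
  set Q : ℝ := q1 * q1 + q2 * q2 with hQ
  set T : ℝ := p1 * q1 + p2 * q2 with hT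
  set N1 : ℝ := P * q2 - Q * p2 with hN1
  set N2 : ℝ := Q * p1 - P * q1 with hN2
  have hS : (p1 - q1) * (p1 - q1) + (p2 - q2) * (p2 - q2) = P + Q - 2 * T := by
    rw [hP, hQ, hT]; ring
  rw [hS] at hpq
  have hPs : P < 8 := by
    rw [hP]
    nlinarith [mul_self_nonneg (p1 - 2 * e1), mul_self_nonneg (p2 - 2 * e2)]
  have hQs : Q < 8 := by
    rw [hQ]
    nlinarith [mul_self_nonneg (q1 - 2 * e1), mul_self_nonneg (q2 - 2 * e2)]
  have hSs : P + Q - 2 * T < 8 := by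
    rw [← hS]
    nlinarith [mul_self_nonneg (p1 + q1 - 2 * e1), mul_self_nonneg (p2 + q2 - 2 * e2)]
  have hT0 : 0 < T := by linarith
  have hPT : 0 < P - T := by linarith
  have hQT : 0 < Q - T := by linarith
  have hA : 0 ≤ (P + Q - 2 * T) * T := mul_nonneg (by linarith) hT0.le
  have hB : 0 ≤ Q * (P - T) := mul_nonneg (by linarith) hPT.le
  have hD : 0 ≤ P * (Q - T) := mul_nonneg (by linarith) hQT.le
  have hsum : (P + Q - 2 * T) * T + Q * (P - T) + P * (Q - T) = 2 * C ^ 2 := by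
    rw [hP, hQ, hT, hCdef]; ring
  have hid : (P + Q - 2 * T) * T * (e1 * e1 + e2 * e2)
      + Q * (P - T) * ((p1 - e1) * (p1 - e1) + (p2 - e2) * (p2 - e2))
      + P * (Q - T) * ((q1 - e1) * (q1 - e1) + (q2 - e2) * (q2 - e2))
      = 2 * C ^ 2 * (e1 * e1 + e2 * e2) - 2 * C * (e1 * N1 + e2 * N2) + (N1 * N1 + N2 * N2) := by
    rw [hN1, hN2, hP, hQ, hT, hCdef]; ring
  have hle : 2 * C ^ 2 * (e1 * e1 + e2 * e2) - 2 * C * (e1 * N1 + e2 * N2)
      + (N1 * N1 + N2 * N2) ≤ 2 * C ^ 2 * s := by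
    rw [← hid]
    calc (P + Q - 2 * T) * T * (e1 * e1 + e2 * e2)
          + Q * (P - T) * ((p1 - e1) * (p1 - e1) + (p2 - e2) * (p2 - e2))
          + P * (Q - T) * ((q1 - e1) * (q1 - e1) + (q2 - e2) * (q2 - e2))
        ≤ (P + Q - 2 * T) * T * s + Q * (P - T) * s + P * (Q - T) * s :=
          add_le_add (add_le_add (mul_le_mul_of_nonneg_left h0 hA)
            (mul_le_mul_of_nonneg_left h1 hB)) (mul_le_mul_of_nonneg_left h3 hD)
      _ = ((P + Q - 2 * T) * T + Q * (P - T) + P * (Q - T)) * s := by ring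
      _ = 2 * C ^ 2 * s := by rw [hsum]
  have hsq : 0 ≤ 2 * C ^ 2 * (e1 * e1 + e2 * e2) - 2 * C * (e1 * N1 + e2 * N2)
      + (N1 * N1 + N2 * N2) / 2 := by
    have e : 2 * C ^ 2 * (e1 * e1 + e2 * e2) - 2 * C * (e1 * N1 + e2 * N2)
      + (N1 * N1 + N2 * N2) / 2 = ((2 * C * e1 - N1) ^ 2 + (2 * C * e2 - N2) ^ 2) / 2 := by ring
    rw [e]
    positivity
  have hN : N1 * N1 + N2 * N2 ≤ 4 * C ^ 2 * s := by linarith
  have hC0 : C ≠ 0 := hC.ne'
  have hpN : p1 * N1 + p2 * N2 = C * P := by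
    rw [hN1, hN2, hP, hQ, hCdef]; ring
  have hqN : q1 * N1 + q2 * N2 = C * Q := by
    rw [hN1, hN2, hP, hQ, hCdef]; ring
  refine ⟨N1 / (2 * C), N2 / (2 * C), ?_, ?_, ?_, ?_⟩
  · have e : N1 / (2 * C) * (N1 / (2 * C)) + N2 / (2 * C) * (N2 / (2 * C))
        = (N1 * N1 + N2 * N2) / (4 * C ^ 2) := by field_simp; ring
    rw [e, div_le_iff₀ (by positivity)]
    linarith
  · have e : N1 / (2 * C) * (N1 / (2 * C)) + N2 / (2 * C) * (N2 / (2 * C))
        = (N1 * N1 + N2 * N2) / (4 * C ^ 2) := by field_simp; ring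
    rw [e]
    apply div_pos _ (by positivity)
    by_contra hcon
    push Not at hcon
    have m1 : 0 ≤ N1 * N1 := mul_self_nonneg N1
    have m2 : 0 ≤ N2 * N2 := mul_self_nonneg N2
    have n1 : N1 = 0 := mul_self_eq_zero.1 (le_antisymm (by linarith) m1)
    have n2 : N2 = 0 := mul_self_eq_zero.1 (le_antisymm (by linarith) m2)
    rw [n1, n2] at hpN
    have : 0 < C * P := mul_pos hC (by linarith)
    linarith
  · have e : (p1 - N1 / (2 * C)) * (p1 - N1 / (2 * C)) + (p2 - N2 / (2 * C)) * (p2 - N2 / (2 * C))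
        = P - (p1 * N1 + p2 * N2) / C
          + (N1 / (2 * C) * (N1 / (2 * C)) + N2 / (2 * C) * (N2 / (2 * C))) := by
      rw [hP]; field_simp; ring
    rw [e, hpN, mul_div_cancel_left₀ _ hC0]
    ring
  · have e : (q1 - N1 / (2 * C)) * (q1 - N1 / (2 * C)) + (q2 - N2 / (2 * C)) * (q2 - N2 / (2 * C))
        = Q - (q1 * N1 + q2 * N2) / C
          + (N1 / (2 * C) * (N1 / (2 * C)) + N2 / (2 * C) * (N2 / (2 * C))) := by
      rw [hQ]; field_simp; ring
    rw [e, hqN, mul_div_cancel_left₀ _ hC0]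
    ring

theorem short_of_ball {ι : Type*} {c : ι → ℂ} (hs : Sep c) {i j k : ι} (hij : i ≠ j)
    (hik : i ≠ k) (hjk : j ≠ k) {y : ℂ} {s : ℝ} (h2 : s < 2) (hi : normSq (c i - y) ≤ s)
    (hj : normSq (c j - y) ≤ s) (hk : normSq (c k - y) ≤ s)
    (hpos : 0 < cr (c j - c i) (c k - c i)) :
    ∃ v R, Short c i j k v R ∧ R ^ 2 ≤ s := by
  have s1 := hs i j hij
  have s2 := hs i k hik
  have s3 := hs j k hjk
  rw [normSq_apply] at s1 s2 s3 hi hj hk
  simp only [sub_re, sub_im] at s1 s2 s3 hi hj hk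
  have hpos' := hpos
  unfold cr at hpos'
  simp only [sub_re, sub_im] at hpos'
  obtain ⟨v1, v2, k1, k2, k3, k4⟩ := A3_real (p1 := (c j).re - (c i).re)
    (p2 := (c j).im - (c i).im) (q1 := (c k).re - (c i).re) (q2 := (c k).im - (c i).im)
    (e1 := y.re - (c i).re) (e2 := y.im - (c i).im) (s := s) h2
    (by linarith) (by linarith) (by linarith) (by linarith) (by linarith) (by linarith)
    hpos'
  refine ⟨⟨(c i).re + v1, (c i).im + v2⟩, Real.sqrt (v1 * v1 + v2 * v2), ?_, ?_⟩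
  · have hR : Real.sqrt (v1 * v1 + v2 * v2) ^ 2 = v1 * v1 + v2 * v2 := Real.sq_sqrt k2.le
    constructor
    · exact Real.sqrt_pos.2 k2
    · rw [hR]
      linarith
    · rw [hR, normSq_apply]
      simp only [sub_re, sub_im]
      ring
    · rw [hR, ← k3, normSq_apply]
      simp only [sub_re, sub_im]
      ring
    · rw [hR, ← k4, normSq_apply]
      simp only [sub_re, sub_im]
      ring
    · exact hpos
  · rw [Real.sq_sqrt k2.le]
    exact k1

end Hepta
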