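import Pool.Agent.H69.Hep.A1
import Pool.Agent.H69.Hep.A2

/-! # A4: short triples: the centre is on the left side, uniqueness -/

set_option autoImplicit false

namespace Hepta

open Complex MeasureTheory

variable {ι : Type*} {c : ι → ℂ}

theorem Short.ne {i j k : ι} {v : ℂ} {R : ℝ} (h : Short c i j k v R) :
    i ≠ j ∧ j ≠ k ∧ i ≠ k := by
  have hp := h.pos
  unfold cr at hp
  refine ⟨?_, ?_, ?_⟩
  · rintro rfl
    simp at hp
  · rintro rfl
    have e : (c j - c i).re * (c j - c i).im - (c j - c i).im * (c j - c i).re = 0 := by ring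
    rw [e] at hp
    exact lt_irrefl _ hp
  · rintro rfl
    simp at hp

theorem Short.rot {i j k : ι} {v : ℂ} {R : ℝ} (h : Short c i j k v R) :
    Short c j k i v R := by
  refine ⟨h.R0, h.R2, h.hj, h.hk, h.hi, ?_⟩
  have hp := h.pos
  unfold cr at hp ⊢
  simp only [sub_re, sub_im] at hp ⊢
  linarith

theorem Short.lt {i j k : ι} {v : ℂ} {R : ℝ} (h : Short c i j k v R) :
    normSq (c i - c j) < 8 := by
  have h1 := h.hi
  have h2 := h.hj
  have h3 := h.R2
  rw [normSq_apply] at h1 h2 ⊢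
  simp only [sub_re, sub_im] at h1 h2 ⊢
  nlinarith [sq_nonneg ((c i).re - v.re + ((c j).re - v.re)),
    sq_nonneg ((c i).im - v.im + ((c j).im - v.im))]

private theorem A4_swap (a b : ℂ) : normSq (a - b) = normSq (b - a) := by
  rw [normSq_apply, normSq_apply]
  simp only [sub_re, sub_im]
  ring

private theorem A4_bis {i j k : ι} {v : ℂ} {R : ℝ} (h : Short c i j k v R) :
    c i ≠ c j ∧ ∃ t : ℝ, v = (c i + c j) / 2 + (t : ℂ) * (I * (c j - c i)) := by
  have hne : c i ≠ c j := by
    intro e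
    have hp := h.pos
    unfold cr at hp
    rw [e] at hp
    simp at hp
  refine ⟨hne, bisector hne ?_⟩
  rw [A4_swap v (c i), A4_swap v (c j), h.hi, h.hj]

private theorem A4_eq {i j k : ι} {v : ℂ} {R : ℝ} (h : Short c i j k v R) {t : ℝ}
    (ht : v = (c i + c j) / 2 + (t : ℂ) * (I * (c j - c i))) :
    dt (c i - c k) (c j - c k) = 2 * t * cr (c j - c i) (c k - c i) := by
  have h1 := bisector_power (c i) (c j) (c k) t
  rw [← ht, h.hi, h.hk] at h1
  linarith

/-- The centre is strictly to the left of the edge. -/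
theorem Short.left (hs : Sep c) {i j k : ι} {v : ℂ} {R : ℝ} (h : Short c i j k v R) :
    0 < cr (c j - c i) (v - c i) := by
  obtain ⟨hij, hjk, hik⟩ := h.ne
  obtain ⟨-, t, ht⟩ := A4_bis h
  have h1 := A4_eq h ht
  have h2 := gabriel (hs i k hik) (hs j k hjk) h.lt
  have h3 := h.pos
  have h4 : 4 ≤ normSq (c j - c i) := hs j i hij.symm
  have ht0 : 0 < t := by
    by_contra hcon
    push Not at hcon
    nlinarith
  have h5 := bisector_cr (c i) (c j) t
  rw [← ht] at h5
  rw [h5]
  exact mul_pos ht0 (by linarith)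

private theorem A4_aux (hs : Sep c) {i j k k' : ι} {v v' : ℂ} {R R' : ℝ}
    (h : Short c i j k v R) (h' : Short c i j k' v' R') {t t' : ℝ}
    (ht : v = (c i + c j) / 2 + (t : ℂ) * (I * (c j - c i)))
    (ht' : v' = (c i + c j) / 2 + (t' : ℂ) * (I * (c j - c i))) (htt : t' ≤ t) : k = k' := by
  by_contra hne
  obtain ⟨hij, hjk, hik⟩ := h.ne
  obtain ⟨-, hjk', hik'⟩ := h'.ne
  have h1 := A4_eq h' ht'
  have h2 := bisector_power (c i) (c j) (c k') t
  rw [← ht, h.hi, h1] at h2
  have h3 := h'.pos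
  have h4 : normSq (c k' - v) ≤ R ^ 2 := by nlinarith
  exact four_points h.R2 h.hi.le h.hj.le h.hk.le h4 (hs i j hij) (hs i k hik) (hs i k' hik')
    (hs j k hjk) (hs j k' hjk') (hs k k' hne)

theorem Short.unique (hs : Sep c) {i j k k' : ι} {v v' : ℂ} {R R' : ℝ}
    (h : Short c i j k v R) (h' : Short c i j k' v' R') : k = k' ∧ v = v' ∧ R = R' := by
  obtain ⟨-, t, ht⟩ := A4_bis h
  obtain ⟨-, t', ht'⟩ := A4_bis h'
  have hk : k = k' := by
    rcases le_total t' t with htt | htt
    · exact A4_aux hs h h' ht ht' htt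
    · exact (A4_aux hs h' h ht' ht htt).symm
  subst hk
  have h1 := A4_eq h ht
  have h2 := A4_eq h' ht'
  have h3 := h.pos
  have htt : t = t' := by
    have h4 : t * (2 * cr (c j - c i) (c k - c i)) = t' * (2 * cr (c j - c i) (c k - c i)) := by
      linarith
    exact mul_right_cancel₀ (by linarith) h4
  have hv : v = v' := by rw [ht, ht', htt]
  refine ⟨rfl, hv, ?_⟩
  have h5 := h.hi
  have h6 := h'.hi
  rw [← hv, h5] at h6
  exact (pow_left_inj₀ h.R0.le h'.R0.le (by norm_num)).1 h6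

end Hepta
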