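import Pool.Agent.H69.Hep.A4

/-! # A5: the radius of the left side of an edge -/

set_option autoImplicit false

namespace Hepta

open Complex MeasureTheory

variable {ι : Type*} {c : ι → ℂ}

theorem Rp_cases (c : ι → ℂ) (i j : ι) :
    (Rp c i j = Real.sqrt 2 ∧ ¬ ∃ R k v, Short c i j k v R) ∨
      ∃ k v, Short c i j k v (Rp c i j) := by
  classical
  by_cases h : ∃ R, ∃ k v, Short c i j k v R
  · right
    have e : Rp c i j = Classical.choose h := by
      unfold Rp
      rw [dif_pos h]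
    rw [e]
    exact Classical.choose_spec h
  · left
    refine ⟨?_, h⟩
    unfold Rp
    rw [dif_neg h]

theorem Rp_eq (hs : Sep c) {i j k : ι} {v : ℂ} {R : ℝ} (h : Short c i j k v R) :
    Rp c i j = R := by
  rcases Rp_cases c i j with ⟨_, h2⟩ | ⟨k', v', h'⟩
  · exact absurd ⟨R, k, v, h⟩ h2
  · exact (Short.unique hs h' h).2.2

theorem Rp_pos (c : ι → ℂ) (i j : ι) : 0 < Rp c i j := by
  rcases Rp_cases c i j with ⟨h1, _⟩ | ⟨k', v', h'⟩
  · rw [h1]
    positivity
  · exact h'.R0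

theorem Rp_sq_le (c : ι → ℂ) (i j : ι) : Rp c i j ^ 2 ≤ 2 := by
  rcases Rp_cases c i j with ⟨h1, _⟩ | ⟨k', v', h'⟩
  · rw [h1, Real.sq_sqrt (by norm_num)]
  · exact h'.R2.le

end Hepta
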