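import Pool.Agent.H69.Hep.A3
import Pool.Agent.H69.Hep.A5

/-! # A6: the core lemma: the discs through the end points of an edge -/

set_option autoImplicit false

namespace Hepta

open Complex MeasureTheory

variable {ι : Type*} {c : ι → ℂ}

private theorem A6_swap (a b : ℂ) : normSq (a - b) = normSq (b - a) := by
  rw [normSq_apply, normSq_apply]
  simp only [sub_re, sub_im]
  ring

private theorem A6_lt {a b y : ℂ} {s : ℝ} (hs : s < 2) (ha : normSq (y - a) = s)
    (hb : normSq (y - b) = s) : normSq (a - b) < 8 := by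
  rw [normSq_apply] at ha hb ⊢
  simp only [sub_re, sub_im] at ha hb ⊢
  nlinarith [sq_nonneg (y.re - a.re + (y.re - b.re)), sq_nonneg (y.im - a.im + (y.im - b.im))]

theorem core (hs : Sep c) {i j : ι} (hij : i ≠ j) {y : ℂ} {s : ℝ} (hi : normSq (y - c i) = s)
    (hj : normSq (y - c j) = s) (hl : 0 < cr (c j - c i) (y - c i)) (hR : s < Rp c i j ^ 2)
    (k : ι) (hki : k ≠ i) (hkj : k ≠ j) : s < normSq (y - c k) := by
  by_contra hcon
  push Not at hcon
  have hs2 : s < 2 := lt_of_lt_of_le hR (Rp_sq_le c i j)
  have hne : c i ≠ c j := by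
    intro e
    unfold cr at hl
    rw [e] at hl
    simp at hl
  by_cases hpos : 0 < cr (c j - c i) (c k - c i)
  · obtain ⟨v, R, hS, hRs⟩ := short_of_ball hs hij hki.symm hkj.symm hs2
      (by rw [A6_swap, hi]) (by rw [A6_swap, hj]) (by rw [A6_swap]; exact hcon) hpos
    rw [Rp_eq hs hS] at hR
    linarith
  · push Not at hpos
    obtain ⟨t, ht⟩ := bisector hne (by rw [hi, hj])
    have h1 := bisector_cr (c i) (c j) t
    rw [← ht] at h1
    have h2 : 0 < normSq (c j - c i) := by
      have := hs j i hij.symm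
      linarith
    have ht0 : 0 < t := by
      rw [h1] at hl
      by_contra hc
      push Not at hc
      nlinarith
    have h3 := bisector_power (c i) (c j) (c k) t
    rw [← ht, A6_swap (c i) y, hi, A6_swap (c k) y] at h3
    have h4 := gabriel (hs i k hki.symm) (hs j k hkj.symm) (A6_lt hs2 hi hj)
    nlinarith [mul_nonneg ht0.le (neg_nonneg.2 hpos)]

end Hepta
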