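import Pool.Agent.H69.Hep.A6

/-! # A7: the half sectors are disjoint and belong to the Voronoi cell -/

set_option autoImplicit false

namespace Hepta

open Complex MeasureTheory

variable {ι : Type*} {c : ι → ℂ}

private theorem A7_cs (φ : ℝ) : (ui φ).re * (ui φ).re + (ui φ).im * (ui φ).im = 1 := by
  have h := Real.cos_sq_add_sin_sq φ
  change Real.cos φ * Real.cos φ + Real.sin φ * Real.sin φ = 1
  linarith [sq (Real.cos φ), sq (Real.sin φ)]

private theorem A7_norm (a : ℂ) (r φ : ℝ) (b : ℂ) :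
    normSq (a + r * ui φ - b) = r ^ 2 - 2 * r * dt (b - a) (ui φ) + normSq (b - a) := by
  have h := A7_cs φ
  simp only [normSq_apply, dt, Complex.sub_re, Complex.sub_im, Complex.add_re, Complex.add_im,
    Complex.re_ofReal_mul, Complex.im_ofReal_mul]
  have h2 : r ^ 2 = r ^ 2 * ((ui φ).re * (ui φ).re + (ui φ).im * (ui φ).im) := by
    rw [h, mul_one]
  linear_combination -h2

private theorem A7_four (hs : Sep c) {i j : ι} (hij : i ≠ j) : 4 ≤ normSq (c j - c i) :=
  hs j i hij.symm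

private theorem A7_key (hs : Sep c) {i j : ι} (hij : i ≠ j) {φ : ℝ}
    (h : SL c i j φ ∨ SR c i j φ) :
    0 < dt (c j - c i) (ui φ) ∧ ∃ r R : ℝ, 0 < r ∧ 2 * r * dt (c j - c i) (ui φ) = normSq (c j - c i) ∧
      r < R ∧ R ^ 2 ≤ 2 ∧
      ∀ k, k ≠ i → k ≠ j → r ^ 2 < normSq (c i + r * ui φ - c k) := by
  have h4 := A7_four hs hij
  obtain ⟨D, hD⟩ : ∃ D, D = dt (c j - c i) (ui φ) := ⟨_, rfl⟩
  obtain ⟨A, hA⟩ : ∃ A, A = normSq (c j - c i) := ⟨_, rfl⟩
  rw [← hA] at h4
  have hgen : ∀ R : ℝ, 0 < R → R ^ 2 ≤ 2 → A < 2 * R * D →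
      (∀ r : ℝ, 0 < r → r ^ 2 < R ^ 2 → normSq (c i + r * ui φ - c i) = r ^ 2 →
        normSq (c i + r * ui φ - c j) = r ^ 2 →
        ∀ k, k ≠ i → k ≠ j → r ^ 2 < normSq (c i + r * ui φ - c k)) →
      0 < D ∧ ∃ r R : ℝ, 0 < r ∧ 2 * r * D = A ∧ r < R ∧ R ^ 2 ≤ 2 ∧
      ∀ k, k ≠ i → k ≠ j → r ^ 2 < normSq (c i + r * ui φ - c k) := by
    intro R hR hR2 hlt hcore
    have hD0 : 0 < D := by
      have : 0 < 2 * R * D := by linarith
      exact (pos_iff_pos_of_mul_pos this).1 (by linarith)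
    refine ⟨hD0, A / (2 * D), R, by positivity, by field_simp, ?_, hR2, ?_⟩
    · rw [div_lt_iff₀ (by linarith)]
      linarith
    · apply hcore
      · positivity
      · apply pow_lt_pow_left₀ _ (by positivity) two_ne_zero
        rw [div_lt_iff₀ (by linarith)]
        linarith
      · rw [A7_norm, sub_self]
        simp [dt]
      · rw [A7_norm, ← hD, ← hA]
        field_simp
        ring
  rw [← hA, ← hD]
  rcases h with ⟨h1, h2⟩ | ⟨h1, h2⟩
  · rw [← hA, ← hD] at h2
    refine hgen (Rp c i j) (Rp_pos c i j) (Rp_sq_le c i j) h2 ?_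
    intro r hr hrR e1 e2 k hki hkj
    refine core hs hij e1 e2 ?_ hrR k hki hkj
    have e3 : c i + r * ui φ - c i = r * ui φ := by ring
    rw [e3]
    have e4 : cr (c j - c i) (r * ui φ) = r * cr (c j - c i) (ui φ) := by
      simp only [cr, Complex.re_ofReal_mul, Complex.im_ofReal_mul]
      ring
    rw [e4]
    exact mul_pos hr h1
  · rw [← hA, ← hD] at h2
    refine hgen (Rp c j i) (Rp_pos c j i) (Rp_sq_le c j i) h2 ?_
    intro r hr hrR e1 e2 k hki hkj
    refine core hs hij.symm e2 e1 ?_ hrR k hkj hki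
    have e4 : cr (c i - c j) (c i + r * ui φ - c j) = -(r * cr (c j - c i) (ui φ)) := by
      simp only [cr, Complex.re_ofReal_mul, Complex.im_ofReal_mul, Complex.sub_re, Complex.sub_im,
        Complex.add_re, Complex.add_im]
      ring
    rw [e4]
    have := mul_pos hr (neg_pos.2 h1)
    linarith

theorem sector_pos {i j : ι} (hij : i ≠ j) (hs : Sep c) {φ : ℝ}
    (h : SL c i j φ ∨ SR c i j φ) : 0 < dt (c j - c i) (ui φ) := by
  exact (A7_key hs hij h).1

/-- The point of the bisector in the direction `φ` is nearer than `√2` and nearer to `c i` than to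
the other points. -/
theorem sector_far (hs : Sep c) {i j : ι} (hij : i ≠ j) {φ : ℝ}
    (h : SL c i j φ ∨ SR c i j φ) {k : ι} (hki : k ≠ i) (hkj : k ≠ j) :
    normSq (c j - c i) * dt (c k - c i) (ui φ) < normSq (c k - c i) * dt (c j - c i) (ui φ) := by
  obtain ⟨hD, r, R, hr, hrD, hrR, hR2, hk⟩ := A7_key hs hij h
  have h1 := hk k hki hkj
  rw [A7_norm] at h1
  have h2 : 2 * r * dt (c k - c i) (ui φ) < normSq (c k - c i) := by linarith
  have h3 := mul_lt_mul_of_pos_right h2 hD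
  rw [← hrD]
  linarith

theorem sector_lt (hs : Sep c) {i j : ι} (hij : i ≠ j) {φ : ℝ}
    (h : SL c i j φ ∨ SR c i j φ) :
    normSq (c j - c i) < 2 * Real.sqrt 2 * dt (c j - c i) (ui φ) := by
  obtain ⟨hD, r, R, hr, hrD, hrR, hR2, hk⟩ := A7_key hs hij h
  have h1 : R ≤ Real.sqrt 2 := Real.le_sqrt_of_sq_le hR2
  rw [← hrD]
  have h2 : r < Real.sqrt 2 := by linarith
  have h3 := mul_lt_mul_of_pos_right h2 hD
  linarith

theorem sector_disj (hs : Sep c) {i j k : ι} (hij : i ≠ j) (hik : i ≠ k) {φ : ℝ}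
    (hj : SL c i j φ ∨ SR c i j φ) (hk : SL c i k φ ∨ SR c i k φ) : j = k := by
  by_contra hjk
  have h1 := sector_far hs hij hj hik.symm (Ne.symm hjk)
  have h2 := sector_far hs hik hk hij.symm hjk
  linarith

theorem sector_vor (hs : Sep c) {i j : ι} (hij : i ≠ j) {φ : ℝ}
    (h : SL c i j φ ∨ SR c i j φ) {r : ℝ} (h0 : 0 < r)
    (hr : r < normSq (c j - c i) / (2 * dt (c j - c i) (ui φ))) {k : ι} (hk : k ≠ i) :
    2 * r * dt (c k - c i) (ui φ) < normSq (c k - c i) := by
  have hD := sector_pos hij hs h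
  rw [lt_div_iff₀ (by linarith)] at hr
  by_cases hkj : k = j
  · subst hkj
    linarith
  · have h1 := sector_far hs hij h hk hkj
    have h4 := A7_four hs (Ne.symm hk)
    by_cases h2 : dt (c k - c i) (ui φ) ≤ 0
    · have h3 : r * dt (c k - c i) (ui φ) ≤ 0 := mul_nonpos_of_nonneg_of_nonpos h0.le h2
      linarith
    · push Not at h2
      have h5 := mul_lt_mul_of_pos_right hr h2
      have h6 : (2 * r * dt (c k - c i) (ui φ)) * dt (c j - c i) (ui φ) <
          normSq (c k - c i) * dt (c j - c i) (ui φ) := by linarith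
      exact lt_of_mul_lt_mul_right h6 hD.le

end Hepta
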