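import Pool.Agent.H69.Hep.A7

/-! # A8: outside the half sectors the Voronoi cell contains the disc of radius √2 -/

set_option autoImplicit false

namespace Hepta

open Complex MeasureTheory

variable {ι : Type*} [Finite ι] {c : ι → ℂ}

private theorem A8_swap (a b : ℂ) : normSq (a - b) = normSq (b - a) := by
  rw [normSq_apply, normSq_apply]
  simp only [sub_re, sub_im]
  ring

omit [Finite ι] in
private theorem A8_aux (hs : Sep c) {a b l : ι} {v y : ℂ} {R ρ : ℝ} (h : Short c a b l v R)
    (hya : normSq (y - c a) = ρ ^ 2) (hyb : normSq (y - c b) = ρ ^ 2) (hR : R ≤ ρ)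
    (hleft : 0 < cr (c b - c a) (y - c a)) (hfar : ρ ^ 2 ≤ normSq (y - c l)) : y = v := by
  obtain ⟨hab, hbl, hal⟩ := h.ne
  have hne : c a ≠ c b := by
    intro e
    have := hs a b hab
    rw [e, sub_self, map_zero] at this
    linarith
  obtain ⟨tv, htv⟩ := bisector (y := v) hne (by
    rw [A8_swap v (c a), A8_swap v (c b), h.hi, h.hj])
  obtain ⟨ty, hty⟩ := bisector (y := y) hne (by rw [hya, hyb])
  have hD : 4 ≤ normSq (c b - c a) := hs b a hab.symm
  have h1 := bisector_cr (c a) (c b) tv
  have h2 := bisector_cr (c a) (c b) ty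
  have h3 := bisector_normSq (c a) (c b) tv
  have h4 := bisector_normSq (c a) (c b) ty
  have h5 := bisector_power (c a) (c b) (c l) tv
  have h6 := bisector_power (c a) (c b) (c l) ty
  rw [← htv] at h1 h3 h5
  rw [← hty] at h2 h4 h6
  have hl := h.left hs
  rw [h1] at hl
  rw [h2] at hleft
  have htv0 : 0 < tv := by
    by_contra hc
    push Not at hc
    nlinarith
  have hty0 : 0 < ty := by
    by_contra hc
    push Not at hc
    nlinarith
  rw [A8_swap v (c a), h.hi] at h3
  rw [hya] at h4
  have hR0 := h.R0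
  have hRR : R ^ 2 ≤ ρ ^ 2 := pow_le_pow_left₀ hR0.le hR 2
  have htt : tv ≤ ty := by
    by_contra hc
    push Not at hc
    have : ty ^ 2 < tv ^ 2 := pow_lt_pow_left₀ hc hty0.le (by norm_num)
    nlinarith
  rw [h.hk, h.hi] at h5
  rw [A8_swap (c l) y, A8_swap (c a) y, hya] at h6
  have hpos := h.pos
  have heq : tv = ty := by
    by_contra hc
    have hlt : tv < ty := lt_of_le_of_ne htt hc
    nlinarith
  rw [hty, htv, heq]

private theorem A8_cr (a z w : ℂ) (r φ : ℝ) (hz : z = a + (r : ℂ) * ui φ) :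
    cr w (z - a) = r * cr w (ui φ) := by
  subst hz
  unfold cr ui
  simp only [sub_re, sub_im, add_re, add_im, mul_re, mul_im, ofReal_re, ofReal_im]
  ring

private theorem A8_norm (a b : ℂ) (r φ : ℝ) :
    normSq (a + (r : ℂ) * ui φ - b) =
      r ^ 2 - 2 * r * dt (b - a) (ui φ) + normSq (b - a) := by
  unfold dt ui
  simp only [normSq_apply, sub_re, sub_im, add_re, add_im, mul_re, mul_im, ofReal_re, ofReal_im]
  have h := Real.sin_sq_add_cos_sq φ
  linear_combination r ^ 2 * h

theorem free_vor (hs : Sep c) {i : ι} {φ : ℝ}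
    (h : ∀ j, j ≠ i → ¬ (SL c i j φ ∨ SR c i j φ))
    (hE : ∀ j, j ≠ i → cr (c j - c i) (ui φ) ≠ 0)
    (hE' : ∀ j k v R, Short c i j k v R ∨ Short c j i k v R → cr (v - c i) (ui φ) ≠ 0)
    {r : ℝ} (h0 : 0 < r) (hr : r < Real.sqrt 2) {k : ι} (hk : k ≠ i) :
    2 * r * dt (c k - c i) (ui φ) < normSq (c k - c i) := by
  by_contra hcon
  push Not at hcon
  have hk4 : 4 ≤ normSq (c k - c i) := hs k i hk
  have hdk : 0 < dt (c k - c i) (ui φ) := by
    by_contra hc
    push Not at hc
    nlinarith
  set S : Set ι := {m | m ≠ i ∧ 0 < dt (c m - c i) (ui φ)} with hS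
  obtain ⟨m, hmS, hmin⟩ := Set.exists_min_image S
    (fun m => normSq (c m - c i) / (2 * dt (c m - c i) (ui φ))) S.toFinite ⟨k, hk, hdk⟩
  obtain ⟨hmi, hdm⟩ := hmS
  set ρ := normSq (c m - c i) / (2 * dt (c m - c i) (ui φ)) with hρ
  have hm4 : 4 ≤ normSq (c m - c i) := hs m i hmi
  have hρ0 : 0 < ρ := by
    rw [hρ]
    exact div_pos (by linarith) (by linarith)
  have hρm : 2 * ρ * dt (c m - c i) (ui φ) = normSq (c m - c i) := by
    rw [hρ]
    field_simp
  have hρr : ρ ≤ r := by
    refine (hmin k ⟨hk, hdk⟩).trans ?_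
    rw [div_le_iff₀ (by linarith)]
    linarith
  have hρ2 : ρ < Real.sqrt 2 := lt_of_le_of_lt hρr hr
  set y : ℂ := c i + (ρ : ℂ) * ui φ with hy
  have hyi : normSq (y - c i) = ρ ^ 2 := by
    rw [hy, A8_norm]
    unfold dt
    simp
  have hym : normSq (y - c m) = ρ ^ 2 := by
    rw [hy, A8_norm, hρm]
    ring
  have hfar : ∀ n, ρ ^ 2 ≤ normSq (y - c n) := by
    intro n
    by_cases hn : n = i
    · rw [hn, hyi]
    · rw [hy, A8_norm]
      have hn4 : 4 ≤ normSq (c n - c i) := hs n i hn
      by_cases hdn : 0 < dt (c n - c i) (ui φ)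
      · have h1 := hmin n ⟨hn, hdn⟩
        rw [le_div_iff₀ (by linarith)] at h1
        linarith
      · push Not at hdn
        nlinarith
  rcases lt_or_gt_of_ne (hE m hmi) with hneg | hpos
  · -- right side
    have hSR : Rp c m i ≤ ρ := by
      by_contra hc
      push Not at hc
      refine h m hmi (Or.inr ⟨hneg, ?_⟩)
      rw [← hρm]
      have := mul_lt_mul_of_pos_right hc hdm
      linarith
    rcases Rp_cases c m i with ⟨h1, -⟩ | ⟨l, v, hv⟩
    · linarith
    · have hleft : 0 < cr (c i - c m) (y - c m) := by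
        have e : cr (c i - c m) (y - c m) = -cr (c m - c i) (y - c i) := by
          unfold cr
          simp only [sub_re, sub_im]
          ring
        rw [e, A8_cr (c i) y (c m - c i) ρ φ hy]
        nlinarith
      have hyv := A8_aux hs hv hym hyi hSR hleft (hfar l)
      refine hE' m l v _ (Or.inr hv) ?_
      rw [← hyv, hy]
      unfold cr
      simp only [sub_re, sub_im, add_re, add_im, mul_re, mul_im, ofReal_re, ofReal_im]
      ring
  · -- left side
    have hSL : Rp c i m ≤ ρ := by
      by_contra hc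
      push Not at hc
      refine h m hmi (Or.inl ⟨hpos, ?_⟩)
      rw [← hρm]
      have := mul_lt_mul_of_pos_right hc hdm
      linarith
    rcases Rp_cases c i m with ⟨h1, -⟩ | ⟨l, v, hv⟩
    · linarith
    · have hleft : 0 < cr (c m - c i) (y - c i) := by
        rw [A8_cr (c i) y (c m - c i) ρ φ hy]
        exact mul_pos hρ0 hpos
      have hyv := A8_aux hs hv hyi hym hSL hleft (hfar l)
      refine hE' m l v _ (Or.inl hv) ?_
      rw [← hyv, hy]
      unfold cr
      simp only [sub_re, sub_im, add_re, add_im, mul_re, mul_im, ofReal_re, ofReal_im]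
      ring

end Hepta
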