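import Pool.Agent.H69.Hep.Defs

/-! # B1: heptagons with disjoint interiors are separated by a line -/

set_option autoImplicit false

namespace Hepta

open Complex MeasureTheory

theorem ww_pos : 0 < ww := by
  unfold ww
  positivity

theorem cos_half_pos : 0 < Real.cos (ww / 2) := by
  apply Real.cos_pos_of_mem_Ioo
  unfold ww
  have := Real.pi_pos
  constructor <;> linarith

private theorem B1_cos_le (k : ℤ) : Real.cos ((k + 1 / 2) * ww) ≤ Real.cos (ww / 2) := by
  have hpi := Real.pi_pos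
  have h1 : k % 7 + 7 * (k / 7) = k := Int.emod_add_mul_ediv k 7
  have h2 : 0 ≤ k % 7 := Int.emod_nonneg k (by norm_num)
  have h3 : k % 7 < 7 := Int.emod_lt_of_pos k (by norm_num)
  set r := k % 7 with hr
  set q := k / 7 with hq
  have h4 : (k : ℝ) = r + 7 * q := by exact_mod_cast h1.symm
  have e1 : ((k : ℝ) + 1 / 2) * ww = (r + 1 / 2) * ww + q * (2 * Real.pi) := by
    rw [h4]
    unfold ww
    ring
  rw [e1, Real.cos_add_int_mul_two_pi]
  have hr0 : (0 : ℝ) ≤ r := by exact_mod_cast h2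
  rcases le_or_gt r 3 with h5 | h5
  · have h6 : (r : ℝ) ≤ 3 := by exact_mod_cast h5
    apply Real.cos_le_cos_of_nonneg_of_le_pi
    · have := ww_pos
      linarith
    · unfold ww
      nlinarith
    · have := ww_pos
      nlinarith
  · have h6 : (4 : ℝ) ≤ r := by exact_mod_cast h5
    have h7 : (r : ℝ) ≤ 6 := by
      have : r ≤ 6 := by omega
      exact_mod_cast this
    have e2 : Real.cos ((r + 1 / 2) * ww) = Real.cos (2 * Real.pi - (r + 1 / 2) * ww) := by
      rw [Real.cos_two_pi_sub]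
    rw [e2]
    apply Real.cos_le_cos_of_nonneg_of_le_pi
    · have := ww_pos
      linarith
    · unfold ww
      nlinarith
    · unfold ww
      nlinarith

private theorem B1_dt (a b : ℝ) (s : ℝ) : dt ((s : ℂ) * ui a) (ui b) = s * Real.cos (a - b) := by
  unfold dt ui
  simp only [mul_re, mul_im, ofReal_re, ofReal_im]
  rw [Real.cos_sub]
  ring

/-- The vertices of the heptagon. -/
theorem vertex_mem (c : ℂ) (θ : ℝ) (n : ℤ) :
    c + ((1 / Real.cos (ww / 2) : ℝ) : ℂ) * ui (θ + (n + 1 / 2) * ww) ∈ Hp c θ := by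
  intro m
  rw [add_sub_cancel_left, B1_dt, one_div, inv_mul_le_iff₀ cos_half_pos, mul_one]
  have h := B1_cos_le (n - m)
  have e : θ + (n + 1 / 2) * ww - (θ + m * ww) = (((n - m : ℤ) : ℝ) + 1 / 2) * ww := by
    push_cast
    ring
  rw [e]
  exact h

theorem convex_Hp (c : ℂ) (θ : ℝ) : Convex ℝ (Hp c θ) := by
  intro x hx y hy a b ha hb hab m
  have h1 := hx m
  have h2 := hy m
  have e : dt (a • x + b • y - c) (ui (θ + m * ww)) =
      a * dt (x - c) (ui (θ + m * ww)) + b * dt (y - c) (ui (θ + m * ww)) := by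
    unfold dt
    simp only [real_smul, sub_re, sub_im, add_re, add_im, mul_re, mul_im, ofReal_re, ofReal_im]
    have hb' : b = 1 - a := by linarith
    rw [hb']
    ring
  rw [e]
  nlinarith [mul_le_mul_of_nonneg_left h1 ha, mul_le_mul_of_nonneg_left h2 hb]

theorem isClosed_Hp (c : ℂ) (θ : ℝ) : IsClosed (Hp c θ) := by
  have e : Hp c θ = ⋂ m : ℤ, {z | dt (z - c) (ui (θ + m * ww)) ≤ 1} := by
    ext z
    rw [Set.mem_iInter]
    exact Iff.rfl
  rw [e]
  refine isClosed_iInter (fun m => isClosed_le ?_ continuous_const)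
  unfold dt
  exact ((Complex.continuous_re.comp (continuous_id.sub continuous_const)).mul
    continuous_const).add ((Complex.continuous_im.comp
    (continuous_id.sub continuous_const)).mul continuous_const)

theorem ball_subset_Hp (c : ℂ) (θ : ℝ) : Metric.ball c 1 ⊆ interior (Hp c θ) := by
  refine interior_maximal ?_ Metric.isOpen_ball
  intro z hz m
  rw [Metric.mem_ball, Complex.dist_eq] at hz
  have h1 : normSq (z - c) < 1 := by
    rw [Complex.normSq_eq_norm_sq]
    nlinarith [norm_nonneg (z - c)]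
  rw [normSq_apply] at h1
  unfold dt ui
  have h2 := Real.sin_sq_add_cos_sq (θ + m * ww)
  by_contra hc
  push Not at hc
  dsimp only at hc
  set x := (z - c).re
  set y := (z - c).im
  set s := Real.sin (θ + m * ww)
  set k := Real.cos (θ + m * ww)
  nlinarith [sq_nonneg (x * s - y * k)]

private theorem B1_side {c : ℂ} {θ : ℝ} {f : StrongDual ℝ ℂ} {u : ℝ}
    (h : ∀ a ∈ interior (Hp c θ), f a ≤ u) : ∀ a ∈ Hp c θ, f a ≤ u := by
  have hne : (interior (Hp c θ)).Nonempty :=
    ⟨c, ball_subset_Hp c θ (Metric.mem_ball_self one_pos)⟩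
  have h1 := (convex_Hp c θ).closure_interior_eq_closure_of_nonempty_interior hne
  rw [(isClosed_Hp c θ).closure_eq] at h1
  intro a ha
  rw [← h1] at ha
  have h2 : closure (interior (Hp c θ)) ⊆ {z | f z ≤ u} :=
    closure_minimal h (isClosed_le f.continuous continuous_const)
  exact h2 ha

theorem Hp_sep {c₁ c₂ : ℂ} {θ₁ θ₂ : ℝ}
    (h : Disjoint (interior (Hp c₁ θ₁)) (interior (Hp c₂ θ₂))) :
    ∃ ψ : ℝ, ∀ n n' : ℤ, (Real.cos (ψ - θ₁ - (n + 1 / 2) * ww) +
      Real.cos (ψ + Real.pi - θ₂ - (n' + 1 / 2) * ww)) / Real.cos (ww / 2) ≤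
      dt (c₂ - c₁) (ui ψ) := by
  obtain ⟨f, u, hf1, hf2⟩ := geometric_hahn_banach_open (convex_Hp c₁ θ₁).interior
    isOpen_interior (convex_Hp c₂ θ₂).interior h
  have hH1 : ∀ a ∈ Hp c₁ θ₁, f a ≤ u := B1_side (fun a ha => (hf1 a ha).le)
  have hH2 : ∀ a ∈ Hp c₂ θ₂, u ≤ f a := by
    intro a ha
    have := B1_side (f := -f) (u := -u) (fun a ha => by
      have := hf2 a ha
      rw [neg_apply]
      linarith) a ha
    rw [neg_apply] at this
    linarith
  have hflin : ∀ z : ℂ, f z = z.re * f 1 + z.im * f I := by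
    intro z
    have e : z = z.re • (1 : ℂ) + z.im • I := by
      apply Complex.ext
      · simp
      · simp
    conv_lhs => rw [e]
    rw [map_add, map_smul, map_smul, smul_eq_mul, smul_eq_mul]
  set w : ℂ := ⟨f 1, f I⟩ with hw
  have hfw : ∀ z : ℂ, f z = ‖w‖ * dt z (ui (arg w)) := by
    intro z
    rw [hflin]
    unfold dt ui
    have h1 : ‖w‖ * Real.cos (arg w) = f 1 := Complex.norm_mul_cos_arg w
    have h2 : ‖w‖ * Real.sin (arg w) = f I := Complex.norm_mul_sin_arg w
    rw [← h1, ← h2]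
    ring
  have hw0 : 0 < ‖w‖ := by
    rw [norm_pos_iff]
    intro e
    have h1 := hf1 c₁ (ball_subset_Hp c₁ θ₁ (Metric.mem_ball_self one_pos))
    have h2 := hf2 c₂ (ball_subset_Hp c₂ θ₂ (Metric.mem_ball_self one_pos))
    rw [hfw, e, norm_zero, zero_mul] at h1 h2
    linarith
  refine ⟨arg w, fun n n' => ?_⟩
  have h1 := hH1 _ (vertex_mem c₁ θ₁ n)
  have h2 := hH2 _ (vertex_mem c₂ θ₂ n')
  have h3 := h1.trans h2
  rw [hfw, hfw] at h3
  have h4 := le_of_mul_le_mul_left h3 hw0
  have hadd : ∀ a b v : ℂ, dt (a + b) v = dt a v + dt b v := by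
    intro a b v
    unfold dt
    simp only [add_re, add_im]
    ring
  have hsub : dt (c₂ - c₁) (ui (arg w)) = dt c₂ (ui (arg w)) - dt c₁ (ui (arg w)) := by
    unfold dt
    simp only [sub_re, sub_im]
    ring
  rw [hadd, hadd, B1_dt, B1_dt] at h4
  rw [hsub]
  have e1 : Real.cos (arg w - θ₁ - (n + 1 / 2) * ww) =
      Real.cos (θ₁ + (n + 1 / 2) * ww - arg w) := by
    rw [← Real.cos_neg]
    congr 1
    ring
  have e2 : Real.cos (arg w + Real.pi - θ₂ - (n' + 1 / 2) * ww) =
      -Real.cos (θ₂ + (n' + 1 / 2) * ww - arg w) := by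
    rw [← Real.cos_neg (θ₂ + (n' + 1 / 2) * ww - arg w), ← Real.cos_add_pi]
    congr 1
    ring
  rw [e1, e2, add_div, neg_div]
  rw [one_div_mul_eq_div, one_div_mul_eq_div] at h4
  linarith

end Hepta
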