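import Pool.Agent.H69.Hep.Defs

/-! # B2: the separating line can be chosen parallel to a side -/

set_option autoImplicit false

namespace Hepta

open Complex MeasureTheory

private theorem B2_ww_pos : 0 < ww := by
  unfold ww
  have := Real.pi_pos
  positivity

private theorem B2_cos_pos : 0 < Real.cos (ww / 2) := by
  apply Real.cos_pos_of_mem_Ioo
  unfold ww
  have := Real.pi_pos
  constructor <;> linarith

/-- Among the translates of `u` by multiples of `ww` the one in the central interval has the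
largest cosine. -/
private theorem B2_cos_le {u : ℝ} (h1 : -(ww / 2) ≤ u) (h2 : u ≤ ww / 2) (k : ℤ) :
    Real.cos (u + k * ww) ≤ Real.cos u := by
  have hw := B2_ww_pos
  have hpi := Real.pi_pos
  have h7 : 7 * ww = 2 * Real.pi := by unfold ww; ring
  -- reduce modulo `7`
  obtain ⟨q, r, hkr, hr1, hr2⟩ : ∃ q r : ℤ, k = 7 * q + r ∧ -3 ≤ r ∧ r ≤ 3 := by
    refine ⟨(k + 3) / 7, (k + 3) % 7 - 3, by omega, by omega, by omega⟩
  have e1 : Real.cos (u + k * ww) = Real.cos (u + r * ww) := by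
    have : u + (k : ℝ) * ww = u + r * ww + q * (2 * Real.pi) := by
      rw [hkr, ← h7]; push_cast; ring
    rw [this, Real.cos_add_int_mul_two_pi]
  rw [e1, ← Real.cos_abs u, ← Real.cos_abs (u + r * ww)]
  by_cases hr0 : r = 0
  · subst hr0; simp
  have hr1' : (-3 : ℝ) ≤ r := by exact_mod_cast hr1
  have hr2' : (r : ℝ) ≤ 3 := by exact_mod_cast hr2
  apply Real.cos_le_cos_of_nonneg_of_le_pi (abs_nonneg _)
  · rw [abs_le]
    constructor
    · nlinarith
    · nlinarith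
  · have hu : |u| ≤ ww / 2 := abs_le.mpr ⟨h1, h2⟩
    rcases lt_or_gt_of_ne hr0 with hneg | hpos
    · have : (r : ℝ) ≤ -1 := by exact_mod_cast (by omega : r ≤ -1)
      have h3 : u + r * ww ≤ -(ww / 2) := by nlinarith
      rw [abs_of_nonpos (by linarith : u + r * ww ≤ 0)]
      linarith
    · have : (1 : ℝ) ≤ r := by exact_mod_cast (by omega : 1 ≤ r)
      have h3 : ww / 2 ≤ u + r * ww := by nlinarith
      rw [abs_of_nonneg (by linarith : 0 ≤ u + r * ww)]
      linarith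

/-- A sinusoid that is nonnegative at `0` is nonnegative at one end of every short interval
around `0`. -/
private theorem B2_ends {A B d₁ d₂ : ℝ} (h1 : 0 ≤ d₁) (h2 : 0 ≤ d₂) (h : d₁ + d₂ < Real.pi)
    (h0 : 0 ≤ A) :
    0 ≤ A * Real.cos d₁ - B * Real.sin d₁ ∨ 0 ≤ A * Real.cos d₂ + B * Real.sin d₂ := by
  by_contra hcon
  push Not at hcon
  obtain ⟨c1, c2⟩ := hcon
  have s1 : 0 ≤ Real.sin d₁ := Real.sin_nonneg_of_nonneg_of_le_pi h1 (by linarith)
  have s2 : 0 ≤ Real.sin d₂ := Real.sin_nonneg_of_nonneg_of_le_pi h2 (by linarith)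
  rcases eq_or_lt_of_le (by linarith : 0 ≤ d₁ + d₂) with h3 | h3
  · have : d₁ = 0 := by linarith
    rw [this] at c1
    simp at c1
    linarith
  have s3 : 0 < Real.sin (d₁ + d₂) := Real.sin_pos_of_pos_of_lt_pi h3 h
  have key : A * Real.sin (d₁ + d₂) =
      Real.sin d₂ * (A * Real.cos d₁ - B * Real.sin d₁) +
      Real.sin d₁ * (A * Real.cos d₂ + B * Real.sin d₂) := by
    rw [Real.sin_add]; ring
  have h4 : 0 < Real.sin d₁ ∨ 0 < Real.sin d₂ := by
    by_contra hcon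
    push Not at hcon
    have e1 : Real.sin d₁ = 0 := le_antisymm hcon.1 s1
    have e2 : Real.sin d₂ = 0 := le_antisymm hcon.2 s2
    rw [Real.sin_add, e1, e2] at s3
    simp at s3
  have h5 : 0 ≤ A * Real.sin (d₁ + d₂) := mul_nonneg h0 s3.le
  rcases h4 with h4 | h4
  · nlinarith [mul_nonneg s2 (neg_nonneg.mpr c1.le), mul_pos h4 (neg_pos.mpr c2)]
  · nlinarith [mul_pos h4 (neg_pos.mpr c1), mul_nonneg s1 (neg_nonneg.mpr c2.le)]

theorem Ed_of_sep {l φ θ₁ θ₂ ψ : ℝ} (hl : 0 ≤ l)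
    (h : ∀ n n' : ℤ, (Real.cos (ψ - θ₁ - (n + 1 / 2) * ww) +
      Real.cos (ψ + Real.pi - θ₂ - (n' + 1 / 2) * ww)) / Real.cos (ww / 2) ≤
      l * Real.cos (ψ - φ)) :
    Ed (φ - θ₁) (φ + Real.pi - θ₂) l := by
  have hw := B2_ww_pos
  have hc := B2_cos_pos
  have hpi := Real.pi_pos
  have hwpi : ww < Real.pi := by unfold ww; linarith
  set m₁ : ℤ := ⌊(ψ - θ₁) / ww⌋ with hm₁
  set m₂ : ℤ := ⌊(ψ + Real.pi - θ₂) / ww⌋ with hm₂
  obtain ⟨α, hα⟩ : ∃ α, α = ψ - θ₁ - m₁ * ww := ⟨_, rfl⟩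
  obtain ⟨β, hβ⟩ : ∃ β, β = ψ + Real.pi - θ₂ - m₂ * ww := ⟨_, rfl⟩
  have a1 : 0 ≤ α := by
    have := Int.floor_le ((ψ - θ₁) / ww)
    rw [le_div_iff₀ hw] at this
    rw [hα]; linarith
  have a2 : α ≤ ww := by
    have := (Int.lt_floor_add_one ((ψ - θ₁) / ww)).le
    rw [div_le_iff₀ hw] at this
    rw [hα]; linarith
  have b1 : 0 ≤ β := by
    have := Int.floor_le ((ψ + Real.pi - θ₂) / ww)
    rw [le_div_iff₀ hw] at this
    rw [hβ]; linarith
  have b2 : β ≤ ww := by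
    have := (Int.lt_floor_add_one ((ψ + Real.pi - θ₂) / ww)).le
    rw [div_le_iff₀ hw] at this
    rw [hβ]; linarith
  have h0 : (Real.cos (α - ww / 2) + Real.cos (β - ww / 2)) / Real.cos (ww / 2) ≤
      l * Real.cos (ψ - φ) := by
    have := h m₁ m₂
    rwa [show ψ - θ₁ - ((m₁ : ℝ) + 1 / 2) * ww = α - ww / 2 by rw [hα]; ring,
      show ψ + Real.pi - θ₂ - ((m₂ : ℝ) + 1 / 2) * ww = β - ww / 2 by rw [hβ]; ring] at this
  -- the four candidates
  have c1 : ∀ e : ℝ, ∀ m k : ℤ, 0 ≤ e → e ≤ ww →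
      θ₂ - θ₁ - Real.pi = - e + k * ww →
      1 + Real.cos (e - ww / 2) / Real.cos (ww / 2) ≤ l * Real.cos (φ - θ₁ - m * ww) →
      Ed (φ - θ₁) (φ + Real.pi - θ₂) l := by
    intro e m k he1 he2 hek hin
    refine ⟨m, Or.inl fun n => ?_⟩
    refine le_trans ?_ hin
    gcongr
    have : φ - θ₁ - (φ + Real.pi - θ₂) - ((n : ℝ) + 1 / 2) * ww =
        -(e - ww / 2 + ((n - k + 1 : ℤ) : ℝ) * ww) := by
      have : φ - θ₁ - (φ + Real.pi - θ₂) = θ₂ - θ₁ - Real.pi := by ring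
      rw [this, hek]; push_cast; ring
    rw [this, Real.cos_neg]
    exact B2_cos_le (by linarith) (by linarith) _
  have c2 : ∀ e : ℝ, ∀ m k : ℤ, 0 ≤ e → e ≤ ww →
      θ₂ - θ₁ - Real.pi = e + k * ww →
      1 + Real.cos (e - ww / 2) / Real.cos (ww / 2) ≤
        l * Real.cos (φ + Real.pi - θ₂ - m * ww) →
      Ed (φ - θ₁) (φ + Real.pi - θ₂) l := by
    intro e m k he1 he2 hek hin
    refine ⟨m, Or.inr fun n => ?_⟩
    refine le_trans ?_ hin
    gcongr
    have : φ - θ₁ - (φ + Real.pi - θ₂) - ((n : ℝ) + 1 / 2) * ww =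
        e - ww / 2 + ((k - n : ℤ) : ℝ) * ww := by
      have : φ - θ₁ - (φ + Real.pi - θ₂) = θ₂ - θ₁ - Real.pi := by ring
      rw [this, hek]; push_cast; ring
    rw [this]
    exact B2_cos_le (by linarith) (by linarith) _
  -- the sinusoid
  obtain ⟨A, hA⟩ : ∃ A, A = l * Real.cos (ψ - φ) -
      (Real.cos (α - ww / 2) + Real.cos (β - ww / 2)) / Real.cos (ww / 2) := ⟨_, rfl⟩
  obtain ⟨B, hB⟩ : ∃ B, B = - (l * Real.sin (ψ - φ)) +
      (Real.sin (α - ww / 2) + Real.sin (β - ww / 2)) / Real.cos (ww / 2) := ⟨_, rfl⟩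
  have hsin : ∀ δ : ℝ, A * Real.cos δ + B * Real.sin δ = l * Real.cos (ψ + δ - φ) -
      (Real.cos (α + δ - ww / 2) + Real.cos (β + δ - ww / 2)) / Real.cos (ww / 2) := by
    intro δ
    rw [show ψ + δ - φ = (ψ - φ) + δ by ring, show α + δ - ww / 2 = (α - ww / 2) + δ by ring,
      show β + δ - ww / 2 = (β - ww / 2) + δ by ring, Real.cos_add (ψ - φ), 
      Real.cos_add (α - ww / 2), Real.cos_add (β - ww / 2), hA, hB]
    ring
  have hA0 : 0 ≤ A := by rw [hA]; linarith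
  have ends : ∀ d₁ d₂ : ℝ, 0 ≤ d₁ → 0 ≤ d₂ → d₁ + d₂ ≤ ww →
      (0 ≤ l * Real.cos (ψ + -d₁ - φ) -
        (Real.cos (α + -d₁ - ww / 2) + Real.cos (β + -d₁ - ww / 2)) / Real.cos (ww / 2)) ∨
      (0 ≤ l * Real.cos (ψ + d₂ - φ) -
        (Real.cos (α + d₂ - ww / 2) + Real.cos (β + d₂ - ww / 2)) / Real.cos (ww / 2)) := by
    intro d₁ d₂ h1 h2 h12
    rw [← hsin, ← hsin, Real.cos_neg, Real.sin_neg]
    rcases B2_ends (B := B) h1 h2 (by linarith) hA0 with h3 | h3
    · left; linarith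
    · right; exact h3
  have hmul : Real.cos (ww / 2) / Real.cos (ww / 2) = 1 := div_self hc.ne'
  rcases le_total α β with hab | hab
  · rcases ends α (ww - β) a1 (by linarith) (by linarith) with h3 | h3
    · apply c1 (β - α) m₁ (m₁ - m₂) (by linarith) (by linarith)
        (by rw [hα, hβ]; push_cast; ring)
      rw [show ψ + -α - φ = -(φ - θ₁ - m₁ * ww) by rw [hα]; ring, Real.cos_neg,
        show α + -α - ww / 2 = -(ww / 2) by ring, Real.cos_neg,
        show β + -α - ww / 2 = β - α - ww / 2 by ring, add_div, hmul] at h3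
      linarith
    · apply c2 (α - β + ww) (m₂ + 1) (m₁ - m₂ - 1) (by linarith) (by linarith)
        (by rw [hα, hβ]; push_cast; ring)
      rw [show ψ + (ww - β) - φ = -(φ + Real.pi - θ₂ - (m₂ + 1) * ww) by rw [hβ]; ring,
        Real.cos_neg, show β + (ww - β) - ww / 2 = ww / 2 by ring,
        show α + (ww - β) - ww / 2 = α - β + ww - ww / 2 by ring, add_div, hmul] at h3
      push_cast
      linarith
  · rcases ends β (ww - α) b1 (by linarith) (by linarith) with h3 | h3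
    · apply c2 (α - β) m₂ (m₁ - m₂) (by linarith) (by linarith)
        (by rw [hα, hβ]; push_cast; ring)
      rw [show ψ + -β - φ = -(φ + Real.pi - θ₂ - m₂ * ww) by rw [hβ]; ring, Real.cos_neg,
        show β + -β - ww / 2 = -(ww / 2) by ring, Real.cos_neg,
        show α + -β - ww / 2 = α - β - ww / 2 by ring, add_div, hmul] at h3
      linarith
    · apply c1 (β - α + ww) (m₁ + 1) (m₁ - m₂ + 1) (by linarith) (by linarith)
        (by rw [hα, hβ]; push_cast; ring)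
      rw [show ψ + (ww - α) - φ = -(φ - θ₁ - (m₁ + 1) * ww) by rw [hα]; ring,
        Real.cos_neg, show α + (ww - α) - ww / 2 = ww / 2 by ring,
        show β + (ww - α) - ww / 2 = β - α + ww - ww / 2 by ring, add_div, hmul] at h3
      push_cast
      linarith

theorem Ed_two {x y l : ℝ} (h : Ed x y l) (hl : 0 ≤ l) : 2 ≤ l := by
  have hw := B2_ww_pos
  have hc := B2_cos_pos
  have hpi := Real.pi_pos
  have hwpi : ww < Real.pi := by unfold ww; linarith
  have key : ∃ n : ℤ, (2 : ℝ) ≤ 1 + Real.cos (x - y - (n + 1 / 2) * ww) / Real.cos (ww / 2) := by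
    refine ⟨⌊(x - y) / ww⌋, ?_⟩
    have h1 := Int.floor_le ((x - y) / ww)
    rw [le_div_iff₀ hw] at h1
    have h2 := (Int.lt_floor_add_one ((x - y) / ww)).le
    rw [div_le_iff₀ hw] at h2
    have h3 : Real.cos (ww / 2) ≤ Real.cos (x - y - (⌊(x - y) / ww⌋ + 1 / 2) * ww) := by
      rw [← Real.cos_abs (x - y - (⌊(x - y) / ww⌋ + 1 / 2) * ww)]
      apply Real.cos_le_cos_of_nonneg_of_le_pi (abs_nonneg _) (by linarith)
      rw [abs_le]
      constructor <;> linarith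
    have h4 : 1 ≤ Real.cos (x - y - (⌊(x - y) / ww⌋ + 1 / 2) * ww) / Real.cos (ww / 2) := by
      rw [le_div_iff₀ hc, one_mul]; exact h3
    linarith
  obtain ⟨n, hn⟩ := key
  obtain ⟨m, hm | hm⟩ := h
  · have h1 := hm n
    have h2 : l * Real.cos (x - m * ww) ≤ l * 1 := mul_le_mul_of_nonneg_left (Real.cos_le_one _) hl
    linarith
  · have h1 := hm n
    have h2 : l * Real.cos (y - m * ww) ≤ l * 1 := mul_le_mul_of_nonneg_left (Real.cos_le_one _) hl
    linarith

/-- The condition is invariant under full turns. -/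
theorem Ed_turn {x y l : ℝ} (h : Ed x y l) (m n : ℤ) :
    Ed (x + m * (2 * Real.pi)) (y + n * (2 * Real.pi)) l := by
  have e1 : ∀ k : ℤ, Real.cos (x + m * (2 * Real.pi) - (y + n * (2 * Real.pi)) -
      (k + 1 / 2) * ww) = Real.cos (x - y - (k + 1 / 2) * ww) := by
    intro k
    rw [show x + m * (2 * Real.pi) - (y + n * (2 * Real.pi)) - (k + 1 / 2) * ww =
      x - y - (k + 1 / 2) * ww + ((m - n : ℤ) : ℝ) * (2 * Real.pi) by push_cast; ring,
      Real.cos_add_int_mul_two_pi]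
  obtain ⟨k, hk | hk⟩ := h
  · refine ⟨k, Or.inl fun j => ?_⟩
    rw [e1, show x + m * (2 * Real.pi) - k * ww = x - k * ww + m * (2 * Real.pi) by ring,
      Real.cos_add_int_mul_two_pi]
    exact hk j
  · refine ⟨k, Or.inr fun j => ?_⟩
    rw [e1, show y + n * (2 * Real.pi) - k * ww = y - k * ww + n * (2 * Real.pi) by ring,
      Real.cos_add_int_mul_two_pi]
    exact hk j

end Hepta
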