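import Pool.Agent.H69.Hep.A4

/-! # B4: the angles of a short triple -/

set_option autoImplicit false

namespace Hepta

open Complex MeasureTheory

variable {ι : Type*} {c : ι → ℂ}

private theorem b4_circ (p u w : ℂ) (R : ℝ) (hR : 0 < R) (hp : normSq p = R ^ 2)
    (hu : normSq (p + u) = R ^ 2) (hw : normSq (p + w) = R ^ 2) (hc : 0 < cr u w) :
    ‖u‖ * ‖w‖ * ‖u - w‖ = 2 * R * cr u w := by
  have e1 : normSq u + 2 * dt p u = 0 := by
    have : normSq (p + u) = normSq p + (normSq u + 2 * dt p u) := by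
      simp only [normSq_apply, dt, add_re, add_im]; ring
    rw [hu, hp] at this
    linarith
  have e2 : normSq w + 2 * dt p w = 0 := by
    have : normSq (p + w) = normSq p + (normSq w + 2 * dt p w) := by
      simp only [normSq_apply, dt, add_re, add_im]; ring
    rw [hw, hp] at this
    linarith
  have e3 : cr u w ^ 2 * normSq p =
      dt p u ^ 2 * normSq w - 2 * dt p u * dt p w * dt u w + dt p w ^ 2 * normSq u := by
    simp only [normSq_apply, dt, cr]; ring
  have e4 : normSq (u - w) = normSq u + normSq w - 2 * dt u w := by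
    simp only [normSq_apply, dt, sub_re, sub_im]; ring
  have e5 : dt p u = - normSq u / 2 := by linarith
  have e6 : dt p w = - normSq w / 2 := by linarith
  have e7 : normSq u * normSq w * normSq (u - w) = (2 * R * cr u w) ^ 2 := by
    rw [hp, e5, e6] at e3
    rw [e4]
    linear_combination -4 * e3
  have e8 : (‖u‖ * ‖w‖ * ‖u - w‖) ^ 2 = (2 * R * cr u w) ^ 2 := by
    rw [← e7, mul_pow, mul_pow, ← normSq_eq_norm_sq, ← normSq_eq_norm_sq, ← normSq_eq_norm_sq]
  exact (sq_eq_sq₀ (by positivity) (by positivity)).1 e8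

/-- one angle -/
private theorem b4_angle (p u w : ℂ) (R : ℝ) (hR : 0 < R) (hp : normSq p = R ^ 2)
    (hu : normSq (p + u) = R ^ 2) (hw : normSq (p + w) = R ^ 2) (hc : 0 < cr u w) :
    0 < arg (w / u) ∧ arg (w / u) < Real.pi ∧ ‖u - w‖ = 2 * R * Real.sin (arg (w / u)) ∧
      ∃ n : ℤ, arg w = arg u + arg (w / u) + n * (2 * Real.pi) := by
  have hu0 : u ≠ 0 := by
    rintro rfl
    simp [cr] at hc
  have hw0 : w ≠ 0 := by
    rintro rfl
    simp [cr] at hc
  have hun : 0 < ‖u‖ := norm_pos_iff.2 hu0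
  have hwn : 0 < ‖w‖ := norm_pos_iff.2 hw0
  have him : (w / u).im = cr u w / ‖u‖ ^ 2 := by
    rw [div_im, ← normSq_eq_norm_sq]
    unfold cr
    ring
  have hpos : 0 < (w / u).im := by
    rw [him]; positivity
  have h1 : 0 < arg (w / u) := by
    rcases lt_or_eq_of_le (arg_nonneg_iff.2 hpos.le) with h | h
    · exact h
    · have := (arg_eq_zero_iff.1 h.symm).2
      linarith
  have h2 : arg (w / u) < Real.pi := by
    rcases lt_or_eq_of_le (arg_le_pi (w / u)) with h | h
    · exact h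
    · have := (arg_eq_pi_iff.1 h).2
      linarith
  have hcirc := b4_circ p u w R hR hp hu hw hc
  have h3 : Real.sin (arg (w / u)) = cr u w / (‖u‖ * ‖w‖) := by
    rw [sin_arg, him, norm_div]
    field_simp
  refine ⟨h1, h2, ?_, ?_⟩
  · rw [h3]
    field_simp
    linarith
  · have h4 : ((arg w : ℝ) : Real.Angle) = ((arg u + arg (w / u) : ℝ) : Real.Angle) := by
      have h5 : w = u * (w / u) := by field_simp
      have h6 := arg_mul_coe_angle hu0 (div_ne_zero hw0 hu0)
      rw [← h5] at h6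
      rw [h6, Real.Angle.coe_add]
    obtain ⟨n, hn⟩ := Real.Angle.angle_eq_iff_two_pi_dvd_sub.1 h4
    exact ⟨n, by linarith⟩

private theorem b4_low {a R l : ℝ} (hR : 0 < R) (hR2 : R ^ 2 < 2) (ha0 : 0 < a)
    (hl : l = 2 * R * Real.sin a) (h2 : 2 ≤ l) : Real.pi / 4 ≤ a := by
  by_contra hcon
  push Not at hcon
  have h1 : Real.sin a < Real.sin (Real.pi / 4) :=
    Real.sin_lt_sin_of_lt_of_le_pi_div_two (by linarith [Real.pi_pos]) (by linarith [Real.pi_pos])
      hcon
  rw [Real.sin_pi_div_four] at h1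
  have h3 : R < Real.sqrt 2 := Real.lt_sqrt_of_sq_lt hR2
  have h4 : Real.sqrt 2 * Real.sqrt 2 = 2 := Real.mul_self_sqrt (by norm_num)
  have h5 : 0 < Real.sqrt 2 := by positivity
  nlinarith

theorem Short.angles (hs : Sep c) {i j k : ι} {v : ℂ} {R : ℝ} (h : Short c i j k v R) :
    ∃ a₁ a₂ a₃ : ℝ, a₁ ∈ Set.Icc (Real.pi / 4) (Real.pi / 2) ∧
      a₂ ∈ Set.Icc (Real.pi / 4) (Real.pi / 2) ∧ a₃ ∈ Set.Icc (Real.pi / 4) (Real.pi / 2) ∧
      a₁ + a₂ + a₃ = Real.pi ∧ ‖c i - c j‖ = 2 * R * Real.sin a₃ ∧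
      ‖c j - c k‖ = 2 * R * Real.sin a₁ ∧ ‖c k - c i‖ = 2 * R * Real.sin a₂ ∧
      (∃ n : ℤ, arg (c k - c i) = arg (c j - c i) + a₁ + n * (2 * Real.pi)) ∧
      (∃ n : ℤ, arg (c i - c j) = arg (c k - c j) + a₂ + n * (2 * Real.pi)) ∧
      ∃ n : ℤ, arg (c j - c k) = arg (c i - c k) + a₃ + n * (2 * Real.pi) := by
  have hpos := h.pos
  have hcj : 0 < cr (c k - c j) (c i - c j) := by
    have : cr (c k - c j) (c i - c j) = cr (c j - c i) (c k - c i) := by
      simp only [cr, sub_re, sub_im]; ring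
    rw [this]; exact hpos
  have hck : 0 < cr (c i - c k) (c j - c k) := by
    have : cr (c i - c k) (c j - c k) = cr (c j - c i) (c k - c i) := by
      simp only [cr, sub_re, sub_im]; ring
    rw [this]; exact hpos
  obtain ⟨p1, q1, l1, n1⟩ := b4_angle (c i - v) (c j - c i) (c k - c i) R h.R0 h.hi
    (by rw [← h.hj]; congr 1; ring) (by rw [← h.hk]; congr 1; ring) hpos
  obtain ⟨p2, q2, l2, n2⟩ := b4_angle (c j - v) (c k - c j) (c i - c j) R h.R0 h.hj
    (by rw [← h.hk]; congr 1; ring) (by rw [← h.hi]; congr 1; ring) hcj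
  obtain ⟨p3, q3, l3, n3⟩ := b4_angle (c k - v) (c i - c k) (c j - c k) R h.R0 h.hk
    (by rw [← h.hi]; congr 1; ring) (by rw [← h.hj]; congr 1; ring) hck
  have hij : c j - c i ≠ 0 := by
    intro h0; rw [h0] at hpos; simp [cr] at hpos
  have hik : c k - c i ≠ 0 := by
    intro h0; rw [h0] at hpos; simp [cr] at hpos
  have hjk : c k - c j ≠ 0 := by
    intro h0; rw [h0] at hcj; simp [cr] at hcj
  have hji : c i - c j ≠ 0 := by
    intro h0; rw [h0] at hcj; simp [cr] at hcj
  have hki : c i - c k ≠ 0 := by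
    intro h0; rw [h0] at hck; simp [cr] at hck
  have hkj : c j - c k ≠ 0 := by
    intro h0; rw [h0] at hck; simp [cr] at hck
  rw [show c j - c i - (c k - c i) = c j - c k by ring] at l1
  rw [show c k - c j - (c i - c j) = c k - c i by ring] at l2
  rw [show c i - c k - (c j - c k) = c i - c j by ring] at l3
  have hsum : arg ((c k - c i) / (c j - c i)) + arg ((c i - c j) / (c k - c j)) +
      arg ((c j - c k) / (c i - c k)) = Real.pi := by
    have hprod : (c k - c i) / (c j - c i) * ((c i - c j) / (c k - c j)) *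
        ((c j - c k) / (c i - c k)) = -1 := by
      rw [div_mul_div_comm, div_mul_div_comm, div_eq_iff
        (mul_ne_zero (mul_ne_zero hij hjk) hki)]
      ring
    have h1 : ((arg ((c k - c i) / (c j - c i)) + arg ((c i - c j) / (c k - c j)) +
        arg ((c j - c k) / (c i - c k)) : ℝ) : Real.Angle) = ((Real.pi : ℝ) : Real.Angle) := by
      rw [Real.Angle.coe_add, Real.Angle.coe_add,
        ← arg_mul_coe_angle (div_ne_zero hik hij) (div_ne_zero hji hjk),
        ← arg_mul_coe_angle (mul_ne_zero (div_ne_zero hik hij) (div_ne_zero hji hjk))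
          (div_ne_zero hkj hki), hprod, arg_neg_one]
    obtain ⟨n, hn⟩ := Real.Angle.angle_eq_iff_two_pi_dvd_sub.1 h1
    have hpi := Real.pi_pos
    have hn1 : (-1 : ℝ) < n := by
      by_contra hcon
      push Not at hcon
      nlinarith
    have hn2 : (n : ℝ) < 1 := by
      by_contra hcon
      push Not at hcon
      nlinarith
    have hn1' : -1 < n := by exact_mod_cast hn1
    have hn2' : n < 1 := by exact_mod_cast hn2
    have hn0 : n = 0 := by omega
    rw [hn0] at hn
    simp at hn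
    linarith
  have hne_ij : i ≠ j := by
    rintro rfl; simp at hij
  have hne_jk : j ≠ k := by
    rintro rfl; simp at hjk
  have hne_ki : k ≠ i := by
    rintro rfl; simp at hki
  have hnorm : ∀ a b : ι, a ≠ b → 2 ≤ ‖c a - c b‖ := by
    intro a b hab
    have h1 := hs a b hab
    rw [normSq_eq_norm_sq] at h1
    nlinarith [norm_nonneg (c a - c b)]
  have b1 := b4_low h.R0 h.R2 p1 l1 (hnorm j k hne_jk)
  have b2 := b4_low h.R0 h.R2 p2 l2 (hnorm k i hne_ki)
  have b3 := b4_low h.R0 h.R2 p3 l3 (hnorm i j hne_ij)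
  exact ⟨_, _, _, ⟨b1, by linarith⟩, ⟨b2, by linarith⟩, ⟨b3, by linarith⟩, hsum, l3, l1, l2,
    n1, n2, n3⟩

private theorem b4_Gf {a R M : ℝ} (hR : 0 < R)
    (ha : a ∈ Set.Icc (Real.pi / 4) (Real.pi / 2)) :
    Gf M (2 * R * Real.sin a) R =
      R ^ 2 * (Real.sin a * Real.cos a) / 2 - M / (2 * Real.pi) * (Real.pi / 2 - a) := by
  have hpi := Real.pi_pos
  have hsin : 0 < Real.sin a := Real.sin_pos_of_pos_of_lt_pi (by linarith [ha.1]) (by linarith [ha.2])
  have h1 : 2 * R * Real.sin a / (2 * R) = Real.sin a := by field_simp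
  have h2 : Real.arccos (Real.sin a) = Real.pi / 2 - a := by
    rw [Real.arccos_eq_pi_div_two_sub_arcsin, Real.arcsin_sin (by linarith [ha.1]) ha.2]
  unfold Gf
  rw [h1, h2, Real.tan_eq_sin_div_cos, Real.sin_pi_div_two_sub, Real.cos_pi_div_two_sub]
  field_simp
  ring

/-- The area of a triangle as the sum of the six right triangles. -/
theorem Gf_sum {a₁ a₂ a₃ R M : ℝ} (hR : 0 < R) (h₁ : a₁ ∈ Set.Icc (Real.pi / 4) (Real.pi / 2))
    (h₂ : a₂ ∈ Set.Icc (Real.pi / 4) (Real.pi / 2))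
    (h₃ : a₃ ∈ Set.Icc (Real.pi / 4) (Real.pi / 2)) (h : a₁ + a₂ + a₃ = Real.pi) :
    2 * (Gf M (2 * R * Real.sin a₃) R + Gf M (2 * R * Real.sin a₁) R +
      Gf M (2 * R * Real.sin a₂) R) =
    2 * R ^ 2 * (Real.sin a₁ * Real.sin a₂ * Real.sin a₃) - M / 2 := by
  rw [b4_Gf hR h₁, b4_Gf hR h₂, b4_Gf hR h₃]
  have hpi := Real.pi_pos
  have h3 : a₃ = Real.pi - (a₁ + a₂) := by linarith
  have hs : Real.sin a₃ = Real.sin a₁ * Real.cos a₂ + Real.cos a₁ * Real.sin a₂ := by
    rw [h3, Real.sin_pi_sub, Real.sin_add]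
  have hc : Real.cos a₃ = -(Real.cos a₁ * Real.cos a₂ - Real.sin a₁ * Real.sin a₂) := by
    rw [h3, Real.cos_pi_sub, Real.cos_add]
  have hM : M / (2 * Real.pi) * (Real.pi / 2 - a₃) + M / (2 * Real.pi) * (Real.pi / 2 - a₁) +
      M / (2 * Real.pi) * (Real.pi / 2 - a₂) = M / 4 := by
    rw [← mul_add, ← mul_add, h3]
    field_simp
    ring
  have e1 := Real.sin_sq_add_cos_sq a₁
  have e2 := Real.sin_sq_add_cos_sq a₂
  have hid : Real.sin a₃ * Real.cos a₃ + Real.sin a₁ * Real.cos a₁ + Real.sin a₂ * Real.cos a₂ =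
      2 * (Real.sin a₁ * Real.sin a₂ * Real.sin a₃) := by
    rw [hs, hc]
    linear_combination (-(Real.sin a₁ * Real.cos a₁)) * e2 - (Real.sin a₂ * Real.cos a₂) * e1
  linear_combination (-2) * hM + R ^ 2 * hid

end Hepta
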