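import Pool.Agent.H69.Hep.A15
import Pool.Agent.H69.Hep.B1
import Pool.Agent.H69.Hep.B2
import Pool.Agent.H69.Hep.B4

/-! # B5: the global inequality for heptagons -/

set_option autoImplicit false

namespace Hepta

open Complex MeasureTheory

private theorem B5_dt (z : ℂ) (ψ : ℝ) : dt z (ui ψ) = ‖z‖ * Real.cos (ψ - arg z) := by
  rw [Real.cos_sub]
  have h1 := Complex.norm_mul_cos_arg z
  have h2 := Complex.norm_mul_sin_arg z
  change z.re * Real.cos ψ + z.im * Real.sin ψ = _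
  rw [← h1, ← h2]
  ring

/-- The pair condition for two heptagons. -/
theorem Ed_of_disjoint {c₁ c₂ : ℂ} {θ₁ θ₂ : ℝ}
    (h : Disjoint (interior (Hp c₁ θ₁)) (interior (Hp c₂ θ₂))) :
    Ed (arg (c₂ - c₁) - θ₁) (arg (c₁ - c₂) - θ₂) ‖c₁ - c₂‖ := by
  obtain ⟨ψ, hψ⟩ := Hp_sep h
  simp only [B5_dt] at hψ
  have h1 := Ed_of_sep (norm_nonneg (c₂ - c₁)) hψ
  have hne : c₂ - c₁ ≠ 0 := by
    intro h0
    have h2 := Ed_two h1 (norm_nonneg _)
    rw [h0, norm_zero] at h2
    norm_num at h2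
  have h3 := Complex.arg_neg_coe_angle hne
  rw [← Real.Angle.coe_add, Real.Angle.angle_eq_iff_two_pi_dvd_sub] at h3
  obtain ⟨n, hn⟩ := h3
  rw [neg_sub] at hn
  have h4 := Ed_turn h1 0 n
  have e1 : arg (c₂ - c₁) - θ₁ + ((0 : ℤ) : ℝ) * (2 * Real.pi) = arg (c₂ - c₁) - θ₁ := by
    push_cast
    ring
  have e2 : arg (c₂ - c₁) + Real.pi - θ₂ + (n : ℝ) * (2 * Real.pi) = arg (c₁ - c₂) - θ₂ := by
    linarith
  rw [e1, e2] at h4
  rw [norm_sub_rev]
  exact h4

theorem hept_global {ι : Type*} [Fintype ι] [DecidableEq ι] {V : ℝ → ℝ} {M l₀ : ℝ}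
    (hV : ∀ x, V (x + ww) = V x) (hM : M ≤ 2 * Real.pi) (hE : LocE V M l₀) (hT : LocT V M l₀)
    (c : ι → ℂ) (θ : ι → ℝ)
    (hd : Pairwise fun i j => Disjoint (interior (Hp (c i) (θ i))) (interior (Hp (c j) (θ j)))) :
    (Fintype.card ι : ℝ) * M ≤ (volume (⋃ i, Metric.ball (c i) (Real.sqrt 2))).toReal := by
  have hper : ∀ (x : ℝ) (n : ℤ), V (x + n * (2 * Real.pi)) = V x := by
    intro x n
    have h1 : Function.Periodic V ww := hV
    have h2 := h1.int_mul (n * 7) x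
    have e : ((n * 7 : ℤ) : ℝ) * ww = n * (2 * Real.pi) := by
      unfold ww
      push_cast
      ring
    rw [e] at h2
    exact h2
  have hEd : ∀ i j, i ≠ j → Ed (arg (c j - c i) - θ i) (arg (c i - c j) - θ j) ‖c i - c j‖ :=
    fun i j hij => Ed_of_disjoint (hd hij)
  have h2le : ∀ i j, i ≠ j → 2 ≤ ‖c i - c j‖ := fun i j hij => Ed_two (hEd i j hij) (norm_nonneg _)
  have hs : Sep c := by
    intro i j hij
    rw [Complex.normSq_eq_norm_sq]
    have := h2le i j hij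
    nlinarith
  refine global hs hM (η := fun i j => cut l₀ ‖c i - c j‖
    (V (arg (c j - c i) - θ i) - V (arg (c i - c j) - θ j))) ?_ ?_ ?_
  · intro i j
    unfold cut
    rw [norm_sub_rev (c j) (c i)]
    split_ifs
    · ring
    · ring
  · intro i j hij
    exact hE _ _ _ (hEd i j hij) (h2le i j hij)
  · intro i j k v R hS
    obtain ⟨a₁, a₂, a₃, h1, h2, h3, hsum, l3, l1, l2, ⟨n1, e1⟩, ⟨n2, e2⟩, ⟨n3, e3⟩⟩ :=
      hS.angles hs
    have hpos := hS.pos
    have hij : i ≠ j := by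
      rintro rfl
      simp [cr] at hpos
    have hik : i ≠ k := by
      rintro rfl
      simp [cr] at hpos
    have hjk : j ≠ k := by
      rintro rfl
      unfold cr at hpos
      linarith
    have hA := hEd i j hij
    have hB := hEd j k hjk
    have hC := hEd k i hik.symm
    have hcut := hT R (arg (c j - c i) - θ i) (arg (c k - c j) - θ j) (arg (c i - c k) - θ k)
      a₁ a₂ a₃ hS.R0 hS.R2 h1 h2 h3 hsum
    have f2 : arg (c i - c j) - θ j = arg (c k - c j) - θ j + a₂ + n2 * (2 * Real.pi) := by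
      rw [e2]; ring
    have f3 : arg (c j - c k) - θ k = arg (c i - c k) - θ k + a₃ + n3 * (2 * Real.pi) := by
      rw [e3]; ring
    have f1 : arg (c k - c i) - θ i = arg (c j - c i) - θ i + a₁ + n1 * (2 * Real.pi) := by
      rw [e1]; ring
    have hA' := Ed_turn hA 0 (-n2)
    have hB' := Ed_turn hB 0 (-n3)
    have hC' := Ed_turn hC 0 (-n1)
    rw [f2] at hA'
    rw [f3] at hB'
    rw [f1] at hC'
    have g : ∀ x : ℝ, x + ((0 : ℤ) : ℝ) * (2 * Real.pi) = x := by
      intro x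
      push_cast
      ring
    have g' : ∀ (x : ℝ) (n : ℤ), x + n * (2 * Real.pi) + ((-n : ℤ) : ℝ) * (2 * Real.pi) = x := by
      intro x n
      push_cast
      ring
    rw [g, g', l3] at hA'
    rw [g, g', l1] at hB'
    rw [g, g', l2] at hC'
    have hfin := hcut hA' hB' hC'
    rw [f1, f2, f3, hper, hper, hper, l1, l2, l3, Gf_sum hS.R0 h1 h2 h3 hsum]
    exact hfin

end Hepta
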