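import Pool.Agent.H69.Hep.Defs

/-! # C1: the functions of the inequality for triangles -/

set_option autoImplicit false

namespace Hepta

/-- The unit of angles. -/
noncomputable def gu : ℝ := Real.pi / 3584

/-- The cosine of the distance to the nearest multiple of `ww`. -/
noncomputable def cw (x : ℝ) : ℝ := Real.cos (x - round (x / ww) * ww)

/-- Half of the least distance of two heptagons with the relative orientation `x`. -/
noncomputable def fw (x : ℝ) : ℝ :=
  (1 + Real.cos (ww / 2 - |x - round (x / ww) * ww|) / Real.cos (ww / 2)) / 2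

/-- The scaled functions, in the unit `gu`. -/
noncomputable def GS (t : ℝ) : ℝ := 2 ^ 30 * Real.log (Real.sin (t * gu))
noncomputable def GC (t : ℝ) : ℝ := -(2 ^ 30 * Real.log (cw (t * gu)))
noncomputable def GF (t : ℝ) : ℝ := 2 ^ 30 * Real.log (fw (t * gu))
noncomputable def GV (V : ℝ → ℝ) (t : ℝ) : ℝ := 2 ^ 30 * V (t * gu)

theorem ww_eq : ww = 1024 * gu := by
  unfold ww gu
  ring

theorem gu_pos : 0 < gu := by
  unfold gu
  positivity

private theorem C1_ww_pos : 0 < ww := by
  unfold ww
  positivity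

private theorem C1_seven : 7 * ww = 2 * Real.pi := by
  unfold ww
  ring

theorem cos_half_pos' : 0 < Real.cos (ww / 2) := by
  have h := C1_ww_pos
  have h7 := C1_seven
  have hp := Real.pi_pos
  apply Real.cos_pos_of_mem_Ioo
  constructor <;> linarith

theorem abs_sub_round (x : ℝ) : |x - round (x / ww) * ww| ≤ ww / 2 := by
  have h := C1_ww_pos
  have h1 : x - round (x / ww) * ww = (x / ww - round (x / ww)) * ww := by
    field_simp
  rw [h1, abs_mul, abs_of_pos h]
  have h2 := _root_.abs_sub_round (x / ww)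
  nlinarith

theorem cw_ge_half (x : ℝ) : Real.cos (ww / 2) ≤ cw x := by
  have h := C1_ww_pos
  have h7 := C1_seven
  have hp := Real.pi_pos
  unfold cw
  rw [← Real.cos_abs (x - _)]
  exact Real.cos_le_cos_of_nonneg_of_le_pi (abs_nonneg _) (by linarith) (abs_sub_round x)

theorem cw_pos (x : ℝ) : 0 < cw x := lt_of_lt_of_le cos_half_pos' (cw_ge_half x)

theorem cw_le_one (x : ℝ) : cw x ≤ 1 := Real.cos_le_one _

private theorem C1_cos_add (d : ℝ) (hd : |d| ≤ ww / 2) (k : ℤ) :
    Real.cos (d + k * ww) ≤ Real.cos d := by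
  have h := C1_ww_pos
  have h7 := C1_seven
  have hp := Real.pi_pos
  have hd' := abs_le.1 hd
  set s : ℤ := k % 7 with hs
  have hs0 : 0 ≤ s := Int.emod_nonneg k (by norm_num)
  have hs6 : s ≤ 6 := by
    have := Int.emod_lt_of_pos k (show (0 : ℤ) < 7 by norm_num)
    omega
  have hk : k = 7 * (k / 7) + s := by
    rw [hs]
    exact (Int.mul_ediv_add_emod k 7).symm
  have hkR : (k : ℝ) = 7 * ((k / 7 : ℤ) : ℝ) + (s : ℝ) := by
    exact_mod_cast congrArg (fun z : ℤ => (z : ℝ)) hk
  have h1 : d + k * ww = (d + s * ww) + ((k / 7 : ℤ) : ℝ) * (2 * Real.pi) := by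
    rw [hkR, ← h7]
    ring
  rw [h1, Real.cos_add_int_mul_two_pi]
  have h2 : Real.cos d - Real.cos (d + s * ww) =
      2 * (Real.sin (d + s * ww / 2) * Real.sin (s * ww / 2)) := by
    rw [Real.cos_sub_cos]
    have e1 : (d + (d + s * ww)) / 2 = d + s * ww / 2 := by ring
    have e2 : (d - (d + s * ww)) / 2 = -(s * ww / 2) := by ring
    rw [e1, e2, Real.sin_neg]
    ring
  have hs0' : (0 : ℝ) ≤ s := by exact_mod_cast hs0
  have hs6' : (s : ℝ) ≤ 6 := by exact_mod_cast hs6
  have h3 : 0 ≤ Real.sin (d + s * ww / 2) * Real.sin (s * ww / 2) := by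
    rcases hs0.eq_or_lt with h0 | h0
    · rw [← h0]
      simp
    · have h1' : (1 : ℝ) ≤ s := by exact_mod_cast h0
      apply mul_nonneg
      · apply Real.sin_nonneg_of_nonneg_of_le_pi
        · nlinarith
        · nlinarith
      · apply Real.sin_nonneg_of_nonneg_of_le_pi
        · positivity
        · nlinarith
  linarith

/-- The nearest multiple of `ww` gives the largest cosine. -/
theorem cos_le_cw (x : ℝ) (m : ℤ) : Real.cos (x - m * ww) ≤ cw x := by
  have h := C1_cos_add (x - round (x / ww) * ww) (abs_sub_round x) (round (x / ww) - m)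
  have h1 : x - round (x / ww) * ww + ((round (x / ww) - m : ℤ) : ℝ) * ww = x - m * ww := by
    push_cast
    ring
  rw [h1] at h
  exact h

private theorem C1_shift (x : ℝ) (n : ℤ) :
    x + n * ww - round ((x + n * ww) / ww) * ww = x - round (x / ww) * ww := by
  have h := C1_ww_pos
  have h1 : (x + n * ww) / ww = x / ww + n := by
    field_simp
  rw [h1, round_add_intCast]
  push_cast
  ring

private theorem C1_round_le (x : ℝ) (m : ℤ) :
    |x - round (x / ww) * ww| ≤ |x - m * ww| := by
  have h := C1_ww_pos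
  have h1 : ∀ r : ℤ, x - r * ww = (x / ww - r) * ww := by
    intro r
    field_simp
  rw [h1, h1, abs_mul, abs_mul]
  exact mul_le_mul_of_nonneg_right (round_le (x / ww) m) (abs_nonneg _)

private theorem C1_abs_neg_le (x : ℝ) :
    |x - round (x / ww) * ww| ≤ |-x - round (-x / ww) * ww| := by
  have h := C1_round_le x (-round (-x / ww))
  have h1 : x - ((-round (-x / ww) : ℤ) : ℝ) * ww = -(-x - round (-x / ww) * ww) := by
    push_cast
    ring
  rw [h1, abs_neg] at h
  exact h

private theorem C1_abs_neg (x : ℝ) :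
    |-x - round (-x / ww) * ww| = |x - round (x / ww) * ww| := by
  apply le_antisymm
  · have h := C1_abs_neg_le (-x)
    rw [neg_neg] at h
    exact h
  · exact C1_abs_neg_le x

theorem cw_add (x : ℝ) (n : ℤ) : cw (x + n * ww) = cw x := by
  unfold cw
  rw [C1_shift]

theorem fw_add (x : ℝ) (n : ℤ) : fw (x + n * ww) = fw x := by
  unfold fw
  rw [C1_shift]

theorem cw_neg (x : ℝ) : cw (-x) = cw x := by
  unfold cw
  rw [← Real.cos_abs (-x - _), C1_abs_neg, Real.cos_abs]

theorem fw_neg (x : ℝ) : fw (-x) = fw x := by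
  unfold fw
  rw [C1_abs_neg]

private theorem C1_scale (t : ℝ) (n : ℤ) : (t + n * 1024) * gu = t * gu + n * ww := by
  rw [ww_eq]
  ring

theorem GC_add (t : ℝ) (n : ℤ) : GC (t + n * 1024) = GC t := by
  unfold GC
  rw [C1_scale, cw_add]

theorem GF_add (t : ℝ) (n : ℤ) : GF (t + n * 1024) = GF t := by
  unfold GF
  rw [C1_scale, fw_add]

theorem GC_neg (t : ℝ) : GC (-t) = GC t := by
  unfold GC
  rw [neg_mul, cw_neg]

theorem GF_neg (t : ℝ) : GF (-t) = GF t := by
  unfold GF
  rw [neg_mul, fw_neg]

end Hepta
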