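import Pool.Agent.H69.Hep.C1

/-! # C1b: the condition for a pair in terms of `fw` and `cw` -/

set_option autoImplicit false

namespace Hepta

theorem one_le_fw (x : ℝ) : 1 ≤ fw x := by
  unfold fw
  have hd0 : 0 ≤ |x - round (x / ww) * ww| := abs_nonneg _
  have hd1 := abs_sub_round x
  set d := |x - round (x / ww) * ww| with hd
  have hc := cos_half_pos'
  have hw0 : 0 ≤ ww / 2 := hd0.trans hd1
  have hwpi : ww / 2 ≤ Real.pi := by
    unfold ww
    have := Real.pi_pos
    linarith
  have h1 : Real.cos (ww / 2) ≤ Real.cos (ww / 2 - d) :=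
    Real.cos_le_cos_of_nonneg_of_le_pi (by linarith) hwpi (by linarith)
  have h2 : 1 ≤ Real.cos (ww / 2 - d) / Real.cos (ww / 2) := by
    rw [le_div_iff₀ hc, one_mul]
    exact h1
  linarith

/-- The best vertex. -/
theorem fw_le {x z : ℝ}
    (h : ∀ n : ℤ, 1 + Real.cos (x - (n + 1 / 2) * ww) / Real.cos (ww / 2) ≤ z) :
    2 * fw x ≤ z := by
  have key : 2 * fw x =
      1 + Real.cos (ww / 2 - |x - round (x / ww) * ww|) / Real.cos (ww / 2) := by
    unfold fw
    ring
  rw [key]
  rcases le_or_gt 0 (x - round (x / ww) * ww) with he | he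
  · have h1 := h (round (x / ww))
    rw [abs_of_nonneg he]
    have h2 : Real.cos (ww / 2 - (x - round (x / ww) * ww)) =
        Real.cos (x - ((round (x / ww) : ℤ) + 1 / 2) * ww) := by
      rw [← Real.cos_neg]
      congr 1
      ring
    rw [h2]
    exact h1
  · have h1 := h (round (x / ww) - 1)
    rw [abs_of_neg he]
    have h2 : Real.cos (ww / 2 - -(x - round (x / ww) * ww)) =
        Real.cos (x - (((round (x / ww) - 1 : ℤ) : ℝ) + 1 / 2) * ww) := by
      congr 1
      push_cast
      ring
    rw [h2]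
    exact h1

/-- The pair condition in terms of `fw` and `cw`. -/
theorem Ed.fw_le {x y l : ℝ} (h : Ed x y l) (hl : 0 < l) :
    2 * fw (x - y) ≤ l * max (cw x) (cw y) := by
  obtain ⟨m, h | h⟩ := h
  · exact (Hepta.fw_le h).trans (mul_le_mul_of_nonneg_left
      ((cos_le_cw x m).trans (le_max_left _ _)) hl.le)
  · exact (Hepta.fw_le h).trans (mul_le_mul_of_nonneg_left
      ((cos_le_cw y m).trans (le_max_right _ _)) hl.le)

end Hepta
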