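import Pool.Agent.H69.Hep.C1

/-! # C2: chords and concavity -/

set_option autoImplicit false

namespace Hepta

/-- The lower bound by a line of slope `s` for a function that is concave up to a multiple of
`t ^ 2`. -/
theorem chord_le {f : ℝ → ℝ} {a b K Ta Tb : ℝ} (hK : 0 ≤ K)
    (hf : ConcaveOn ℝ (Set.Icc a b) fun t => f t - K / 2 * t ^ 2) (ha : Ta ≤ f a) (hb : Tb ≤ f b)
    (s : ℝ) {t : ℝ} (ht : t ∈ Set.Icc a b) :
    s * t + (min (Ta - s * a) (Tb - s * b) - K * (b - a) ^ 2 / 8) ≤ f t := by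
  have hab : a ≤ b := ht.1.trans ht.2
  have ht' := ht
  rw [← segment_eq_Icc hab] at ht'
  obtain ⟨v, u, hv, hu, huv, htu⟩ := ht'
  have h1 := hf.2 (Set.left_mem_Icc.mpr hab) (Set.right_mem_Icc.mpr hab) hv hu huv
  simp only [smul_eq_mul] at h1 htu
  rw [htu] at h1
  have hv' : v = 1 - u := by linarith
  subst hv'
  have e1 : t ^ 2 - (1 - u) * a ^ 2 - u * b ^ 2 = -(u * (1 - u) * (b - a) ^ 2) := by
    rw [← htu]
    ring
  have e2 : u * (1 - u) ≤ 1 / 4 := by nlinarith [sq_nonneg (u - 1 / 2)]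
  have e3 : K / 2 * (u * (1 - u) * (b - a) ^ 2) ≤ K * (b - a) ^ 2 / 8 := by
    have : K * (b - a) ^ 2 * (u * (1 - u)) ≤ K * (b - a) ^ 2 * (1 / 4) :=
      mul_le_mul_of_nonneg_left e2 (mul_nonneg hK (sq_nonneg _))
    linarith
  have e4 : (1 - u) * Ta ≤ (1 - u) * f a := mul_le_mul_of_nonneg_left ha hv
  have e5 : u * Tb ≤ u * f b := mul_le_mul_of_nonneg_left hb hu
  have e6 : (1 - u) * min (Ta - s * a) (Tb - s * b) ≤ (1 - u) * (Ta - s * a) :=
    mul_le_mul_of_nonneg_left (min_le_left _ _) hv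
  have e7 : u * min (Ta - s * a) (Tb - s * b) ≤ u * (Tb - s * b) :=
    mul_le_mul_of_nonneg_left (min_le_right _ _) hu
  have e8 : f t ≥ (1 - u) * f a + u * f b - K / 2 * (u * (1 - u) * (b - a) ^ 2) := by
    have h2 : K / 2 * (t ^ 2 - (1 - u) * a ^ 2 - u * b ^ 2)
        = -(K / 2 * (u * (1 - u) * (b - a) ^ 2)) := by
      rw [e1]; ring
    linarith
  have e9 : s * t = (1 - u) * (s * a) + u * (s * b) := by
    rw [← htu]
    ring
  linarith

theorem concave_GS : ConcaveOn ℝ (Set.Icc (1 : ℝ) 3583) GS := by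
  have hpi := Real.pi_pos
  have hmem : ∀ t ∈ Set.Icc (1 : ℝ) 3583, 0 < t * gu ∧ t * gu < Real.pi := by
    intro t ht
    refine ⟨mul_pos (by linarith [ht.1]) gu_pos, ?_⟩
    have h1 : t * gu ≤ 3583 * gu := mul_le_mul_of_nonneg_right ht.2 gu_pos.le
    have h2 : 3584 * gu = Real.pi := by unfold gu; ring
    have h3 := gu_pos
    linarith
  refine ⟨convex_Icc _ _, ?_⟩
  intro x hx y hy a b ha hb hab
  have hx' := hmem x hx
  have hy' := hmem y hy
  have sx : 0 < Real.sin (x * gu) := Real.sin_pos_of_pos_of_lt_pi hx'.1 hx'.2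
  have sy : 0 < Real.sin (y * gu) := Real.sin_pos_of_pos_of_lt_pi hy'.1 hy'.2
  have h1 := strictConcaveOn_sin_Icc.concaveOn.2
    (show x * gu ∈ Set.Icc 0 Real.pi from ⟨hx'.1.le, hx'.2.le⟩)
    (show y * gu ∈ Set.Icc 0 Real.pi from ⟨hy'.1.le, hy'.2.le⟩) ha hb hab
  have h2 := strictConcaveOn_log_Ioi.concaveOn.2 (Set.mem_Ioi.mpr sx) (Set.mem_Ioi.mpr sy) ha hb hab
  simp only [smul_eq_mul] at h1 h2 ⊢
  have hpos : 0 < a * Real.sin (x * gu) + b * Real.sin (y * gu) := by
    rcases eq_or_lt_of_le ha with h | h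
    · have hb1 : b = 1 := by linarith
      rw [← h, hb1]
      linarith
    · have := mul_pos h sx
      have := mul_nonneg hb sy.le
      linarith
  have h3 := Real.log_le_log hpos h1
  have e : (a * x + b * y) * gu = a * (x * gu) + b * (y * gu) := by ring
  unfold GS
  rw [e]
  have h4 := h2.trans h3
  nlinarith

private theorem C2_cos {y : ℝ} (hy : |y| ≤ 512 * gu) : 9005 / 10000 ≤ Real.cos y := by
  have h1 : Real.cos y = 2 * Real.cos (y / 2) ^ 2 - 1 := by
    rw [← Real.cos_two_mul]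
    congr 1
    ring
  have h2 := Real.one_sub_sq_div_two_le_cos (x := y / 2)
  have hpi := Real.pi_lt_d4
  have hpi0 := Real.pi_pos
  have h3 : 512 * gu = Real.pi / 7 := by unfold gu; ring
  have h4 : |y| ≤ 3.1416 / 7 := by
    rw [h3] at hy
    linarith
  have h5 : y ^ 2 ≤ (3.1416 / 7) ^ 2 := by
    rw [← sq_abs]
    exact pow_le_pow_left₀ (abs_nonneg _) h4 2
  have h6 : (1 : ℝ) - (3.1416 / 7) ^ 2 / 8 ≤ Real.cos (y / 2) := by
    have : (y / 2) ^ 2 / 2 = y ^ 2 / 8 := by ring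
    linarith
  have h7 : ((1 : ℝ) - (3.1416 / 7) ^ 2 / 8) ^ 2 ≤ Real.cos (y / 2) ^ 2 :=
    pow_le_pow_left₀ (by norm_num) h6 2
  rw [h1]
  have h8 : (9005 : ℝ) / 10000 ≤ 2 * ((1 : ℝ) - (3.1416 / 7) ^ 2 / 8) ^ 2 - 1 := by norm_num
  linarith

private theorem C2_cw {n : ℤ} {t : ℝ}
    (ht : t ∈ Set.Icc ((n : ℝ) * 1024 - 512) (n * 1024 + 512)) :
    cw (t * gu) = Real.cos ((t - n * 1024) * gu) := by
  have hg := gu_pos
  have h0 : t * gu / ww = t / 1024 := by
    rw [ww_eq]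
    field_simp
  unfold cw
  rw [h0, round_eq]
  rcases eq_or_lt_of_le ht.2 with h | h
  · have h1 : t / 1024 + 1 / 2 = ((n + 1 : ℤ) : ℝ) := by
      rw [h]
      push_cast
      ring
    rw [h1, Int.floor_intCast, ww_eq, h]
    rw [← Real.cos_neg]
    congr 1
    push_cast
    ring
  · have h1 : ⌊t / 1024 + 1 / 2⌋ = n := by
      rw [Int.floor_eq_iff]
      constructor
      · have := ht.1
        linarith
      · linarith
    rw [h1, ww_eq]
    congr 1
    ring

private theorem C2_num {c : ℝ} (hc : 9005 / 10000 ≤ c) : 2 ^ 30 * gu * gu / c ^ 2 ≤ 1018 := by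
  have hc0 : 0 < c := by linarith
  rw [div_le_iff₀ (by positivity)]
  have h1 : (9005 / 10000 : ℝ) ^ 2 ≤ c ^ 2 := pow_le_pow_left₀ (by norm_num) hc 2
  have hpi := Real.pi_lt_d4
  have hpi0 := Real.pi_pos
  have h2 : Real.pi ^ 2 ≤ 3.1416 ^ 2 := pow_le_pow_left₀ hpi0.le hpi.le 2
  have h3 : (2 : ℝ) ^ 30 * gu * gu = Real.pi ^ 2 * (2 ^ 30 / 3584 ^ 2) := by
    unfold gu
    ring
  rw [h3]
  have h4 : Real.pi ^ 2 * ((2 : ℝ) ^ 30 / 3584 ^ 2) ≤ 3.1416 ^ 2 * (2 ^ 30 / 3584 ^ 2) :=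
    mul_le_mul_of_nonneg_right h2 (by norm_num)
  have h5 : (3.1416 : ℝ) ^ 2 * (2 ^ 30 / 3584 ^ 2) ≤ 1018 * (9005 / 10000) ^ 2 := by norm_num
  linarith

/-- The constant `kC = 1018` of C3. -/
theorem concave_GC (n : ℤ) : ConcaveOn ℝ (Set.Icc ((n : ℝ) * 1024 - 512) (n * 1024 + 512))
    fun t => GC t - 1018 / 2 * t ^ 2 := by
  have hg := gu_pos
  have habs : ∀ t ∈ Set.Icc ((n : ℝ) * 1024 - 512) (n * 1024 + 512),
      |(t - n * 1024) * gu| ≤ 512 * gu := by
    intro t ht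
    rw [abs_mul, abs_of_pos hg]
    apply mul_le_mul_of_nonneg_right _ hg.le
    rw [abs_le]
    constructor
    · linarith [ht.1]
    · linarith [ht.2]
  have hcos : ∀ t ∈ Set.Icc ((n : ℝ) * 1024 - 512) (n * 1024 + 512),
      9005 / 10000 ≤ Real.cos ((t - n * 1024) * gu) := fun t ht => C2_cos (habs t ht)
  have key : ConcaveOn ℝ (Set.Icc ((n : ℝ) * 1024 - 512) (n * 1024 + 512))
      fun t => -(2 ^ 30 * Real.log (Real.cos ((t - n * 1024) * gu))) - 1018 / 2 * t ^ 2 := by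
    have hin : interior (Set.Icc ((n : ℝ) * 1024 - 512) (n * 1024 + 512))
        = Set.Ioo ((n : ℝ) * 1024 - 512) (n * 1024 + 512) := interior_Icc
    have hlin : ∀ t : ℝ, HasDerivAt (fun t : ℝ => (t - n * 1024) * gu) gu t := by
      intro t
      have := ((hasDerivAt_id t).sub_const ((n : ℝ) * 1024)).mul_const gu
      simpa using this
    apply concaveOn_of_hasDerivWithinAt2_nonpos (convex_Icc _ _)
      (f' := fun t => 2 ^ 30 * gu * Real.tan ((t - n * 1024) * gu) - 1018 * t)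
      (f'' := fun t => 2 ^ 30 * gu * gu / Real.cos ((t - n * 1024) * gu) ^ 2 - 1018)
    · intro t ht
      have hc := hcos t ht
      have hc0 : Real.cos ((t - n * 1024) * gu) ≠ 0 := by
        intro h; rw [h] at hc; norm_num at hc
      apply ContinuousAt.continuousWithinAt
      fun_prop (disch := assumption)
    · intro t ht
      have ht' : t ∈ Set.Icc ((n : ℝ) * 1024 - 512) (n * 1024 + 512) := interior_subset ht
      have hc := hcos t ht'
      have hc0 : Real.cos ((t - n * 1024) * gu) ≠ 0 := by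
        intro h; rw [h] at hc; norm_num at hc
      apply HasDerivAt.hasDerivWithinAt
      have h1 := ((hlin t).cos.log hc0).const_mul ((2 : ℝ) ^ 30)
      have h2 := ((hasDerivAt_pow 2 t).const_mul ((1018 : ℝ) / 2))
      refine (h1.neg.sub h2).congr_deriv ?_
      rw [Real.tan_eq_sin_div_cos]
      field_simp
      push_cast
      ring
    · intro t ht
      have ht' : t ∈ Set.Icc ((n : ℝ) * 1024 - 512) (n * 1024 + 512) := interior_subset ht
      have hc := hcos t ht'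
      have hc0 : Real.cos ((t - n * 1024) * gu) ≠ 0 := by
        intro h; rw [h] at hc; norm_num at hc
      apply HasDerivAt.hasDerivWithinAt
      have h1 := ((Real.hasDerivAt_tan hc0).comp t (hlin t)).const_mul ((2 : ℝ) ^ 30 * gu)
      have h2 := (hasDerivAt_id t).const_mul (1018 : ℝ)
      refine (h1.sub h2).congr_deriv ?_
      field_simp
    · intro t ht
      have ht' : t ∈ Set.Icc ((n : ℝ) * 1024 - 512) (n * 1024 + 512) := interior_subset ht
      have := C2_num (hcos t ht')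
      linarith
  refine key.congr ?_
  intro t ht
  simp only [GC]
  rw [C2_cw ht]

end Hepta
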