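import Pool.Agent.H69.Hep.C1b

/-! # C2b: concavity of the distance function -/

set_option autoImplicit false

namespace Hepta

private theorem C2b_form (n : ℤ) {t : ℝ} (ht : t ∈ Set.Icc ((n : ℝ) * 1024) (n * 1024 + 1024)) :
    GF t = 2 ^ 30 * Real.log
      ((1 + Real.cos (ww / 2 - (t - n * 1024) * gu) / Real.cos (ww / 2)) / 2) := by
  obtain ⟨h1, h2⟩ := ht
  have hg := gu_pos
  have hw := ww_eq
  have hw0 : 0 < ww := by
    rw [hw]
    positivity
  unfold GF fw
  congr 5
  set s : ℝ := (t - n * 1024) * gu with hs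
  have hs0 : 0 ≤ s := mul_nonneg (by linarith) hg.le
  have hs1 : s ≤ ww := by
    rw [hs, hw]
    exact mul_le_mul_of_nonneg_right (by linarith) hg.le
  have hx : t * gu = n * ww + s := by
    rw [hs, hw]
    ring
  have hr := abs_sub_round (t * gu)
  set r : ℤ := round (t * gu / ww) with hrdef
  have e1 : t * gu - r * ww = s + ((n - r : ℤ) : ℝ) * ww := by
    rw [hx]
    push_cast
    ring
  rw [e1] at hr ⊢
  obtain ⟨h3, h4⟩ := abs_le.1 hr
  have hk : n - r = 0 ∨ n - r = -1 := by
    have h5 : ((n - r : ℤ) : ℝ) < 1 := by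
      by_contra hc
      push Not at hc
      nlinarith
    have h6 : (-2 : ℝ) < ((n - r : ℤ) : ℝ) := by
      by_contra hc
      push Not at hc
      nlinarith
    have h7 : n - r < 1 := by exact_mod_cast h5
    have h8 : -2 < n - r := by exact_mod_cast h6
    omega
  rcases hk with hk | hk
  · rw [hk]
    push_cast
    rw [zero_mul, add_zero, abs_of_nonneg hs0]
  · rw [hk]
    push_cast
    have e2 : s + -1 * ww = -(ww - s) := by ring
    rw [e2, abs_neg, abs_of_nonneg (by linarith), ← Real.cos_neg]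
    congr 1
    ring

theorem concave_GF (n : ℤ) : ConcaveOn ℝ (Set.Icc ((n : ℝ) * 1024) (n * 1024 + 1024)) GF := by
  refine ⟨convex_Icc _ _, fun x hx y hy a b ha hb hab => ?_⟩
  have hg := gu_pos
  have hw := ww_eq
  have hpi := Real.pi_pos
  have hwpi : ww / 2 ≤ Real.pi / 2 := by
    unfold ww
    linarith
  have hc := cos_half_pos'
  have hz : a • x + b • y ∈ Set.Icc ((n : ℝ) * 1024) (n * 1024 + 1024) :=
    (convex_Icc _ _) hx hy ha hb hab
  rw [C2b_form n hx, C2b_form n hy, C2b_form n hz]
  -- the arguments of the cosine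
  have hmem : ∀ t ∈ Set.Icc ((n : ℝ) * 1024) (n * 1024 + 1024),
      ww / 2 - (t - n * 1024) * gu ∈ Set.Icc (-(Real.pi / 2)) (Real.pi / 2) := by
    intro t ht
    have h1 : 0 ≤ (t - n * 1024) * gu := mul_nonneg (by linarith [ht.1]) hg.le
    have h2 : (t - n * 1024) * gu ≤ 1024 * gu :=
      mul_le_mul_of_nonneg_right (by linarith [ht.2]) hg.le
    constructor
    · rw [← hw] at h2
      linarith
    · linarith
  have hpos : ∀ t ∈ Set.Icc ((n : ℝ) * 1024) (n * 1024 + 1024),
      0 < (1 + Real.cos (ww / 2 - (t - n * 1024) * gu) / Real.cos (ww / 2)) / 2 := by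
    intro t ht
    have h1 := Real.cos_nonneg_of_mem_Icc (hmem t ht)
    have h2 : 0 ≤ Real.cos (ww / 2 - (t - n * 1024) * gu) / Real.cos (ww / 2) :=
      div_nonneg h1 hc.le
    linarith
  have hcos := strictConcaveOn_cos_Icc.concaveOn.2 (hmem x hx) (hmem y hy) ha hb hab
  simp only [smul_eq_mul] at hcos ⊢
  have e1 : a * (ww / 2 - (x - n * 1024) * gu) + b * (ww / 2 - (y - n * 1024) * gu) =
      ww / 2 - (a * x + b * y - n * 1024) * gu := by
    have hb' : b = 1 - a := by linarith
    subst hb'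
    ring
  rw [e1] at hcos
  set X := (1 + Real.cos (ww / 2 - (x - n * 1024) * gu) / Real.cos (ww / 2)) / 2 with hX
  set Y := (1 + Real.cos (ww / 2 - (y - n * 1024) * gu) / Real.cos (ww / 2)) / 2 with hY
  have hX0 : 0 < X := hpos x hx
  have hY0 : 0 < Y := hpos y hy
  have hlog := strictConcaveOn_log_Ioi.concaveOn.2 (Set.mem_Ioi.2 hX0) (Set.mem_Ioi.2 hY0) ha hb hab
  simp only [smul_eq_mul] at hlog
  have h1 : a * X + b * Y ≤
      (1 + Real.cos (ww / 2 - (a * x + b * y - n * 1024) * gu) / Real.cos (ww / 2)) / 2 := by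
    have h2 := div_le_div_of_nonneg_right hcos hc.le
    have e2 : a * X + b * Y = (1 + (a * Real.cos (ww / 2 - (x - n * 1024) * gu) +
        b * Real.cos (ww / 2 - (y - n * 1024) * gu)) / Real.cos (ww / 2)) / 2 := by
      rw [hX, hY]
      have hb' : b = 1 - a := by linarith
      subst hb'
      field_simp
      ring
    rw [e2]
    linarith
  have h0 : 0 < a * X + b * Y := by
    rcases eq_or_lt_of_le ha with h | h
    · rw [← h] at hab ⊢
      have : b = 1 := by linarith
      rw [this]
      linarith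
    · have : 0 < a * X := mul_pos h hX0
      have : 0 ≤ b * Y := mul_nonneg hb hY0.le
      linarith
  have h3 := Real.log_le_log h0 h1
  have h4 := hlog.trans h3
  nlinarith

theorem GC_nonneg (t : ℝ) : 0 ≤ GC t := by
  unfold GC
  have h := Real.log_nonpos (cw_pos (t * gu)).le (cw_le_one (t * gu))
  linarith

theorem GF_nonneg (t : ℝ) : 0 ≤ GF t := by
  unfold GF
  have h := Real.log_nonneg (one_le_fw (t * gu))
  positivity

theorem GF_zero (n : ℤ) : GF (n * 1024) = 0 := by
  have h := GF_add 0 n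
  rw [zero_add] at h
  rw [h]
  unfold GF fw
  have hc := cos_half_pos'
  simp
  right
  rw [div_self hc.ne']
  norm_num

end Hepta
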