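import Pool.Agent.H69.Hep.Defs

/-! # C3: the checker for the inequality for triangles (project HEP)

Angles are measured in the unit `gu = π / 3584` (so `ww = 1024 gu`), values of functions in the unit
`2 ^ (-30)`.  A box consists of intervals for `ξᵢ = xᵢ / gu + 1024` (`i = 1, 2, 3`) and for
`α₁ = a₁ / gu`, `α₂ = a₂ / gu`, and of the knowledge on the three edges: `0` nothing, `1` the first
direction is nearer to a normal than the second one, `2` conversely. -/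

set_option autoImplicit false

namespace Hepta

/-- The offset of slopes. -/
def oS : Nat := 1099511627776

/-- A linear lower bound `t ↦ (p - n) + (s - oS) (t - a)` on an interval `[a, b]`. -/
structure Ln where
  s : Nat
  p : Nat
  n : Nat

structure Box where
  l1 : Nat
  h1 : Nat
  l2 : Nat
  h2 : Nat
  l3 : Nat
  h3 : Nat
  la : Nat
  ha : Nat
  lb : Nat
  hb : Nat
  t1 : Nat
  t2 : Nat
  t3 : Nat
deriving DecidableEq

/-- The entry `k` of a table with entries of 32 bits. -/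
def ent (T k : Nat) : Nat := Nat.mod (Nat.shiftRight T (Nat.mul 32 k)) 4294967296

/-- The entry `k` of a table with entries of 16 bits. -/
def ent16 (T k : Nat) : Nat := Nat.mod (Nat.shiftRight T (Nat.mul 16 k)) 65536

/-- The entry `k` of a table with entries of 64 bits. -/
def ent64 (T k : Nat) : Nat := Nat.mod (Nat.shiftRight T (Nat.mul 64 k)) 18446744073709551616

/-- The tables: `S` for `- log sin`, `C` for `- log cos`, `F` for the distance function, `V` (offset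
`2 ^ 27`), `K` for the second derivative of `V` (eight levels of blocks of length `8`), `B` for the
constants, `E` for the exceptional regions. -/
structure Tabs where
  S : Nat
  C : Nat
  F : Nat
  V : Nat
  K : Nat
  B : Nat
  E : List Box

/-- Distance to the nearest multiple of `1024`. -/
def dist1024 (k : Nat) : Nat :=
  cond (Nat.ble (Nat.mod k 1024) 512) (Nat.mod k 1024) (Nat.sub 1024 (Nat.mod k 1024))

/-- `a ≤ b` -/
def ile (a b : Int) : Bool :=
  match Int.sub b a with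
  | Int.ofNat _ => true
  | Int.negSucc _ => false

/-- The bound for the second derivative on `[a, b]`: the blocks `a / 8, …, (b + 7) / 8 - 1`. -/
def kV (T : Tabs) (a b : Nat) : Nat :=
  cond (Nat.ble 128 (Nat.sub (Nat.div (Nat.add b 7) 8) (Nat.div a 8))) (ent16 T.K 896)
    (Nat.max (ent16 T.K (Nat.add (Nat.mul 128 (Nat.log2 (Nat.sub (Nat.div (Nat.add b 7) 8)
        (Nat.div a 8)))) (Nat.mod (Nat.div a 8) 128)))
      (ent16 T.K (Nat.add (Nat.mul 128 (Nat.log2 (Nat.sub (Nat.div (Nat.add b 7) 8)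
        (Nat.div a 8)))) (Nat.mod (Nat.sub (Nat.div (Nat.add b 7) 8)
          (Nat.pow 2 (Nat.log2 (Nat.sub (Nat.div (Nat.add b 7) 8) (Nat.div a 8))))) 128))))

/-- The slope of the chord, rounded down, for the width `d`. -/
def sl (Ta Tb d : Nat) : Nat :=
  cond (Nat.beq d 0) oS (Nat.div (Nat.sub (Nat.add Tb (Nat.mul oS d)) Ta) d)

/-- The loss by the curvature. -/
def curv (K d : Nat) : Nat := Nat.div (Nat.add (Nat.mul K (Nat.mul d d)) 7) 8

/-- The bound for `log sin` on `[a, b]`. -/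
def lS (T : Tabs) (a b : Nat) : Ln :=
  ⟨sl (ent T.S (Nat.sub b 896)) (ent T.S (Nat.sub a 896)) (Nat.sub b a), 0,
    ent T.S (Nat.sub a 896)⟩

/-- The bound for `V`, with the offset `2 ^ 27`, on `[a, b]`. -/
def lV (T : Tabs) (a b : Nat) : Ln :=
  ⟨sl (ent T.V (Nat.mod a 1024)) (ent T.V (Nat.mod b 1024)) (Nat.sub b a),
    ent T.V (Nat.mod a 1024), curv (kV T a b) (Nat.sub b a)⟩

/-- The constant for `- log cos`, at least `2 ^ 30 gu ^ 2 / cos (ww / 2) ^ 2`. -/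
def kC : Nat := 1018

/-- The first odd multiple of `512` not less than `a`. -/
def zC (a : Nat) : Nat := Nat.add (Nat.mul (Nat.div (Nat.add a 511) 1024) 1024) 512

/-- The first multiple of `1024` greater than `a`. -/
def zF (a : Nat) : Nat := Nat.mul (Nat.add (Nat.div a 1024) 1) 1024

/-- The bound for `- log cos` on `[a, b]`. -/
def lC (T : Tabs) (a b : Nat) : Ln :=
  cond (Nat.ble (Nat.add a 512) b) ⟨oS, 0, 0⟩
    ⟨sl (ent T.C (dist1024 a)) (ent T.C (dist1024 b)) (Nat.sub b a), ent T.C (dist1024 a),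
      curv kC (Nat.sub b a)⟩

/-- The slope between the two sides of a break point at the distances `x` from `a` and `y` from
`b`. -/
def sF (Ta Tb x y f : Nat) : Nat :=
  Nat.div (Nat.sub (Nat.add (Nat.mul 4 oS) (Nat.mul f (Nat.div Tb y)))
    (Nat.mul (Nat.sub 4 f) (Nat.div Ta x))) 4

/-- The bound for the distance function on `[a, b]`. -/
def lF (T : Tabs) (a b : Nat) (f : Nat) : Ln :=
  cond (Nat.ble (Nat.add a 512) b) ⟨oS, 0, 0⟩
    (cond (Nat.ble b (zF a))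
      ⟨sl (ent T.F (dist1024 a)) (ent T.F (dist1024 b)) (Nat.sub b a), ent T.F (dist1024 a), 0⟩
      ⟨sF (ent T.F (dist1024 a)) (ent T.F (dist1024 b)) (Nat.sub (zF a) a) (Nat.sub b (zF a)) f,
        Nat.mul oS (Nat.sub (zF a) a),
        Nat.mul (sF (ent T.F (dist1024 a)) (ent T.F (dist1024 b)) (Nat.sub (zF a) a)
          (Nat.sub b (zF a)) f) (Nat.sub (zF a) a)⟩)

/-- The bound for `- log cos` of an edge. -/
def lE (T : Tabs) (t lx hx ly hy : Nat) : Ln :=
  cond (Nat.beq t 1) (lC T lx hx) (cond (Nat.beq t 2) (lC T ly hy) ⟨oS, 0, 0⟩)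

/-- The last step: `Wᵢ` are the widths of the intervals for `ξᵢ`, `A` and `B` the widths of the
intervals for `α₁` and `α₂`, `D` is `max (896 - lc) 0`, `wᵢ` the weights of the edges, `vᵢ` the
weights of the angles, `Uᵢ` the slope for `υᵢ`, `G` the slope for `α₃`, `Xᵢ` the slope for `ξᵢ` by
the cosine. -/
def fin (W1 W2 W3 A B D w1 w2 w3 v1 v2 v3 d : Nat) (S1 S2 S3 N1 N2 N3 P1 P2 P3 F1 F2 F3 C1 C2 C3 : Ln)
    (X1 X2 X3 U1 U2 U3 G : Nat) : Bool :=
  Nat.ble
    (Nat.add (Nat.add (Nat.add (Nat.add 9223372036854775808 1236950581248)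
      (Nat.mul 1536 (Nat.add (Nat.add (Nat.add N1.n N2.n) (Nat.add N3.n P1.n))
        (Nat.add (Nat.add P2.n P3.n) (Nat.mul oS (Nat.add (Nat.add W1 W2) W3))))))
      (Nat.add (Nat.mul w1 (Nat.add (Nat.add F1.n C1.n) (Nat.mul oS W1)))
        (Nat.add (Nat.mul w2 (Nat.add (Nat.add F2.n C2.n) (Nat.mul oS W2)))
          (Nat.mul w3 (Nat.add (Nat.add F3.n C3.n) (Nat.mul oS W3))))))
      (Nat.add (Nat.add (Nat.mul v1 S1.n) (Nat.mul v2 S2.n))
        (Nat.add (Nat.mul v3 (Nat.add S3.n (Nat.mul S3.s D)))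
          (Nat.add
            (Nat.mul (Nat.mul oS (Nat.add (Nat.add 1536 (Nat.mul 2 w2)) v3)) (Nat.add A B))
            (Nat.add (Nat.add
              (Nat.mul W1 (Nat.sub (Nat.add (Nat.mul 1536 N1.s) (Nat.add (Nat.mul w1 F1.s)
                (Nat.mul oS (Nat.mul 2 w3)))) (Nat.add U1 X1)))
              (Nat.add (Nat.mul W2 (Nat.sub (Nat.add (Nat.mul 1536 N2.s) (Nat.add (Nat.mul w2 F2.s)
                (Nat.mul oS (Nat.mul 2 w1)))) (Nat.add U2 X2)))
              (Nat.mul W3 (Nat.sub (Nat.add (Nat.mul 1536 N3.s) (Nat.add (Nat.mul w3 F3.s)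
                (Nat.mul oS (Nat.mul 2 w2)))) (Nat.add U3 X3)))))
              (Nat.add
                (Nat.mul A (Nat.sub (Nat.add G (Nat.mul oS (Nat.add (Nat.mul 2 w3) v1)))
                  (Nat.add (Nat.add U1 (Nat.mul v1 S1.s))
                    (Nat.mul oS (Nat.add (Nat.mul 2 w2) v3)))))
                (Nat.mul B (Nat.sub (Nat.add G (Nat.mul oS (Nat.add (Nat.mul 2 w1) v2)))
                  (Nat.add (Nat.add U2 (Nat.mul v2 S2.s))
                    (Nat.mul oS (Nat.add (Nat.mul 2 w2) v3)))))))))))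
    (Nat.add (Nat.add d
      (Nat.mul 1536 (Nat.add (Nat.add (Nat.add N1.p N2.p) (Nat.add N3.p P1.p))
        (Nat.add (Nat.add P2.p P3.p) (Nat.add (Nat.mul N1.s W1) (Nat.add (Nat.mul N2.s W2)
          (Nat.mul N3.s W3)))))))
      (Nat.add (Nat.add (Nat.mul w1 (Nat.add (Nat.add F1.p C1.p) (Nat.mul F1.s W1)))
        (Nat.add (Nat.mul w2 (Nat.add (Nat.add F2.p C2.p) (Nat.mul F2.s W2)))
          (Nat.mul w3 (Nat.add (Nat.add F3.p C3.p) (Nat.mul F3.s W3)))))
        (Nat.add (Nat.mul v3 (Nat.mul oS D)) (Nat.mul G (Nat.add A B)))))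

def leaf' (W1 W2 W3 A B D t1 t2 t3 w1 w2 w3 v1 v2 v3 d : Nat)
    (S1 S2 S3 N1 N2 N3 P1 P2 P3 F1 F2 F3 C1 C2 C3 : Ln) : Bool :=
  fin W1 W2 W3 A B D w1 w2 w3 v1 v2 v3 d S1 S2 S3 N1 N2 N3 P1 P2 P3 F1 F2 F3 C1 C2 C3
    (Nat.mul w1 (cond (Nat.beq t1 1) C1.s oS)) (Nat.mul w2 (cond (Nat.beq t2 1) C2.s oS))
    (Nat.mul w3 (cond (Nat.beq t3 1) C3.s oS))
    (Nat.add (Nat.mul 1536 P1.s) (Nat.mul w3 (Nat.add F3.s (cond (Nat.beq t3 2) C3.s oS))))
    (Nat.add (Nat.mul 1536 P2.s) (Nat.mul w1 (Nat.add F1.s (cond (Nat.beq t1 2) C1.s oS))))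
    (Nat.add (Nat.mul 1536 P3.s) (Nat.mul w2 (Nat.add F2.s (cond (Nat.beq t2 2) C2.s oS))))
    (Nat.add (Nat.add (Nat.mul 1536 P3.s) (Nat.mul w2 (Nat.add F2.s
      (cond (Nat.beq t2 2) C2.s oS)))) (Nat.mul v3 S3.s))

/-- The test of a box; `lc ≤ α₃ ≤ hc`, `lᵢ' ≤ υᵢ ≤ hᵢ'`. -/
def leaf (T : Tabs) (l1 h1 l2 h2 l3 h3 la ha lb hb t1 t2 t3 lc hc l1' h1' l2' h2' l3' h3' : Nat)
    (b L1 L2 L3 f1 f2 f3 : Nat) : Bool :=
  Nat.ble L1 6 && Nat.ble L2 6 && Nat.ble L3 6 && Nat.beq (Nat.add L1 (Nat.add L2 L3)) 12 &&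
    Nat.ble 400 b && Nat.ble b 599 && Nat.ble f1 4 && Nat.ble f2 4 && Nat.ble f3 4 &&
    Nat.ble h1 1536 && Nat.ble h2 1536 && Nat.ble h3 1536 && Nat.ble 512 l3 &&
    Nat.ble 896 la && Nat.ble ha 1792 && Nat.ble 896 lb && Nat.ble hb 1792 &&
    leaf' (Nat.sub h1 l1) (Nat.sub h2 l2) (Nat.sub h3 l3) (Nat.sub ha la) (Nat.sub hb lb)
      (Nat.sub 896 lc) t1 t2 t3 (Nat.mul b L1) (Nat.mul b L2) (Nat.mul b L3)
      (Nat.mul b (Nat.sub 6 L2)) (Nat.mul b (Nat.sub 6 L3)) (Nat.mul b (Nat.sub 6 L1))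
      (ent64 T.B (Nat.sub b 400))
      (lS T la ha) (lS T lb hb) (lS T (Nat.max lc 896) (Nat.min hc 1792))
      (lV T (Nat.sub 2048 h1) (Nat.sub 2048 l1)) (lV T (Nat.sub 2048 h2) (Nat.sub 2048 l2))
      (lV T (Nat.sub 2048 h3) (Nat.sub 2048 l3))
      (lV T l1' h1') (lV T l2' h2') (lV T l3' h3')
      (lF T (Nat.sub (Nat.add l2' 1024) h1) (Nat.sub (Nat.add h2' 1024) l1) f1)
      (lF T (Nat.sub (Nat.add l3' 1024) h2) (Nat.sub (Nat.add h3' 1024) l2) f2)
      (lF T (Nat.sub (Nat.add l1' 1024) h3) (Nat.sub (Nat.add h1' 1024) l3) f3)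
      (lE T t1 l1 h1 l2' h2') (lE T t2 l2 h2 l3' h3') (lE T t3 l3 h3 l1' h1')

/-- No point of the box satisfies `α₁ ≥ α₂ ≥ α₃`, `896 ≤ αᵢ ≤ 1792`. -/
def noAngle (la ha lb hb : Nat) : Bool :=
  Nat.blt ha 896 || Nat.blt 1792 la || Nat.blt hb 896 || Nat.blt 1792 lb ||
    Nat.blt 2688 (Nat.add la lb) || Nat.blt (Nat.add ha hb) 1792 || Nat.blt ha lb ||
    Nat.blt (Nat.add ha (Nat.add hb hb)) 3584

/-- Lower and upper bounds for the distance to the multiples of `1024` on `[a, b]`. -/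
def dlo (a b : Nat) : Nat :=
  cond (Nat.ble (Nat.mul (Nat.div (Nat.add a 1023) 1024) 1024) b) 0
    (Nat.min (dist1024 a) (dist1024 b))
def dhi (a b : Nat) : Nat :=
  cond (Nat.ble (zC a) b) 512 (Nat.max (dist1024 a) (dist1024 b))

/-- The knowledge `t` on the edge contradicts the intervals. -/
def noEdge (t lx hx ly hy : Nat) : Bool :=
  (Nat.beq t 1 && Nat.blt (dhi ly hy) (dlo lx hx)) ||
    (Nat.beq t 2 && Nat.blt (dhi lx hx) (dlo ly hy))

/-- The box is part of one of the exceptional regions.  Such a region is given by intervals for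
`ξ₁`, `ξ₂`, `υ₁`, `υ₂ + 1024 - ξ₁`, `υ₃ + 1024 - ξ₂`. -/
def inE (l1 h1 l2 h2 l1' h1' l2' h2' l3' h3' : Nat) : List Box → Bool
  | [] => false
  | ⟨m1, n1, m2, n2, m3, n3, ma, na, mb, nb, _, _, _⟩ :: E =>
    (Nat.ble m1 l1 && Nat.ble h1 n1 && Nat.ble m2 l2 && Nat.ble h2 n2 && Nat.ble m3 l1' &&
      Nat.ble h1' n3 && Nat.ble (Nat.add ma h1) (Nat.add l2' 1024) &&
      Nat.ble (Nat.add h2' 1024) (Nat.add na l1) && Nat.ble (Nat.add mb h2) (Nat.add l3' 1024) &&
      Nat.ble (Nat.add h3' 1024) (Nat.add nb l2)) ||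
      inE l1 h1 l2 h2 l1' h1' l2' h2' l3' h3' E

/-- Instructions (`k`): `0`-`4` split the box at `m`, `5`-`7` distinguish the two cases for an edge,
`8` no admissible angles, `9`-`11` contradiction for an edge, `12` a leaf with the data `m`, `13`
part of an exceptional region. -/
def step (T : Tabs) (k m : Nat) (B : Box) (st : List Box) : Option (List Box) :=
  match B with
  | ⟨l1, h1, l2, h2, l3, h3, la, ha, lb, hb, t1, t2, t3⟩ =>
    match k with
    | 0 => some (⟨l1, m, l2, h2, l3, h3, la, ha, lb, hb, t1, t2, t3⟩ ::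
        ⟨m, h1, l2, h2, l3, h3, la, ha, lb, hb, t1, t2, t3⟩ :: st)
    | 1 => some (⟨l1, h1, l2, m, l3, h3, la, ha, lb, hb, t1, t2, t3⟩ ::
        ⟨l1, h1, m, h2, l3, h3, la, ha, lb, hb, t1, t2, t3⟩ :: st)
    | 2 => some (⟨l1, h1, l2, h2, l3, m, la, ha, lb, hb, t1, t2, t3⟩ ::
        ⟨l1, h1, l2, h2, m, h3, la, ha, lb, hb, t1, t2, t3⟩ :: st)
    | 3 => some (⟨l1, h1, l2, h2, l3, h3, la, m, lb, hb, t1, t2, t3⟩ ::
        ⟨l1, h1, l2, h2, l3, h3, m, ha, lb, hb, t1, t2, t3⟩ :: st)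
    | 4 => some (⟨l1, h1, l2, h2, l3, h3, la, ha, lb, m, t1, t2, t3⟩ ::
        ⟨l1, h1, l2, h2, l3, h3, la, ha, m, hb, t1, t2, t3⟩ :: st)
    | 5 => cond (Nat.beq t1 0) (some (⟨l1, h1, l2, h2, l3, h3, la, ha, lb, hb, 1, t2, t3⟩ ::
        ⟨l1, h1, l2, h2, l3, h3, la, ha, lb, hb, 2, t2, t3⟩ :: st)) none
    | 6 => cond (Nat.beq t2 0) (some (⟨l1, h1, l2, h2, l3, h3, la, ha, lb, hb, t1, 1, t3⟩ ::
        ⟨l1, h1, l2, h2, l3, h3, la, ha, lb, hb, t1, 2, t3⟩ :: st)) none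
    | 7 => cond (Nat.beq t3 0) (some (⟨l1, h1, l2, h2, l3, h3, la, ha, lb, hb, t1, t2, 1⟩ ::
        ⟨l1, h1, l2, h2, l3, h3, la, ha, lb, hb, t1, t2, 2⟩ :: st)) none
    | 8 => cond (noAngle la ha lb hb) (some st) none
    | 9 => cond (noEdge t1 l1 h1 (Nat.add l2 lb) (Nat.add h2 hb)) (some st) none
    | 10 => cond (noEdge t2 l2 h2 (Nat.add l3 (Nat.sub 3584 (Nat.add ha hb)))
        (Nat.add h3 (Nat.sub 3584 (Nat.add la lb)))) (some st) none
    | 11 => cond (noEdge t3 l3 h3 (Nat.add l1 la) (Nat.add h1 ha)) (some st) none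
    | 12 => cond (leaf T l1 h1 l2 h2 l3 h3 la ha lb hb t1 t2 t3 (Nat.sub 3584 (Nat.add ha hb))
        (Nat.sub 3584 (Nat.add la lb)) (Nat.add l1 la) (Nat.add h1 ha) (Nat.add l2 lb)
        (Nat.add h2 hb) (Nat.add l3 (Nat.sub 3584 (Nat.add ha hb)))
        (Nat.add h3 (Nat.sub 3584 (Nat.add la lb)))
        (Nat.add (Nat.mod m 256) 400)
        (Nat.mod (Nat.div m 256) 16) (Nat.mod (Nat.div m 4096) 16)
        (Nat.sub 12 (Nat.add (Nat.mod (Nat.div m 256) 16) (Nat.mod (Nat.div m 4096) 16)))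
        (Nat.mod (Nat.div m 65536) 5) (Nat.mod (Nat.div m 327680) 5) (Nat.div m 1638400))
        (some st) none
    | 13 => cond (inE l1 h1 l2 h2 (Nat.add l1 la) (Nat.add h1 ha) (Nat.add l2 lb)
        (Nat.add h2 hb) (Nat.add l3 (Nat.sub 3584 (Nat.add ha hb)))
        (Nat.add h3 (Nat.sub 3584 (Nat.add la lb))) T.E) (some st) none
    | _ => none

/-- Run the instructions; the result is the remaining stack. -/
def run (T : Tabs) : List Nat → List Box → Option (List Box)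
  | [], st => some st
  | _ :: _, [] => none
  | op :: ops, B :: st =>
    match step T (Nat.mod op 16) (Nat.div op 16) B st with
    | some st' => run T ops st'
    | none => none

end Hepta
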