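import Pool.Agent.H69.Hep.C2
import Pool.Agent.H69.Hep.C3

/-! # C4: the linear lower bounds of the checker are correct -/

set_option autoImplicit false

namespace Hepta

/-- The tables are correct for the potential `W` and the constant `Mh`. -/
structure TabsOK (T : Tabs) (W : ℝ → ℝ) (Mh : ℝ) : Prop where
  hS : ∀ k : ℕ, 896 ≤ k → k ≤ 1792 → -(ent T.S (k - 896) : ℝ) ≤ GS k
  hC : ∀ k : ℕ, (ent T.C (dist1024 k) : ℝ) ≤ GC k
  hF : ∀ k : ℕ, (ent T.F (dist1024 k) : ℝ) ≤ GF k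
  hV : ∀ k : ℕ, (ent T.V (k % 1024) : ℝ) - 134217728 ≤ GV W k
  hK : ∀ a b : ℕ, a ≤ b →
    ConcaveOn ℝ (Set.Icc (a : ℝ) b) fun t => GV W t - (kV T a b : ℝ) / 2 * t ^ 2
  hB : ∀ b : ℕ, 400 ≤ b → b < 600 → (ent64 T.B (b - 400) : ℝ) - 9223372036854775808 ≤
    2 ^ 30 * (6 * b * Real.log (512 / b) - 1536 * (Mh - b / 256))

/-- The value of a line at the distance `x` from the left end. -/
def Ln.ev (L : Ln) (x : ℝ) : ℝ := (L.p : ℝ) - L.n + ((L.s : ℝ) - oS) * x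

theorem Ln.ev_mk (s p n : ℕ) (x : ℝ) :
    (Ln.mk s p n).ev x = (p : ℝ) - n + ((s : ℝ) - oS) * x := rfl

variable {T : Tabs} {W : ℝ → ℝ} {Mh : ℝ}

theorem ent_lt (T k : ℕ) : ent T k < 4294967296 :=
  Nat.mod_lt _ (by norm_num)

/-- The slope `s - oS` of `sl` is the chord slope rounded down. -/
theorem sl_spec {Ta Tb d : ℕ} (ha : Ta < 4294967296) (hd : 0 < d) :
    ((sl Ta Tb d : ℝ) - oS) * d ≤ (Tb : ℝ) - Ta := by
  have h1 : sl Ta Tb d = (Tb + oS * d - Ta) / d := by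
    unfold sl
    have : Nat.beq d 0 = false := by
      cases d with
      | zero => exact absurd hd (lt_irrefl 0)
      | succ n => rfl
    rw [this]
    rfl
  have h2 : Ta ≤ Tb + oS * d := by
    have : oS * 1 ≤ oS * d := Nat.mul_le_mul_left _ hd
    have h3 : oS = 1099511627776 := rfl
    omega
  have h3 : sl Ta Tb d * d + Ta ≤ Tb + oS * d := by
    rw [h1]
    have := Nat.div_mul_le_self (Tb + oS * d - Ta) d
    omega
  have h4 : ((sl Ta Tb d * d + Ta : ℕ) : ℝ) ≤ ((Tb + oS * d : ℕ) : ℝ) := by exact_mod_cast h3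
  push_cast at h4
  linarith

theorem le_curv (K d : ℕ) : (K : ℝ) * (d : ℝ) ^ 2 / 8 ≤ curv K d := by
  have h1 : curv K d = (K * (d * d) + 7) / 8 := rfl
  have h2 : K * (d * d) ≤ 8 * curv K d := by omega
  have h3 : ((K * (d * d) : ℕ) : ℝ) ≤ ((8 * curv K d : ℕ) : ℝ) := by exact_mod_cast h2
  push_cast at h3
  rw [div_le_iff₀ (by norm_num : (0 : ℝ) < 8)]
  nlinarith

/-- The lower bound by a chord. -/
theorem C4_line {f : ℝ → ℝ} {a b K s : ℕ} {Ta Tb : ℝ} (hab : a ≤ b)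
    (hf : ConcaveOn ℝ (Set.Icc (a : ℝ) b) fun t => f t - (K : ℝ) / 2 * t ^ 2)
    (ha : Ta ≤ f a) (hb : Tb ≤ f b) (hs : ((s : ℝ) - oS) * (b - a) ≤ Tb - Ta) {t : ℝ}
    (ht : t ∈ Set.Icc (a : ℝ) b) :
    Ta - curv K (b - a) + ((s : ℝ) - oS) * (t - a) ≤ f t := by
  have h1 := chord_le (Nat.cast_nonneg K) hf ha hb ((s : ℝ) - oS) ht
  have h2 := le_curv K (b - a)
  rw [Nat.cast_sub hab] at h2
  have h3 : Ta - ((s : ℝ) - oS) * a ≤ min (Ta - ((s : ℝ) - oS) * a) (Tb - ((s : ℝ) - oS) * b) := by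
    refine le_min le_rfl ?_
    linarith
  linarith

/-- The lower bound by a line if there is a break point `z`. -/
theorem C4_line3 {f : ℝ → ℝ} {a z b K : ℕ} {Ta Tz Tb m σ : ℝ} (haz : a ≤ z) (hzb : z ≤ b)
    (hf1 : ConcaveOn ℝ (Set.Icc (a : ℝ) z) fun t => f t - (K : ℝ) / 2 * t ^ 2)
    (hf2 : ConcaveOn ℝ (Set.Icc (z : ℝ) b) fun t => f t - (K : ℝ) / 2 * t ^ 2)
    (ha : Ta ≤ f a) (hz : Tz ≤ f z) (hb : Tb ≤ f b) (h1 : m ≤ Ta) (h2 : m + σ * (z - a) ≤ Tz)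
    (h3 : m + σ * (b - a) ≤ Tb) {t : ℝ} (ht : t ∈ Set.Icc (a : ℝ) b) :
    m - curv K (b - a) + σ * (t - a) ≤ f t := by
  have hab : a ≤ b := haz.trans hzb
  have haz' : (a : ℝ) ≤ z := by exact_mod_cast haz
  have hzb' : (z : ℝ) ≤ b := by exact_mod_cast hzb
  have hK : (0 : ℝ) ≤ K := Nat.cast_nonneg K
  have hc := le_curv K (b - a)
  rw [Nat.cast_sub hab] at hc
  rcases le_total t z with hlt | hlt
  · have c1 := chord_le hK hf1 ha hz σ ⟨ht.1, hlt⟩
    have c2 : m - σ * a ≤ min (Ta - σ * a) (Tz - σ * z) := le_min (by linarith) (by linarith)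
    have c3 : ((z : ℝ) - a) ^ 2 ≤ ((b : ℝ) - a) ^ 2 :=
      pow_le_pow_left₀ (by linarith) (by linarith) 2
    have c4 := mul_le_mul_of_nonneg_left c3 hK
    linarith
  · have c1 := chord_le hK hf2 hz hb σ ⟨hlt, ht.2⟩
    have c2 : m - σ * a ≤ min (Tz - σ * z) (Tb - σ * b) := le_min (by linarith) (by linarith)
    have c3 : ((b : ℝ) - z) ^ 2 ≤ ((b : ℝ) - a) ^ 2 :=
      pow_le_pow_left₀ (by linarith) (by linarith) 2
    have c4 := mul_le_mul_of_nonneg_left c3 hK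
    linarith

theorem lS_le (h : TabsOK T W Mh) {a b : ℕ} (ha : 896 ≤ a) (hb : b ≤ 1792) {t : ℝ}
    (ht : t ∈ Set.Icc (a : ℝ) b) : (lS T a b).ev (t - a) ≤ GS t := by
  have hab : a ≤ b := by exact_mod_cast ht.1.trans ht.2
  have h1 : ConcaveOn ℝ (Set.Icc (a : ℝ) b) fun t => GS t - ((0 : ℕ) : ℝ) / 2 * t ^ 2 := by
    have h0 : (fun t : ℝ => GS t - ((0 : ℕ) : ℝ) / 2 * t ^ 2) = GS := by
      funext t
      simp
    rw [h0]
    refine concave_GS.subset (Set.Icc_subset_Icc ?_ ?_) (convex_Icc _ _)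
    · have : (896 : ℝ) ≤ a := by exact_mod_cast ha
      linarith
    · have : (b : ℝ) ≤ 1792 := by exact_mod_cast hb
      linarith
  have h2 : ((sl (ent T.S (b - 896)) (ent T.S (a - 896)) (b - a) : ℝ) - oS) * (b - a) ≤
      -(ent T.S (b - 896) : ℝ) - -(ent T.S (a - 896) : ℝ) := by
    rcases Nat.eq_zero_or_pos (b - a) with h3 | h3
    · have : a = b := by omega
      rw [this, sub_self, mul_zero, sub_self]
    · have := sl_spec (ent_lt T.S (b - 896)) h3 (Tb := ent T.S (a - 896))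
      rw [Nat.cast_sub hab] at this
      linarith
  have h3 := C4_line hab h1 (h.hS a ha (hab.trans hb)) (h.hS b (ha.trans hab) hb) h2 ht
  have h4 : curv 0 (b - a) = 0 := by
    unfold curv
    simp
  rw [h4] at h3
  have h5 : (lS T a b).ev (t - a) = ((0 : ℕ) : ℝ) - (ent T.S (a - 896) : ℝ) +
      ((sl (ent T.S (b - 896)) (ent T.S (a - 896)) (b - a) : ℝ) - oS) * (t - a) := by
    unfold lS
    exact Ln.ev_mk _ _ _ _
  rw [h5]
  rw [Nat.cast_zero] at h3 ⊢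
  linarith

theorem lV_le (h : TabsOK T W Mh) {a b : ℕ} {t : ℝ} (ht : t ∈ Set.Icc (a : ℝ) b) :
    (lV T a b).ev (t - a) - 134217728 ≤ GV W t := by
  have hab : a ≤ b := by exact_mod_cast ht.1.trans ht.2
  have h2 : ((sl (ent T.V (a % 1024)) (ent T.V (b % 1024)) (b - a) : ℝ) - oS) * (b - a) ≤
      ((ent T.V (b % 1024) : ℝ) - 134217728) - ((ent T.V (a % 1024) : ℝ) - 134217728) := by
    rcases Nat.eq_zero_or_pos (b - a) with h3 | h3
    · have : a = b := by omega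
      rw [this, sub_self, mul_zero, sub_self]
    · have := sl_spec (ent_lt T.V (a % 1024)) h3 (Tb := ent T.V (b % 1024))
      rw [Nat.cast_sub hab] at this
      linarith
  have h3 := C4_line hab (h.hK a b hab) (h.hV a) (h.hV b) h2 ht
  have h5 : (lV T a b).ev (t - a) = (ent T.V (a % 1024) : ℝ) - (curv (kV T a b) (b - a) : ℝ) +
      ((sl (ent T.V (a % 1024)) (ent T.V (b % 1024)) (b - a) : ℝ) - oS) * (t - a) := by
    unfold lV
    exact Ln.ev_mk _ _ _ _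
  rw [h5]
  linarith

end Hepta
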