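import Pool.Agent.H69.Hep.C1
import Pool.Agent.H69.Hep.C3

/-! # C4b: small facts on the checker -/

set_option autoImplicit false

namespace Hepta

theorem ile_iff (a b : ℤ) : ile a b = true ↔ a ≤ b := by
  unfold ile
  have h1 : Int.sub b a = b - a := rfl
  rw [h1]
  cases h2 : b - a with
  | ofNat n =>
    have h3 : 0 ≤ b - a := by rw [h2]; exact Int.natCast_nonneg n
    simp only [true_iff]
    linarith
  | negSucc n =>
    have h3 : b - a < 0 := by rw [h2]; exact Int.negSucc_lt_zero n
    simp only [Bool.false_eq_true, false_iff]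
    linarith

private theorem C4b_dist (k : ℕ) : dist1024 k = min (k % 1024) (1024 - k % 1024) := by
  have h1 : dist1024 k = cond (Nat.ble (k % 1024) 512) (k % 1024) (1024 - k % 1024) := rfl
  rw [h1]
  cases h2 : Nat.ble (k % 1024) 512 with
  | true =>
    have h3 := Nat.le_of_ble_eq_true h2
    simp only [cond_true]
    omega
  | false =>
    have h3 : ¬ k % 1024 ≤ 512 := fun h => by
      rw [Nat.ble_eq_true_of_le h] at h2
      exact Bool.noConfusion h2
    simp only [cond_false]
    omega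

private theorem C4b_dlo (a b : ℕ) : dlo a b = 0 ∨
    (b < (a + 1023) / 1024 * 1024 ∧ dlo a b = min (dist1024 a) (dist1024 b)) := by
  have h1 : dlo a b = cond (Nat.ble ((a + 1023) / 1024 * 1024) b) 0
    (min (dist1024 a) (dist1024 b)) := rfl
  rw [h1]
  cases h2 : Nat.ble ((a + 1023) / 1024 * 1024) b with
  | true => exact Or.inl rfl
  | false =>
    refine Or.inr ⟨?_, rfl⟩
    by_contra h3
    rw [Nat.ble_eq_true_of_le (not_lt.1 h3)] at h2
    exact Bool.noConfusion h2

private theorem C4b_dhi (a b : ℕ) : dhi a b = 512 ∨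
    (b < (a + 511) / 1024 * 1024 + 512 ∧ dhi a b = max (dist1024 a) (dist1024 b)) := by
  have h1 : dhi a b = cond (Nat.ble ((a + 511) / 1024 * 1024 + 512) b) 512
    (max (dist1024 a) (dist1024 b)) := rfl
  rw [h1]
  cases h2 : Nat.ble ((a + 511) / 1024 * 1024 + 512) b with
  | true => exact Or.inl rfl
  | false =>
    refine Or.inr ⟨?_, rfl⟩
    by_contra h3
    rw [Nat.ble_eq_true_of_le (not_lt.1 h3)] at h2
    exact Bool.noConfusion h2

theorem dlo_le_512 (a b : ℕ) : dlo a b ≤ 512 := by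
  rcases C4b_dlo a b with h | ⟨_, h⟩
  · omega
  · have h1 := C4b_dist a
    omega

theorem dhi_le_512 (a b : ℕ) : dhi a b ≤ 512 := by
  rcases C4b_dhi a b with h | ⟨_, h⟩
  · omega
  · have h1 := C4b_dist a
    have h2 := C4b_dist b
    omega

private theorem C4b_cw (t : ℝ) : ∃ r : ℤ, |t - 1024 * r| ≤ 512 ∧
    (∀ m : ℤ, |t - 1024 * r| ≤ |t - 1024 * m|) ∧ cw (t * gu) = Real.cos (|t - 1024 * r| * gu) := by
  have hg := gu_pos
  have h1 : t * gu / ww = t / 1024 := by
    rw [ww_eq]
    field_simp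
  refine ⟨round (t / 1024), ?_, ?_, ?_⟩
  · have h2 := abs_sub_round (t * gu)
    rw [h1, ww_eq] at h2
    have h3 : t * gu - (round (t / 1024) : ℝ) * (1024 * gu) =
        (t - 1024 * (round (t / 1024) : ℝ)) * gu := by ring
    rw [h3, abs_mul, abs_of_pos hg] at h2
    have h4 : 1024 * gu / 2 = 512 * gu := by ring
    rw [h4] at h2
    exact le_of_mul_le_mul_right h2 hg
  · intro m
    have h2 := round_le (t / 1024) m
    have h3 : ∀ z : ℤ, |t - 1024 * (z : ℝ)| = 1024 * |t / 1024 - z| := by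
      intro z
      have h4 : t - 1024 * (z : ℝ) = 1024 * (t / 1024 - z) := by ring
      rw [h4, abs_mul]
      norm_num
    rw [h3, h3]
    linarith
  · unfold cw
    rw [h1, ww_eq]
    have h3 : t * gu - (round (t / 1024) : ℝ) * (1024 * gu) =
        (t - 1024 * (round (t / 1024) : ℝ)) * gu := by ring
    rw [h3, ← Real.cos_abs, abs_mul, abs_of_pos hg]

private theorem C4b_pi : 512 * gu ≤ Real.pi := by
  unfold gu
  linarith [Real.pi_pos]

/-- `cw (t * gu)` is the cosine of `gu` times the distance of `t` to the nearest multiple of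
`1024`. -/
theorem cw_le_dlo {a b : ℕ} {t : ℝ} (ht : t ∈ Set.Icc (a : ℝ) b) :
    cw (t * gu) ≤ Real.cos (dlo a b * gu) := by
  obtain ⟨r, h1, h2, h3⟩ := C4b_cw t
  have hg := gu_pos
  rw [h3]
  have hd : (dlo a b : ℝ) ≤ |t - 1024 * r| := by
    rcases C4b_dlo a b with h | ⟨hb, h⟩
    · rw [h]
      simp
    · have ha1 := C4b_dist a
      have hb1 := C4b_dist b
      set q := (a + 1023) / 1024 with hq
      have hab : a ≤ b := by exact_mod_cast ht.1.trans ht.2
      -- `1024 (q - 1) < a ≤ t ≤ b < 1024 q`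
      have hq1 : 1 ≤ q := by omega
      have e1 : 1024 * (q - 1) + dlo a b ≤ a := by omega
      have e2 : b + dlo a b ≤ 1024 * q := by omega
      have e1' : 1024 * ((q : ℝ) - 1) + dlo a b ≤ a := by
        have h4 : ((1024 * (q - 1) + dlo a b : ℕ) : ℝ) ≤ a := by exact_mod_cast e1
        rw [Nat.cast_add, Nat.cast_mul, Nat.cast_sub hq1] at h4
        push_cast at h4
        exact h4
      have e2' : (b : ℝ) + dlo a b ≤ 1024 * q := by exact_mod_cast e2
      have h5 := ht.1
      have h6 := ht.2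
      rcases le_or_gt r ((q : ℤ) - 1) with h4 | h4
      · have h7 : (r : ℝ) ≤ (q : ℝ) - 1 := by exact_mod_cast h4
        rw [abs_of_nonneg (by
          have : (0 : ℝ) ≤ dlo a b := Nat.cast_nonneg _
          linarith)]
        linarith
      · have h7 : (q : ℝ) ≤ (r : ℝ) := by
          have h8 : (q : ℤ) ≤ r := by omega
          exact_mod_cast h8
        rw [abs_of_nonpos (by
          have : (0 : ℝ) ≤ dlo a b := Nat.cast_nonneg _
          linarith)]
        linarith
  refine Real.cos_le_cos_of_nonneg_of_le_pi (by positivity) ?_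
    (mul_le_mul_of_nonneg_right hd hg.le)
  exact (mul_le_mul_of_nonneg_right h1 hg.le).trans C4b_pi

theorem dhi_le_cw {a b : ℕ} {t : ℝ} (ht : t ∈ Set.Icc (a : ℝ) b) :
    Real.cos (dhi a b * gu) ≤ cw (t * gu) := by
  obtain ⟨r, h1, h2, h3⟩ := C4b_cw t
  have hg := gu_pos
  rw [h3]
  have hd : |t - 1024 * r| ≤ (dhi a b : ℝ) := by
    rcases C4b_dhi a b with h | ⟨hb, h⟩
    · rw [h]
      simpa using h1
    · have ha1 := C4b_dist a
      have hb1 := C4b_dist b
      set m := (a + 511) / 1024 with hm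
      have hab : a ≤ b := by exact_mod_cast ht.1.trans ht.2
      refine (h2 (m : ℤ)).trans ?_
      have e1 : 1024 * m ≤ a + dhi a b := by omega
      have e2 : b ≤ 1024 * m + dhi a b := by omega
      have e1' : 1024 * (m : ℝ) ≤ a + dhi a b := by exact_mod_cast e1
      have e2' : (b : ℝ) ≤ 1024 * m + dhi a b := by exact_mod_cast e2
      rw [abs_le]
      push_cast
      constructor
      · linarith [ht.1]
      · linarith [ht.2]
  refine Real.cos_le_cos_of_nonneg_of_le_pi (by positivity) ?_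
    (mul_le_mul_of_nonneg_right hd hg.le)
  have h4 : (dhi a b : ℝ) ≤ 512 := by exact_mod_cast dhi_le_512 a b
  exact (mul_le_mul_of_nonneg_right h4 hg.le).trans C4b_pi

theorem cw_lt_of_blt {a b a' b' : ℕ} (h : dhi a' b' < dlo a b) {s t : ℝ}
    (hs : s ∈ Set.Icc (a : ℝ) b) (ht : t ∈ Set.Icc (a' : ℝ) b') : cw (s * gu) < cw (t * gu) := by
  refine (cw_le_dlo hs).trans_lt (lt_of_lt_of_le ?_ (dhi_le_cw ht))
  have hg := gu_pos
  have h1 : (dhi a' b' : ℝ) < dlo a b := by exact_mod_cast h
  have h2 : (dlo a b : ℝ) ≤ 512 := by exact_mod_cast dlo_le_512 a b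
  exact Real.cos_lt_cos_of_nonneg_of_le_pi (mul_nonneg (Nat.cast_nonneg (dhi a' b')) hg.le)
    ((mul_le_mul_of_nonneg_right h2 hg.le).trans C4b_pi) (mul_lt_mul_of_pos_right h1 hg)

end Hepta
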