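import Pool.Agent.H69.Hep.C2b
import Pool.Agent.H69.Hep.C4

/-! # C4c: the linear lower bound for `- log cos` -/

set_option autoImplicit false

namespace Hepta

variable {T : Tabs} {W : ℝ → ℝ} {Mh : ℝ}

/-- `- log cos` is largest at the odd multiples of `512`. -/
private theorem C4c_max (n : ℤ) (t : ℝ) : GC t ≤ GC (n * 1024 + 512) := by
  have h1 : cw ((n * 1024 + 512 : ℝ) * gu) ≤ Real.cos (ww / 2) := by
    set x : ℝ := (n * 1024 + 512 : ℝ) * gu with hx
    have h2 : x = (n + 1 / 2) * ww := by
      rw [hx, ww_eq]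
      ring
    have h3 : ww / 2 ≤ |x - round (x / ww) * ww| := by
      have hw : 0 < ww := by
        rw [ww_eq]
        have := gu_pos
        positivity
      have h4 : x - round (x / ww) * ww = ((n : ℝ) - round (x / ww) + 1 / 2) * ww := by
        rw [h2]
        ring
      rw [h4, abs_mul, abs_of_pos hw]
      have h5 : 1 / 2 ≤ |(n : ℝ) - round (x / ww) + 1 / 2| := by
        obtain ⟨k, hk⟩ : ∃ k : ℤ, k = n - round (x / ww) := ⟨_, rfl⟩
        have h6 : (n : ℝ) - round (x / ww) = (k : ℝ) := by
          rw [hk]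
          push_cast
          ring
        rw [h6]
        rcases le_or_gt 0 k with h7 | h7
        · have : (0 : ℝ) ≤ k := by exact_mod_cast h7
          rw [abs_of_nonneg (by linarith)]
          linarith
        · have h8 : k ≤ -1 := by omega
          have : (k : ℝ) ≤ -1 := by exact_mod_cast h8
          rw [abs_of_nonpos (by linarith)]
          linarith
      nlinarith
    unfold cw
    rw [← Real.cos_abs (x - round (x / ww) * ww)]
    refine Real.cos_le_cos_of_nonneg_of_le_pi ?_ ?_ h3
    · rw [ww_eq]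
      have := gu_pos
      positivity
    · refine (abs_sub_round x).trans ?_
      unfold ww
      have := Real.pi_pos
      linarith
  have h2 := cw_ge_half (t * gu)
  have h3 : Real.log (cw ((n * 1024 + 512 : ℝ) * gu)) ≤ Real.log (cw (t * gu)) :=
    Real.log_le_log (cw_pos _) (h1.trans h2)
  unfold GC
  have h4 : (0 : ℝ) ≤ 2 ^ 30 := by positivity
  have := mul_le_mul_of_nonneg_left h3 h4
  linarith

theorem lC_le (h : TabsOK T W Mh) {a b : ℕ} {t : ℝ} (ht : t ∈ Set.Icc (a : ℝ) b) :
    (lC T a b).ev (t - a) ≤ GC t := by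
  have hab : a ≤ b := by
    have := ht.1.trans ht.2
    exact_mod_cast this
  set n := (a + 511) / 1024 with hn
  obtain ⟨z, hz⟩ : ∃ z : ℕ, z = n * 1024 + 512 := ⟨_, rfl⟩
  have hz1 : a ≤ z := by omega
  have hz2 : z ≤ a + 1023 := by omega
  have hz3 : (z : ℝ) = (n : ℝ) * 1024 + 512 := by rw [hz]; push_cast; ring
  have hz1' : (a : ℝ) ≤ z := by exact_mod_cast hz1
  have hz2' : (z : ℝ) ≤ a + 1023 := by exact_mod_cast hz2
  have hk : ((kC : ℕ) : ℝ) = 1018 := by unfold kC; norm_num
  have c1 : ConcaveOn ℝ (Set.Icc ((n : ℝ) * 1024 - 512) (n * 1024 + 512))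
      fun t => GC t - ((kC : ℕ) : ℝ) / 2 * t ^ 2 := by
    have := concave_GC (n : ℤ)
    rw [hk]
    exact_mod_cast this
  have c2 : ConcaveOn ℝ (Set.Icc ((n : ℝ) * 1024 + 512) (n * 1024 + 1536))
      fun t => GC t - ((kC : ℕ) : ℝ) / 2 * t ^ 2 := by
    have := concave_GC ((n : ℤ) + 1)
    rw [hk]
    have e1 : ((((n : ℤ) + 1 : ℤ) : ℝ)) * 1024 - 512 = (n : ℝ) * 1024 + 512 := by push_cast; ring
    have e2 : ((((n : ℤ) + 1 : ℤ) : ℝ)) * 1024 + 512 = (n : ℝ) * 1024 + 1536 := by push_cast; ring
    rw [e1, e2] at this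
    exact this
  unfold lC
  cases hA : Nat.ble (Nat.add a 512) b with
  | true =>
    rw [cond_true, Ln.ev_mk, sub_self, zero_add, sub_self, zero_mul]
    exact GC_nonneg t
  | false =>
    rw [cond_false, Ln.ev_mk]
    have hA' : b < a + 512 := by
      by_contra hcon
      have : Nat.ble (a + 512) b = true := Nat.ble_eq_true_of_le (not_lt.1 hcon)
      have h2 : Nat.ble (Nat.add a 512) b = true := this
      rw [hA] at h2
      exact absurd h2 (by decide)
    have hA'' : (b : ℝ) < a + 512 := by exact_mod_cast hA'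
    have hs : ((sl (ent T.C (dist1024 a)) (ent T.C (dist1024 b)) (b - a) : ℝ) - oS) * (b - a) ≤
        (ent T.C (dist1024 b) : ℝ) - (ent T.C (dist1024 a) : ℝ) := by
      rcases Nat.eq_zero_or_pos (b - a) with h3 | h3
      · have : a = b := by omega
        rw [this, sub_self, mul_zero, sub_self]
      · have := sl_spec (ent_lt T.C (dist1024 a)) h3 (Tb := ent T.C (dist1024 b))
        rw [Nat.cast_sub hab] at this
        linarith
    simp only [Nat.sub_eq]
    generalize ((sl (ent T.C (dist1024 a)) (ent T.C (dist1024 b)) (b - a) : ℝ) - oS) = σ at hs ⊢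
    rcases le_or_gt b z with hB | hB
    · have hB'' : (b : ℝ) ≤ z := by exact_mod_cast hB
      have h0 : ConcaveOn ℝ (Set.Icc (b : ℝ) b)
          fun t => GC t - ((kC : ℕ) : ℝ) / 2 * t ^ 2 :=
        c1.subset (Set.Icc_subset_Icc (by linarith [hz3, (Nat.cast_le (α := ℝ)).2 hab])
          (by linarith)) (convex_Icc _ _)
      refine C4_line3 hab le_rfl (c1.subset (Set.Icc_subset_Icc (by linarith) (by linarith))
        (convex_Icc _ _)) h0 (h.hC a) (h.hC b) (h.hC b) le_rfl ?_ ?_ ht
      · linarith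
      · linarith
    · have hB'' : (z : ℝ) < b := by exact_mod_cast hB
      have e : (z : ℝ) = ((n : ℤ) : ℝ) * 1024 + 512 := by rw [hz3]; push_cast; ring
      have g1 := (h.hC a).trans (C4c_max (n : ℤ) a)
      have g2 := (h.hC b).trans (C4c_max (n : ℤ) b)
      rw [← e] at g1 g2
      refine C4_line3 hz1 hB.le (c1.subset (Set.Icc_subset_Icc (by linarith) (by linarith))
        (convex_Icc _ _)) (c2.subset (Set.Icc_subset_Icc (by linarith) (by linarith))
        (convex_Icc _ _)) (h.hC a) le_rfl (h.hC b) le_rfl ?_ ?_ ht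
      · rcases le_total 0 σ with hσ | hσ
        · have : σ * ((z : ℝ) - a) ≤ σ * (b - a) :=
            mul_le_mul_of_nonneg_left (by linarith) hσ
          linarith
        · have : σ * ((z : ℝ) - a) ≤ 0 :=
            mul_nonpos_of_nonpos_of_nonneg hσ (by linarith)
          linarith
      · linarith

end Hepta
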