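import Pool.Agent.H69.Hep.C2b
import Pool.Agent.H69.Hep.C4

/-! # C4d: the linear lower bound for the distance function -/

set_option autoImplicit false

namespace Hepta

variable {T : Tabs} {W : ℝ → ℝ} {Mh : ℝ}

/-- The slope at a break point. -/
private theorem C4d_sF {Ta Tb x y f : ℕ} (ha : Ta < 4294967296) (hf : f ≤ 4) : -(Ta : ℝ) ≤ ((sF Ta Tb x y f : ℝ) - oS) * x ∧
      ((sF Ta Tb x y f : ℝ) - oS) * y ≤ Tb := by
  obtain ⟨p, hp⟩ : ∃ p, p = Ta / x := ⟨_, rfl⟩
  obtain ⟨q, hq⟩ : ∃ q, q = Tb / y := ⟨_, rfl⟩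
  have hpx : p * x ≤ Ta := by rw [hp]; exact Nat.div_mul_le_self _ _
  have hqy : q * y ≤ Tb := by rw [hq]; exact Nat.div_mul_le_self _ _
  have hp1 : p ≤ Ta := by rw [hp]; exact Nat.div_le_self _ _
  have hs : sF Ta Tb x y f = (4 * oS + f * q - (4 - f) * p) / 4 := by
    rw [hp, hq]
    rfl
  have hO : oS = 1099511627776 := rfl
  have h4 : (4 - f) * p ≤ 4 * p := Nat.mul_le_mul_right _ (by omega)
  have h5 : f * q ≤ 4 * q := Nat.mul_le_mul_right _ hf
  have e1 : oS ≤ sF Ta Tb x y f + p := by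
    rw [hs]
    omega
  have e2 : sF Ta Tb x y f ≤ oS + q := by
    rw [hs]
    omega
  have e1' : (oS : ℝ) ≤ (sF Ta Tb x y f : ℝ) + p := by exact_mod_cast e1
  have e2' : (sF Ta Tb x y f : ℝ) ≤ (oS : ℝ) + q := by exact_mod_cast e2
  have hpx' : (p : ℝ) * x ≤ Ta := by exact_mod_cast hpx
  have hqy' : (q : ℝ) * y ≤ Tb := by exact_mod_cast hqy
  have hx' : (0 : ℝ) ≤ x := Nat.cast_nonneg _
  have hy' : (0 : ℝ) ≤ y := Nat.cast_nonneg _
  constructor
  · have := mul_le_mul_of_nonneg_right (show -(p : ℝ) ≤ (sF Ta Tb x y f : ℝ) - oS by linarith) hx'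
    linarith
  · have := mul_le_mul_of_nonneg_right (show (sF Ta Tb x y f : ℝ) - oS ≤ (q : ℝ) by linarith) hy'
    linarith

theorem lF_le (h : TabsOK T W Mh) {a b f : ℕ} (hf : f ≤ 4) {t : ℝ}
    (ht : t ∈ Set.Icc (a : ℝ) b) : (lF T a b f).ev (t - a) ≤ GF t := by
  have hab : a ≤ b := by
    have := ht.1.trans ht.2
    exact_mod_cast this
  set n := a / 1024 with hn
  obtain ⟨z, hz⟩ : ∃ z : ℕ, z = (n + 1) * 1024 := ⟨_, rfl⟩
  have hzz : zF a = z := by rw [hz]; rfl
  have hz0 : n * 1024 ≤ a := by omega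
  have hz1 : a < z := by omega
  have hz3 : (z : ℝ) = (n : ℝ) * 1024 + 1024 := by rw [hz]; push_cast; ring
  have hz0' : (n : ℝ) * 1024 ≤ a := by exact_mod_cast hz0
  have hz1' : (a : ℝ) < z := by exact_mod_cast hz1
  have k0 : ∀ s : Set ℝ, ConcaveOn ℝ s GF →
      ConcaveOn ℝ s fun t => GF t - ((0 : ℕ) : ℝ) / 2 * t ^ 2 := by
    intro s hs
    have h0 : (fun t : ℝ => GF t - ((0 : ℕ) : ℝ) / 2 * t ^ 2) = GF := by
      funext t
      simp
    rw [h0]
    exact hs
  have c1 : ConcaveOn ℝ (Set.Icc ((n : ℝ) * 1024) (n * 1024 + 1024)) GF := by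
    exact_mod_cast concave_GF (n : ℤ)
  have c2 : ConcaveOn ℝ (Set.Icc ((n : ℝ) * 1024 + 1024) (n * 1024 + 2048)) GF := by
    have := concave_GF ((n : ℤ) + 1)
    have e1 : ((((n : ℤ) + 1 : ℤ) : ℝ)) * 1024 = (n : ℝ) * 1024 + 1024 := by push_cast; ring
    have e2 : (n : ℝ) * 1024 + 1024 + 1024 = (n : ℝ) * 1024 + 2048 := by ring
    rw [e1, e2] at this
    exact this
  have hcu : ∀ d : ℕ, curv 0 d = 0 := by
    intro d
    unfold curv
    simp
  unfold lF
  cases hA : Nat.ble (Nat.add a 512) b with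
  | true =>
    rw [cond_true, Ln.ev_mk, sub_self, zero_add, sub_self, zero_mul]
    exact GF_nonneg t
  | false =>
    rw [cond_false]
    have hA' : b < a + 512 := by
      by_contra hcon
      have : Nat.ble (a + 512) b = true := Nat.ble_eq_true_of_le (not_lt.1 hcon)
      have h2 : Nat.ble (Nat.add a 512) b = true := this
      rw [hA] at h2
      exact absurd h2 (by decide)
    have hA'' : (b : ℝ) < a + 512 := by exact_mod_cast hA'
    rw [hzz]
    cases hB : Nat.ble b z with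
    | true =>
      rw [cond_true, Ln.ev_mk]
      have hB' : b ≤ z := Nat.le_of_ble_eq_true hB
      have hB'' : (b : ℝ) ≤ z := by exact_mod_cast hB'
      have hs : ((sl (ent T.F (dist1024 a)) (ent T.F (dist1024 b)) (b - a) : ℝ) - oS) *
          (b - a) ≤ (ent T.F (dist1024 b) : ℝ) - (ent T.F (dist1024 a) : ℝ) := by
        rcases Nat.eq_zero_or_pos (b - a) with h3 | h3
        · have : a = b := by omega
          rw [this, sub_self, mul_zero, sub_self]
        · have := sl_spec (ent_lt T.F (dist1024 a)) h3 (Tb := ent T.F (dist1024 b))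
          rw [Nat.cast_sub hab] at this
          linarith
      have h3 := C4_line hab (k0 _ (c1.subset (Set.Icc_subset_Icc (by linarith) (by linarith))
        (convex_Icc _ _))) (h.hF a) (h.hF b) hs ht
      rw [hcu] at h3
      exact h3
    | false =>
      rw [cond_false, Ln.ev_mk]
      have hB' : z < b := by
        by_contra hcon
        rw [Nat.ble_eq_true_of_le (not_lt.1 hcon)] at hB
        exact absurd hB (by decide)
      have hB'' : (z : ℝ) < b := by exact_mod_cast hB'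
      simp only [Nat.sub_eq, Nat.mul_eq]
      obtain ⟨g1, g2⟩ := C4d_sF (Tb := ent T.F (dist1024 b)) (ent_lt T.F (dist1024 a)) hf
        (x := z - a) (y := b - z)
      rw [Nat.cast_sub hz1.le] at g1
      rw [Nat.cast_sub hB'.le] at g2
      have e : (((oS * (z - a) : ℕ)) : ℝ) -
          ((sF (ent T.F (dist1024 a)) (ent T.F (dist1024 b)) (z - a) (b - z) f * (z - a) : ℕ) : ℝ) =
          -((((sF (ent T.F (dist1024 a)) (ent T.F (dist1024 b)) (z - a) (b - z) f : ℕ) : ℝ)
            - oS) * ((z : ℝ) - a)) := by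
        rw [Nat.cast_mul, Nat.cast_mul, Nat.cast_sub hz1.le]
        ring
      rw [e]
      generalize (((sF (ent T.F (dist1024 a)) (ent T.F (dist1024 b)) (z - a) (b - z) f : ℕ) : ℝ)
            - oS) = σ at g1 g2 ⊢
      have hz0 : (0 : ℝ) ≤ GF z := GF_nonneg _
      have h3 := C4_line3 (m := -(σ * ((z : ℝ) - a))) (σ := σ) hz1.le hB'.le
        (k0 _ (c1.subset (Set.Icc_subset_Icc (by linarith) (by linarith)) (convex_Icc _ _)))
        (k0 _ (c2.subset (Set.Icc_subset_Icc (by linarith) (by linarith)) (convex_Icc _ _)))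
        (h.hF a) hz0 (h.hF b) (by linarith) (by linarith) (by linarith) ht
      rw [hcu, Nat.cast_zero, sub_zero] at h3
      exact h3

end Hepta
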