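import Pool.Agent.H69.Hep.C4

/-! # C5a: the last step of the test of a box -/

set_option autoImplicit false

namespace Hepta

private theorem C5a_cond (t k : ℕ) (x y : ℕ) :
    ((cond (Nat.beq t k) x y : ℕ) : ℝ) = (y : ℝ) + (if t = k then (x : ℝ) - y else 0) := by
  by_cases h : t = k
  · have : Nat.beq t k = true := by rw [h]; exact Nat.beq_refl k
    rw [this, if_pos h]
    simp
  · have : Nat.beq t k = false := by
      cases h2 : Nat.beq t k with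
      | false => rfl
      | true => exact absurd (Nat.eq_of_beq_eq_true h2) h
    rw [this, if_neg h]
    simp

private theorem C5a_sub {x y W : ℕ} {δ : ℝ} (h : δ ∈ Set.Icc 0 (W : ℝ)) :
    0 ≤ ((y : ℝ) - x) * δ + W * ((x - y : ℕ) : ℝ) := by
  have h1 : (x : ℝ) - y ≤ ((x - y : ℕ) : ℝ) := by
    rw [sub_le_iff_le_add]
    have : x ≤ (x - y) + y := by omega
    exact_mod_cast this
  have h2 : (0 : ℝ) ≤ ((x - y : ℕ) : ℝ) := Nat.cast_nonneg _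
  have h3 : ((x : ℝ) - y) * δ ≤ ((x - y : ℕ) : ℝ) * W :=
    (mul_le_mul_of_nonneg_right h1 h.1).trans (mul_le_mul_of_nonneg_left h.2 h2)
  linarith

private theorem C5a_ev (C : Ln) (t : ℕ) (x y : ℝ) (h : t ≠ 1 → t ≠ 2 → C.s = oS) :
    C.ev (if t = 1 then x else y) = (C.p : ℝ) - C.n + (if t = 1 then (C.s : ℝ) - oS else 0) * x +
      (if t = 2 then (C.s : ℝ) - oS else 0) * y := by
  unfold Ln.ev
  by_cases h1 : t = 1
  · have h2 : t ≠ 2 := by omega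
    rw [if_pos h1, if_pos h1, if_neg h2]
    ring
  · by_cases h2 : t = 2
    · rw [if_neg h1, if_neg h1, if_pos h2]
      ring
    · rw [if_neg h1, if_neg h1, if_neg h2, h h1 h2]
      ring

theorem leaf'_sound {W1 W2 W3 A B D t1 t2 t3 w1 w2 w3 v1 v2 v3 d : ℕ}
    {S1 S2 S3 N1 N2 N3 P1 P2 P3 F1 F2 F3 C1 C2 C3 : Ln}
    (h : leaf' W1 W2 W3 A B D t1 t2 t3 w1 w2 w3 v1 v2 v3 d S1 S2 S3 N1 N2 N3 P1 P2 P3 F1 F2 F3
      C1 C2 C3 = true) (hS1 : S1.p = 0) (hS2 : S2.p = 0) (hS3 : S3.p = 0)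
    (hC1 : t1 ≠ 1 → t1 ≠ 2 → C1.s = oS) (hC2 : t2 ≠ 1 → t2 ≠ 2 → C2.s = oS)
    (hC3 : t3 ≠ 1 → t3 ≠ 2 → C3.s = oS) {x1 x2 x3 a b : ℝ} (h1 : x1 ∈ Set.Icc 0 (W1 : ℝ))
    (h2 : x2 ∈ Set.Icc 0 (W2 : ℝ)) (h3 : x3 ∈ Set.Icc 0 (W3 : ℝ)) (ha : a ∈ Set.Icc 0 (A : ℝ))
    (hb : b ∈ Set.Icc 0 (B : ℝ)) :
    0 ≤ (d : ℝ) - 9223372036854775808 - 1236950581248 + v1 * S1.ev a + v2 * S2.ev b +
      v3 * S3.ev ((A + B - a - b) - D) + 1536 * (N1.ev (W1 - x1) + N2.ev (W2 - x2) +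
        N3.ev (W3 - x3) + P1.ev (x1 + a) + P2.ev (x2 + b) + P3.ev (x3 + (A + B - a - b))) +
      w1 * (F1.ev (x2 + b + (W1 - x1)) + C1.ev (if t1 = 1 then x1 else x2 + b)) +
      w2 * (F2.ev (x3 + (A + B - a - b) + (W2 - x2)) +
        C2.ev (if t2 = 1 then x2 else x3 + (A + B - a - b))) +
      w3 * (F3.ev (x1 + a + (W3 - x3)) + C3.ev (if t3 = 1 then x3 else x1 + a)) := by
  rw [C5a_ev C1 t1 _ _ hC1, C5a_ev C2 t2 _ _ hC2, C5a_ev C3 t3 _ _ hC3]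
  unfold leaf' fin at h
  simp only [Nat.add_eq, Nat.mul_eq, Nat.sub_eq] at h
  have h0 := (Nat.cast_le (α := ℝ)).2 (Nat.le_of_ble_eq_true h)
  generalize hO : oS = O at h0 ⊢
  have e1 := C5a_sub (x := 1536 * N1.s + (w1 * F1.s + O * (2 * w3)))
    (y := 1536 * P1.s + w3 * (F3.s + cond (Nat.beq t3 2) C3.s O) +
      w1 * cond (Nat.beq t1 1) C1.s O) h1
  have e2 := C5a_sub (x := 1536 * N2.s + (w2 * F2.s + O * (2 * w1)))
    (y := 1536 * P2.s + w1 * (F1.s + cond (Nat.beq t1 2) C1.s O) +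
      w2 * cond (Nat.beq t2 1) C2.s O) h2
  have e3 := C5a_sub (x := 1536 * N3.s + (w3 * F3.s + O * (2 * w2)))
    (y := 1536 * P3.s + w2 * (F2.s + cond (Nat.beq t2 2) C2.s O) +
      w3 * cond (Nat.beq t3 1) C3.s O) h3
  have e4 := C5a_sub (x := 1536 * P3.s + w2 * (F2.s + cond (Nat.beq t2 2) C2.s O) + v3 * S3.s +
      O * (2 * w3 + v1))
    (y := 1536 * P1.s + w3 * (F3.s + cond (Nat.beq t3 2) C3.s O) + v1 * S1.s +
      O * (2 * w2 + v3)) ha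
  have e5 := C5a_sub (x := 1536 * P3.s + w2 * (F2.s + cond (Nat.beq t2 2) C2.s O) + v3 * S3.s +
      O * (2 * w1 + v2))
    (y := 1536 * P2.s + w1 * (F1.s + cond (Nat.beq t1 2) C1.s O) + v2 * S2.s +
      O * (2 * w2 + v3)) hb
  generalize 1536 * N1.s + (w1 * F1.s + O * (2 * w3)) -
    (1536 * P1.s + w3 * (F3.s + cond (Nat.beq t3 2) C3.s O) +
      w1 * cond (Nat.beq t1 1) C1.s O) = r1 at h0 e1
  generalize 1536 * N2.s + (w2 * F2.s + O * (2 * w1)) -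
    (1536 * P2.s + w1 * (F1.s + cond (Nat.beq t1 2) C1.s O) +
      w2 * cond (Nat.beq t2 1) C2.s O) = r2 at h0 e2
  generalize 1536 * N3.s + (w3 * F3.s + O * (2 * w2)) -
    (1536 * P3.s + w2 * (F2.s + cond (Nat.beq t2 2) C2.s O) +
      w3 * cond (Nat.beq t3 1) C3.s O) = r3 at h0 e3
  generalize 1536 * P3.s + w2 * (F2.s + cond (Nat.beq t2 2) C2.s O) + v3 * S3.s +
      O * (2 * w3 + v1) - (1536 * P1.s + w3 * (F3.s + cond (Nat.beq t3 2) C3.s O) + v1 * S1.s +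
      O * (2 * w2 + v3)) = r4 at h0 e4
  generalize 1536 * P3.s + w2 * (F2.s + cond (Nat.beq t2 2) C2.s O) + v3 * S3.s +
      O * (2 * w1 + v2) - (1536 * P2.s + w1 * (F1.s + cond (Nat.beq t1 2) C1.s O) + v2 * S2.s +
      O * (2 * w2 + v3)) = r5 at h0 e5
  simp only [Nat.cast_add, Nat.cast_mul, C5a_cond, Nat.cast_ofNat] at h0 e1 e2 e3 e4 e5
  unfold Ln.ev
  rw [hS1, hS2, hS3, Nat.cast_zero, hO]
  linear_combination h0 + e1 + e2 + e3 + e4 + e5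

end Hepta
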