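import Pool.Agent.H69.Hep.C4b
import Pool.Agent.H69.Hep.C4c
import Pool.Agent.H69.Hep.C4d
import Pool.Agent.H69.Hep.C5a

/-! # C5: the inequality from the test of a box -/

set_option autoImplicit false

namespace Hepta

/-- The bound for `- log cos` of an edge with the knowledge `t`. -/
noncomputable def CT (t : ℕ) (ξ υ : ℝ) : ℝ := if t = 1 then GC ξ else if t = 2 then GC υ else 0

variable {T : Tabs} {W : ℝ → ℝ} {Mh : ℝ}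

private theorem C5_zero (x : ℝ) : (Ln.mk oS 0 0).ev x = 0 := by
  rw [Ln.ev_mk]
  simp only [Nat.cast_zero, sub_self, zero_mul, add_zero]

private theorem C5_lE (hT : TabsOK T W Mh) {t lx hx ly hy : ℕ} {ξ υ : ℝ}
    (hξ : ξ ∈ Set.Icc (lx : ℝ) hx) (hυ : υ ∈ Set.Icc (ly : ℝ) hy) :
    (lE T t lx hx ly hy).ev (if t = 1 then ξ - lx else υ - ly) ≤ CT t ξ υ := by
  unfold lE CT
  by_cases h1 : t = 1
  · have e1 : Nat.beq t 1 = true := by rw [h1]; rfl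
    rw [if_pos h1, if_pos h1, e1, cond_true]
    exact lC_le hT hξ
  · have e1 : Nat.beq t 1 = false := by
      rw [Bool.eq_false_iff]
      intro h
      exact h1 (Nat.eq_of_beq_eq_true h)
    rw [if_neg h1, if_neg h1, e1, cond_false]
    by_cases h2 : t = 2
    · have e2 : Nat.beq t 2 = true := by rw [h2]; rfl
      rw [if_pos h2, e2, cond_true]
      exact lC_le hT hυ
    · have e2 : Nat.beq t 2 = false := by
        rw [Bool.eq_false_iff]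
        intro h
        exact h2 (Nat.eq_of_beq_eq_true h)
      rw [if_neg h2, e2, cond_false, C5_zero]

private theorem C5_lEs (t lx hx ly hy : ℕ) (h1 : t ≠ 1) (h2 : t ≠ 2) :
    (lE T t lx hx ly hy).s = oS := by
  have e1 : Nat.beq t 1 = false := by
    rw [Bool.eq_false_iff]
    intro h
    exact h1 (Nat.eq_of_beq_eq_true h)
  have e2 : Nat.beq t 2 = false := by
    rw [Bool.eq_false_iff]
    intro h
    exact h2 (Nat.eq_of_beq_eq_true h)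
  unfold lE
  rw [e1, e2, cond_false, cond_false]

/-- The purely real part. -/
private theorem C5_real {w1 w2 w3 v1 v2 v3 d D : ℝ}
    {s1 s2 s3 n1 n2 n3 p1 p2 p3 f1 f2 f3 c1 c2 c3 : ℝ}
    {S1 S2 S3 N1 N2 N3 P1 P2 P3 F1 F2 F3 C1 C2 C3 : ℝ}
    (hw1 : 0 ≤ w1) (hw2 : 0 ≤ w2) (hw3 : 0 ≤ w3) (hv1 : 0 ≤ v1) (hv2 : 0 ≤ v2) (hv3 : 0 ≤ v3)
    (hS1 : s1 ≤ S1) (hS2 : s2 ≤ S2) (hS3 : s3 ≤ S3)
    (hN1 : n1 - 134217728 ≤ -N1) (hN2 : n2 - 134217728 ≤ -N2)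
    (hN3 : n3 - 134217728 ≤ -N3)
    (hP1 : p1 - 134217728 ≤ P1) (hP2 : p2 - 134217728 ≤ P2)
    (hP3 : p3 - 134217728 ≤ P3)
    (hF1 : f1 ≤ F1) (hF2 : f2 ≤ F2) (hF3 : f3 ≤ F3)
    (hC1 : c1 ≤ C1) (hC2 : c2 ≤ C2)
    (hC3 : c3 ≤ C3) (hD : d - 9223372036854775808 ≤ D)
    (H : 0 ≤ d - 9223372036854775808 - 1236950581248 + v1 * s1 + v2 * s2 + v3 * s3 +
      1536 * (n1 + n2 + n3 + p1 + p2 + p3) + w1 * (f1 + c1) + w2 * (f2 + c2) + w3 * (f3 + c3)) :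
    0 ≤ (v1 * S1 + v2 * S2 + v3 * S3 + w1 * (F1 + C1) + w2 * (F2 + C2) + w3 * (F3 + C3)) -
      1536 * (N1 - P1 + (N2 - P2) + (N3 - P3)) + D := by
  have a1 := mul_le_mul_of_nonneg_left hS1 hv1
  have a2 := mul_le_mul_of_nonneg_left hS2 hv2
  have a3 := mul_le_mul_of_nonneg_left hS3 hv3
  have b1 := mul_le_mul_of_nonneg_left (add_le_add hF1 hC1) hw1
  have b2 := mul_le_mul_of_nonneg_left (add_le_add hF2 hC2) hw2
  have b3 := mul_le_mul_of_nonneg_left (add_le_add hF3 hC3) hw3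
  linear_combination H + a1 + a2 + a3 + b1 + b2 + b3 + 1536 * hN1 + 1536 * hN2 + 1536 * hN3 +
    1536 * hP1 + 1536 * hP2 + 1536 * hP3 + hD

private theorem C5_GV_odd (hodd : ∀ x, W (-x) = -W x) (hper : ∀ x, W (x + ww) = W x) (ξ : ℝ) :
    GV W (2048 - ξ) = -GV W ξ := by
  unfold GV
  have e : (2048 - ξ) * gu = -(ξ * gu) + ww + ww := by
    rw [ww_eq]; ring
  rw [e, hper, hper, hodd]
  ring

theorem leaf_sound (hT : TabsOK T W Mh) (hodd : ∀ x, W (-x) = -W x)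
    (hper : ∀ x, W (x + ww) = W x) {l1 h1 l2 h2 l3 h3 la ha lb hb t1 t2 t3 : ℕ}
    {b L1 L2 L3 f1 f2 f3 : ℕ}
    (hl : leaf T l1 h1 l2 h2 l3 h3 la ha lb hb t1 t2 t3 (3584 - (ha + hb)) (3584 - (la + lb))
      (l1 + la) (h1 + ha) (l2 + lb) (h2 + hb) (l3 + (3584 - (ha + hb))) (h3 + (3584 - (la + lb)))
      b L1 L2 L3 f1 f2 f3 = true)
    {ξ₁ ξ₂ ξ₃ α₁ α₂ α₃ : ℝ} (h₁ : ξ₁ ∈ Set.Icc (l1 : ℝ) h1) (h₂ : ξ₂ ∈ Set.Icc (l2 : ℝ) h2)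
    (h₃ : ξ₃ ∈ Set.Icc (l3 : ℝ) h3) (hα₁ : α₁ ∈ Set.Icc (la : ℝ) ha)
    (hα₂ : α₂ ∈ Set.Icc (lb : ℝ) hb) (hα₃ : α₃ = 3584 - α₁ - α₂)
    (g₁ : α₁ ∈ Set.Icc (896 : ℝ) 1792) (g₂ : α₂ ∈ Set.Icc (896 : ℝ) 1792)
    (g₃ : α₃ ∈ Set.Icc (896 : ℝ) 1792) :
    L1 ≤ 6 ∧ L2 ≤ 6 ∧ L3 ≤ 6 ∧ L1 + L2 + L3 = 12 ∧ 400 ≤ b ∧ b < 600 ∧
    0 ≤ (b : ℝ) * ((6 - L2) * GS α₁ + (6 - L3) * GS α₂ + (6 - L1) * GS α₃ +
        L1 * (GF (ξ₂ + α₂ - ξ₁) + CT t1 ξ₁ (ξ₂ + α₂)) +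
        L2 * (GF (ξ₃ + α₃ - ξ₂) + CT t2 ξ₂ (ξ₃ + α₃)) +
        L3 * (GF (ξ₁ + α₁ - ξ₃) + CT t3 ξ₃ (ξ₁ + α₁))) -
      1536 * (GV W ξ₁ - GV W (ξ₁ + α₁) + (GV W ξ₂ - GV W (ξ₂ + α₂)) +
        (GV W ξ₃ - GV W (ξ₃ + α₃))) +
      2 ^ 30 * (6 * b * Real.log (512 / b) - 1536 * (Mh - b / 256)) := by
  unfold leaf at hl
  simp only [Bool.and_eq_true] at hl
  obtain ⟨⟨⟨⟨⟨⟨⟨⟨⟨⟨⟨⟨⟨⟨⟨⟨⟨q1, q2⟩, q3⟩, q4⟩, q5⟩, q6⟩, r1⟩, r2⟩, r3'⟩, q7⟩, q8⟩, q9⟩, r4⟩, r5⟩,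
    r6⟩, r7⟩, r8⟩, hl⟩ := hl
  have q1 : L1 ≤ 6 := Nat.le_of_ble_eq_true q1
  have q2 : L2 ≤ 6 := Nat.le_of_ble_eq_true q2
  have q3 : L3 ≤ 6 := Nat.le_of_ble_eq_true q3
  have q4 : L1 + (L2 + L3) = 12 := Nat.eq_of_beq_eq_true q4
  have q5 : 400 ≤ b := Nat.le_of_ble_eq_true q5
  have q6 : b ≤ 599 := Nat.le_of_ble_eq_true q6
  have r1 : f1 ≤ 4 := Nat.le_of_ble_eq_true r1
  have r2 : f2 ≤ 4 := Nat.le_of_ble_eq_true r2
  have r3' : f3 ≤ 4 := Nat.le_of_ble_eq_true r3'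
  have q7 : h1 ≤ 1536 := Nat.le_of_ble_eq_true q7
  have q8 : h2 ≤ 1536 := Nat.le_of_ble_eq_true q8
  have q9 : h3 ≤ 1536 := Nat.le_of_ble_eq_true q9
  have r4 : 512 ≤ l3 := Nat.le_of_ble_eq_true r4
  have r5 : 896 ≤ la := Nat.le_of_ble_eq_true r5
  have r6 : ha ≤ 1792 := Nat.le_of_ble_eq_true r6
  have r7 : 896 ≤ lb := Nat.le_of_ble_eq_true r7
  have r8 : hb ≤ 1792 := Nat.le_of_ble_eq_true r8
  refine ⟨q1, q2, q3, by omega, q5, by omega, ?_⟩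
  -- the ranges
  have m1 : l1 ≤ h1 := by exact_mod_cast h₁.1.trans h₁.2
  have m2 : l2 ≤ h2 := by exact_mod_cast h₂.1.trans h₂.2
  have m3 : l3 ≤ h3 := by exact_mod_cast h₃.1.trans h₃.2
  have ma : la ≤ ha := by exact_mod_cast hα₁.1.trans hα₁.2
  have mb : lb ≤ hb := by exact_mod_cast hα₂.1.trans hα₂.2
  obtain ⟨lc, hlc⟩ : ∃ lc, lc = 3584 - (ha + hb) := ⟨_, rfl⟩
  obtain ⟨hc, hhc⟩ : ∃ hc, hc = 3584 - (la + lb) := ⟨_, rfl⟩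
  rw [← hlc, ← hhc] at hl
  have clc : (lc : ℝ) = 3584 - ha - hb := by
    rw [hlc, Nat.cast_sub (by omega)]
    push_cast
    ring
  have chc : (hc : ℝ) = 3584 - la - lb := by
    rw [hhc, Nat.cast_sub (by omega)]
    push_cast
    ring
  have r3 : α₃ ∈ Set.Icc (lc : ℝ) (hc : ℝ) := by
    rw [clc, chc]
    exact ⟨by linarith [hα₁.2, hα₂.2], by linarith [hα₁.1, hα₂.1]⟩
  -- angles
  have S1 := lS_le hT r5 r6 hα₁
  have S2 := lS_le hT r7 r8 hα₂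
  have S3 := lS_le hT (a := Nat.max lc 896) (b := Nat.min hc 1792) (Nat.le_max_right _ _)
    (Nat.min_le_right _ _) (t := α₃) (by
      constructor
      · change ((max lc 896 : ℕ) : ℝ) ≤ α₃
        push_cast
        exact max_le r3.1 g₃.1
      · change α₃ ≤ ((min hc 1792 : ℕ) : ℝ)
        push_cast
        exact le_min r3.2 g₃.2)
  -- the potential
  have nn : ∀ {l h : ℕ} {x : ℝ}, h ≤ 1536 → l ≤ 1536 → x ∈ Set.Icc (l : ℝ) h →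
      2048 - x ∈ Set.Icc ((2048 - h : ℕ) : ℝ) ((2048 - l : ℕ) : ℝ) := by
    intro l h x h1 h2 hx
    rw [Nat.cast_sub (by omega), Nat.cast_sub (by omega)]
    push_cast
    exact ⟨by linarith [hx.2], by linarith [hx.1]⟩
  have N1 := lV_le hT (nn q7 (m1.trans q7) h₁)
  have N2 := lV_le hT (nn q8 (m2.trans q8) h₂)
  have N3 := lV_le hT (nn q9 (m3.trans q9) h₃)
  rw [C5_GV_odd hodd hper] at N1 N2 N3
  have aa : ∀ {l h l' h' : ℕ} {x y : ℝ}, x ∈ Set.Icc (l : ℝ) h → y ∈ Set.Icc (l' : ℝ) h' →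
      x + y ∈ Set.Icc ((l + l' : ℕ) : ℝ) ((h + h' : ℕ) : ℝ) := by
    intro l h l' h' x y hx hy
    push_cast
    exact ⟨by linarith [hx.1, hy.1], by linarith [hx.2, hy.2]⟩
  have u1 := aa h₁ hα₁
  have u2 := aa h₂ hα₂
  have u3 := aa h₃ r3
  have P1 := lV_le hT u1
  have P2 := lV_le hT u2
  have P3 := lV_le hT u3
  -- the distance function
  have ff : ∀ {l h l' h' : ℕ} {x y : ℝ}, x ∈ Set.Icc (l : ℝ) h → y ∈ Set.Icc (l' : ℝ) h' →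
      h ≤ l' + 1024 → l ≤ h' + 1024 →
      y + 1024 - x ∈ Set.Icc ((l' + 1024 - h : ℕ) : ℝ) ((h' + 1024 - l : ℕ) : ℝ) := by
    intro l h l' h' x y hx hy h1 h2
    rw [Nat.cast_sub h1, Nat.cast_sub h2]
    push_cast
    exact ⟨by linarith [hx.2, hy.1], by linarith [hx.1, hy.2]⟩
  have F1 := lF_le hT r1 (ff h₁ u2 (by omega) (by omega))
  have F2 := lF_le hT r2 (ff h₂ u3 (by omega) (by omega))
  have F3 := lF_le hT r3' (ff h₃ u1 (by omega) (by omega))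
  have GFs : ∀ x y : ℝ, GF (y + 1024 - x) = GF (y - x) := by
    intro x y
    have e : y + 1024 - x = (y - x) + ((1 : ℤ) : ℝ) * 1024 := by
      push_cast
      ring
    rw [e, GF_add]
  rw [GFs] at F1 F2 F3
  -- the cosines
  have C1 := C5_lE (t := t1) hT h₁ u2
  have C2 := C5_lE (t := t2) hT h₂ u3
  have C3 := C5_lE (t := t3) hT h₃ u1
  -- the constant
  have hD := hT.hB b q5 (by omega)
  have icc : ∀ {l h : ℕ} {x : ℝ}, l ≤ h → x ∈ Set.Icc (l : ℝ) h →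
      x - l ∈ Set.Icc 0 ((h - l : ℕ) : ℝ) := by
    intro l h x h1 hx
    rw [Nat.cast_sub h1]
    exact ⟨by linarith [hx.1], by linarith [hx.2]⟩
  have hf := leaf'_sound hl rfl rfl rfl (C5_lEs _ _ _ _ _) (C5_lEs _ _ _ _ _)
    (C5_lEs _ _ _ _ _) (icc m1 h₁) (icc m2 h₂) (icc m3 h₃) (icc ma hα₁) (icc mb hα₂)
  have cD : ((896 - lc : ℕ) : ℝ) + lc = ((Nat.max lc 896 : ℕ) : ℝ) := by
    have : 896 - lc + lc = Nat.max lc 896 := by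
      change 896 - lc + lc = max lc 896
      omega
    exact_mod_cast this
  have k3 : ((ha - la : ℕ) : ℝ) + ((hb - lb : ℕ) : ℝ) - (α₁ - la) - (α₂ - lb) = α₃ - lc := by
    rw [Nat.cast_sub ma, Nat.cast_sub mb, clc, hα₃]
    ring
  have kW : ∀ {l h : ℕ} {x : ℝ}, l ≤ h → h ≤ 1536 →
      ((h - l : ℕ) : ℝ) - (x - l) = 2048 - x - ((2048 - h : ℕ) : ℝ) := by
    intro l h x h1 h2
    rw [Nat.cast_sub h1, Nat.cast_sub (by omega)]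
    push_cast
    ring
  have kS : α₃ - lc - ((896 - lc : ℕ) : ℝ) = α₃ - ((Nat.max lc 896 : ℕ) : ℝ) := by
    rw [← cD]
    ring
  have kP : ∀ {l l' : ℕ} {x y : ℝ}, (x - l) + (y - l') = (x + y) - ((l + l' : ℕ) : ℝ) := by
    intro l l' x y
    push_cast
    ring
  have kF : ∀ {l h l' : ℕ} {x y : ℝ}, l ≤ h → h ≤ l' + 1024 →
      (y - (l' : ℝ)) + (((h - l : ℕ) : ℝ) - (x - l)) =
        y + 1024 - x - ((l' + 1024 - h : ℕ) : ℝ) := by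
    intro l h l' x y h1 h2
    rw [Nat.cast_sub h1, Nat.cast_sub h2]
    push_cast
    ring
  simp only [Nat.add_eq, Nat.sub_eq, Nat.mul_eq] at hf
  rw [k3, kS, kP, kP, kP, kF m1 (by omega), kF m2 (by omega), kF m3 (by omega), kW m1 q7,
    kW m2 q8, kW m3 q9] at hf
  have hbL : ∀ L : ℕ, (0 : ℝ) ≤ ((b * L : ℕ) : ℝ) := fun L => Nat.cast_nonneg _
  have key := C5_real (hbL L1) (hbL L2) (hbL L3) (hbL (6 - L2)) (hbL (6 - L3)) (hbL (6 - L1))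
    S1 S2 S3 N1 N2 N3 P1 P2 P3 F1 F2 F3 C1 C2 C3 hD hf
  refine key.trans (le_of_eq ?_)
  rw [Nat.cast_mul, Nat.cast_mul, Nat.cast_mul, Nat.cast_mul, Nat.cast_mul, Nat.cast_mul,
    Nat.cast_sub q1, Nat.cast_sub q2, Nat.cast_sub q3]
  push_cast
  ring

end Hepta
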