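import Pool.Agent.H69.Hep.C1

/-! # C5b: the logarithmic form of the inequality -/

set_option autoImplicit false

namespace Hepta

/-- The logarithmic form of the inequality for triangles. -/
theorem log_form {b L1 L2 L3 : ℕ} {Mh Cv R α₁ α₂ α₃ F₁ F₂ F₃ K₁ K₂ K₃ : ℝ}
    (_hL1 : L1 ≤ 6) (_hL2 : L2 ≤ 6) (_hL3 : L3 ≤ 6) (hL : L1 + L2 + L3 = 12) (hb : 400 ≤ b)
    (hR : 0 < R) (g₁ : α₁ ∈ Set.Icc (896 : ℝ) 1792) (g₂ : α₂ ∈ Set.Icc (896 : ℝ) 1792)
    (g₃ : α₃ ∈ Set.Icc (896 : ℝ) 1792)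
    (e₁ : F₁ + K₁ ≤ 2 ^ 30 * Real.log R + GS α₃) (e₂ : F₂ + K₂ ≤ 2 ^ 30 * Real.log R + GS α₁)
    (e₃ : F₃ + K₃ ≤ 2 ^ 30 * Real.log R + GS α₂)
    (h : 0 ≤ (b : ℝ) * ((6 - L2) * GS α₁ + (6 - L3) * GS α₂ + (6 - L1) * GS α₃ +
        L1 * (F₁ + K₁) + L2 * (F₂ + K₂) + L3 * (F₃ + K₃)) - 1536 * (2 ^ 30 * Cv) +
      2 ^ 30 * (6 * b * Real.log (512 / b) - 1536 * (Mh - b / 256))) :
    Mh + Cv ≤ 2 * R ^ 2 * (Real.sin (α₁ * gu) * Real.sin (α₂ * gu) * Real.sin (α₃ * gu)) := by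
  have hb0 : (0 : ℝ) < b := by
    have h1 : (400 : ℝ) ≤ b := by exact_mod_cast hb
    linarith
  have hs : ∀ α ∈ Set.Icc (896 : ℝ) 1792, 0 < Real.sin (α * gu) := by
    intro α hα
    apply Real.sin_pos_of_pos_of_lt_pi
    · exact mul_pos (by linarith [hα.1]) gu_pos
    · have h1 : α * gu ≤ 1792 * gu := mul_le_mul_of_nonneg_right hα.2 gu_pos.le
      have h2 : 1792 * gu = Real.pi / 2 := by
        unfold gu
        ring
      linarith [Real.pi_pos]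
  have s1 := hs α₁ g₁
  have s2 := hs α₂ g₂
  have s3 := hs α₃ g₃
  unfold GS at e₁ e₂ e₃ h
  set S1 := Real.sin (α₁ * gu)
  set S2 := Real.sin (α₂ * gu)
  set S3 := Real.sin (α₃ * gu)
  have hA : 0 < R ^ 2 * (S1 * S2 * S3) := by positivity
  have hlogA : Real.log (R ^ 2 * (S1 * S2 * S3)) =
      2 * Real.log R + (Real.log S1 + Real.log S2 + Real.log S3) := by
    rw [Real.log_mul (by positivity) (by positivity), Real.log_pow,
      Real.log_mul (by positivity) (by positivity), Real.log_mul (by positivity) (by positivity)]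
    push_cast
    ring
  have hy : 0 < R ^ 2 * (S1 * S2 * S3) * (512 / b) := by positivity
  have hlog := Real.log_le_sub_one_of_pos hy
  rw [Real.log_mul hA.ne' (by positivity), hlogA] at hlog
  have n1 : (0 : ℝ) ≤ L1 := Nat.cast_nonneg _
  have n2 : (0 : ℝ) ≤ L2 := Nat.cast_nonneg _
  have n3 : (0 : ℝ) ≤ L3 := Nat.cast_nonneg _
  have hL' : (L1 : ℝ) + L2 + L3 = 12 := by exact_mod_cast hL
  have m1 := mul_le_mul_of_nonneg_left e₁ n1
  have m2 := mul_le_mul_of_nonneg_left e₂ n2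
  have m3 := mul_le_mul_of_nonneg_left e₃ n3
  have hX : (6 - L2) * (2 ^ 30 * Real.log S1) + (6 - L3) * (2 ^ 30 * Real.log S2) +
      (6 - L1) * (2 ^ 30 * Real.log S3) + L1 * (F₁ + K₁) + L2 * (F₂ + K₂) + L3 * (F₃ + K₃) ≤
      2 ^ 30 * (6 * (2 * Real.log R + (Real.log S1 + Real.log S2 + Real.log S3))) := by
    have h1 : 2 ^ 30 * (6 * (2 * Real.log R + (Real.log S1 + Real.log S2 + Real.log S3))) =
        (6 - L2) * (2 ^ 30 * Real.log S1) + (6 - L3) * (2 ^ 30 * Real.log S2) +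
        (6 - L1) * (2 ^ 30 * Real.log S3) + L1 * (2 ^ 30 * Real.log R + 2 ^ 30 * Real.log S3) +
        L2 * (2 ^ 30 * Real.log R + 2 ^ 30 * Real.log S1) +
        L3 * (2 ^ 30 * Real.log R + 2 ^ 30 * Real.log S2) +
        2 ^ 30 * Real.log R * (12 - ((L1 : ℝ) + L2 + L3)) := by ring
    rw [h1, hL']
    linarith
  have hX2 := mul_le_mul_of_nonneg_left hX hb0.le
  have hl2 := mul_le_mul_of_nonneg_left hlog hb0.le
  have h3 : (b : ℝ) * (R ^ 2 * (S1 * S2 * S3) * (512 / b) - 1) =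
      512 * (R ^ 2 * (S1 * S2 * S3)) - b := by
    field_simp
  rw [h3] at hl2
  nlinarith

end Hepta
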