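import Pool.Agent.H69.Hep.C6a

/-! # C6: the instructions are sound -/

set_option autoImplicit false

namespace Hepta

variable {T : Tabs} {W : ℝ → ℝ} {Mh : ℝ}

private theorem C6_none {β : Type} {a : β} (h : (none : Option β) = some a) : False := by
  cases h

private theorem C6_kn_one {ξ υ : ℝ} (h : cw (υ * gu) ≤ cw (ξ * gu)) : Kn 1 ξ υ :=
  ⟨fun _ => h, fun h' => absurd h' (by decide)⟩

private theorem C6_kn_two {ξ υ : ℝ} (h : cw (ξ * gu) ≤ cw (υ * gu)) : Kn 2 ξ υ :=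
  ⟨fun h' => absurd h' (by decide), fun _ => h⟩

private theorem C6_kn_zero (ξ υ : ℝ) : Kn 0 ξ υ :=
  ⟨fun h' => absurd h' (by decide), fun h' => absurd h' (by decide)⟩

private theorem C6_split_1 {l1 h1 l2 h2 l3 h3 la ha lb hb t1 t2 t3 m : ℕ}
    (A : BoxOK W Mh ⟨l1, m, l2, h2, l3, h3, la, ha, lb, hb, t1, t2, t3⟩)
    (B : BoxOK W Mh ⟨m, h1, l2, h2, l3, h3, la, ha, lb, hb, t1, t2, t3⟩) :
    BoxOK W Mh ⟨l1, h1, l2, h2, l3, h3, la, ha, lb, hb, t1, t2, t3⟩ := by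
  intro ξ₁ ξ₂ ξ₃ α₁ α₂ α₃ R x1 x2 x3 a1 a2 e o1 o2 o3 o4 hR k1 k2 k3 g1 g2 g3
  rcases le_total ξ₁ (m : ℝ) with hm | hm
  · exact A ξ₁ ξ₂ ξ₃ α₁ α₂ α₃ R ⟨x1.1, hm⟩ x2 x3 a1 a2 e o1 o2 o3 o4 hR k1 k2 k3 g1 g2 g3
  · exact B ξ₁ ξ₂ ξ₃ α₁ α₂ α₃ R ⟨hm, x1.2⟩ x2 x3 a1 a2 e o1 o2 o3 o4 hR k1 k2 k3 g1 g2 g3

private theorem C6_split_2 {l1 h1 l2 h2 l3 h3 la ha lb hb t1 t2 t3 m : ℕ}
    (A : BoxOK W Mh ⟨l1, h1, l2, m, l3, h3, la, ha, lb, hb, t1, t2, t3⟩)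
    (B : BoxOK W Mh ⟨l1, h1, m, h2, l3, h3, la, ha, lb, hb, t1, t2, t3⟩) :
    BoxOK W Mh ⟨l1, h1, l2, h2, l3, h3, la, ha, lb, hb, t1, t2, t3⟩ := by
  intro ξ₁ ξ₂ ξ₃ α₁ α₂ α₃ R x1 x2 x3 a1 a2 e o1 o2 o3 o4 hR k1 k2 k3 g1 g2 g3
  rcases le_total ξ₂ (m : ℝ) with hm | hm
  · exact A ξ₁ ξ₂ ξ₃ α₁ α₂ α₃ R x1 ⟨x2.1, hm⟩ x3 a1 a2 e o1 o2 o3 o4 hR k1 k2 k3 g1 g2 g3
  · exact B ξ₁ ξ₂ ξ₃ α₁ α₂ α₃ R x1 ⟨hm, x2.2⟩ x3 a1 a2 e o1 o2 o3 o4 hR k1 k2 k3 g1 g2 g3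

private theorem C6_split_3 {l1 h1 l2 h2 l3 h3 la ha lb hb t1 t2 t3 m : ℕ}
    (A : BoxOK W Mh ⟨l1, h1, l2, h2, l3, m, la, ha, lb, hb, t1, t2, t3⟩)
    (B : BoxOK W Mh ⟨l1, h1, l2, h2, m, h3, la, ha, lb, hb, t1, t2, t3⟩) :
    BoxOK W Mh ⟨l1, h1, l2, h2, l3, h3, la, ha, lb, hb, t1, t2, t3⟩ := by
  intro ξ₁ ξ₂ ξ₃ α₁ α₂ α₃ R x1 x2 x3 a1 a2 e o1 o2 o3 o4 hR k1 k2 k3 g1 g2 g3
  rcases le_total ξ₃ (m : ℝ) with hm | hm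
  · exact A ξ₁ ξ₂ ξ₃ α₁ α₂ α₃ R x1 x2 ⟨x3.1, hm⟩ a1 a2 e o1 o2 o3 o4 hR k1 k2 k3 g1 g2 g3
  · exact B ξ₁ ξ₂ ξ₃ α₁ α₂ α₃ R x1 x2 ⟨hm, x3.2⟩ a1 a2 e o1 o2 o3 o4 hR k1 k2 k3 g1 g2 g3

private theorem C6_split_a {l1 h1 l2 h2 l3 h3 la ha lb hb t1 t2 t3 m : ℕ}
    (A : BoxOK W Mh ⟨l1, h1, l2, h2, l3, h3, la, m, lb, hb, t1, t2, t3⟩)
    (B : BoxOK W Mh ⟨l1, h1, l2, h2, l3, h3, m, ha, lb, hb, t1, t2, t3⟩) :
    BoxOK W Mh ⟨l1, h1, l2, h2, l3, h3, la, ha, lb, hb, t1, t2, t3⟩ := by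
  intro ξ₁ ξ₂ ξ₃ α₁ α₂ α₃ R x1 x2 x3 a1 a2 e o1 o2 o3 o4 hR k1 k2 k3 g1 g2 g3
  rcases le_total α₁ (m : ℝ) with hm | hm
  · exact A ξ₁ ξ₂ ξ₃ α₁ α₂ α₃ R x1 x2 x3 ⟨a1.1, hm⟩ a2 e o1 o2 o3 o4 hR k1 k2 k3 g1 g2 g3
  · exact B ξ₁ ξ₂ ξ₃ α₁ α₂ α₃ R x1 x2 x3 ⟨hm, a1.2⟩ a2 e o1 o2 o3 o4 hR k1 k2 k3 g1 g2 g3

private theorem C6_split_b {l1 h1 l2 h2 l3 h3 la ha lb hb t1 t2 t3 m : ℕ}
    (A : BoxOK W Mh ⟨l1, h1, l2, h2, l3, h3, la, ha, lb, m, t1, t2, t3⟩)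
    (B : BoxOK W Mh ⟨l1, h1, l2, h2, l3, h3, la, ha, m, hb, t1, t2, t3⟩) :
    BoxOK W Mh ⟨l1, h1, l2, h2, l3, h3, la, ha, lb, hb, t1, t2, t3⟩ := by
  intro ξ₁ ξ₂ ξ₃ α₁ α₂ α₃ R x1 x2 x3 a1 a2 e o1 o2 o3 o4 hR k1 k2 k3 g1 g2 g3
  rcases le_total α₂ (m : ℝ) with hm | hm
  · exact A ξ₁ ξ₂ ξ₃ α₁ α₂ α₃ R x1 x2 x3 a1 ⟨a2.1, hm⟩ e o1 o2 o3 o4 hR k1 k2 k3 g1 g2 g3
  · exact B ξ₁ ξ₂ ξ₃ α₁ α₂ α₃ R x1 x2 x3 a1 ⟨hm, a2.2⟩ e o1 o2 o3 o4 hR k1 k2 k3 g1 g2 g3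

private theorem C6_know_1 {l1 h1 l2 h2 l3 h3 la ha lb hb t2 t3 : ℕ}
    (A : BoxOK W Mh ⟨l1, h1, l2, h2, l3, h3, la, ha, lb, hb, 1, t2, t3⟩)
    (B : BoxOK W Mh ⟨l1, h1, l2, h2, l3, h3, la, ha, lb, hb, 2, t2, t3⟩) :
    BoxOK W Mh ⟨l1, h1, l2, h2, l3, h3, la, ha, lb, hb, 0, t2, t3⟩ := by
  intro ξ₁ ξ₂ ξ₃ α₁ α₂ α₃ R x1 x2 x3 a1 a2 e o1 o2 o3 o4 hR k1 k2 k3 g1 g2 g3
  rcases le_total (cw ((ξ₂ + α₂) * gu)) (cw (ξ₁ * gu)) with hm | hm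
  · exact A ξ₁ ξ₂ ξ₃ α₁ α₂ α₃ R x1 x2 x3 a1 a2 e o1 o2 o3 o4 hR (C6_kn_one hm) k2 k3 g1 g2 g3
  · exact B ξ₁ ξ₂ ξ₃ α₁ α₂ α₃ R x1 x2 x3 a1 a2 e o1 o2 o3 o4 hR (C6_kn_two hm) k2 k3 g1 g2 g3

private theorem C6_know_2 {l1 h1 l2 h2 l3 h3 la ha lb hb t1 t3 : ℕ}
    (A : BoxOK W Mh ⟨l1, h1, l2, h2, l3, h3, la, ha, lb, hb, t1, 1, t3⟩)
    (B : BoxOK W Mh ⟨l1, h1, l2, h2, l3, h3, la, ha, lb, hb, t1, 2, t3⟩) :
    BoxOK W Mh ⟨l1, h1, l2, h2, l3, h3, la, ha, lb, hb, t1, 0, t3⟩ := by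
  intro ξ₁ ξ₂ ξ₃ α₁ α₂ α₃ R x1 x2 x3 a1 a2 e o1 o2 o3 o4 hR k1 k2 k3 g1 g2 g3
  rcases le_total (cw ((ξ₃ + α₃) * gu)) (cw (ξ₂ * gu)) with hm | hm
  · exact A ξ₁ ξ₂ ξ₃ α₁ α₂ α₃ R x1 x2 x3 a1 a2 e o1 o2 o3 o4 hR k1 (C6_kn_one hm) k3 g1 g2 g3
  · exact B ξ₁ ξ₂ ξ₃ α₁ α₂ α₃ R x1 x2 x3 a1 a2 e o1 o2 o3 o4 hR k1 (C6_kn_two hm) k3 g1 g2 g3

private theorem C6_know_3 {l1 h1 l2 h2 l3 h3 la ha lb hb t1 t2 : ℕ}
    (A : BoxOK W Mh ⟨l1, h1, l2, h2, l3, h3, la, ha, lb, hb, t1, t2, 1⟩)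
    (B : BoxOK W Mh ⟨l1, h1, l2, h2, l3, h3, la, ha, lb, hb, t1, t2, 2⟩) :
    BoxOK W Mh ⟨l1, h1, l2, h2, l3, h3, la, ha, lb, hb, t1, t2, 0⟩ := by
  intro ξ₁ ξ₂ ξ₃ α₁ α₂ α₃ R x1 x2 x3 a1 a2 e o1 o2 o3 o4 hR k1 k2 k3 g1 g2 g3
  rcases le_total (cw ((ξ₁ + α₁) * gu)) (cw (ξ₃ * gu)) with hm | hm
  · exact A ξ₁ ξ₂ ξ₃ α₁ α₂ α₃ R x1 x2 x3 a1 a2 e o1 o2 o3 o4 hR k1 k2 (C6_kn_one hm) g1 g2 g3
  · exact B ξ₁ ξ₂ ξ₃ α₁ α₂ α₃ R x1 x2 x3 a1 a2 e o1 o2 o3 o4 hR k1 k2 (C6_kn_two hm) g1 g2 g3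

private theorem C6_cond {c : Bool} {a st' : List Box} (h : cond c (some a) none = some st') :
    c = true ∧ a = st' := by
  cases c with
  | false => exact (C6_none h).elim
  | true => exact ⟨rfl, Option.some.inj h⟩

private theorem C6_noAngle {l1 h1 l2 h2 l3 h3 la ha lb hb t1 t2 t3 : ℕ}
    (h : noAngle la ha lb hb = true) : BoxOK W Mh ⟨l1, h1, l2, h2, l3, h3, la, ha, lb, hb, t1, t2, t3⟩ := by
  intro ξ₁ ξ₂ ξ₃ α₁ α₂ α₃ R x1 x2 x3 a1 a2 e o1 o2 o3 o4 hR k1 k2 k3 g1 g2 g3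
  exfalso
  obtain ⟨a11, a12⟩ := a1
  obtain ⟨a21, a22⟩ := a2
  simp only at a11 a12 a21 a22
  unfold noAngle at h
  simp only [Bool.or_eq_true, Nat.blt_eq, Nat.add_eq] at h
  rcases h with ((((((h | h) | h) | h) | h) | h) | h) | h
  · have h' : (ha : ℝ) < 896 := by exact_mod_cast h
    linarith
  · have h' : (1792 : ℝ) < la := by exact_mod_cast h
    linarith
  · have h' : (hb : ℝ) < 896 := by exact_mod_cast h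
    linarith
  · have h' : (1792 : ℝ) < lb := by exact_mod_cast h
    linarith
  · have h' : (2688 : ℝ) < (la : ℝ) + lb := by exact_mod_cast h
    linarith
  · have h' : (ha : ℝ) + hb < 1792 := by exact_mod_cast h
    linarith
  · have h' : (ha : ℝ) < lb := by exact_mod_cast h
    linarith
  · have h' : (ha : ℝ) + (hb + hb) < 3584 := by exact_mod_cast h
    linarith

private theorem C6_noEdge {t lx hx ly hy : ℕ} (h : noEdge t lx hx ly hy = true) {ξ υ : ℝ}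
    (x : ξ ∈ Set.Icc (lx : ℝ) hx) (y : υ ∈ Set.Icc (ly : ℝ) hy) (k : Kn t ξ υ) : False := by
  unfold noEdge at h
  simp only [Bool.or_eq_true, Bool.and_eq_true, Nat.beq_eq, Nat.blt_eq] at h
  rcases h with ⟨h1, h2⟩ | ⟨h1, h2⟩
  · have h3 := cw_lt_of_blt h2 x y
    have h4 := k.1 h1
    linarith
  · have h3 := cw_lt_of_blt h2 y x
    have h4 := k.2 h1
    linarith

private theorem C6_alpha3 {la ha lb hb : ℕ} {α₁ α₂ α₃ : ℝ} (a1 : α₁ ∈ Set.Icc (la : ℝ) ha)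
    (a2 : α₂ ∈ Set.Icc (lb : ℝ) hb) (e : α₃ = 3584 - α₁ - α₂) (o3 : 896 ≤ α₃) :
    α₃ ∈ Set.Icc ((3584 - (ha + hb) : ℕ) : ℝ) ((3584 - (la + lb) : ℕ) : ℝ) := by
  obtain ⟨a11, a12⟩ := a1
  obtain ⟨a21, a22⟩ := a2
  constructor
  · rcases le_total (ha + hb) 3584 with h | h
    · rw [Nat.cast_sub h]
      push_cast
      linarith
    · rw [Nat.sub_eq_zero_of_le h]
      push_cast
      linarith
  · have h : la + lb ≤ 3584 := by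
      have h' : ((la + lb : ℕ) : ℝ) ≤ 3584 := by
        push_cast
        linarith
      exact_mod_cast h'
    rw [Nat.cast_sub h]
    push_cast
    linarith

private theorem C6_add {a b c d : ℕ} {x y : ℝ} (hx : x ∈ Set.Icc (a : ℝ) b)
    (hy : y ∈ Set.Icc (c : ℝ) d) : x + y ∈ Set.Icc ((a + c : ℕ) : ℝ) ((b + d : ℕ) : ℝ) := by
  push_cast
  exact ⟨add_le_add hx.1 hy.1, add_le_add hx.2 hy.2⟩

private theorem C6_inE {l1 h1 l2 h2 l1' h1' l2' h2' l3' h3' : ℕ} :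
    ∀ E : List Box, inE l1 h1 l2 h2 l1' h1' l2' h2' l3' h3' E = true →
      ∃ B ∈ E, (B.l1 ≤ l1 ∧ h1 ≤ B.h1) ∧ (B.l2 ≤ l2 ∧ h2 ≤ B.h2) ∧ (B.l3 ≤ l1' ∧ h1' ≤ B.h3) ∧
        (B.la + h1 ≤ l2' + 1024 ∧ h2' + 1024 ≤ B.ha + l1) ∧
        (B.lb + h2 ≤ l3' + 1024 ∧ h3' + 1024 ≤ B.hb + l2) := by
  intro E
  induction E with
  | nil =>
    intro h
    exact absurd h (by simp [inE])
  | cons B E ih =>
    intro h
    obtain ⟨m1, n1, m2, n2, m3, n3, ma, na, mb, nb, s1, s2, s3⟩ := B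
    unfold inE at h
    simp only [Bool.or_eq_true, Bool.and_eq_true, Nat.ble_eq, Nat.add_eq] at h
    rcases h with h | h
    · obtain ⟨⟨⟨⟨⟨⟨⟨⟨⟨c1, c2⟩, c3⟩, c4⟩, c5⟩, c6⟩, c7⟩, c8⟩, c9⟩, c10⟩ := h
      exact ⟨_, List.mem_cons_self, ⟨c1, c2⟩, ⟨c3, c4⟩, ⟨c5, c6⟩, ⟨c7, c8⟩, ⟨c9, c10⟩⟩
    · obtain ⟨B, hB, hB'⟩ := ih h
      exact ⟨B, List.mem_cons_of_mem _ hB, hB'⟩

private theorem C6_icc_diff {m n l h l' h' : ℕ} (hm : m + h ≤ l' + 1024 ∧ h' + 1024 ≤ n + l)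
    {x y : ℝ} (hx : x ∈ Set.Icc (l : ℝ) h) (hy : y ∈ Set.Icc (l' : ℝ) h') :
    y + 1024 - x ∈ Set.Icc (m : ℝ) n := by
  have h1 : (m : ℝ) + h ≤ l' + 1024 := by exact_mod_cast hm.1
  have h2 : (h' : ℝ) + 1024 ≤ n + l := by exact_mod_cast hm.2
  obtain ⟨hx1, hx2⟩ := hx
  obtain ⟨hy1, hy2⟩ := hy
  exact ⟨by linarith, by linarith⟩

private theorem C6_icc {a b c d : ℕ} (h : a ≤ c ∧ d ≤ b) {x : ℝ} (hx : x ∈ Set.Icc (c : ℝ) d) :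
    x ∈ Set.Icc (a : ℝ) b := by
  have h1 : (a : ℝ) ≤ c := by exact_mod_cast h.1
  have h2 : (d : ℝ) ≤ b := by exact_mod_cast h.2
  exact ⟨h1.trans hx.1, hx.2.trans h2⟩

private theorem C6_leaf (hT : TabsOK T W Mh) (hodd : ∀ x, W (-x) = -W x)
    (hper : ∀ x, W (x + ww) = W x) {l1 h1 l2 h2 l3 h3 la ha lb hb t1 t2 t3 : ℕ}
    {b L1 L2 L3 f1 f2 f3 : ℕ}
    (hl : leaf T l1 h1 l2 h2 l3 h3 la ha lb hb t1 t2 t3 (3584 - (ha + hb)) (3584 - (la + lb))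
      (l1 + la) (h1 + ha) (l2 + lb) (h2 + hb) (l3 + (3584 - (ha + hb))) (h3 + (3584 - (la + lb)))
      b L1 L2 L3 f1 f2 f3 = true) :
    BoxOK W Mh ⟨l1, h1, l2, h2, l3, h3, la, ha, lb, hb, t1, t2, t3⟩ := by
  intro ξ₁ ξ₂ ξ₃ α₁ α₂ α₃ R x1 x2 x3 a1 a2 e o1 o2 o3 o4 hR k1 k2 k3 g1 g2 g3
  have c1 : α₁ ∈ Set.Icc (896 : ℝ) 1792 := ⟨by linarith, o4⟩
  have c2 : α₂ ∈ Set.Icc (896 : ℝ) 1792 := ⟨by linarith, by linarith⟩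
  have c3 : α₃ ∈ Set.Icc (896 : ℝ) 1792 := ⟨o3, by linarith⟩
  obtain ⟨q1, q2, q3, q4, q5, -, q⟩ := leaf_sound hT hodd hper hl x1 x2 x3 a1 a2 e c1 c2 c3
  have e1 := Eg.log_le g1 hR c3 k1
  have e2 := Eg.log_le g2 hR c1 k2
  have e3 := Eg.log_le g3 hR c2 k3
  refine log_form q1 q2 q3 q4 q5 hR c1 c2 c3 e1 e2 e3 ?_
  have hV : GV W ξ₁ - GV W (ξ₁ + α₁) + (GV W ξ₂ - GV W (ξ₂ + α₂)) +
      (GV W ξ₃ - GV W (ξ₃ + α₃)) =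
      2 ^ 30 * (W (ξ₁ * gu) - W ((ξ₁ + α₁) * gu) + (W (ξ₂ * gu) - W ((ξ₂ + α₂) * gu)) +
        (W (ξ₃ * gu) - W ((ξ₃ + α₃) * gu))) := by
    unfold GV
    ring
  rw [hV] at q
  exact q

theorem step_sound (hT : TabsOK T W Mh) (hodd : ∀ x, W (-x) = -W x)
    (hper : ∀ x, W (x + ww) = W x) (hE : ∀ B ∈ T.E, RegOK W Mh B) {k m : ℕ} {B : Box}
    {st st' : List Box} (h : step T k m B st = some st') (hst : ∀ B' ∈ st', BoxOK W Mh B') :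
    BoxOK W Mh B ∧ ∀ B' ∈ st, BoxOK W Mh B' := by
  obtain ⟨l1, h1, l2, h2, l3, h3, la, ha, lb, hb, t1, t2, t3⟩ := B
  match k, h with
  | 0, h =>
    have h' : ⟨l1, m, l2, h2, l3, h3, la, ha, lb, hb, t1, t2, t3⟩ ::
        ⟨m, h1, l2, h2, l3, h3, la, ha, lb, hb, t1, t2, t3⟩ :: st = st' := Option.some.inj h
    subst h'
    exact ⟨C6_split_1 (hst _ List.mem_cons_self)
      (hst _ (List.mem_cons_of_mem _ List.mem_cons_self)),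
      fun B' hB' => hst B' (List.mem_cons_of_mem _ (List.mem_cons_of_mem _ hB'))⟩
  | 1, h =>
    have h' : ⟨l1, h1, l2, m, l3, h3, la, ha, lb, hb, t1, t2, t3⟩ ::
        ⟨l1, h1, m, h2, l3, h3, la, ha, lb, hb, t1, t2, t3⟩ :: st = st' := Option.some.inj h
    subst h'
    exact ⟨C6_split_2 (hst _ List.mem_cons_self)
      (hst _ (List.mem_cons_of_mem _ List.mem_cons_self)),
      fun B' hB' => hst B' (List.mem_cons_of_mem _ (List.mem_cons_of_mem _ hB'))⟩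
  | 2, h =>
    have h' : ⟨l1, h1, l2, h2, l3, m, la, ha, lb, hb, t1, t2, t3⟩ ::
        ⟨l1, h1, l2, h2, m, h3, la, ha, lb, hb, t1, t2, t3⟩ :: st = st' := Option.some.inj h
    subst h'
    exact ⟨C6_split_3 (hst _ List.mem_cons_self)
      (hst _ (List.mem_cons_of_mem _ List.mem_cons_self)),
      fun B' hB' => hst B' (List.mem_cons_of_mem _ (List.mem_cons_of_mem _ hB'))⟩
  | 3, h =>
    have h' : ⟨l1, h1, l2, h2, l3, h3, la, m, lb, hb, t1, t2, t3⟩ ::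
        ⟨l1, h1, l2, h2, l3, h3, m, ha, lb, hb, t1, t2, t3⟩ :: st = st' := Option.some.inj h
    subst h'
    exact ⟨C6_split_a (hst _ List.mem_cons_self)
      (hst _ (List.mem_cons_of_mem _ List.mem_cons_self)),
      fun B' hB' => hst B' (List.mem_cons_of_mem _ (List.mem_cons_of_mem _ hB'))⟩
  | 4, h =>
    have h' : ⟨l1, h1, l2, h2, l3, h3, la, ha, lb, m, t1, t2, t3⟩ ::
        ⟨l1, h1, l2, h2, l3, h3, la, ha, m, hb, t1, t2, t3⟩ :: st = st' := Option.some.inj h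
    subst h'
    exact ⟨C6_split_b (hst _ List.mem_cons_self)
      (hst _ (List.mem_cons_of_mem _ List.mem_cons_self)),
      fun B' hB' => hst B' (List.mem_cons_of_mem _ (List.mem_cons_of_mem _ hB'))⟩
  | 5, h =>
    have h' : cond (Nat.beq t1 0) (some (⟨l1, h1, l2, h2, l3, h3, la, ha, lb, hb, 1, t2, t3⟩ ::
        ⟨l1, h1, l2, h2, l3, h3, la, ha, lb, hb, 2, t2, t3⟩ :: st)) none = some st' := h
    obtain ⟨hc, h''⟩ := C6_cond h'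
    have ht : t1 = 0 := Nat.eq_of_beq_eq_true hc
    subst h''
    subst ht
    exact ⟨C6_know_1 (hst _ List.mem_cons_self)
      (hst _ (List.mem_cons_of_mem _ List.mem_cons_self)),
      fun B' hB' => hst B' (List.mem_cons_of_mem _ (List.mem_cons_of_mem _ hB'))⟩
  | 6, h =>
    have h' : cond (Nat.beq t2 0) (some (⟨l1, h1, l2, h2, l3, h3, la, ha, lb, hb, t1, 1, t3⟩ ::
        ⟨l1, h1, l2, h2, l3, h3, la, ha, lb, hb, t1, 2, t3⟩ :: st)) none = some st' := h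
    obtain ⟨hc, h''⟩ := C6_cond h'
    have ht : t2 = 0 := Nat.eq_of_beq_eq_true hc
    subst h''
    subst ht
    exact ⟨C6_know_2 (hst _ List.mem_cons_self)
      (hst _ (List.mem_cons_of_mem _ List.mem_cons_self)),
      fun B' hB' => hst B' (List.mem_cons_of_mem _ (List.mem_cons_of_mem _ hB'))⟩
  | 7, h =>
    have h' : cond (Nat.beq t3 0) (some (⟨l1, h1, l2, h2, l3, h3, la, ha, lb, hb, t1, t2, 1⟩ ::
        ⟨l1, h1, l2, h2, l3, h3, la, ha, lb, hb, t1, t2, 2⟩ :: st)) none = some st' := h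
    obtain ⟨hc, h''⟩ := C6_cond h'
    have ht : t3 = 0 := Nat.eq_of_beq_eq_true hc
    subst h''
    subst ht
    exact ⟨C6_know_3 (hst _ List.mem_cons_self)
      (hst _ (List.mem_cons_of_mem _ List.mem_cons_self)),
      fun B' hB' => hst B' (List.mem_cons_of_mem _ (List.mem_cons_of_mem _ hB'))⟩
  | 8, h =>
    have h' : cond (noAngle la ha lb hb) (some st) none = some st' := h
    obtain ⟨hc, h''⟩ := C6_cond h'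
    subst h''
    exact ⟨C6_noAngle hc, hst⟩
  | 9, h =>
    have h' : cond (noEdge t1 l1 h1 (l2 + lb) (h2 + hb)) (some st) none = some st' := h
    obtain ⟨hc, h''⟩ := C6_cond h'
    subst h''
    refine ⟨?_, hst⟩
    intro ξ₁ ξ₂ ξ₃ α₁ α₂ α₃ R x1 x2 x3 a1 a2 e o1 o2 o3 o4 hR k1 k2 k3 g1 g2 g3
    exact (C6_noEdge hc x1 (C6_add x2 a2) k1).elim
  | 10, h =>
    have h' : cond (noEdge t2 l2 h2 (l3 + (3584 - (ha + hb))) (h3 + (3584 - (la + lb))))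
        (some st) none = some st' := h
    obtain ⟨hc, h''⟩ := C6_cond h'
    subst h''
    refine ⟨?_, hst⟩
    intro ξ₁ ξ₂ ξ₃ α₁ α₂ α₃ R x1 x2 x3 a1 a2 e o1 o2 o3 o4 hR k1 k2 k3 g1 g2 g3
    exact (C6_noEdge hc x2 (C6_add x3 (C6_alpha3 a1 a2 e o3)) k2).elim
  | 11, h =>
    have h' : cond (noEdge t3 l3 h3 (l1 + la) (h1 + ha)) (some st) none = some st' := h
    obtain ⟨hc, h''⟩ := C6_cond h'
    subst h''
    refine ⟨?_, hst⟩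
    intro ξ₁ ξ₂ ξ₃ α₁ α₂ α₃ R x1 x2 x3 a1 a2 e o1 o2 o3 o4 hR k1 k2 k3 g1 g2 g3
    exact (C6_noEdge hc x3 (C6_add x1 a1) k3).elim
  | 12, h =>
    have h' : cond (leaf T l1 h1 l2 h2 l3 h3 la ha lb hb t1 t2 t3 (3584 - (ha + hb))
        (3584 - (la + lb)) (l1 + la) (h1 + ha) (l2 + lb) (h2 + hb) (l3 + (3584 - (ha + hb)))
        (h3 + (3584 - (la + lb)))
        (Nat.add (Nat.mod m 256) 400)
        (Nat.mod (Nat.div m 256) 16) (Nat.mod (Nat.div m 4096) 16)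
        (Nat.sub 12 (Nat.add (Nat.mod (Nat.div m 256) 16) (Nat.mod (Nat.div m 4096) 16)))
        (Nat.mod (Nat.div m 65536) 5) (Nat.mod (Nat.div m 327680) 5) (Nat.div m 1638400))
        (some st) none = some st' := h
    obtain ⟨hc, h''⟩ := C6_cond h'
    subst h''
    exact ⟨C6_leaf hT hodd hper hc, hst⟩
  | 13, h =>
    have h' : cond (inE l1 h1 l2 h2 (l1 + la) (h1 + ha) (l2 + lb) (h2 + hb)
        (l3 + (3584 - (ha + hb))) (h3 + (3584 - (la + lb))) T.E) (some st) none = some st' := h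
    obtain ⟨hc, h''⟩ := C6_cond h'
    subst h''
    refine ⟨?_, hst⟩
    obtain ⟨B, hB, d1, d2, d3, d4, d5⟩ := C6_inE T.E hc
    intro ξ₁ ξ₂ ξ₃ α₁ α₂ α₃ R x1 x2 x3 a1 a2 e o1 o2 o3 o4 hR k1 k2 k3 g1 g2 g3
    exact hE B hB ξ₁ ξ₂ ξ₃ α₁ α₂ α₃ R (C6_icc d1 x1) (C6_icc d2 x2)
      (C6_icc d3 (C6_add x1 a1)) (C6_icc_diff d4 x1 (C6_add x2 a2))
      (C6_icc_diff d5 x2 (C6_add x3 (C6_alpha3 a1 a2 e o3))) e o1 o2 o3 o4 hR g1 g2 g3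
  | (n + 14), h => exact (C6_none h).elim

theorem run_sound (hT : TabsOK T W Mh) (hodd : ∀ x, W (-x) = -W x)
    (hper : ∀ x, W (x + ww) = W x) (hE : ∀ B ∈ T.E, RegOK W Mh B) {ops : List ℕ}
    {st st' : List Box} (h : run T ops st = some st') (hst : ∀ B' ∈ st', BoxOK W Mh B') :
    ∀ B' ∈ st, BoxOK W Mh B' := by
  induction ops generalizing st with
  | nil =>
    have h' : st = st' := Option.some.inj h
    subst h'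
    exact hst
  | cons op ops ih =>
    cases st with
    | nil =>
      intro B' hB'
      exact absurd hB' List.not_mem_nil
    | cons B st =>
      unfold run at h
      cases hs : step T (Nat.mod op 16) (Nat.div op 16) B st with
      | none =>
        rw [hs] at h
        exact (C6_none h).elim
      | some st'' =>
        rw [hs] at h
        have h1 := ih h
        obtain ⟨h2, h3⟩ := step_sound hT hodd hper hE hs h1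
        intro B' hB'
        rcases List.mem_cons.1 hB' with rfl | hB'
        · exact h2
        · exact h3 B' hB'

end Hepta
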