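import Pool.Agent.H69.Hep.C5
import Pool.Agent.H69.Hep.C5b

/-! # C6a: the inequality in a box -/

set_option autoImplicit false

namespace Hepta

/-- The knowledge `t` on an edge. -/
def Kn (t : ℕ) (ξ υ : ℝ) : Prop :=
  (t = 1 → cw (υ * gu) ≤ cw (ξ * gu)) ∧ (t = 2 → cw (ξ * gu) ≤ cw (υ * gu))

/-- The condition for an edge with the opposite angle `α`. -/
def Eg (R ξ υ α : ℝ) : Prop :=
  fw ((υ - ξ) * gu) ≤ R * Real.sin (α * gu) * max (cw (ξ * gu)) (cw (υ * gu))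

/-- The inequality for triangles holds in the box. -/
def BoxOK (W : ℝ → ℝ) (Mh : ℝ) (B : Box) : Prop :=
  ∀ ξ₁ ξ₂ ξ₃ α₁ α₂ α₃ R : ℝ, ξ₁ ∈ Set.Icc (B.l1 : ℝ) B.h1 → ξ₂ ∈ Set.Icc (B.l2 : ℝ) B.h2 →
    ξ₃ ∈ Set.Icc (B.l3 : ℝ) B.h3 → α₁ ∈ Set.Icc (B.la : ℝ) B.ha → α₂ ∈ Set.Icc (B.lb : ℝ) B.hb →
    α₃ = 3584 - α₁ - α₂ → α₃ ≤ α₂ → α₂ ≤ α₁ → 896 ≤ α₃ → α₁ ≤ 1792 → 0 < R →
    Kn B.t1 ξ₁ (ξ₂ + α₂) → Kn B.t2 ξ₂ (ξ₃ + α₃) → Kn B.t3 ξ₃ (ξ₁ + α₁) →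
    Eg R ξ₁ (ξ₂ + α₂) α₃ → Eg R ξ₂ (ξ₃ + α₃) α₁ → Eg R ξ₃ (ξ₁ + α₁) α₂ →
    Mh + (W (ξ₁ * gu) - W ((ξ₁ + α₁) * gu) + (W (ξ₂ * gu) - W ((ξ₂ + α₂) * gu)) +
      (W (ξ₃ * gu) - W ((ξ₃ + α₃) * gu))) ≤
      2 * R ^ 2 * (Real.sin (α₁ * gu) * Real.sin (α₂ * gu) * Real.sin (α₃ * gu))

/-- The inequality for triangles holds in an exceptional region. -/
def RegOK (W : ℝ → ℝ) (Mh : ℝ) (E : Box) : Prop :=
  ∀ ξ₁ ξ₂ ξ₃ α₁ α₂ α₃ R : ℝ, ξ₁ ∈ Set.Icc (E.l1 : ℝ) E.h1 → ξ₂ ∈ Set.Icc (E.l2 : ℝ) E.h2 →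
    ξ₁ + α₁ ∈ Set.Icc (E.l3 : ℝ) E.h3 → ξ₂ + α₂ + 1024 - ξ₁ ∈ Set.Icc (E.la : ℝ) E.ha →
    ξ₃ + α₃ + 1024 - ξ₂ ∈ Set.Icc (E.lb : ℝ) E.hb →
    α₃ = 3584 - α₁ - α₂ → α₃ ≤ α₂ → α₂ ≤ α₁ → 896 ≤ α₃ → α₁ ≤ 1792 → 0 < R →
    Eg R ξ₁ (ξ₂ + α₂) α₃ → Eg R ξ₂ (ξ₃ + α₃) α₁ → Eg R ξ₃ (ξ₁ + α₁) α₂ →
    Mh + (W (ξ₁ * gu) - W ((ξ₁ + α₁) * gu) + (W (ξ₂ * gu) - W ((ξ₂ + α₂) * gu)) +
      (W (ξ₃ * gu) - W ((ξ₃ + α₃) * gu))) ≤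
      2 * R ^ 2 * (Real.sin (α₁ * gu) * Real.sin (α₂ * gu) * Real.sin (α₃ * gu))

variable {T : Tabs} {W : ℝ → ℝ} {Mh : ℝ}

/-- From the condition for the edge to the logarithmic form. -/
theorem Eg.log_le {R ξ υ α : ℝ} (h : Eg R ξ υ α) (hR : 0 < R) (hα : α ∈ Set.Icc (896 : ℝ) 1792)
    {t : ℕ} (hk : Kn t ξ υ) : GF (υ - ξ) + CT t ξ υ ≤ 2 ^ 30 * Real.log R + GS α := by
  have hfw1 : 0 < fw ((υ - ξ) * gu) := by
    have hc := cos_half_pos'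
    have habs := abs_sub_round ((υ - ξ) * gu)
    have hww : 0 < ww := by
      rw [ww_eq]
      have := gu_pos
      linarith
    have hww' : ww / 2 ≤ Real.pi / 2 := by
      unfold ww
      have := Real.pi_pos
      linarith
    unfold fw
    have h1 : 0 ≤ Real.cos (ww / 2 - |(υ - ξ) * gu - round ((υ - ξ) * gu / ww) * ww|) := by
      apply Real.cos_nonneg_of_mem_Icc
      constructor
      · have := Real.pi_pos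
        linarith
      · have := abs_nonneg ((υ - ξ) * gu - round ((υ - ξ) * gu / ww) * ww)
        linarith
    have h2 := div_nonneg h1 hc.le
    linarith
  have hs : 0 < Real.sin (α * gu) := by
    apply Real.sin_pos_of_pos_of_lt_pi
    · exact mul_pos (by linarith [hα.1]) gu_pos
    · have h1 : α * gu ≤ 1792 * gu := mul_le_mul_of_nonneg_right hα.2 gu_pos.le
      have h2 : 1792 * gu = Real.pi / 2 := by
        unfold gu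
        ring
      have := Real.pi_pos
      linarith
  have hcξ := cw_pos (ξ * gu)
  have hcυ := cw_pos (υ * gu)
  have hmax : 0 < max (cw (ξ * gu)) (cw (υ * gu)) := lt_max_of_lt_left hcξ
  have hlog : Real.log (fw ((υ - ξ) * gu)) ≤
      Real.log R + Real.log (Real.sin (α * gu)) + Real.log (max (cw (ξ * gu)) (cw (υ * gu))) := by
    rw [← Real.log_mul hR.ne' hs.ne', ← Real.log_mul (mul_pos hR hs).ne' hmax.ne']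
    exact Real.log_le_log hfw1 h
  have hCT : CT t ξ υ ≤ -(2 ^ 30 * Real.log (max (cw (ξ * gu)) (cw (υ * gu)))) := by
    unfold CT
    split_ifs with h1 h2
    · have h3 : max (cw (ξ * gu)) (cw (υ * gu)) = cw (ξ * gu) := max_eq_left (hk.1 h1)
      rw [h3]
      rfl
    · have h3 : max (cw (ξ * gu)) (cw (υ * gu)) = cw (υ * gu) := max_eq_right (hk.2 h2)
      rw [h3]
      rfl
    · have h3 : Real.log (max (cw (ξ * gu)) (cw (υ * gu))) ≤ 0 :=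
        Real.log_nonpos hmax.le (max_le (cw_le_one _) (cw_le_one _))
      nlinarith
  unfold GF GS
  nlinarith

end Hepta
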