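import Pool.Agent.H69.Hep.C6a

/-! # C7: from the root box to all triangles -/

set_option autoImplicit false

namespace Hepta

/-- The root box. -/
def root : Box := ⟨512, 1536, 512, 1536, 512, 1536, 896, 1792, 896, 1792, 0, 0, 0⟩

/-- The inequality for triangles with `a₃ ≤ a₂ ≤ a₁`. -/
def LocS (W : ℝ → ℝ) (Mh : ℝ) : Prop := ∀ R x₁ x₂ x₃ a₁ a₂ a₃ : ℝ, 0 < R → a₃ ≤ a₂ → a₂ ≤ a₁ →
  Real.pi / 4 ≤ a₃ → a₁ ≤ Real.pi / 2 → a₁ + a₂ + a₃ = Real.pi →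
  Ed x₁ (x₂ + a₂) (2 * R * Real.sin a₃) → Ed x₂ (x₃ + a₃) (2 * R * Real.sin a₁) →
  Ed x₃ (x₁ + a₁) (2 * R * Real.sin a₂) →
  W x₁ - W (x₂ + a₂) + (W x₂ - W (x₃ + a₃)) + (W x₃ - W (x₁ + a₁)) ≤
    2 * R ^ 2 * (Real.sin a₁ * Real.sin a₂ * Real.sin a₃) - Mh

/-- The inequality for triangles with angles between `π / 4` and `π / 2`. -/
def LocU (W : ℝ → ℝ) (Mh : ℝ) : Prop := ∀ R x₁ x₂ x₃ a₁ a₂ a₃ : ℝ, 0 < R →
  a₁ ∈ Set.Icc (Real.pi / 4) (Real.pi / 2) → a₂ ∈ Set.Icc (Real.pi / 4) (Real.pi / 2) →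
  a₃ ∈ Set.Icc (Real.pi / 4) (Real.pi / 2) → a₁ + a₂ + a₃ = Real.pi →
  Ed x₁ (x₂ + a₂) (2 * R * Real.sin a₃) → Ed x₂ (x₃ + a₃) (2 * R * Real.sin a₁) →
  Ed x₃ (x₁ + a₁) (2 * R * Real.sin a₂) →
  W x₁ - W (x₂ + a₂) + (W x₂ - W (x₃ + a₃)) + (W x₃ - W (x₁ + a₁)) ≤
    2 * R ^ 2 * (Real.sin a₁ * Real.sin a₂ * Real.sin a₃) - Mh

variable {W : ℝ → ℝ} {Mh : ℝ}

/-- The pair condition does not change if a multiple of `ww` is added to `x` or to `y`. -/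
theorem Ed.add {x y l : ℝ} (h : Ed x y l) (m n : ℤ) : Ed (x + m * ww) (y + n * ww) l := by
  obtain ⟨k, hk | hk⟩ := h
  · refine ⟨k + m, Or.inl fun j => ?_⟩
    have h1 := hk (j - m + n)
    have e1 : x + m * ww - (y + n * ww) - ((j : ℝ) + 1 / 2) * ww =
        x - y - (((j - m + n : ℤ) : ℝ) + 1 / 2) * ww := by
      push_cast
      ring
    have e2 : x + m * ww - ((k + m : ℤ) : ℝ) * ww = x - k * ww := by
      push_cast
      ring
    rw [e1, e2]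
    exact h1
  · refine ⟨k + n, Or.inr fun j => ?_⟩
    have h1 := hk (j - m + n)
    have e1 : x + m * ww - (y + n * ww) - ((j : ℝ) + 1 / 2) * ww =
        x - y - (((j - m + n : ℤ) : ℝ) + 1 / 2) * ww := by
      push_cast
      ring
    have e2 : y + n * ww - ((k + n : ℤ) : ℝ) * ww = y - k * ww := by
      push_cast
      ring
    rw [e1, e2]
    exact h1

private theorem C7_shift (x : ℝ) : ∃ n : ℤ, 512 ≤ x / gu + 1024 * n ∧ x / gu + 1024 * n ≤ 1536 := by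
  refine ⟨⌈(512 - x / gu) / 1024⌉, ?_, ?_⟩
  · have h := Int.le_ceil ((512 - x / gu) / 1024)
    rw [div_le_iff₀ (by norm_num)] at h
    linarith
  · have h := Int.ceil_lt_add_one ((512 - x / gu) / 1024)
    have h2 : (512 - x / gu) / 1024 * 1024 = 512 - x / gu := by
      field_simp
    nlinarith

private theorem C7_edge {R x y a : ℝ} (hR : 0 < R) (ha : 0 < Real.sin a)
    (h : Ed x y (2 * R * Real.sin a)) :
    fw (y - x) ≤ R * Real.sin a * max (cw x) (cw y) := by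
  have h1 := h.fw_le (by positivity)
  have h2 : fw (y - x) = fw (x - y) := by
    rw [← fw_neg (x - y), neg_sub]
  rw [h2]
  have h3 : 2 * R * Real.sin a * max (cw x) (cw y) =
      2 * (R * Real.sin a * max (cw x) (cw y)) := by ring
  rw [h3] at h1
  linarith

theorem locS_of_root (hper : ∀ x, W (x + ww) = W x) (h : BoxOK W Mh root) : LocS W Mh := by
  intro R x₁ x₂ x₃ a₁ a₂ a₃ hR h32 h21 h3 h1 hsum hE1 hE2 hE3
  have hg := gu_pos
  have hper' : ∀ (n : ℤ) (x : ℝ), W (x + n * ww) = W x := by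
    intro n x
    have hp : Function.Periodic W ww := hper
    exact hp.int_mul n x
  have hpi : Real.pi = 3584 * gu := by
    unfold gu
    ring
  have hpi4 : Real.pi / 4 = 896 * gu := by
    rw [hpi]
    ring
  have hpi2 : Real.pi / 2 = 1792 * gu := by
    rw [hpi]
    ring
  obtain ⟨n1, hn1, hn1'⟩ := C7_shift x₁
  obtain ⟨n2, hn2, hn2'⟩ := C7_shift x₂
  obtain ⟨n3, hn3, hn3'⟩ := C7_shift x₃
  have hdiv : ∀ t : ℝ, t / gu * gu = t := fun t => div_mul_cancel₀ t hg.ne'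
  have hx : ∀ (x : ℝ) (n : ℤ), (x / gu + 1024 * n) * gu = x + n * ww := by
    intro x n
    rw [ww_eq, add_mul, hdiv]
    ring
  have hxa : ∀ (x a : ℝ) (n : ℤ), (x / gu + 1024 * n + a / gu) * gu = x + a + n * ww := by
    intro x a n
    rw [ww_eq, add_mul, add_mul, hdiv, hdiv]
    ring
  have hpos : ∀ a : ℝ, Real.pi / 4 ≤ a → a ≤ Real.pi / 2 → 0 < Real.sin a := by
    intro a h4 h2
    have := Real.pi_pos
    exact Real.sin_pos_of_pos_of_lt_pi (by linarith) (by linarith)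
  have hA1 : Real.pi / 4 ≤ a₁ := by linarith
  have hA2 : Real.pi / 4 ≤ a₂ := by linarith
  have hB2 : a₂ ≤ Real.pi / 2 := by linarith
  have hB3 : a₃ ≤ Real.pi / 2 := by linarith
  have hα : ∀ a : ℝ, Real.pi / 4 ≤ a → a ≤ Real.pi / 2 → 896 ≤ a / gu ∧ a / gu ≤ 1792 := by
    intro a h4 h2
    rw [hpi4] at h4
    rw [hpi2] at h2
    exact ⟨(le_div_iff₀ hg).2 h4, (div_le_iff₀ hg).2 h2⟩
  obtain ⟨u1, v1⟩ := hα a₁ hA1 h1
  obtain ⟨u2, v2⟩ := hα a₂ hA2 hB2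
  obtain ⟨u3, v3⟩ := hα a₃ h3 hB3
  have hs3 : a₃ / gu = 3584 - a₁ / gu - a₂ / gu := by
    rw [hpi] at hsum
    field_simp
    linarith
  have heg : ∀ (x y b a : ℝ) (m n : ℤ), Real.pi / 4 ≤ a → a ≤ Real.pi / 2 →
      Ed x (y + b) (2 * R * Real.sin a) →
      Eg R (x / gu + 1024 * m) (y / gu + 1024 * n + b / gu) (a / gu) := by
    intro x y b a m n ha ha' hE
    unfold Eg
    rw [sub_mul, hx, hxa, hdiv]
    exact C7_edge hR (hpos a ha ha') (hE.add m n)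
  have hK : ∀ ξ υ : ℝ, Kn 0 ξ υ := fun ξ υ => ⟨fun h => absurd h (by norm_num),
    fun h => absurd h (by norm_num)⟩
  have key := h (x₁ / gu + 1024 * n1) (x₂ / gu + 1024 * n2) (x₃ / gu + 1024 * n3) (a₁ / gu)
    (a₂ / gu) (a₃ / gu) R ⟨by simpa [root] using hn1, by simpa [root] using hn1'⟩
    ⟨by simpa [root] using hn2, by simpa [root] using hn2'⟩
    ⟨by simpa [root] using hn3, by simpa [root] using hn3'⟩
    ⟨by simpa [root] using u1, by simpa [root] using v1⟩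
    ⟨by simpa [root] using u2, by simpa [root] using v2⟩ hs3
    ((div_le_div_iff_of_pos_right hg).2 h32) ((div_le_div_iff_of_pos_right hg).2 h21) u3 v1 hR
    (hK _ _) (hK _ _) (hK _ _) (heg x₁ x₂ a₂ a₃ n1 n2 h3 hB3 hE1)
    (heg x₂ x₃ a₃ a₁ n2 n3 hA1 h1 hE2) (heg x₃ x₁ a₁ a₂ n3 n1 hA2 hB2 hE3)
  rw [hx, hx, hx, hxa, hxa, hxa, hdiv, hdiv, hdiv, hper', hper', hper', hper', hper', hper'] at key
  linarith

end Hepta
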