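import Pool.Agent.H69.Hep.C7

/-! # C7b: reflection and rotation -/

set_option autoImplicit false

namespace Hepta

variable {W : ℝ → ℝ} {Mh : ℝ}

/-- The reflection of a pair. -/
theorem Ed.refl {x y l : ℝ} (h : Ed x y l) : Ed (-y) (-x) l := by
  obtain ⟨m, h1 | h1⟩ := h
  · refine ⟨-m, Or.inr fun n => ?_⟩
    have e1 : -y - -x - ((n : ℝ) + 1 / 2) * ww = x - y - ((n : ℝ) + 1 / 2) * ww := by ring
    have e2 : -x - ((-m : ℤ) : ℝ) * ww = -(x - (m : ℝ) * ww) := by push_cast; ring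
    rw [e1, e2, Real.cos_neg]
    exact h1 n
  · refine ⟨-m, Or.inl fun n => ?_⟩
    have e1 : -y - -x - ((n : ℝ) + 1 / 2) * ww = x - y - ((n : ℝ) + 1 / 2) * ww := by ring
    have e2 : -y - ((-m : ℤ) : ℝ) * ww = -(y - (m : ℝ) * ww) := by push_cast; ring
    rw [e1, e2, Real.cos_neg]
    exact h1 n

/-- The reflection `(x₁, a₁; x₂, a₂; x₃, a₃) ↦ (-x₁-a₁, a₁; -x₃-a₃, a₃; -x₂-a₂, a₂)` and the
rotation `(x₁, a₁; x₂, a₂; x₃, a₃) ↦ (x₂, a₂; x₃, a₃; x₁, a₁)`. -/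
theorem locU_of_locS (hodd : ∀ x, W (-x) = -W x) (h : LocS W Mh) : LocU W Mh := by
  have key : ∀ R x₁ x₂ x₃ a₁ a₂ a₃ : ℝ, 0 < R → a₃ ≤ a₂ → a₂ ≤ a₁ →
      a₁ ∈ Set.Icc (Real.pi / 4) (Real.pi / 2) → a₂ ∈ Set.Icc (Real.pi / 4) (Real.pi / 2) →
      a₃ ∈ Set.Icc (Real.pi / 4) (Real.pi / 2) → a₁ + a₂ + a₃ = Real.pi →
      Ed x₁ (x₂ + a₂) (2 * R * Real.sin a₃) → Ed x₂ (x₃ + a₃) (2 * R * Real.sin a₁) →
      Ed x₃ (x₁ + a₁) (2 * R * Real.sin a₂) →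
      W x₁ - W (x₂ + a₂) + (W x₂ - W (x₃ + a₃)) + (W x₃ - W (x₁ + a₁)) ≤
        2 * R ^ 2 * (Real.sin a₁ * Real.sin a₂ * Real.sin a₃) - Mh :=
    fun R x₁ x₂ x₃ a₁ a₂ a₃ hR h32 h21 h1 _ h3 hs e1 e2 e3 =>
      h R x₁ x₂ x₃ a₁ a₂ a₃ hR h32 h21 h3.1 h1.2 hs e1 e2 e3
  -- the reflected order `a₂ ≤ a₃ ≤ a₁`
  have key2 : ∀ R x₁ x₂ x₃ a₁ a₂ a₃ : ℝ, 0 < R → a₂ ≤ a₃ → a₃ ≤ a₁ →
      a₁ ∈ Set.Icc (Real.pi / 4) (Real.pi / 2) → a₂ ∈ Set.Icc (Real.pi / 4) (Real.pi / 2) →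
      a₃ ∈ Set.Icc (Real.pi / 4) (Real.pi / 2) → a₁ + a₂ + a₃ = Real.pi →
      Ed x₁ (x₂ + a₂) (2 * R * Real.sin a₃) → Ed x₂ (x₃ + a₃) (2 * R * Real.sin a₁) →
      Ed x₃ (x₁ + a₁) (2 * R * Real.sin a₂) →
      W x₁ - W (x₂ + a₂) + (W x₂ - W (x₃ + a₃)) + (W x₃ - W (x₁ + a₁)) ≤
        2 * R ^ 2 * (Real.sin a₁ * Real.sin a₂ * Real.sin a₃) - Mh := by
    intro R x₁ x₂ x₃ a₁ a₂ a₃ hR h23 h31 h1 h2 h3 hs e1 e2 e3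
    have f1 := e3.refl
    have f2 := e2.refl
    have f3 := e1.refl
    have g := key R (-(x₁ + a₁)) (-(x₃ + a₃)) (-(x₂ + a₂)) a₁ a₃ a₂ hR h23 h31 h1 h3 h2
      (by linarith)
      (by rw [show -(x₃ + a₃) + a₃ = -x₃ by ring]; exact f1)
      (by rw [show -(x₂ + a₂) + a₂ = -x₂ by ring]; exact f2)
      (by rw [show -(x₁ + a₁) + a₁ = -x₁ by ring]; exact f3)
    rw [show -(x₃ + a₃) + a₃ = -x₃ by ring, show -(x₂ + a₂) + a₂ = -x₂ by ring,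
      show -(x₁ + a₁) + a₁ = -x₁ by ring] at g
    simp only [hodd] at g
    have e : Real.sin a₁ * Real.sin a₃ * Real.sin a₂ =
        Real.sin a₁ * Real.sin a₂ * Real.sin a₃ := by ring
    rw [e] at g
    linarith
  -- the largest angle is `a₁`
  have key3 : ∀ R x₁ x₂ x₃ a₁ a₂ a₃ : ℝ, 0 < R → a₂ ≤ a₁ → a₃ ≤ a₁ →
      a₁ ∈ Set.Icc (Real.pi / 4) (Real.pi / 2) → a₂ ∈ Set.Icc (Real.pi / 4) (Real.pi / 2) →
      a₃ ∈ Set.Icc (Real.pi / 4) (Real.pi / 2) → a₁ + a₂ + a₃ = Real.pi →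
      Ed x₁ (x₂ + a₂) (2 * R * Real.sin a₃) → Ed x₂ (x₃ + a₃) (2 * R * Real.sin a₁) →
      Ed x₃ (x₁ + a₁) (2 * R * Real.sin a₂) →
      W x₁ - W (x₂ + a₂) + (W x₂ - W (x₃ + a₃)) + (W x₃ - W (x₁ + a₁)) ≤
        2 * R ^ 2 * (Real.sin a₁ * Real.sin a₂ * Real.sin a₃) - Mh := by
    intro R x₁ x₂ x₃ a₁ a₂ a₃ hR h21 h31 h1 h2 h3 hs e1 e2 e3
    rcases le_total a₃ a₂ with h32 | h23
    · exact key R x₁ x₂ x₃ a₁ a₂ a₃ hR h32 h21 h1 h2 h3 hs e1 e2 e3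
    · exact key2 R x₁ x₂ x₃ a₁ a₂ a₃ hR h23 h31 h1 h2 h3 hs e1 e2 e3
  intro R x₁ x₂ x₃ a₁ a₂ a₃ hR h1 h2 h3 hs e1 e2 e3
  rcases le_total a₂ a₁ with h21 | h12
  · rcases le_total a₃ a₁ with h31 | h13
    · exact key3 R x₁ x₂ x₃ a₁ a₂ a₃ hR h21 h31 h1 h2 h3 hs e1 e2 e3
    · -- largest angle `a₃`
      have g := key3 R x₃ x₁ x₂ a₃ a₁ a₂ hR h13 (h21.trans h13) h3 h1 h2 (by linarith) e3 e1 e2
      have e : Real.sin a₃ * Real.sin a₁ * Real.sin a₂ =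
        Real.sin a₁ * Real.sin a₂ * Real.sin a₃ := by ring
      rw [e] at g
      linarith
  · rcases le_total a₃ a₂ with h32 | h23
    · have g := key3 R x₂ x₃ x₁ a₂ a₃ a₁ hR h32 h12 h2 h3 h1 (by linarith) e2 e3 e1
      have e : Real.sin a₂ * Real.sin a₃ * Real.sin a₁ =
        Real.sin a₁ * Real.sin a₂ * Real.sin a₃ := by ring
      rw [e] at g
      linarith
    · have g := key3 R x₃ x₁ x₂ a₃ a₁ a₂ hR (h12.trans h23) h23 h3 h1 h2 (by linarith) e3 e1 e2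
      have e : Real.sin a₃ * Real.sin a₁ * Real.sin a₂ =
        Real.sin a₁ * Real.sin a₂ * Real.sin a₃ := by ring
      rw [e] at g
      linarith

end Hepta
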