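import Pool.Agent.H69.Hep.C7

/-! # C8: long edges -/

set_option autoImplicit false

namespace Hepta

variable {W : ℝ → ℝ} {M : ℝ}

/-- Two crude bounds for the potential of an edge. -/
structure EdgeOK (W : ℝ → ℝ) : Prop where
  h1 : ∀ x y, W x - W y ≤ 1018 / 10000
  h2 : ∀ x y l, 0 < l → Ed x y l → W x - W y ≤ 21 / 1000 + 9899 / 10000 * (l - 2)

private theorem C8_gf (M : ℝ) {β : ℝ} (h0 : 0 ≤ β) (h1 : β < Real.pi / 2) :
    2 * Gf M (2 * Real.sqrt 2 * Real.cos β) (Real.sqrt 2) =
      Real.sin (2 * β) - M / Real.pi * β := by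
  have hs : Real.sqrt 2 ^ 2 = 2 := Real.sq_sqrt (by norm_num)
  have hs0 : 0 < Real.sqrt 2 := Real.sqrt_pos.2 (by norm_num)
  have hpi := Real.pi_pos
  have e1 : 2 * Real.sqrt 2 * Real.cos β / (2 * Real.sqrt 2) = Real.cos β := by
    field_simp
  have hc : 0 < Real.cos β := Real.cos_pos_of_mem_Ioo ⟨by linarith, h1⟩
  unfold Gf
  rw [e1, Real.arccos_cos h0 (by linarith), Real.tan_eq_sin_div_cos, Real.sin_two_mul]
  have e2 : (2 * Real.sqrt 2 * Real.cos β) ^ 2 / 8 = Real.cos β ^ 2 := by
    rw [mul_pow, mul_pow, hs]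
    ring
  rw [e2]
  field_simp

private theorem C8_gf_zero (M : ℝ) {l : ℝ} (h : 2 * Real.sqrt 2 ≤ l) :
    2 * Gf M l (Real.sqrt 2) = 0 := by
  have hs0 : 0 < Real.sqrt 2 := Real.sqrt_pos.2 (by norm_num)
  have e : Real.arccos (l / (2 * Real.sqrt 2)) = 0 := by
    apply Real.arccos_of_one_le
    rw [le_div_iff₀ (by positivity)]
    linarith
  unfold Gf
  rw [e, Real.tan_zero]
  ring

/-- The bound of `h` on the middle part. -/
private theorem C8_mid {β : ℝ} (h0 : 14 / 100 ≤ β) (h1 : β ≤ 7438 / 10000) :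
    1018 / 10000 ≤ Real.sin (2 * β) - 12021 / 10000 * β := by
  have hpi := Real.pi_gt_d6
  have hpi' := Real.pi_lt_d6
  have hs1 : 2745 / 10000 ≤ Real.sin (28 / 100) := by
    have := Real.sin_gt_sub_cube (x := 28 / 100) (by norm_num)
    have h' : (0.276 : ℝ) ≤ (28 / 100 : ℝ) - (28 / 100) ^ 3 / 6 := by norm_num
    linarith
  have hs2 : 9965 / 10000 ≤ Real.sin (14876 / 10000) := by
    rw [← Real.cos_pi_div_two_sub]
    have := Real.one_sub_sq_div_two_le_cos (x := Real.pi / 2 - 14876 / 10000)
    have h' : (Real.pi / 2 - 14876 / 10000) ^ 2 ≤ (832 / 10000) ^ 2 := by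
      apply pow_le_pow_left₀ <;> linarith
    have h'' : (832 / 10000 : ℝ) ^ 2 = 0.00692224 := by norm_num
    linarith
  have hconc := strictConcaveOn_sin_Icc.concaveOn
  set t : ℝ := (2 * β - 28 / 100) / (14876 / 10000 - 28 / 100) with ht
  have ht0 : 0 ≤ t := by
    apply div_nonneg <;> linarith
  have ht1 : t ≤ 1 := by
    rw [ht, div_le_one (by norm_num)]
    linarith
  have hd : (14876 / 10000 - 28 / 100 : ℝ) ≠ 0 := by norm_num
  have h2β : 2 * β = (1 - t) * (28 / 100) + t * (14876 / 10000) := by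
    have : t * (14876 / 10000 - 28 / 100) = 2 * β - 28 / 100 := by
      rw [ht, div_mul_cancel₀ _ hd]
    linarith
  have hm1 : (28 / 100 : ℝ) ∈ Set.Icc 0 Real.pi := ⟨by norm_num, by linarith⟩
  have hm2 : (14876 / 10000 : ℝ) ∈ Set.Icc 0 Real.pi := ⟨by norm_num, by linarith⟩
  have hc := hconc.2 hm1 hm2 (show 0 ≤ 1 - t by linarith) ht0 (by ring)
  simp only [smul_eq_mul] at hc
  rw [← h2β] at hc
  have hβ : β = (1 - t) * (14 / 100) + t * (7438 / 10000) := by linarith
  have h3 : (1 - t) * (2745 / 10000) ≤ (1 - t) * Real.sin (28 / 100) :=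
    mul_le_mul_of_nonneg_left hs1 (by linarith)
  have h4 : t * (9965 / 10000) ≤ t * Real.sin (14876 / 10000) :=
    mul_le_mul_of_nonneg_left hs2 ht0
  nlinarith

/-- The bound of the angle. -/
private theorem C8_angle {β : ℝ} (h0 : 0 ≤ β) (h1 : β ≤ Real.pi / 4) {u : ℝ}
    (hu : u = 2 * Real.sqrt 2 * Real.sin β) {l : ℝ} (hl : l = 2 * Real.sqrt 2 * Real.cos β) :
    β ≤ Real.pi / 4 - (l - u) / 4 := by
  have hs : Real.sqrt 2 ^ 2 = 2 := Real.sq_sqrt (by norm_num)
  have h2 : Real.sin (Real.pi / 4 - β) ≤ Real.pi / 4 - β := Real.sin_le (by linarith)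
  have h3 : Real.sin (Real.pi / 4 - β) = (l - u) / 4 := by
    rw [Real.sin_sub, Real.sin_pi_div_four, Real.cos_pi_div_four, hl, hu]
    ring
  linarith

theorem locE_of (h : EdgeOK W) (hM0 : 0 ≤ M) (hM : M ≤ 2 * (18882 / 10000)) :
    LocE W M (14 / 5) := by
  intro x y l hE hl
  have hpi := Real.pi_gt_d6
  have hpi' := Real.pi_lt_d6
  have hs : Real.sqrt 2 ^ 2 = 2 := Real.sq_sqrt (by norm_num)
  have hs0 : 0 < Real.sqrt 2 := Real.sqrt_pos.2 (by norm_num)
  have hs1 : 1.41421 < Real.sqrt 2 := by
    rw [Real.lt_sqrt (by norm_num)]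
    norm_num
  by_cases hbig : 2 * Real.sqrt 2 ≤ l
  · rw [C8_gf_zero M hbig]
    unfold cut
    rw [if_neg (by linarith)]
  · push Not at hbig
    -- the angle
    have hx0 : 0 < l / (2 * Real.sqrt 2) := by positivity
    have hx1 : l / (2 * Real.sqrt 2) < 1 := by
      rw [div_lt_one (by positivity)]
      exact hbig
    obtain ⟨β, hβ⟩ : ∃ β, β = Real.arccos (l / (2 * Real.sqrt 2)) := ⟨_, rfl⟩
    have hcos : Real.cos β = l / (2 * Real.sqrt 2) := by
      rw [hβ, Real.cos_arccos (by linarith) hx1.le]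
    have hlc : l = 2 * Real.sqrt 2 * Real.cos β := by
      rw [hcos]
      field_simp
    have hβ0 : 0 ≤ β := hβ ▸ Real.arccos_nonneg _
    have hβ4 : β ≤ Real.pi / 4 := by
      by_contra hcon
      push Not at hcon
      have hβpi : β ≤ Real.pi := hβ ▸ Real.arccos_le_pi _
      have := Real.cos_lt_cos_of_nonneg_of_le_pi (by linarith) hβpi hcon
      rw [Real.cos_pi_div_four, hcos, div_lt_iff₀ (by positivity)] at this
      nlinarith
    have hsin0 : 0 ≤ Real.sin β := Real.sin_nonneg_of_nonneg_of_le_pi hβ0 (by linarith)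
    have hG : 2 * Gf M l (Real.sqrt 2) = Real.sin (2 * β) - M / Real.pi * β := by
      rw [hlc]
      exact C8_gf M hβ0 (by linarith)
    rw [hG]
    by_cases hl0 : l < 14 / 5
    · unfold cut
      rw [if_pos hl0]
      have hMpi : M / Real.pi ≤ 12021 / 10000 := by
        rw [div_le_iff₀ Real.pi_pos]
        linarith
      obtain ⟨u, hu⟩ : ∃ u, u = 2 * Real.sqrt 2 * Real.sin β := ⟨_, rfl⟩
      have hu0 : 0 ≤ u := by
        rw [hu]
        positivity
      have hul : u ^ 2 + l ^ 2 = 8 := by
        rw [hu, hlc]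
        have := Real.sin_sq_add_cos_sq β
        calc (2 * Real.sqrt 2 * Real.sin β) ^ 2 + (2 * Real.sqrt 2 * Real.cos β) ^ 2
            = 4 * (Real.sqrt 2) ^ 2 * (Real.sin β ^ 2 + Real.cos β ^ 2) := by ring
          _ = 8 := by rw [this, hs]; norm_num
      have hang := C8_angle hβ0 hβ4 hu hlc
      by_cases hlm : 20816 / 10000 ≤ l
      · have h1 := h.h1 x y
        have hβlow : 14 / 100 ≤ β := by
          by_contra hcon
          push Not at hcon
          have h5 : Real.cos (14 / 100) < Real.cos β :=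
            Real.cos_lt_cos_of_nonneg_of_le_pi hβ0 (by linarith) hcon
          have h6 := Real.one_sub_sq_div_two_le_cos (x := 14 / 100)
          have h7 : l * 1 > 2 * 1.41421 * 0.9902 := by
            have h8 : (0.9902 : ℝ) < Real.cos β := by
              have : (1 : ℝ) - (14 / 100) ^ 2 / 2 = 0.9902 := by norm_num
              linarith
            rw [hlc]
            nlinarith
          linarith
        have hβup : β ≤ 7438 / 10000 := by
          have hu1 : u ≤ 19150 / 10000 := by
            by_contra hcon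
            push Not at hcon
            nlinarith
          linarith
        have h9 := C8_mid hβlow hβup
        have h10 : M / Real.pi * β ≤ 12021 / 10000 * β :=
          mul_le_mul_of_nonneg_right hMpi hβ0
        linarith
      · push Not at hlm
        have h2 := h.h2 x y l (by linarith) hE
        have hsin2 : Real.sin (2 * β) = l * u / 4 := by
          rw [Real.sin_two_mul, hlc, hu]
          calc 2 * Real.sin β * Real.cos β
              = Real.sqrt 2 ^ 2 * (Real.sin β * Real.cos β) := by rw [hs]; ring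
            _ = 2 * Real.sqrt 2 * Real.cos β * (2 * Real.sqrt 2 * Real.sin β) / 4 := by ring
        -- `(M / π) β ≤ (M₁ / π) (π / 4 - (l - u) / 4)`
        obtain ⟨e, he⟩ : ∃ e, e = l - 2 := ⟨_, rfl⟩
        have he0 : 0 ≤ e := by linarith
        have he1 : e ≤ 816 / 10000 := by linarith
        have hle : l = 2 + e := by linarith
        have huu : u ^ 2 = 4 - 4 * e - e ^ 2 := by
          have : u ^ 2 = 8 - l ^ 2 := by linarith
          rw [this, hle]
          ring
        have hu1 : u ≤ 2 - e - e ^ 2 / 2 := by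
          by_contra hcon
          push Not at hcon
          have h5 : 0 ≤ 2 - e - e ^ 2 / 2 := by nlinarith
          have h6 : (2 - e - e ^ 2 / 2) ^ 2 < u ^ 2 := by
            apply pow_lt_pow_left₀ hcon h5 (by norm_num)
          have h7 : (2 - e - e ^ 2 / 2) ^ 2 = 4 - 4 * e - e ^ 2 + e ^ 3 + e ^ 4 / 4 := by ring
          have h8 : 0 ≤ e ^ 3 + e ^ 4 / 4 := by positivity
          linarith
        have hlu : 1 - 525 / 1000 * e ^ 2 ≤ l * u / 4 := by
          by_contra hcon
          push Not at hcon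
          have h5 : 0 ≤ l * u / 4 := by positivity
          have h6 : (l * u / 4) ^ 2 < (1 - 525 / 1000 * e ^ 2) ^ 2 :=
            pow_lt_pow_left₀ hcon h5 (by norm_num)
          have h7 : (l * u / 4) ^ 2 = 1 - (e + e ^ 2 / 4) ^ 2 := by
            have : (l * u / 4) ^ 2 = l ^ 2 * u ^ 2 / 16 := by ring
            rw [this, huu, hle]
            ring
          have h8 : (1 - 525 / 1000 * e ^ 2) ^ 2 ≤ 1 - (e + e ^ 2 / 4) ^ 2 := by
            have h9 : 1 - (e + e ^ 2 / 4) ^ 2 - (1 - 525 / 1000 * e ^ 2) ^ 2 =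
              e ^ 2 * (5 / 100 - e / 2 - (1 / 16 + (525 / 1000) ^ 2) * e ^ 2) := by ring
            have h10 : 0 ≤ 5 / 100 - e / 2 - (1 / 16 + (525 / 1000) ^ 2) * e ^ 2 := by
              nlinarith
            have h11 : 0 ≤ e ^ 2 * (5 / 100 - e / 2 - (1 / 16 + (525 / 1000) ^ 2) * e ^ 2) :=
              mul_nonneg (by positivity) h10
            linarith
          linarith
        have hMβ : M / Real.pi * β ≤ 9441 / 10000 - 1202 / 1000 * ((l - u) / 4) := by
          have hMM : M / Real.pi ≤ 2 * (18882 / 10000) / Real.pi :=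
            div_le_div_of_nonneg_right hM Real.pi_pos.le
          have h5 : M / Real.pi * β ≤ 2 * (18882 / 10000) / Real.pi * β :=
            mul_le_mul_of_nonneg_right hMM hβ0
          have h6 : 2 * (18882 / 10000) / Real.pi * β ≤
              2 * (18882 / 10000) / Real.pi * (Real.pi / 4 - (l - u) / 4) :=
            mul_le_mul_of_nonneg_left hang (by positivity)
          have h7 : 2 * (18882 / 10000) / Real.pi * (Real.pi / 4 - (l - u) / 4) =
              9441 / 10000 - 2 * (18882 / 10000) / Real.pi * ((l - u) / 4) := by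
            have := Real.pi_pos.ne'
            field_simp
            ring
          have h8 : 1202 / 1000 * ((l - u) / 4) ≤
              2 * (18882 / 10000) / Real.pi * ((l - u) / 4) := by
            apply mul_le_mul_of_nonneg_right
            · rw [le_div_iff₀ Real.pi_pos]
              linarith
            · nlinarith
          linarith
        rw [hsin2]
        nlinarith
    · unfold cut
      rw [if_neg hl0]
      have h2 : 2 / Real.pi * (2 * β) ≤ Real.sin (2 * β) :=
        Real.mul_le_sin (by linarith) (by linarith)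
      have h3 : M / Real.pi * β ≤ 2 / Real.pi * (2 * β) := by
        have : 2 / Real.pi * (2 * β) = 4 / Real.pi * β := by ring
        rw [this]
        apply mul_le_mul_of_nonneg_right _ hβ0
        apply div_le_div_of_nonneg_right _ Real.pi_pos.le
        linarith
      linarith

end Hepta
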