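import Pool.Agent.H69.Hep.C8

/-! # C8b: triangles with a long edge -/

set_option autoImplicit false

namespace Hepta

variable {W : ℝ → ℝ} {M : ℝ}

private theorem C8b_len {x y l : ℝ} (h : Ed x y l) (hl : 0 < l) : 2 ≤ l := by
  have h1 := h.fw_le hl
  have h2 := one_le_fw (x - y)
  have h3 : max (cw x) (cw y) ≤ 1 := max_le (cw_le_one x) (cw_le_one y)
  have h4 := mul_le_mul_of_nonneg_left h3 hl.le
  linarith

private theorem C8b_cut (h : EdgeOK W) {x y l : ℝ} (hE : Ed x y l) (hl : 0 < l) :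
    cut (14 / 5) l (W x - W y) ≤ 21 / 1000 + 9899 / 10000 * (l - 2) := by
  unfold cut
  split_ifs with h1
  · exact h.h2 x y l hl hE
  · have h2 := C8b_len hE hl
    linarith

private theorem C8b_zero {x y l : ℝ} (hl : 14 / 5 ≤ l) : cut (14 / 5) l (W x - W y) = 0 := by
  unfold cut
  exact if_neg (not_lt.2 hl)

private theorem C8b_key {M R s s' s'' c c' : ℝ} (hM : M ≤ 2 * (18882 / 10000)) (hR : 0 < R)
    (hR2 : R ^ 2 < 2) (hs : 0 < s) (hl : 14 / 5 ≤ 2 * R * s) (hl' : 2 ≤ 2 * R * s')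
    (hl'' : 2 ≤ 2 * R * s'') (hc : c ≤ 21 / 1000 + 9899 / 10000 * (2 * R * s' - 2))
    (hc' : c' ≤ 21 / 1000 + 9899 / 10000 * (2 * R * s'' - 2)) :
    c + c' ≤ 2 * R ^ 2 * (s * s' * s'') - M / 2 := by
  have h1 : 9899 / 10000 ≤ s := by
    by_contra hcon
    push Not at hcon
    have h2 : (14 / 5 : ℝ) ^ 2 ≤ (2 * R * s) ^ 2 := by
      have : (0 : ℝ) ≤ 14 / 5 := by norm_num
      gcongr
    have h3 : (2 * R * s) ^ 2 = 4 * R ^ 2 * s ^ 2 := by ring
    have h4 : s ^ 2 ≤ (9899 / 10000) ^ 2 := by gcongr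
    have h5 : 4 * R ^ 2 * s ^ 2 ≤ 4 * 2 * (9899 / 10000) ^ 2 := by gcongr
    rw [h3] at h2
    norm_num at h2 h5
    linarith
  have h2 : 2 * R ^ 2 * (s * s' * s'') = s * (2 * R * s') * (2 * R * s'') / 2 := by ring
  have h3 : 0 ≤ (2 * R * s' - 2) * (2 * R * s'' - 2) :=
    mul_nonneg (by linarith) (by linarith)
  have h4 : 9899 / 10000 * ((2 * R * s') * (2 * R * s'')) ≤ s * ((2 * R * s') * (2 * R * s'')) := by
    have : 0 ≤ (2 * R * s') * (2 * R * s'') := mul_nonneg (by linarith) (by linarith)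
    exact mul_le_mul_of_nonneg_right h1 this
  rw [h2]
  nlinarith

theorem locT_of (h : EdgeOK W) (hM0 : 0 ≤ M) (hM : M ≤ 2 * (18882 / 10000))
    (hU : LocU W (M / 2)) : LocT W M (14 / 5) := by
  intro R x₁ x₂ x₃ a₁ a₂ a₃ hR hR2 ha1 ha2 ha3 hsum hE3 hE1 hE2
  have hs : ∀ a ∈ Set.Icc (Real.pi / 4) (Real.pi / 2), 0 < Real.sin a := fun a ha =>
    Real.sin_pos_of_pos_of_lt_pi (by linarith [ha.1, Real.pi_pos]) (by linarith [ha.2, Real.pi_pos])
  have s1 := hs a₁ ha1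
  have s2 := hs a₂ ha2
  have s3 := hs a₃ ha3
  have p1 : 0 < 2 * R * Real.sin a₁ := by positivity
  have p2 : 0 < 2 * R * Real.sin a₂ := by positivity
  have p3 : 0 < 2 * R * Real.sin a₃ := by positivity
  have l1 := C8b_len hE1 p1
  have l2 := C8b_len hE2 p2
  have l3 := C8b_len hE3 p3
  have c1 := C8b_cut h hE1 p1
  have c2 := C8b_cut h hE2 p2
  have c3 := C8b_cut h hE3 p3
  by_cases h3 : 14 / 5 ≤ 2 * R * Real.sin a₃
  · rw [C8b_zero h3]
    have h4 := C8b_key hM hR hR2 s3 h3 l1 l2 c1 c2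
    have h5 : Real.sin a₃ * Real.sin a₁ * Real.sin a₂ =
      Real.sin a₁ * Real.sin a₂ * Real.sin a₃ := by ring
    rw [h5] at h4
    linarith
  by_cases h1 : 14 / 5 ≤ 2 * R * Real.sin a₁
  · rw [C8b_zero h1]
    have h4 := C8b_key hM hR hR2 s1 h1 l3 l2 c3 c2
    have h5 : Real.sin a₁ * Real.sin a₃ * Real.sin a₂ =
      Real.sin a₁ * Real.sin a₂ * Real.sin a₃ := by ring
    rw [h5] at h4
    linarith
  by_cases h2 : 14 / 5 ≤ 2 * R * Real.sin a₂
  · rw [C8b_zero h2]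
    have h4 := C8b_key hM hR hR2 s2 h2 l3 l1 c3 c1
    have h5 : Real.sin a₂ * Real.sin a₃ * Real.sin a₁ =
      Real.sin a₁ * Real.sin a₂ * Real.sin a₃ := by ring
    rw [h5] at h4
    linarith
  have h4 := hU R x₁ x₂ x₃ a₁ a₂ a₃ hR ha1 ha2 ha3 hsum hE3 hE1 hE2
  unfold cut
  rw [if_pos (not_le.1 h3), if_pos (not_le.1 h1), if_pos (not_le.1 h2)]
  exact h4

end Hepta
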