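import Pool.Agent.H69.Hep.C2

/-! # C9: the potential -/

set_option autoImplicit false

namespace Hepta

/-- The potential with the coefficients `v₁, v₂, …` in the unit `10 ^ (-9)`. -/
noncomputable def Vl (v : List ℤ) (x : ℝ) : ℝ :=
  ∑ j : Fin v.length, (v.get j : ℝ) / 10 ^ 9 * Real.sin (7 * ((j : ℕ) + 1) * x)

theorem Vl_odd (v : List ℤ) (x : ℝ) : Vl v (-x) = -Vl v x := by
  unfold Vl
  rw [← Finset.sum_neg_distrib]
  refine Finset.sum_congr rfl fun j _ => ?_
  rw [mul_neg, Real.sin_neg, mul_neg]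

private theorem C9_sin_per (k : ℕ) (x : ℝ) (n : ℤ) :
    Real.sin (7 * ((k : ℝ) + 1) * (x + n * ww)) = Real.sin (7 * ((k : ℝ) + 1) * x) := by
  have h := Real.sin_add_int_mul_two_pi (7 * ((k : ℝ) + 1) * x) (((k : ℤ) + 1) * n)
  rw [← h]
  congr 1
  unfold ww
  push_cast
  ring

theorem Vl_per (v : List ℤ) (x : ℝ) : Vl v (x + ww) = Vl v x := by
  unfold Vl
  refine Finset.sum_congr rfl fun j _ => ?_
  have h := C9_sin_per (j : ℕ) x 1
  rw [Int.cast_one, one_mul] at h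
  rw [h]

end Hepta
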