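import Pool.Agent.H69.Hep.A10
import Pool.Agent.H69.Hep.B1

/-! # D1: the area of the heptagon -/

set_option autoImplicit false

namespace Hepta

open Complex MeasureTheory

private theorem D1_half : ww / 2 = Real.pi / 7 := by
  unfold ww
  ring

private theorem D1_cos_ge : (17 : ℝ) / 20 ≤ Real.cos (ww / 2) := by
  rw [D1_half]
  have h1 := Real.one_sub_sq_div_two_le_cos (x := Real.pi / 7)
  have h2 := Real.pi_pos
  have h3 := Real.pi_lt_d2
  nlinarith

private theorem D1_ui_dt (r φ ψ : ℝ) : dt ((r : ℂ) * ui φ) (ui ψ) = r * Real.cos (φ - ψ) := by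
  unfold dt ui
  rw [Real.cos_sub]
  simp
  ring

private theorem D1_polar (w : ℂ) : w = (‖w‖ : ℂ) * ui (arg w) := by
  apply Complex.ext
  · have := norm_mul_cos_arg w
    simp [ui, this]
  · have := norm_mul_sin_arg w
    simp [ui, this]

/-- the angle relative to the nearest normal -/
private noncomputable def D1_del (θ φ : ℝ) : ℝ := φ - θ - ⌊(φ - θ) / ww + 1 / 2⌋ * ww

private theorem D1_del_le (θ φ : ℝ) : |D1_del θ φ| ≤ ww / 2 := by
  have hw := ww_pos
  have h1 := Int.floor_le ((φ - θ) / ww + 1 / 2)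
  have h2 := Int.lt_floor_add_one ((φ - θ) / ww + 1 / 2)
  have h3 : (φ - θ) / ww * ww = φ - θ := div_mul_cancel₀ _ hw.ne'
  unfold D1_del
  rw [abs_le]
  constructor
  · nlinarith
  · nlinarith

private theorem D1_cos_del (θ φ : ℝ) : Real.cos (ww / 2) ≤ Real.cos (D1_del θ φ) := by
  have h := D1_del_le θ φ
  have hw : ww / 2 ≤ Real.pi := by
    rw [D1_half]
    have := Real.pi_pos
    linarith
  rw [← Real.cos_abs (D1_del θ φ)]
  exact Real.cos_le_cos_of_nonneg_of_le_pi (abs_nonneg _) hw h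

private theorem D1_cos_shift {δ : ℝ} (hδ : |δ| ≤ ww / 2) (k : ℤ) :
    Real.cos (δ + k * ww) ≤ Real.cos δ := by
  obtain ⟨j, n, hj, hk⟩ : ∃ j n : ℤ, |j| ≤ 3 ∧ k = j + 7 * n := by
    refine ⟨k - 7 * ((k + 3) / 7), (k + 3) / 7, ?_, by ring⟩
    rw [abs_le]
    constructor <;> omega
  have hw := ww_pos
  have h7 : 7 * ww = 2 * Real.pi := by
    unfold ww
    ring
  have e : δ + k * ww = (δ + j * ww) + n * (2 * Real.pi) := by
    rw [hk, ← h7]
    push_cast
    ring
  rw [e, Real.cos_add_int_mul_two_pi]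
  by_cases hj0 : j = 0
  · rw [hj0]
    simp
  · have h1 : (1 : ℝ) ≤ |(j : ℝ)| := by
      have : (1 : ℤ) ≤ |j| := Int.one_le_abs hj0
      exact_mod_cast this
    have h3 : |(j : ℝ)| ≤ 3 := by exact_mod_cast hj
    have hjw : |(j : ℝ) * ww| = |(j : ℝ)| * ww := by
      rw [abs_mul, abs_of_pos hw]
    have hub : |δ + j * ww| ≤ Real.pi := by
      have := abs_add_le δ (j * ww)
      rw [hjw] at this
      nlinarith
    have hlb : |δ| ≤ |δ + j * ww| := by
      have h4 : |(j : ℝ) * ww| ≤ |δ + j * ww| + |δ| := by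
        have h5 : (j : ℝ) * ww = (δ + j * ww) - δ := by ring
        calc |(j : ℝ) * ww| = |(δ + j * ww) - δ| := by rw [← h5]
          _ ≤ |δ + j * ww| + |δ| := abs_sub _ _
      rw [hjw] at h4
      nlinarith
    rw [← Real.cos_abs (δ + j * ww), ← Real.cos_abs δ]
    exact Real.cos_le_cos_of_nonneg_of_le_pi (abs_nonneg _) hub hlb

private theorem D1_cos_le (θ φ : ℝ) (n : ℤ) :
    Real.cos (φ - (θ + n * ww)) ≤ Real.cos (D1_del θ φ) := by
  have h := D1_cos_shift (D1_del_le θ φ) (⌊(φ - θ) / ww + 1 / 2⌋ - n)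
  have e : D1_del θ φ + ((⌊(φ - θ) / ww + 1 / 2⌋ - n : ℤ) : ℝ) * ww = φ - (θ + n * ww) := by
    unfold D1_del
    push_cast
    ring
  rw [e] at h
  exact h

private theorem D1_mem_iff (c : ℂ) (θ r φ : ℝ) (hr : 0 ≤ r) :
    c + (r : ℂ) * ui φ ∈ Hp c θ ↔ r * Real.cos (D1_del θ φ) ≤ 1 := by
  constructor
  · intro h
    have h1 := h ⌊(φ - θ) / ww + 1 / 2⌋
    rw [add_sub_cancel_left, D1_ui_dt] at h1
    have e : φ - (θ + (⌊(φ - θ) / ww + 1 / 2⌋ : ℤ) * ww) = D1_del θ φ := by
      unfold D1_del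
      ring
    rw [e] at h1
    exact h1
  · intro h n
    rw [add_sub_cancel_left, D1_ui_dt]
    exact (mul_le_mul_of_nonneg_left (D1_cos_le θ φ n) hr).trans h

theorem Hp_subset_ball (c : ℂ) (θ : ℝ) : Hp c θ ⊆ Metric.closedBall c (6 / 5) := by
  intro z hz
  rw [Metric.mem_closedBall, Complex.dist_eq]
  have hp := D1_polar (z - c)
  have hz' : c + (‖z - c‖ : ℂ) * ui (arg (z - c)) ∈ Hp c θ := by
    rw [← hp]
    simpa using hz
  have h := (D1_mem_iff c θ _ _ (norm_nonneg _)).1 hz'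
  have h1 := D1_cos_del θ (arg (z - c))
  have h2 := D1_cos_ge
  have h3 := norm_nonneg (z - c)
  nlinarith

/-- the radius in the direction `φ` -/
private noncomputable def D1_g (θ φ : ℝ) : ℝ := 1 / Real.cos (D1_del θ φ)

private theorem D1_cos_pos (θ φ : ℝ) : 0 < Real.cos (D1_del θ φ) :=
  lt_of_lt_of_le (by norm_num) (D1_cos_ge.trans (D1_cos_del θ φ))

private theorem D1_g_nonneg (θ φ : ℝ) : 0 ≤ D1_g θ φ :=
  div_nonneg zero_le_one (D1_cos_pos θ φ).le

private theorem D1_g_le (θ φ : ℝ) : D1_g θ φ ≤ 6 / 5 := by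
  unfold D1_g
  have h1 := D1_cos_pos θ φ
  have h2 := D1_cos_ge.trans (D1_cos_del θ φ)
  rw [div_le_iff₀ h1]
  linarith

private theorem D1_g_meas (θ : ℝ) : Measurable (D1_g θ) := by
  unfold D1_g D1_del
  refine measurable_const.div (Real.measurable_cos.comp ?_)
  refine (measurable_id.sub_const θ).sub (Measurable.mul_const ?_ ww)
  exact (measurable_from_top (f := fun n : ℤ => (n : ℝ))).comp
    (Int.measurable_floor.comp (((measurable_id.sub_const θ).div_const ww).add_const _))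

private theorem D1_star_subset (c : ℂ) (θ : ℝ) : star c (D1_g θ) ⊆ Hp c θ := by
  rintro y ⟨φ, -, r, hr, hrg, rfl⟩
  rw [D1_mem_iff c θ r φ hr.le]
  unfold D1_g at hrg
  rw [lt_div_iff₀ (D1_cos_pos θ φ)] at hrg
  exact hrg.le

private theorem D1_int_subset (c : ℂ) (θ : ℝ) :
    interior (Hp c θ) ⊆ star c (D1_g θ) ∪ {z | z.im = c.im} := by
  intro y hy
  by_cases him : y.im = c.im
  · exact Or.inr him
  · left
    have hw0 : (y - c).im ≠ 0 := by
      rw [Complex.sub_im]
      exact fun e => him (sub_eq_zero.1 e)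
    have hp := D1_polar (y - c)
    have hr : 0 < ‖y - c‖ := by
      rw [norm_pos_iff]
      intro e
      rw [e] at hw0
      exact hw0 rfl
    refine ⟨arg (y - c), ⟨Complex.neg_pi_lt_arg _, ?_⟩, ‖y - c‖, hr, ?_, ?_⟩
    · refine lt_of_le_of_ne (Complex.arg_le_pi _) ?_
      intro e
      rw [Complex.arg_eq_pi_iff] at e
      exact hw0 e.2
    · unfold D1_g
      rw [lt_div_iff₀ (D1_cos_pos θ _)]
      by_contra hcon
      rw [not_lt] at hcon
      obtain ⟨ε, hε, hball⟩ := Metric.isOpen_iff.1 isOpen_interior y hy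
      have hηpos : 0 < ε / (2 * ‖y - c‖) := by positivity
      have hmem : c + (((1 + ε / (2 * ‖y - c‖)) * ‖y - c‖ : ℝ) : ℂ) * ui (arg (y - c)) ∈
          Metric.ball y ε := by
        rw [Metric.mem_ball, Complex.dist_eq]
        have e : c + (((1 + ε / (2 * ‖y - c‖)) * ‖y - c‖ : ℝ) : ℂ) * ui (arg (y - c)) - y =
            ((ε / (2 * ‖y - c‖) : ℝ) : ℂ) * (y - c) := by
          have h1 : (((1 + ε / (2 * ‖y - c‖)) * ‖y - c‖ : ℝ) : ℂ) * ui (arg (y - c)) =
              ((1 + ε / (2 * ‖y - c‖) : ℝ) : ℂ) * ((‖y - c‖ : ℂ) * ui (arg (y - c))) := by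
            push_cast
            ring
          rw [h1, ← hp]
          push_cast
          ring
        rw [e, norm_mul, Complex.norm_real, Real.norm_eq_abs, abs_of_pos hηpos]
        have h2 : ε / (2 * ‖y - c‖) * ‖y - c‖ = ε / 2 := by
          field_simp
        rw [h2]
        linarith
      have h3 := interior_subset (hball hmem)
      rw [D1_mem_iff c θ _ _ (by positivity)] at h3
      have h4 := D1_cos_pos θ (arg (y - c))
      nlinarith [mul_pos hηpos (lt_of_lt_of_le zero_lt_one hcon)]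
    · rw [← hp]
      ring

private theorem D1_line_null (a : ℝ) : volume {z : ℂ | z.im = a} = 0 := by
  have h := (convex_halfSpace_im_le a).addHaar_frontier (μ := (volume : Measure ℂ))
  rw [Complex.frontier_setOfPred_im_le] at h
  exact h

private theorem D1_volume_eq (c : ℂ) (θ : ℝ) : volume (Hp c θ) = volume (star c (D1_g θ)) := by
  refine le_antisymm ?_ (measure_mono (D1_star_subset c θ))
  have h1 : Hp c θ ⊆ interior (Hp c θ) ∪ frontier (Hp c θ) := by
    intro y hy
    by_cases hi : y ∈ interior (Hp c θ)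
    · exact Or.inl hi
    · exact Or.inr ⟨subset_closure hy, hi⟩
  have h2 := (convex_Hp c θ).addHaar_frontier (μ := (volume : Measure ℂ))
  calc volume (Hp c θ) ≤ volume (interior (Hp c θ) ∪ frontier (Hp c θ)) := measure_mono h1
    _ ≤ volume (interior (Hp c θ)) + volume (frontier (Hp c θ)) := measure_union_le _ _
    _ = volume (interior (Hp c θ)) := by rw [h2, add_zero]
    _ ≤ volume (star c (D1_g θ) ∪ {z | z.im = c.im}) := measure_mono (D1_int_subset c θ)
    _ ≤ volume (star c (D1_g θ)) + volume {z : ℂ | z.im = c.im} := measure_union_le _ _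
    _ = volume (star c (D1_g θ)) := by rw [D1_line_null, add_zero]

private noncomputable def D1_F (θ φ : ℝ) : ℝ := D1_g θ φ ^ 2 / 2

private theorem D1_F_int (θ a b : ℝ) : IntervalIntegrable (D1_F θ) volume a b := by
  have hm : Measurable (D1_F θ) := ((D1_g_meas θ).pow_const 2).div_const 2
  rw [intervalIntegrable_iff]
  refine Measure.integrableOn_of_bounded (M := 1) ?_ hm.aestronglyMeasurable ?_
  · rw [Set.uIoc, Real.volume_Ioc]
    exact ENNReal.ofReal_ne_top
  · refine Filter.Eventually.of_forall (fun φ => ?_)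
    have h1 := D1_g_nonneg θ φ
    have h2 := D1_g_le θ φ
    unfold D1_F
    rw [Real.norm_eq_abs, abs_of_nonneg (by positivity)]
    nlinarith

private theorem D1_F_periodic (θ : ℝ) : Function.Periodic (D1_F θ) ww := by
  intro φ
  have hw := ww_pos
  unfold D1_F D1_g
  have e : D1_del θ (φ + ww) = D1_del θ φ := by
    unfold D1_del
    have e1 : (φ + ww - θ) / ww + 1 / 2 = ((φ - θ) / ww + 1 / 2) + 1 := by
      field_simp
      ring
    rw [e1, Int.floor_add_one]
    push_cast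
    ring
  rw [e]

private theorem D1_F_eq {θ φ : ℝ} (h : φ ∈ Set.Icc (θ - ww / 2) (θ + ww / 2)) :
    D1_F θ φ = 1 / Real.cos (φ - θ) ^ 2 / 2 := by
  have hw := ww_pos
  unfold D1_F D1_g
  rcases eq_or_lt_of_le h.2 with h1 | h1
  · have e1 : (φ - θ) / ww + 1 / 2 = 1 := by
      rw [h1]
      field_simp
      ring
    have e2 : D1_del θ φ = -(φ - θ) := by
      unfold D1_del
      rw [e1, h1]
      simp
      ring
    rw [e2, Real.cos_neg, div_pow, one_pow]
  · have e1 : ⌊(φ - θ) / ww + 1 / 2⌋ = 0 := by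
      rw [Int.floor_eq_iff]
      have h2 : -(1 / 2) ≤ (φ - θ) / ww := by
        rw [le_div_iff₀ hw]
        linarith [h.1]
      have h3 : (φ - θ) / ww < 1 / 2 := by
        rw [div_lt_iff₀ hw]
        linarith
      constructor
      · push_cast
        linarith
      · push_cast
        linarith
    have e2 : D1_del θ φ = φ - θ := by
      unfold D1_del
      rw [e1]
      simp
    rw [e2, div_pow, one_pow]

private theorem D1_int_one (θ : ℝ) :
    ∫ φ in (θ - ww / 2)..(θ + ww / 2), D1_F θ φ = Real.tan (ww / 2) := by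
  have hw := ww_pos
  have hle : θ - ww / 2 ≤ θ + ww / 2 := by linarith
  have hcos : ∀ φ ∈ Set.Icc (θ - ww / 2) (θ + ww / 2), 0 < Real.cos (φ - θ) := by
    intro φ hφ
    have h7 := D1_half
    have hpi := Real.pi_pos
    refine Real.cos_pos_of_mem_Ioo ⟨?_, ?_⟩
    · linarith [hφ.1]
    · linarith [hφ.2]
  have h1 : ∫ φ in (θ - ww / 2)..(θ + ww / 2), D1_F θ φ =
      ∫ φ in (θ - ww / 2)..(θ + ww / 2), 1 / Real.cos (φ - θ) ^ 2 / 2 := by
    refine intervalIntegral.integral_congr ?_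
    intro φ hφ
    rw [Set.uIcc_of_le hle] at hφ
    exact D1_F_eq hφ
  rw [h1]
  have h2 : ∀ φ ∈ Set.uIcc (θ - ww / 2) (θ + ww / 2),
      HasDerivAt (fun φ => Real.tan (φ - θ) / 2) (1 / Real.cos (φ - θ) ^ 2 / 2) φ := by
    intro φ hφ
    rw [Set.uIcc_of_le hle] at hφ
    have h3 := (Real.hasDerivAt_tan (hcos φ hφ).ne').comp φ ((hasDerivAt_id φ).sub_const θ)
    have h4 := h3.div_const 2
    rw [mul_one] at h4
    exact h4
  have h3 : IntervalIntegrable (fun φ => 1 / Real.cos (φ - θ) ^ 2 / 2) volume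
      (θ - ww / 2) (θ + ww / 2) := by
    refine ContinuousOn.intervalIntegrable ?_
    rw [Set.uIcc_of_le hle]
    refine ContinuousOn.div_const (ContinuousOn.div continuousOn_const ?_ ?_) 2
    · exact ((Real.continuous_cos.comp (continuous_id.sub continuous_const)).pow 2).continuousOn
    · intro φ hφ
      exact pow_ne_zero 2 (hcos φ hφ).ne'
  rw [intervalIntegral.integral_eq_sub_of_hasDerivAt h2 h3]
  have e1 : θ + ww / 2 - θ = ww / 2 := by ring
  have e2 : θ - ww / 2 - θ = -(ww / 2) := by ring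
  rw [e1, e2, Real.tan_neg]
  ring

theorem volume_Hp (c : ℂ) (θ : ℝ) :
    volume (Hp c θ) = ENNReal.ofReal (7 * Real.tan (ww / 2)) := by
  rw [D1_volume_eq, volume_star c (D1_g_meas θ) (D1_g_nonneg θ) (D1_g_le θ)]
  congr 1
  have hpi := Real.pi_pos
  have h1 : ∫ φ in Set.Ioo (-Real.pi) Real.pi, D1_g θ φ ^ 2 / 2 =
      ∫ φ in (-Real.pi)..Real.pi, D1_F θ φ := by
    rw [intervalIntegral.integral_of_le (by linarith), integral_Ioc_eq_integral_Ioo]
    rfl
  have h2 : Real.pi = -Real.pi + (7 : ℤ) • ww := by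
    unfold ww
    simp
    ring
  rw [h1]
  calc ∫ φ in (-Real.pi)..Real.pi, D1_F θ φ
      = ∫ φ in (-Real.pi)..(-Real.pi + (7 : ℤ) • ww), D1_F θ φ := by rw [← h2]
    _ = (7 : ℤ) • ∫ φ in (-Real.pi)..(-Real.pi + ww), D1_F θ φ :=
        (D1_F_periodic θ).intervalIntegral_add_zsmul_eq 7 _ (D1_F_int θ)
    _ = (7 : ℤ) • ∫ φ in (θ - ww / 2)..(θ - ww / 2 + ww), D1_F θ φ := by
        rw [(D1_F_periodic θ).intervalIntegral_add_eq (-Real.pi) (θ - ww / 2)]
    _ = 7 * Real.tan (ww / 2) := by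
        have e : θ - ww / 2 + ww = θ + ww / 2 := by ring
        rw [e, D1_int_one]
        simp

/-- A numerical bound for the area of the heptagon. -/
theorem area_lt : 7 * Real.tan (ww / 2) < 3.37103 := by
  have hc1 := D1_cos_ge
  rw [D1_half] at *
  set x := Real.pi / 7 with hx
  set C := Real.cos x with hC
  have hcpos : 0 < C := lt_of_lt_of_le (by norm_num) hc1
  have hroot : (C + 1) * (8 * C ^ 3 - 4 * C ^ 2 - 4 * C + 1) = 0 := by
    have h3 : Real.cos (3 * x) = 4 * C ^ 3 - 3 * C := by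
      rw [hC, Real.cos_three_mul]
    have h4 : Real.cos (4 * x) = 8 * C ^ 4 - 8 * C ^ 2 + 1 := by
      have e : 4 * x = 2 * (2 * x) := by ring
      rw [e, Real.cos_two_mul, Real.cos_two_mul]
      ring
    have h5 : Real.cos (3 * x) = - Real.cos (4 * x) := by
      rw [← Real.cos_pi_sub]
      congr 1
      rw [hx]
      ring
    rw [h3, h4] at h5
    linarith
  have hq : 8 * C ^ 3 - 4 * C ^ 2 - 4 * C + 1 = 0 := by
    rcases mul_eq_zero.1 hroot with h | h
    · linarith
    · exact h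
  have hC9 : (9009686 : ℝ) / 10 ^ 7 < C := by
    by_contra hcon
    rw [not_lt] at hcon
    have h1 : 0 ≤ (9009686 : ℝ) / 10 ^ 7 - C := by linarith
    have h2 : (8 * ((9009686 : ℝ) / 10 ^ 7) ^ 3 - 4 * ((9009686 : ℝ) / 10 ^ 7) ^ 2 -
        4 * ((9009686 : ℝ) / 10 ^ 7) + 1) - (8 * C ^ 3 - 4 * C ^ 2 - 4 * C + 1) =
        ((9009686 : ℝ) / 10 ^ 7 - C) * (8 * (((9009686 : ℝ) / 10 ^ 7) ^ 2 +
          (9009686 : ℝ) / 10 ^ 7 * C + C ^ 2) - 4 * ((9009686 : ℝ) / 10 ^ 7 + C) - 4) := by ring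
    have h3 : 0 ≤ 8 * (((9009686 : ℝ) / 10 ^ 7) ^ 2 +
          (9009686 : ℝ) / 10 ^ 7 * C + C ^ 2) - 4 * ((9009686 : ℝ) / 10 ^ 7 + C) - 4 := by
      nlinarith
    have h4 := mul_nonneg h1 h3
    rw [← h2, hq] at h4
    norm_num at h4
  have hsin : Real.sin x ^ 2 = 1 - C ^ 2 := by
    have := Real.sin_sq_add_cos_sq x
    linarith
  have hspos : 0 ≤ Real.sin x := by
    refine Real.sin_nonneg_of_nonneg_of_le_pi (by rw [hx]; positivity) ?_
    rw [hx]
    have := Real.pi_pos
    linarith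
  rw [Real.tan_eq_sin_div_cos, ← hC, ← mul_div_assoc, div_lt_iff₀ hcpos]
  refine lt_of_pow_lt_pow_left₀ 2 (by positivity) ?_
  rw [mul_pow, hsin, mul_pow]
  nlinarith

end Hepta
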