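import Pool.Agent.H69.Hep.Defs

/-! # D2: the congruent copies of the heptagon -/

set_option autoImplicit false

namespace Hepta

open Complex MeasureTheory

private theorem D2_add (α β : ℝ) : ui (α + β) = ui α * ui β := by
  apply Complex.ext <;> simp [ui, Real.cos_add, Real.sin_add]
  ring

private theorem D2_dt {a : ℂ} (ha : normSq a = 1) (z w : ℂ) : dt (a * z) (a * w) = dt z w := by
  rw [normSq_apply] at ha
  simp only [dt, mul_re, mul_im]
  linear_combination (z.re * w.re + z.im * w.im) * ha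

private theorem D2_conj (z : ℂ) (φ : ℝ) : dt ((starRingEnd ℂ) z) (ui φ) = dt z (ui (-φ)) := by
  simp [dt, ui]

private theorem D2_arg {a : ℂ} (ha : normSq a = 1) : a = ui (arg a) := by
  have h1 : ‖a‖ = 1 := by
    rw [← Real.sqrt_one, ← ha]
    rfl
  have h2 := norm_mul_cos_add_sin_mul_I a
  rw [h1, ofReal_one, one_mul, ← Complex.ofReal_cos, ← Complex.ofReal_sin] at h2
  conv_lhs => rw [← h2]
  apply Complex.ext <;> simp [ui, -Complex.ofReal_cos, -Complex.ofReal_sin]

theorem image_Hp {f : ℂ → ℂ} (hf : Isometry f) : ∃ (c : ℂ) (θ : ℝ), f '' Hp 0 0 = Hp c θ := by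
  have h1 : ∃ L : ℂ ≃ₗᵢ[ℝ] ℂ, ∀ z, f z = f 0 + L z := by
    let A := hf.affineIsometryOfStrictConvexSpace
    refine ⟨A.linearIsometry.toLinearIsometryEquiv rfl, fun z => ?_⟩
    have h2 := A.map_vadd 0 z
    have h3 : ∀ x, A x = f x := fun x => rfl
    rw [h3, h3] at h2
    simp only [vadd_eq_add, add_zero] at h2
    rw [h2, add_comm]
    rfl
  obtain ⟨L, hL⟩ := h1
  obtain ⟨a, ha⟩ := linear_isometry_complex L
  have hn : normSq (a : ℂ) = 1 := by
    rw [normSq_eq_norm_sq, Circle.norm_coe, one_pow]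
  have hcj : (a : ℂ) * (starRingEnd ℂ) (a : ℂ) = 1 := by
    rw [mul_conj, hn, ofReal_one]
  refine ⟨f 0, arg (a : ℂ), ?_⟩
  have hu : ∀ m : ℤ, ui (arg (a : ℂ) + m * ww) = (a : ℂ) * ui (0 + m * ww) := by
    intro m
    rw [D2_add, ← D2_arg hn, zero_add]
  rcases ha with ha | ha
  · have hLa : ∀ z, L z = (a : ℂ) * z := by
      intro z
      rw [ha, rotation_apply]
    ext w
    constructor
    · rintro ⟨z, hz, rfl⟩ m
      rw [hL, hLa, add_sub_cancel_left, hu, D2_dt hn]
      have := hz m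
      rwa [sub_zero] at this
    · intro hw
      refine ⟨(starRingEnd ℂ) (a : ℂ) * (w - f 0), fun m => ?_, ?_⟩
      · have h2 := hw m
        have h3 : w - f 0 = (a : ℂ) * ((starRingEnd ℂ) (a : ℂ) * (w - f 0)) := by
          rw [← mul_assoc, hcj, one_mul]
        rw [hu, h3, D2_dt hn] at h2
        rwa [sub_zero]
      · rw [hL, hLa, ← mul_assoc, hcj, one_mul, add_sub_cancel]
  · have hLa : ∀ z, L z = (a : ℂ) * (starRingEnd ℂ) z := by
      intro z
      rw [ha]
      rfl
    ext w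
    constructor
    · rintro ⟨z, hz, rfl⟩ m
      rw [hL, hLa, add_sub_cancel_left, hu, D2_dt hn, D2_conj]
      have := hz (-m)
      rw [sub_zero] at this
      have e : (0 : ℝ) + ((-m : ℤ) : ℝ) * ww = -(0 + (m : ℝ) * ww) := by
        push_cast
        ring
      rwa [e] at this
    · intro hw
      refine ⟨(starRingEnd ℂ) ((starRingEnd ℂ) (a : ℂ) * (w - f 0)), fun m => ?_, ?_⟩
      · have h2 := hw (-m)
        have h3 : w - f 0 = (a : ℂ) * ((starRingEnd ℂ) (a : ℂ) * (w - f 0)) := by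
          rw [← mul_assoc, hcj, one_mul]
        rw [hu, h3, D2_dt hn] at h2
        rw [sub_zero, D2_conj]
        have e : (0 : ℝ) + ((-m : ℤ) : ℝ) * ww = -(0 + (m : ℝ) * ww) := by
          push_cast
          ring
        rwa [e] at h2
      · rw [hL, hLa, Complex.conj_conj, ← mul_assoc, hcj, one_mul, add_sub_cancel]

end Hepta
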