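import Pool.Agent.H69.Hep.D1

/-! # D3: the density of a packing by heptagons -/

set_option autoImplicit false

namespace Hepta

open Complex MeasureTheory

open Filter Topology

private theorem D3_tan_nonneg : 0 ≤ 7 * Real.tan (ww / 2) := by
  have h : 0 ≤ Real.tan (ww / 2) := by
    refine Real.tan_nonneg_of_nonneg_of_le_pi_div_two ?_ ?_
    · unfold ww
      positivity
    · unfold ww
      have := Real.pi_pos
      linarith
  linarith

private theorem D3_card {M : ℝ}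
    (hG : ∀ (N : ℕ) (c : Fin N → ℂ) (θ : Fin N → ℝ),
      (Pairwise fun i j => Disjoint (interior (Hp (c i) (θ i))) (interior (Hp (c j) (θ j)))) →
      (N : ℝ) * M ≤ (volume (⋃ i, Metric.ball (c i) (Real.sqrt 2))).toReal)
    (F : Set (Set ℂ)) (hF : ∀ X ∈ F, ∃ c θ, X = Hp c θ)
    (hd : F.Pairwise fun X Y => Disjoint (interior X) (interior Y)) {r : ℝ} (hr : 0 < r)
    (s : Finset F) (hs : ∀ X ∈ s, ((X : Set ℂ) ∩ Metric.closedBall 0 r).Nonempty) :
    (s.card : ℝ) * M ≤ Real.pi * (r + 6 / 5 + Real.sqrt 2) ^ 2 := by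
  have h1 : ∀ X : F, ∃ p : ℂ × ℝ, (X : Set ℂ) = Hp p.1 p.2 := by
    intro X
    obtain ⟨c, θ, h⟩ := hF X X.2
    exact ⟨(c, θ), h⟩
  choose p hp using h1
  have h2 := hG s.card (fun i => (p (s.equivFin.symm i : F)).1)
    (fun i => (p (s.equivFin.symm i : F)).2) (by
      intro i j hij
      have h3 : (s.equivFin.symm i : F) ≠ (s.equivFin.symm j : F) := by
        intro h4
        exact hij (s.equivFin.symm.injective (Subtype.ext h4))
      have h5 : ((s.equivFin.symm i : F) : Set ℂ) ≠ ((s.equivFin.symm j : F) : Set ℂ) := by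
        intro h4
        exact h3 (Subtype.ext h4)
      have h6 := hd (s.equivFin.symm i : F).2 (s.equivFin.symm j : F).2 h5
      rw [hp, hp] at h6
      exact h6)
  have hR : 0 < r + 6 / 5 + Real.sqrt 2 := by positivity
  have h3 : (⋃ i, Metric.ball ((p (s.equivFin.symm i : F)).1) (Real.sqrt 2)) ⊆
      Metric.ball (0 : ℂ) (r + 6 / 5 + Real.sqrt 2) := by
    refine Set.iUnion_subset fun i => Metric.ball_subset_ball' ?_
    obtain ⟨y, hy1, hy2⟩ := hs _ (s.equivFin.symm i).2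
    rw [hp] at hy1
    have h4 := Hp_subset_ball _ _ hy1
    rw [Metric.mem_closedBall] at h4 hy2
    have h5 : dist (p (s.equivFin.symm i : F)).1 0 ≤ dist y (p (s.equivFin.symm i : F)).1 + dist y 0 := by
      rw [dist_comm y]
      exact dist_triangle _ _ _
    linarith
  refine h2.trans ?_
  have h4 : (volume (Metric.ball (0 : ℂ) (r + 6 / 5 + Real.sqrt 2))).toReal =
      Real.pi * (r + 6 / 5 + Real.sqrt 2) ^ 2 := by
    rw [Complex.volume_ball, ENNReal.toReal_mul, ENNReal.toReal_pow, ENNReal.toReal_ofReal hR.le]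
    simp only [ENNReal.coe_toReal, NNReal.coe_real_pi]
    ring
  rw [← h4]
  refine ENNReal.toReal_mono ?_ (measure_mono h3)
  exact (measure_ball_lt_top).ne

theorem density_sum {M : ℝ} (hM : 0 < M)
    (hG : ∀ (N : ℕ) (c : Fin N → ℂ) (θ : Fin N → ℝ),
      (Pairwise fun i j => Disjoint (interior (Hp (c i) (θ i))) (interior (Hp (c j) (θ j)))) →
      (N : ℝ) * M ≤ (volume (⋃ i, Metric.ball (c i) (Real.sqrt 2))).toReal)
    (F : Set (Set ℂ)) (hF : ∀ X ∈ F, ∃ c θ, X = Hp c θ)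
    (hd : F.Pairwise fun X Y => Disjoint (interior X) (interior Y)) {r : ℝ} (hr : 0 < r) :
    ∑' X : F, volume ((X : Set ℂ) ∩ Metric.closedBall 0 r) ≤
      ENNReal.ofReal
        (Real.pi * (r + 6 / 5 + Real.sqrt 2) ^ 2 / M * (7 * Real.tan (ww / 2))) := by
  classical
  have ha := D3_tan_nonneg
  rw [ENNReal.tsum_eq_iSup_sum]
  refine iSup_le fun s => ?_
  have h1 : ∑ X ∈ s, volume ((X : Set ℂ) ∩ Metric.closedBall 0 r) =
      ∑ X ∈ s.filter (fun X : F => ((X : Set ℂ) ∩ Metric.closedBall 0 r).Nonempty),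
        volume ((X : Set ℂ) ∩ Metric.closedBall 0 r) := by
    symm
    refine Finset.sum_subset (Finset.filter_subset _ _) fun X hX hX' => ?_
    have h2 : ¬ ((X : Set ℂ) ∩ Metric.closedBall 0 r).Nonempty := fun h =>
      hX' (Finset.mem_filter.2 ⟨hX, h⟩)
    rw [Set.not_nonempty_iff_eq_empty.1 h2, measure_empty]
  rw [h1]
  have h2 : ∀ X ∈ s.filter (fun X : F => ((X : Set ℂ) ∩ Metric.closedBall 0 r).Nonempty),
      volume ((X : Set ℂ) ∩ Metric.closedBall 0 r) ≤ ENNReal.ofReal (7 * Real.tan (ww / 2)) := by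
    intro X _
    obtain ⟨c, θ, h⟩ := hF X X.2
    rw [← volume_Hp c θ, ← h]
    exact measure_mono Set.inter_subset_left
  refine (Finset.sum_le_sum h2).trans ?_
  rw [Finset.sum_const, nsmul_eq_mul, ← ENNReal.ofReal_natCast,
    ← ENNReal.ofReal_mul (Nat.cast_nonneg _)]
  refine ENNReal.ofReal_le_ofReal (mul_le_mul_of_nonneg_right ?_ ha)
  rw [le_div_iff₀ hM]
  exact D3_card hG F hF hd hr _ fun X hX => (Finset.mem_filter.1 hX).2

theorem density_le {M : ℝ} (hM : 0 < M)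
    (hG : ∀ (N : ℕ) (c : Fin N → ℂ) (θ : Fin N → ℝ),
      (Pairwise fun i j => Disjoint (interior (Hp (c i) (θ i))) (interior (Hp (c j) (θ j)))) →
      (N : ℝ) * M ≤ (volume (⋃ i, Metric.ball (c i) (Real.sqrt 2))).toReal)
    (F : Set (Set ℂ)) (hF : ∀ X ∈ F, ∃ c θ, X = Hp c θ)
    (hd : F.Pairwise fun X Y => Disjoint (interior X) (interior Y)) {d : ℝ}
    (h : Tendsto (fun r : ℝ => (∑' X : F, volume ((X : Set ℂ) ∩ Metric.closedBall 0 r)).toReal /
      (Real.pi * r ^ 2)) atTop (𝓝 d)) :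
    d ≤ 7 * Real.tan (ww / 2) / M := by
  have h1 : Tendsto (fun r : ℝ => (1 + (6 / 5 + Real.sqrt 2) * r⁻¹) ^ 2 *
      (7 * Real.tan (ww / 2) / M)) atTop (𝓝 ((1 + (6 / 5 + Real.sqrt 2) * 0) ^ 2 *
      (7 * Real.tan (ww / 2) / M))) :=
    (((tendsto_inv_atTop_zero.const_mul (6 / 5 + Real.sqrt 2)).const_add 1).pow 2).mul_const _
  rw [mul_zero, add_zero, one_pow, one_mul] at h1
  refine le_of_tendsto_of_tendsto h h1 ?_
  filter_upwards [eventually_gt_atTop 0] with r hr
  rw [div_le_iff₀ (by positivity)]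
  have hK : 0 ≤ Real.pi * (r + 6 / 5 + Real.sqrt 2) ^ 2 / M * (7 * Real.tan (ww / 2)) := by
    have ha := D3_tan_nonneg
    positivity
  refine (ENNReal.toReal_le_of_le_ofReal hK (density_sum hM hG F hF hd hr)).trans (le_of_eq ?_)
  have hr' : r ≠ 0 := hr.ne'
  have hM' : M ≠ 0 := hM.ne'
  field_simp
  ring

end Hepta
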