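import Pool.Agent.H69.Hep.D2
import Pool.Agent.H69.Hep.D3

/-! # D4: the heptagon in the Euclidean plane -/

set_option autoImplicit false

namespace Hepta

open MeasureTheory

/-- The regular heptagon with inradius `1`, centre `0`, in the Euclidean plane. -/
def hept : Set (EuclideanSpace ℝ (Fin 2)) :=
  {z | ∀ m : ℤ, z 0 * Real.cos (m * ww) + z 1 * Real.sin (m * ww) ≤ 1}

/-- The identification of the complex plane with the Euclidean plane. -/
private noncomputable def D4_e : ℂ ≃ₗᵢ[ℝ] EuclideanSpace ℝ (Fin 2) :=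
  Complex.orthonormalBasisOneI.repr

private theorem D4_e0 (z : ℂ) : D4_e z 0 = z.re := by
  simp [D4_e, Complex.orthonormalBasisOneI_repr_apply]

private theorem D4_e1 (z : ℂ) : D4_e z 1 = z.im := by
  simp [D4_e, Complex.orthonormalBasisOneI_repr_apply]

private theorem D4_mem (z : ℂ) : D4_e z ∈ hept ↔ z ∈ Hp 0 0 := by
  unfold hept Hp
  simp only [Set.mem_ofPred_eq, D4_e0, D4_e1, dt, ui, sub_zero, zero_add]

private theorem D4_image : hept = D4_e '' Hp 0 0 := by
  ext w
  constructor
  · intro hw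
    refine ⟨D4_e.symm w, ?_, D4_e.apply_symm_apply w⟩
    rw [← D4_mem, D4_e.apply_symm_apply]
    exact hw
  · rintro ⟨z, hz, rfl⟩
    exact (D4_mem z).2 hz

private theorem D4_symm_image : D4_e.symm '' hept = Hp 0 0 := by
  rw [D4_image, Set.image_image]
  simp

private theorem D4_closed : IsClosed (Hp 0 0) := by
  have h : Hp 0 0 = ⋂ m : ℤ, {z : ℂ | dt (z - 0) (ui (0 + m * ww)) ≤ 1} := by
    ext z
    simp [Hp]
  rw [h]
  refine isClosed_iInter fun m => ?_
  refine isClosed_le ?_ continuous_const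
  unfold dt
  fun_prop

private theorem D4_compact : IsCompact (Hp 0 0) :=
  Metric.isCompact_of_isClosed_isBounded D4_closed
    (Metric.isBounded_closedBall.subset (Hp_subset_ball 0 0))

theorem hept_compact : IsCompact hept := by
  rw [D4_image]
  exact D4_compact.image D4_e.continuous

theorem hept_convex : Convex ℝ hept := by
  intro x hx y hy a b ha hb hab m
  have h1 := hx m
  have h2 := hy m
  have h3 : a * (x 0 * Real.cos (m * ww) + x 1 * Real.sin (m * ww)) +
      b * (y 0 * Real.cos (m * ww) + y 1 * Real.sin (m * ww)) ≤ a * 1 + b * 1 :=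
    add_le_add (mul_le_mul_of_nonneg_left h1 ha) (mul_le_mul_of_nonneg_left h2 hb)
  simp only [PiLp.add_apply, PiLp.smul_apply, smul_eq_mul]
  calc _ = a * (x 0 * Real.cos (m * ww) + x 1 * Real.sin (m * ww)) +
      b * (y 0 * Real.cos (m * ww) + y 1 * Real.sin (m * ww)) := by ring
    _ ≤ a * 1 + b * 1 := h3
    _ = 1 := by rw [mul_one, mul_one, hab]

theorem hept_interior : (interior hept).Nonempty := by
  have h : Metric.ball (0 : ℂ) 1 ⊆ Hp 0 0 := by
    intro z hz m
    rw [mem_ball_zero_iff] at hz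
    have h1 : dt (z - 0) (ui (0 + m * ww)) ≤ ‖z‖ := by
      rw [sub_zero]
      unfold dt ui
      refine le_trans (le_abs_self _) ?_
      refine abs_le_of_sq_le_sq ?_ (norm_nonneg z)
      rw [Complex.sq_norm, Complex.normSq_apply]
      have h2 := Real.sin_sq_add_cos_sq (0 + m * ww)
      simp only
      nlinarith [sq_nonneg (z.re * Real.sin (0 + m * ww) - z.im * Real.cos (0 + m * ww))]
    linarith
  have h2 : (interior (Hp 0 0)).Nonempty :=
    ⟨0, interior_maximal h Metric.isOpen_ball (Metric.mem_ball_self one_pos)⟩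
  have h3 : interior hept = D4_e '' interior (Hp 0 0) := by
    rw [D4_image]
    exact (D4_e.toHomeomorph.image_interior (Hp 0 0)).symm
  rw [h3]
  exact h2.image _

private theorem D4_vol (X : Set (EuclideanSpace ℝ (Fin 2))) :
    volume (D4_e.symm '' X) = volume X := by
  have h1 := D4_e.symm.measurePreserving
  have h2 : D4_e.symm '' X = D4_e ⁻¹' X := by
    ext z
    constructor
    · rintro ⟨w, hw, rfl⟩
      rw [Set.mem_preimage, D4_e.apply_symm_apply]
      exact hw
    · intro hz
      exact ⟨D4_e z, hz, D4_e.symm_apply_apply z⟩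
  rw [h2]
  exact D4_e.measurePreserving.measure_preimage_equiv (f := D4_e.toMeasurableEquiv) X

theorem hept_volume : volume hept = ENNReal.ofReal (7 * Real.tan (ww / 2)) := by
  rw [← volume_Hp 0 0, ← D4_symm_image, D4_vol]

/-- The main estimate in the Euclidean plane. -/
theorem plane_sum_le {M : ℝ} (hM : 0 < M)
    (hG : ∀ (N : ℕ) (c : Fin N → ℂ) (θ : Fin N → ℝ),
      (Pairwise fun i j => Disjoint (interior (Hp (c i) (θ i))) (interior (Hp (c j) (θ j)))) →
      (N : ℝ) * M ≤ (volume (⋃ i, Metric.ball (c i) (Real.sqrt 2))).toReal)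
    (F : Set (Set (EuclideanSpace ℝ (Fin 2))))
    (hF : ∀ X ∈ F, ∃ f : EuclideanSpace ℝ (Fin 2) → EuclideanSpace ℝ (Fin 2),
      Isometry f ∧ X = f '' hept)
    (hd : F.Pairwise fun X Y => Disjoint (interior X) (interior Y)) {r : ℝ} (hr : 0 < r) :
    ∑' X : F, volume ((X : Set (EuclideanSpace ℝ (Fin 2))) ∩ Metric.closedBall 0 r) ≤
      ENNReal.ofReal
        (Real.pi * (r + 6 / 5 + Real.sqrt 2) ^ 2 / M * (7 * Real.tan (ww / 2))) := by
  classical
  let T : Set (EuclideanSpace ℝ (Fin 2)) → Set ℂ := fun X => D4_e.symm '' X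
  have hTinj : Function.Injective T := by
    intro X Y h
    exact D4_e.symm.injective.image_injective h
  have hTint : ∀ X, interior (T X) = D4_e.symm '' interior X := fun X =>
    (D4_e.symm.toHomeomorph.image_interior X).symm
  have h1 := density_sum hM hG (T '' F) (by
    rintro _ ⟨X, hX, rfl⟩
    obtain ⟨f, hf, rfl⟩ := hF X hX
    obtain ⟨c, θ, h⟩ := image_Hp (f := fun z => D4_e.symm (f (D4_e z)))
      (D4_e.symm.isometry.comp (hf.comp D4_e.isometry))
    refine ⟨c, θ, ?_⟩
    rw [← h]
    simp only [T]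
    rw [D4_image, Set.image_image, Set.image_image]) (by
    rintro _ ⟨X, hX, rfl⟩ _ ⟨Y, hY, rfl⟩ hne
    have hXY : X ≠ Y := fun h => hne (by rw [h])
    have h2 := hd hX hY hXY
    show Disjoint (interior (T X)) (interior (T Y))
    rw [hTint, hTint]
    exact (Set.disjoint_image_iff D4_e.symm.injective).2 h2) hr
  refine le_trans (le_of_eq ?_) h1
  let E : F ≃ (T '' F) := Equiv.Set.image T F hTinj
  rw [← E.tsum_eq]
  refine tsum_congr fun X => ?_
  have h2 : ((E X : T '' F) : Set ℂ) = D4_e.symm '' (X : Set (EuclideanSpace ℝ (Fin 2))) := rfl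
  rw [h2]
  have h3 : D4_e.symm '' (X : Set (EuclideanSpace ℝ (Fin 2))) ∩ Metric.closedBall (0 : ℂ) r =
      D4_e.symm '' ((X : Set (EuclideanSpace ℝ (Fin 2))) ∩ Metric.closedBall 0 r) := by
    rw [Set.image_inter D4_e.symm.injective]
    congr 1
    rw [LinearIsometryEquiv.image_closedBall, map_zero]
  rw [h3, D4_vol]

end Hepta
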