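import Mathlib

/-! # Packings of regular heptagons: definitions (project HEP, helper69) -/

set_option autoImplicit false

namespace Hepta

open Complex

/-- The inner product of two plane vectors. -/
def dt (z w : ℂ) : ℝ := z.re * w.re + z.im * w.im

/-- The cross product of two plane vectors. -/
def cr (z w : ℂ) : ℝ := z.re * w.im - z.im * w.re

/-- The unit vector of direction `φ`. -/
noncomputable def ui (φ : ℝ) : ℂ := ⟨Real.cos φ, Real.sin φ⟩

variable {ι : Type*}

/-- All distances are at least `2`. -/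
def Sep (c : ι → ℂ) : Prop := ∀ i j, i ≠ j → 4 ≤ normSq (c i - c j)

/-- `i, j, k` is a positively oriented triple of points on the circle with centre `v` and radius
`R < √2`. -/
structure Short (c : ι → ℂ) (i j k : ι) (v : ℂ) (R : ℝ) : Prop where
  R0 : 0 < R
  R2 : R ^ 2 < 2
  hi : normSq (c i - v) = R ^ 2
  hj : normSq (c j - v) = R ^ 2
  hk : normSq (c k - v) = R ^ 2
  pos : 0 < cr (c j - c i) (c k - c i)

open scoped Classical in
/-- The radius on the left side of the edge `i → j`: the circumradius of the short triple on this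
side, if there is one, and `√2` otherwise. -/
noncomputable def Rp (c : ι → ℂ) (i j : ι) : ℝ :=
  if h : ∃ R, ∃ k v, Short c i j k v R then Classical.choose h else Real.sqrt 2

/-- The direction `φ` is in the left half sector of the edge `i → j` at `c i`. -/
def SL (c : ι → ℂ) (i j : ι) (φ : ℝ) : Prop :=
  0 < cr (c j - c i) (ui φ) ∧ normSq (c j - c i) < 2 * Rp c i j * dt (c j - c i) (ui φ)

/-- The direction `φ` is in the right half sector of the edge `i → j` at `c i`. -/
def SR (c : ι → ℂ) (i j : ι) (φ : ℝ) : Prop :=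
  cr (c j - c i) (ui φ) < 0 ∧ normSq (c j - c i) < 2 * Rp c j i * dt (c j - c i) (ui φ)

/-- The area of the right triangle with the vertices `c i`, the midpoint of an edge of length `l`
and a point of the bisector at distance `R`, minus `M / (2 π)` times its angle at `c i`. -/
noncomputable def Gf (M l R : ℝ) : ℝ :=
  l ^ 2 / 8 * Real.tan (Real.arccos (l / (2 * R))) -
    M / (2 * Real.pi) * Real.arccos (l / (2 * R))

open scoped Classical in
/-- The radius of the cell of `c i` in the direction `φ`. -/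
noncomputable def rad (c : ι → ℂ) (i : ι) (φ : ℝ) : ℝ :=
  if h : ∃ j, j ≠ i ∧ (SL c i j φ ∨ SR c i j φ) then
    normSq (c (Classical.choose h) - c i) / (2 * dt (c (Classical.choose h) - c i) (ui φ))
  else Real.sqrt 2

/-- The star shaped region with centre `z` and radius `g φ` in the direction `φ`. -/
def star (z : ℂ) (g : ℝ → ℝ) : Set ℂ :=
  {y | ∃ φ ∈ Set.Ioo (-Real.pi) Real.pi, ∃ r, 0 < r ∧ r < g φ ∧ y = z + r * ui φ}

/-- A seventh of the full angle. -/
noncomputable def ww : ℝ := 2 * Real.pi / 7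

/-- The regular heptagon with centre `c`, inradius `1`, and outer normals of the sides in the
directions `θ + m ww`. -/
def Hp (c : ℂ) (θ : ℝ) : Set ℂ := {z | ∀ m : ℤ, dt (z - c) (ui (θ + m * ww)) ≤ 1}

/-- The condition that two heptagons with disjoint interiors satisfy: `l` is the distance of the
centres, `x` and `y` are the directions to the other centre, relative to the orientations. -/
def Ed (x y l : ℝ) : Prop := ∃ m : ℤ,
  (∀ n : ℤ, 1 + Real.cos (x - y - (n + 1 / 2) * ww) / Real.cos (ww / 2) ≤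
    l * Real.cos (x - m * ww)) ∨
  (∀ n : ℤ, 1 + Real.cos (x - y - (n + 1 / 2) * ww) / Real.cos (ww / 2) ≤
    l * Real.cos (y - m * ww))

open scoped Classical in
/-- The potential of an edge of length `l`. -/
noncomputable def cut (l₀ l v : ℝ) : ℝ := if l < l₀ then v else 0

/-- The inequality for edges. -/
def LocE (V : ℝ → ℝ) (M l₀ : ℝ) : Prop := ∀ x y l : ℝ, Ed x y l → 2 ≤ l →
  cut l₀ l (V x - V y) ≤ 2 * Gf M l (Real.sqrt 2)

/-- The inequality for triangles. -/
def LocT (V : ℝ → ℝ) (M l₀ : ℝ) : Prop := ∀ R x₁ x₂ x₃ a₁ a₂ a₃ : ℝ,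
  0 < R → R ^ 2 < 2 → a₁ ∈ Set.Icc (Real.pi / 4) (Real.pi / 2) →
  a₂ ∈ Set.Icc (Real.pi / 4) (Real.pi / 2) → a₃ ∈ Set.Icc (Real.pi / 4) (Real.pi / 2) →
  a₁ + a₂ + a₃ = Real.pi →
  Ed x₁ (x₂ + a₂) (2 * R * Real.sin a₃) → Ed x₂ (x₃ + a₃) (2 * R * Real.sin a₁) →
  Ed x₃ (x₁ + a₁) (2 * R * Real.sin a₂) →
  cut l₀ (2 * R * Real.sin a₃) (V x₁ - V (x₂ + a₂)) +
    cut l₀ (2 * R * Real.sin a₁) (V x₂ - V (x₃ + a₃)) +
    cut l₀ (2 * R * Real.sin a₂) (V x₃ - V (x₁ + a₁)) ≤
    2 * R ^ 2 * (Real.sin a₁ * Real.sin a₂ * Real.sin a₃) - M / 2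

end Hepta
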