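import Pool.Agent.H69.Hep.C1

/-! # E1: approximations of `cos (k gu)` and `sin (k gu)` in the unit `2 ^ (-60)` -/

set_option autoImplicit false

namespace Hepta

/-- One step of the rotation by the angle `gu`. -/
def rotC (c s : Nat) : Nat :=
  Nat.div (Nat.sub (Nat.mul c 1152921061678516131) (Nat.mul s 1010605263729098))
    1152921504606846976

def rotS (c s : Nat) : Nat :=
  Nat.div (Nat.add (Nat.mul s 1152921061678516131) (Nat.mul c 1010605263729098))
    1152921504606846976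

def rot : Nat → Nat × Nat
  | 0 => (1152921504606846976, 0)
  | k + 1 => (rotC (rot k).1 (rot k).2, rotS (rot k).1 (rot k).2)

private lemma E1_gu : 3.14159265358979323846 / 3584 < gu ∧ gu < 3.14159265358979323847 / 3584 := by
  have h1 := Real.pi_gt_d20
  have h2 := Real.pi_lt_d20
  unfold gu
  constructor
  · apply div_lt_div_of_pos_right h1 (by norm_num)
  · apply div_lt_div_of_pos_right h2 (by norm_num)

private lemma E1_cos : |(1152921061678516131 : ℝ) - 2 ^ 60 * Real.cos gu| ≤ 28400 := by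
  obtain ⟨h1, h2⟩ := E1_gu
  have h0 : 0 < gu := gu_pos
  have hb := (abs_le.1 (Real.cos_bound (x := gu) (by
    rw [abs_of_pos h0]
    refine h2.le.trans (by norm_num)))).2
  rw [abs_of_pos h0] at hb
  have hc := Real.one_sub_sq_div_two_le_cos (x := gu)
  have s1 : (3.14159265358979323846 / 3584 : ℝ) ^ 2 ≤ gu ^ 2 :=
    pow_le_pow_left₀ (by norm_num) h1.le 2
  have s2 : gu ^ 2 ≤ (3.14159265358979323847 / 3584 : ℝ) ^ 2 :=
    pow_le_pow_left₀ h0.le h2.le 2
  have s4 : gu ^ 4 ≤ (3.14159265358979323847 / 3584 : ℝ) ^ 4 :=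
    pow_le_pow_left₀ h0.le h2.le 4
  rw [abs_le]
  constructor
  · have : Real.cos gu ≤ 1 - (3.14159265358979323846 / 3584 : ℝ) ^ 2 / 2 +
      (3.14159265358979323847 / 3584 : ℝ) ^ 4 * (5 / 96) := by linarith
    norm_num at this ⊢
    linarith
  · have : 1 - (3.14159265358979323847 / 3584 : ℝ) ^ 2 / 2 ≤ Real.cos gu := by linarith
    norm_num at this ⊢
    linarith

private lemma E1_sin : |(1010605263729098 : ℝ) - 2 ^ 60 * Real.sin gu| ≤ 40 := by
  obtain ⟨h1, h2⟩ := E1_gu
  have h0 : 0 < gu := gu_pos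
  have hb := (abs_le.1 (Real.sin_bound (x := gu) (by
    rw [abs_of_pos h0]
    refine h2.le.trans (by norm_num)))).2
  rw [abs_of_pos h0] at hb
  have hc := (Real.sin_gt_sub_cube h0).le
  have s1 : (3.14159265358979323846 / 3584 : ℝ) ^ 3 ≤ gu ^ 3 :=
    pow_le_pow_left₀ (by norm_num) h1.le 3
  have s2 : gu ^ 3 ≤ (3.14159265358979323847 / 3584 : ℝ) ^ 3 :=
    pow_le_pow_left₀ h0.le h2.le 3
  have s4 : gu ^ 5 ≤ (3.14159265358979323847 / 3584 : ℝ) ^ 5 :=
    pow_le_pow_left₀ h0.le h2.le 5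
  rw [abs_le]
  constructor
  · have : Real.sin gu ≤ 3.14159265358979323847 / 3584 -
      (3.14159265358979323846 / 3584 : ℝ) ^ 3 / 6 +
      (3.14159265358979323847 / 3584 : ℝ) ^ 5 / 100 := by linarith
    norm_num at this ⊢
    linarith
  · have : 3.14159265358979323846 / 3584 - (3.14159265358979323847 / 3584 : ℝ) ^ 3 / 6 ≤
        Real.sin gu := by linarith
    norm_num at this ⊢
    linarith

private noncomputable def E1_W (k : ℕ) : ℂ := ⟨((rot k).1 : ℝ), ((rot k).2 : ℝ)⟩

private noncomputable def E1_z : ℂ := ⟨1152921061678516131, 1010605263729098⟩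

private noncomputable def E1_Z (k : ℕ) : ℂ :=
  ⟨2 ^ 60 * Real.cos (k * gu), 2 ^ 60 * Real.sin (k * gu)⟩

private lemma E1_norm_le {z : ℂ} {r : ℝ} (hr : 0 ≤ r) (h : z.re ^ 2 + z.im ^ 2 ≤ r ^ 2) :
    ‖z‖ ≤ r := by
  apply le_of_sq_le_sq _ hr
  rw [← Complex.normSq_eq_norm_sq, Complex.normSq_apply]
  linarith

private lemma E1_z_norm : ‖E1_z‖ ≤ 2 ^ 60 + 1 := by
  apply E1_norm_le (by norm_num)
  simp only [E1_z]
  norm_num

private lemma E1_Z_norm (k : ℕ) : ‖E1_Z k‖ ≤ 2 ^ 60 := by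
  apply E1_norm_le (by norm_num)
  simp only [E1_Z]
  have := Real.sin_sq_add_cos_sq (k * gu)
  nlinarith

private lemma E1_zZ : ‖E1_z - E1_Z 1‖ ≤ 28402 := by
  apply E1_norm_le (by norm_num)
  simp only [E1_z, E1_Z, Complex.sub_re, Complex.sub_im, Nat.cast_one, one_mul]
  have h1 := E1_cos
  have h2 := E1_sin
  have h3 : ((1152921061678516131 : ℝ) - 2 ^ 60 * Real.cos gu) ^ 2 ≤ 28400 ^ 2 := by
    rw [← sq_abs]
    exact pow_le_pow_left₀ (abs_nonneg _) h1 2
  have h4 : ((1010605263729098 : ℝ) - 2 ^ 60 * Real.sin gu) ^ 2 ≤ 40 ^ 2 := by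
    rw [← sq_abs]
    exact pow_le_pow_left₀ (abs_nonneg _) h2 2
  have h5 := add_le_add h3 h4
  refine h5.trans ?_
  norm_num

private lemma E1_Z_mul (k : ℕ) : E1_Z k * E1_Z 1 = 2 ^ 60 * E1_Z (k + 1) := by
  have e1 : ((2 : ℂ) ^ 60) = ((2 ^ 60 : ℝ) : ℂ) := by push_cast; rfl
  rw [e1]
  apply Complex.ext
  · simp only [E1_Z, Complex.mul_re, Complex.ofReal_re, Complex.ofReal_im]
    push_cast
    rw [one_mul, add_mul, one_mul, Real.cos_add]
    ring
  · simp only [E1_Z, Complex.mul_im, Complex.ofReal_re, Complex.ofReal_im]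
    push_cast
    rw [one_mul, add_mul, one_mul, Real.sin_add]
    ring

private lemma E1_div (a : ℕ) : ((a / 1152921504606846976 : ℕ) : ℝ) ≤ a / 2 ^ 60 ∧
    (a : ℝ) / 2 ^ 60 < ((a / 1152921504606846976 : ℕ) : ℝ) + 1 := by
  have h := Nat.div_add_mod a 1152921504606846976
  have h2 := Nat.mod_lt a (show 1152921504606846976 > 0 by norm_num)
  have hR : (a : ℝ) = 1152921504606846976 * ((a / 1152921504606846976 : ℕ) : ℝ) +
      ((a % 1152921504606846976 : ℕ) : ℝ) := by exact_mod_cast h.symm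
  have h2R : ((a % 1152921504606846976 : ℕ) : ℝ) < 1152921504606846976 := by exact_mod_cast h2
  have h0R : (0 : ℝ) ≤ ((a % 1152921504606846976 : ℕ) : ℝ) := Nat.cast_nonneg _
  have e : (2 : ℝ) ^ 60 = 1152921504606846976 := by norm_num
  rw [e]
  constructor
  · rw [le_div_iff₀ (by norm_num)]
    linarith
  · rw [div_lt_iff₀ (by norm_num)]
    linarith

private lemma E1_main (k : ℕ) (hk : k ≤ 1792) : ‖E1_W k - E1_Z k‖ ≤ 29000 * (k : ℝ) := by
  induction k with
  | zero =>
    have : E1_W 0 - E1_Z 0 = 0 := by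
      apply Complex.ext
      · simp only [E1_W, E1_Z, rot, Complex.sub_re, Complex.zero_re]
        norm_num
      · simp only [E1_W, E1_Z, rot, Complex.sub_im, Complex.zero_im]
        norm_num
    rw [this]
    simp
  | succ k ih =>
    have ih := ih (by omega)
    have hkR : (k : ℝ) ≤ 1792 := by
      have : k ≤ 1792 := by omega
      exact_mod_cast this
    have hk0 : (0 : ℝ) ≤ k := Nat.cast_nonneg k
    -- the exact rotation of the approximation
    have h1 : ‖E1_W k * E1_z - E1_Z k * E1_Z 1‖ ≤ 2 ^ 60 * (29000 * (k : ℝ) + 28403) := by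
      have e : E1_W k * E1_z - E1_Z k * E1_Z 1 =
          (E1_W k - E1_Z k) * E1_z + E1_Z k * (E1_z - E1_Z 1) := by ring
      rw [e]
      refine (norm_add_le _ _).trans ?_
      rw [norm_mul, norm_mul]
      have m1 : ‖E1_W k - E1_Z k‖ * ‖E1_z‖ ≤ (29000 * (k : ℝ)) * (2 ^ 60 + 1) :=
        mul_le_mul ih E1_z_norm (norm_nonneg _) (by positivity)
      have m2 : ‖E1_Z k‖ * ‖E1_z - E1_Z 1‖ ≤ 2 ^ 60 * 28402 :=
        mul_le_mul (E1_Z_norm k) E1_zZ (norm_nonneg _) (by positivity)
      have m3 : (29000 * (k : ℝ)) * (2 ^ 60 + 1) ≤ 2 ^ 60 * (29000 * (k : ℝ)) + 2 ^ 60 := by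
        nlinarith
      linarith
    set V : ℂ := E1_W k * E1_z - E1_Z k * E1_Z 1 with hV
    have hre : V.re = ((rot k).1 : ℝ) * 1152921061678516131 - ((rot k).2 : ℝ) * 1010605263729098 -
        2 ^ 60 * (2 ^ 60 * Real.cos (((k + 1 : ℕ) : ℝ) * gu)) := by
      rw [hV, E1_Z_mul]
      have e1 : ((2 : ℂ) ^ 60) = ((2 ^ 60 : ℝ) : ℂ) := by push_cast; rfl
      rw [e1]
      simp only [E1_W, E1_z, E1_Z, Complex.sub_re, Complex.mul_re, Complex.ofReal_re,
        Complex.ofReal_im]
      ring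
    have him : V.im = ((rot k).2 : ℝ) * 1152921061678516131 + ((rot k).1 : ℝ) * 1010605263729098 -
        2 ^ 60 * (2 ^ 60 * Real.sin (((k + 1 : ℕ) : ℝ) * gu)) := by
      rw [hV, E1_Z_mul]
      have e1 : ((2 : ℂ) ^ 60) = ((2 ^ 60 : ℝ) : ℂ) := by push_cast; rfl
      rw [e1]
      simp only [E1_W, E1_z, E1_Z, Complex.sub_im, Complex.mul_im, Complex.ofReal_re,
        Complex.ofReal_im]
      ring
    -- signs of the targets
    have hang : 0 ≤ ((k + 1 : ℕ) : ℝ) * gu ∧ ((k + 1 : ℕ) : ℝ) * gu ≤ Real.pi / 2 := by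
      have hk1 : ((k + 1 : ℕ) : ℝ) ≤ 1792 := by exact_mod_cast hk
      have hg := gu_pos
      refine ⟨by positivity, ?_⟩
      calc ((k + 1 : ℕ) : ℝ) * gu ≤ 1792 * gu := by gcongr
        _ = Real.pi / 2 := by unfold gu; ring
    have hcos0 : 0 ≤ Real.cos (((k + 1 : ℕ) : ℝ) * gu) :=
      Real.cos_nonneg_of_mem_Icc ⟨by linarith [hang.1, Real.pi_pos], hang.2⟩
    set x : ℝ := |V.re| / 2 ^ 60 with hx
    set y : ℝ := |V.im| / 2 ^ 60 with hy
    have hx0 : 0 ≤ x := by positivity
    have hy0 : 0 ≤ y := by positivity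
    have hxy : x ^ 2 + y ^ 2 ≤ (29000 * (k : ℝ) + 28403) ^ 2 := by
      have h2 : V.re ^ 2 + V.im ^ 2 ≤ (2 ^ 60 * (29000 * (k : ℝ) + 28403)) ^ 2 := by
        have h3 : V.re ^ 2 + V.im ^ 2 = ‖V‖ ^ 2 := by
          rw [← Complex.normSq_eq_norm_sq, Complex.normSq_apply]
          ring
        rw [h3]
        exact pow_le_pow_left₀ (norm_nonneg _) h1 2
      have h4 : x ^ 2 + y ^ 2 = (V.re ^ 2 + V.im ^ 2) / (2 ^ 60) ^ 2 := by
        rw [hx, hy, div_pow, div_pow, sq_abs, sq_abs]
        ring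
      rw [h4, div_le_iff₀ (by positivity)]
      calc V.re ^ 2 + V.im ^ 2 ≤ (2 ^ 60 * (29000 * (k : ℝ) + 28403)) ^ 2 := h2
        _ = (29000 * (k : ℝ) + 28403) ^ 2 * (2 ^ 60) ^ 2 := by ring
    -- the real coordinate
    have hA : |((rot (k + 1)).1 : ℝ) - 2 ^ 60 * Real.cos (((k + 1 : ℕ) : ℝ) * gu)| ≤ x + 1 := by
      have e : (rot (k + 1)).1 = ((rot k).1 * 1152921061678516131 -
          (rot k).2 * 1010605263729098) / 1152921504606846976 := rfl
      rw [e]
      obtain ⟨d1, d2⟩ := E1_div ((rot k).1 * 1152921061678516131 -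
          (rot k).2 * 1010605263729098)
      set T : ℝ := 2 ^ 60 * Real.cos (((k + 1 : ℕ) : ℝ) * gu) with hT
      have hT0 : 0 ≤ T := by positivity
      rcases Nat.le_total ((rot k).2 * 1010605263729098) ((rot k).1 * 1152921061678516131)
        with hle | hle
      · rw [Nat.cast_sub hle] at d1 d2
        push_cast at d1 d2
        have hVx : ((rot k).1 : ℝ) * 1152921061678516131 -
            ((rot k).2 : ℝ) * 1010605263729098 = V.re + 2 ^ 60 * T := by
          rw [hre]; ring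
        rw [hVx] at d1 d2
        have h5 : (V.re + 2 ^ 60 * T) / 2 ^ 60 = V.re / 2 ^ 60 + T := by
          field_simp
        rw [h5] at d1 d2
        have h6 : V.re / 2 ^ 60 ≤ x := by
          rw [hx]
          apply div_le_div_of_nonneg_right (le_abs_self _) (by positivity)
        have h7 : -x ≤ V.re / 2 ^ 60 := by
          rw [hx, ← neg_div]
          apply div_le_div_of_nonneg_right (neg_abs_le _) (by positivity)
        rw [abs_le]
        constructor
        · linarith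
        · linarith
      · rw [Nat.sub_eq_zero_of_le hle]
        simp only [Nat.zero_div, Nat.cast_zero, zero_sub, abs_neg]
        rw [abs_of_nonneg hT0]
        have hleR : ((rot k).1 : ℝ) * 1152921061678516131 ≤
            ((rot k).2 : ℝ) * 1010605263729098 := by exact_mod_cast hle
        have h8 : V.re ≤ -(2 ^ 60 * T) := by
          rw [hre]
          linarith
        have h9 : 2 ^ 60 * T ≤ |V.re| := by
          have := neg_le_abs V.re
          linarith
        have : T ≤ x := by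
          rw [hx, le_div_iff₀ (by positivity)]
          linarith
        linarith
    -- the imaginary coordinate
    have hB : |((rot (k + 1)).2 : ℝ) - 2 ^ 60 * Real.sin (((k + 1 : ℕ) : ℝ) * gu)| ≤ y + 1 := by
      have e : (rot (k + 1)).2 = ((rot k).2 * 1152921061678516131 +
          (rot k).1 * 1010605263729098) / 1152921504606846976 := rfl
      rw [e]
      obtain ⟨d1, d2⟩ := E1_div ((rot k).2 * 1152921061678516131 +
          (rot k).1 * 1010605263729098)
      set T : ℝ := 2 ^ 60 * Real.sin (((k + 1 : ℕ) : ℝ) * gu) with hT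
      push_cast at d1 d2
      have hVx : ((rot k).2 : ℝ) * 1152921061678516131 +
          ((rot k).1 : ℝ) * 1010605263729098 = V.im + 2 ^ 60 * T := by
        rw [him]; ring
      rw [hVx] at d1 d2
      have h5 : (V.im + 2 ^ 60 * T) / 2 ^ 60 = V.im / 2 ^ 60 + T := by
        field_simp
      rw [h5] at d1 d2
      have h6 : V.im / 2 ^ 60 ≤ y := by
        rw [hy]
        apply div_le_div_of_nonneg_right (le_abs_self _) (by positivity)
      have h7 : -y ≤ V.im / 2 ^ 60 := by
        rw [hy, ← neg_div]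
        apply div_le_div_of_nonneg_right (neg_abs_le _) (by positivity)
      rw [abs_le]
      constructor
      · push_cast
        linarith
      · push_cast
        linarith
    -- together
    apply E1_norm_le (by positivity)
    simp only [E1_W, E1_Z, Complex.sub_re, Complex.sub_im]
    have hA2 : (((rot (k + 1)).1 : ℝ) - 2 ^ 60 * Real.cos (((k + 1 : ℕ) : ℝ) * gu)) ^ 2 ≤
        (x + 1) ^ 2 := by
      rw [← sq_abs]
      exact pow_le_pow_left₀ (abs_nonneg _) hA 2
    have hB2 : (((rot (k + 1)).2 : ℝ) - 2 ^ 60 * Real.sin (((k + 1 : ℕ) : ℝ) * gu)) ^ 2 ≤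
        (y + 1) ^ 2 := by
      rw [← sq_abs]
      exact pow_le_pow_left₀ (abs_nonneg _) hB 2
    have hR0 : 0 ≤ 29000 * (k : ℝ) + 28403 := by positivity
    have hxR : x ≤ 29000 * (k : ℝ) + 28403 := by
      apply le_of_sq_le_sq _ hR0
      nlinarith
    have hyR : y ≤ 29000 * (k : ℝ) + 28403 := by
      apply le_of_sq_le_sq _ hR0
      nlinarith
    have h10 : (x + 1) ^ 2 + (y + 1) ^ 2 ≤ (29000 * (k : ℝ) + 28403 + 2) ^ 2 := by
      nlinarith
    have h11 : (29000 * (k : ℝ) + 28403 + 2) ^ 2 ≤ (29000 * ((k + 1 : ℕ) : ℝ)) ^ 2 := by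
      apply pow_le_pow_left₀ (by positivity)
      push_cast
      linarith
    linarith

/-- The error is at most `40000 k + 8`. -/
theorem rot_err {k : ℕ} (hk : k ≤ 1792) :
    |((rot k).1 : ℝ) - 2 ^ 60 * Real.cos (k * gu)| ≤ 40000 * (k : ℝ) + 8 ∧
    |((rot k).2 : ℝ) - 2 ^ 60 * Real.sin (k * gu)| ≤ 40000 * (k : ℝ) + 8 := by
  have h := E1_main k hk
  have hk0 : (0 : ℝ) ≤ k := Nat.cast_nonneg k
  have h1 := Complex.abs_re_le_norm (E1_W k - E1_Z k)
  have h2 := Complex.abs_im_le_norm (E1_W k - E1_Z k)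
  simp only [E1_W, E1_Z, Complex.sub_re, Complex.sub_im] at h h1 h2
  constructor
  · linarith
  · linarith

/-- Check the condition `chk k (rot k).1 (rot k).2` for `n` values of `k`, beginning with the given
one. -/
def rotAll (chk : Nat → Nat → Nat → Bool) : Nat → Nat → Nat → Nat → Bool
  | 0, _, _, _ => true
  | n + 1, k, c, s => chk k c s && rotAll chk n (Nat.succ k) (rotC c s) (rotS c s)

private lemma E1_sound {chk : Nat → Nat → Nat → Bool} {n : ℕ} :
    ∀ {m : ℕ}, rotAll chk n m (rot m).1 (rot m).2 = true → ∀ {k : ℕ}, m ≤ k → k < m + n →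
      chk k (rot k).1 (rot k).2 = true := by
  induction n with
  | zero =>
    intro m _ k h1 h2
    omega
  | succ n ih =>
    intro m h k h1 h2
    simp only [rotAll, Bool.and_eq_true] at h
    obtain ⟨ha, hb⟩ := h
    rcases Nat.eq_or_lt_of_le h1 with rfl | hlt
    · exact ha
    · exact ih (m := m + 1) hb hlt (by omega)

theorem rotAll_sound {chk : Nat → Nat → Nat → Bool} {n : ℕ}
    (h : rotAll chk n 0 1152921504606846976 0 = true) {k : ℕ} (hk : k < n) :
    chk k (rot k).1 (rot k).2 = true :=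
  E1_sound (m := 0) h (Nat.zero_le _) (by omega)

end Hepta
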