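import Mathlib

/-! # E2: bounds for the exponential function in the unit `2 ^ (-60)` -/

set_option autoImplicit false

namespace Hepta

/-- Adds terms of the exponential series. -/
def expSum (n : Nat) : Nat → Nat → Nat → Nat → Nat
  | 0, _, _, acc => acc
  | f + 1, i, t, acc =>
    expSum n f (Nat.succ i)
      (Nat.div (Nat.mul t n) (Nat.mul 1152921504606846976 (Nat.succ i))) (Nat.add acc t)

def expLo (n : Nat) : Nat := expSum n 14 0 1152921504606846976 0

def expHi (n : Nat) : Nat := Nat.add (expLo n) 4096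

private theorem E2_step (n f i t acc : ℕ) : expSum n (f + 1) i t acc =
    expSum n f (i + 1) (t * n / (1152921504606846976 * (i + 1))) (acc + t) := rfl

private theorem E2_term (x : ℝ) (i : ℕ) : (2 : ℝ) ^ 60 * (x ^ i / (i.factorial : ℝ)) * (x / (i + 1)) =
    2 ^ 60 * (x ^ (i + 1) / ((i + 1).factorial : ℝ)) := by
  have h1 : ((i.factorial : ℕ) : ℝ) ≠ 0 := by
    exact_mod_cast i.factorial_ne_zero
  have h2 : ((i : ℝ) + 1) ≠ 0 := by positivity
  rw [Nat.factorial_succ, pow_succ x i]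
  push_cast
  field_simp

private theorem E2_div_le (t n i : ℕ) :
    ((t * n / (1152921504606846976 * (i + 1)) : ℕ) : ℝ) ≤ (t : ℝ) * ((n / 2 ^ 60 : ℝ) / (i + 1)) := by
  have h := @Nat.cast_div_le ℝ _ _ _ (t * n) (1152921504606846976 * (i + 1))
  refine le_trans h (le_of_eq ?_)
  push_cast
  have h2 : ((i : ℝ) + 1) ≠ 0 := by positivity
  field_simp
  norm_num

private theorem E2_le_div (t n i : ℕ) :
    (t : ℝ) * ((n / 2 ^ 60 : ℝ) / (i + 1)) - 1 ≤ ((t * n / (1152921504606846976 * (i + 1)) : ℕ) : ℝ) := by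
  have h : t * n < 1152921504606846976 * (i + 1) * (t * n / (1152921504606846976 * (i + 1)) + 1) :=
    Nat.lt_mul_div_succ (t * n) (by positivity)
  have h' : ((t * n : ℕ) : ℝ) < ((1152921504606846976 * (i + 1) *
    (t * n / (1152921504606846976 * (i + 1)) + 1) : ℕ) : ℝ) := by exact_mod_cast h
  rw [sub_le_iff_le_add]
  have h2 : (0 : ℝ) < (i : ℝ) + 1 := by positivity
  have e1 : (t : ℝ) * ((n / 2 ^ 60 : ℝ) / (i + 1)) =
      ((t : ℝ) * n) / (1152921504606846976 * ((i : ℝ) + 1)) := by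
    field_simp
    norm_num
  rw [e1, div_le_iff₀ (by positivity)]
  rw [Nat.cast_mul, Nat.cast_mul, Nat.cast_mul, Nat.cast_add, Nat.cast_add] at h'
  push_cast at h' ⊢
  nlinarith [h'.le]

private theorem E2_upper (n : ℕ) : ∀ (f i t acc : ℕ),
    (t : ℝ) ≤ 2 ^ 60 * ((n / 2 ^ 60 : ℝ) ^ i / (i.factorial : ℝ)) →
    (expSum n f i t acc : ℝ) ≤ acc + ∑ j ∈ Finset.range f,
      2 ^ 60 * ((n / 2 ^ 60 : ℝ) ^ (i + j) / ((i + j).factorial : ℝ)) := by
  intro f
  induction f with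
  | zero => intro i t acc _; simp [expSum]
  | succ f ih =>
    intro i t acc ht
    rw [E2_step]
    have h1 : ((t * n / (1152921504606846976 * (i + 1)) : ℕ) : ℝ) ≤
        2 ^ 60 * ((n / 2 ^ 60 : ℝ) ^ (i + 1) / ((i + 1).factorial : ℝ)) := by
      rw [← E2_term]
      refine le_trans (E2_div_le t n i) ?_
      exact mul_le_mul_of_nonneg_right ht (by positivity)
    refine le_trans (ih (i + 1) _ (acc + t) h1) ?_
    rw [Finset.sum_range_succ']
    simp only [add_zero]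
    have e : ∀ j : ℕ, i + 1 + j = i + (j + 1) := fun j => by ring
    simp only [e]
    push_cast
    linarith

private theorem E2_lower (n : ℕ) (hn : n ≤ 2 ^ 59) : ∀ (f i t acc : ℕ),
    2 ^ 60 * ((n / 2 ^ 60 : ℝ) ^ i / (i.factorial : ℝ)) ≤ (t : ℝ) + 2 →
    acc + ∑ j ∈ Finset.range f,
      2 ^ 60 * ((n / 2 ^ 60 : ℝ) ^ (i + j) / ((i + j).factorial : ℝ)) ≤
      (expSum n f i t acc : ℝ) + 2 * f := by
  have hx0 : (0 : ℝ) ≤ n / 2 ^ 60 := by positivity
  have hx : (n / 2 ^ 60 : ℝ) ≤ 1 / 2 := by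
    have : (n : ℝ) ≤ 2 ^ 59 := by exact_mod_cast hn
    rw [div_le_iff₀ (by positivity)]
    linarith
  intro f
  induction f with
  | zero => intro i t acc _; simp [expSum]
  | succ f ih =>
    intro i t acc ht
    rw [E2_step]
    have h1 : 2 ^ 60 * ((n / 2 ^ 60 : ℝ) ^ (i + 1) / ((i + 1).factorial : ℝ)) ≤
        ((t * n / (1152921504606846976 * (i + 1)) : ℕ) : ℝ) + 2 := by
      rw [← E2_term]
      have h3 : (0 : ℝ) ≤ (n / 2 ^ 60 : ℝ) / (i + 1) := by positivity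
      have h4 : (n / 2 ^ 60 : ℝ) / (i + 1) ≤ 1 / 2 := by
        refine le_trans (div_le_self hx0 ?_) hx
        have := Nat.cast_nonneg (α := ℝ) i
        linarith
      have h5 := mul_le_mul_of_nonneg_right ht h3
      have h6 := E2_le_div t n i
      have h7 : ((t : ℝ) + 2) * ((n / 2 ^ 60 : ℝ) / (i + 1)) =
        (t : ℝ) * ((n / 2 ^ 60 : ℝ) / (i + 1)) + 2 * ((n / 2 ^ 60 : ℝ) / (i + 1)) := by ring
      rw [h7] at h5
      linarith
    have h2 := ih (i + 1) _ (acc + t) h1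
    rw [Finset.sum_range_succ']
    simp only [add_zero]
    have e : ∀ j : ℕ, i + 1 + j = i + (j + 1) := fun j => by ring
    simp only [e] at h2
    push_cast at h2 ⊢
    linarith

theorem expLo_le (n : ℕ) : (expLo n : ℝ) ≤ 2 ^ 60 * Real.exp (n / 2 ^ 60) := by
  have h := E2_upper n 14 0 1152921504606846976 0 (by norm_num)
  simp only [zero_add, Nat.cast_zero] at h
  unfold expLo
  refine le_trans h ?_
  rw [← Finset.mul_sum]
  refine mul_le_mul_of_nonneg_left ?_ (by positivity)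
  exact Real.sum_le_exp_of_nonneg (by positivity) 14

theorem le_expHi {n : ℕ} (hn : n ≤ 2 ^ 59) : 2 ^ 60 * Real.exp (n / 2 ^ 60) ≤ (expHi n : ℝ) := by
  have h := E2_lower n hn 14 0 1152921504606846976 0 (by norm_num)
  simp only [zero_add, Nat.cast_zero] at h
  rw [← Finset.mul_sum] at h
  have hx0 : (0 : ℝ) ≤ n / 2 ^ 60 := by positivity
  have hx : (n / 2 ^ 60 : ℝ) ≤ 1 / 2 := by
    have : (n : ℝ) ≤ 2 ^ 59 := by exact_mod_cast hn
    rw [div_le_iff₀ (by positivity)]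
    linarith
  have hb := Real.exp_bound (x := (n / 2 ^ 60 : ℝ)) (by rw [abs_of_nonneg hx0]; linarith)
    (n := 14) (by norm_num)
  have hb1 := (abs_le.1 hb).2
  rw [abs_of_nonneg hx0] at hb1
  have h14 : (n / 2 ^ 60 : ℝ) ^ 14 ≤ (1 / 2) ^ 14 := pow_le_pow_left₀ hx0 hx 14
  have h15 : (n / 2 ^ 60 : ℝ) ^ 14 * ((Nat.succ 14 : ℕ) / ((Nat.factorial 14 : ℕ) * (14 : ℕ)) : ℝ) ≤
      (1 / 2) ^ 14 * ((Nat.succ 14 : ℕ) / ((Nat.factorial 14 : ℕ) * (14 : ℕ)) : ℝ) :=
    mul_le_mul_of_nonneg_right h14 (by positivity)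
  have h16 : (2 : ℝ) ^ 60 * ((1 / 2) ^ 14 *
      ((Nat.succ 14 : ℕ) / ((Nat.factorial 14 : ℕ) * (14 : ℕ)) : ℝ)) ≤ 4000 := by
    norm_num [Nat.factorial]
  have h17 : ((expHi n : ℕ) : ℝ) = (expLo n : ℝ) + 4096 := by
    have : expHi n = expLo n + 4096 := rfl
    rw [this]
    push_cast
    ring
  rw [h17]
  unfold expLo
  push_cast at h hb1 h15 h16 ⊢
  nlinarith

end Hepta
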