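import Pool.Agent.H69.Hep.C3
import Pool.Agent.H69.Hep.E1
import Pool.Agent.H69.Hep.E2

/-! # E4: check of the tables `S` and `C` -/

set_option autoImplicit false

namespace Hepta

/-- The check for `k`: `cos (k gu) = sin ((1792 - k) gu)`. -/
def chkS1 (S k c : Nat) : Bool :=
  Nat.ble (ent S (Nat.sub 896 k)) 536870912 &&
    Nat.ble (Nat.pow 2 120) (Nat.mul (expLo (Nat.mul (ent S (Nat.sub 896 k)) 1073741824))
      (Nat.sub c 80000000))

def chkS (S : Nat) : Bool := rotAll (fun k c _ => chkS1 S k c) 897 0 1152921504606846976 0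

theorem e4_dist_le (k : ℕ) : dist1024 k ≤ 512 := by
  unfold dist1024
  rcases hc : Nat.ble (Nat.mod k 1024) 512 with _ | _
  · rw [cond_false]
    have h1 : ¬ (Nat.mod k 1024 ≤ 512) := fun h => by
      rw [Nat.ble_eq_true_of_le h] at hc
      exact absurd hc (by decide)
    have h3 : Nat.sub 1024 (Nat.mod k 1024) = 1024 - Nat.mod k 1024 := rfl
    rw [h3]
    omega
  · rw [cond_true]
    exact Nat.le_of_ble_eq_true hc

theorem e4_dist_le_abs (k : ℕ) (m : ℤ) : (dist1024 k : ℤ) ≤ |(k : ℤ) - m * 1024| := by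
  unfold dist1024
  have e1 : Nat.mod k 1024 = k % 1024 := rfl
  have e2 : Nat.sub 1024 (Nat.mod k 1024) = 1024 - k % 1024 := rfl
  rw [e2, e1]
  rcases hc : Nat.ble (k % 1024) 512 with _ | _
  · rw [cond_false]
    have h1 : ¬ (k % 1024 ≤ 512) := fun h => by
      rw [Nat.ble_eq_true_of_le h] at hc
      exact absurd hc (by decide)
    rcases abs_cases ((k : ℤ) - m * 1024) with ⟨h, _⟩ | ⟨h, _⟩ <;> rw [h] <;> omega
  · rw [cond_true]
    have h1 : k % 1024 ≤ 512 := Nat.le_of_ble_eq_true hc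
    rcases abs_cases ((k : ℤ) - m * 1024) with ⟨h, _⟩ | ⟨h, _⟩ <;> rw [h] <;> omega

theorem e4_cw_le (k : ℕ) : cw (k * gu) ≤ Real.cos (dist1024 k * gu) := by
  have hg := gu_pos
  unfold cw
  rw [← Real.cos_abs (k * gu - round (k * gu / ww) * ww)]
  have h1 : |(k : ℝ) * gu - round ((k : ℝ) * gu / ww) * ww| ≤ ww / 2 := abs_sub_round _
  have h2 : ww / 2 ≤ Real.pi := by
    unfold ww
    have := Real.pi_pos
    linarith
  refine Real.cos_le_cos_of_nonneg_of_le_pi (by positivity) (h1.trans h2) ?_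
  set m : ℤ := round ((k : ℝ) * gu / ww) with hm
  have h3 : (dist1024 k : ℤ) ≤ |(k : ℤ) - m * 1024| := e4_dist_le_abs k m
  have h4 : ((dist1024 k : ℕ) : ℝ) ≤ |(k : ℝ) - m * 1024| := by
    have := (Int.cast_le (R := ℝ)).2 h3
    push_cast at this
    exact this
  have h5 : (k : ℝ) * gu - m * ww = ((k : ℝ) - m * 1024) * gu := by
    rw [ww_eq]
    ring
  rw [h5, abs_mul, abs_of_pos hg]
  exact mul_le_mul_of_nonneg_right h4 hg.le

/-- The exponent as a real number. -/
theorem e4_exp_arg (E : ℕ) :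
    ((Nat.mul E 1073741824 : ℕ) : ℝ) / 2 ^ 60 = (E : ℝ) / 2 ^ 30 := by
  have h : Nat.mul E 1073741824 = E * 1073741824 := rfl
  rw [h]
  push_cast
  rw [div_eq_div_iff (by positivity) (by positivity)]
  norm_num
  ring

theorem e4_err {k : ℕ} (hk : k ≤ 896) :
    2 ^ 60 * Real.cos (k * gu) ≤ ((rot k).1 : ℝ) + 80000000 ∧
    ((rot k).1 : ℝ) - 80000000 ≤ 2 ^ 60 * Real.cos (k * gu) := by
  have h := (rot_err (k := k) (by omega)).1
  have hk' : (k : ℝ) ≤ 896 := by exact_mod_cast hk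
  rw [abs_le] at h
  constructor <;> linarith [h.1, h.2]

theorem chkS_sound {S : ℕ} (h : chkS S = true) (k : ℕ) (h1 : 896 ≤ k) (h2 : k ≤ 1792) :
    ((Int.negOfNat (ent S (k - 896)) : ℤ) : ℝ) ≤ GS k := by
  have hk : 1792 - k < 897 := by omega
  have h3 : chkS1 S (1792 - k) (rot (1792 - k)).1 = true := rotAll_sound h hk
  unfold chkS1 at h3
  rw [Bool.and_eq_true] at h3
  have e1 : Nat.sub 896 (1792 - k) = k - 896 := by
    have : Nat.sub 896 (1792 - k) = 896 - (1792 - k) := rfl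
    rw [this]
    omega
  rw [e1] at h3
  have h4 := Nat.le_of_ble_eq_true h3.2
  generalize ent S (k - 896) = E at h4
  clear h3
  obtain ⟨-, he⟩ := e4_err (k := 1792 - k) (by omega)
  have h5 := expLo_le (Nat.mul E 1073741824)
  rw [e4_exp_arg] at h5
  generalize (rot (1792 - k)).1 = c at h4 he
  generalize expLo (Nat.mul E 1073741824) = x at h4 h5
  have h4' : 2 ^ 120 ≤ x * (c - 80000000) := h4
  have hpos : 0 < x * (c - 80000000) := lt_of_lt_of_le (by positivity) h4'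
  have hc : 80000000 < c := by
    by_contra hcon
    have : c - 80000000 = 0 := by omega
    rw [this, Nat.mul_zero] at hpos
    exact lt_irrefl _ hpos
  have h6 : (2 : ℝ) ^ 120 ≤ x * ((c : ℝ) - 80000000) := by
    have := (Nat.cast_le (α := ℝ)).2 h4'
    rw [Nat.cast_mul, Nat.cast_sub hc.le, Nat.cast_pow] at this
    have e3 : ((80000000 : ℕ) : ℝ) = 80000000 := Nat.cast_ofNat
    have e4 : ((2 : ℕ) : ℝ) = 2 := Nat.cast_ofNat
    rwa [e3, e4] at this
  have hcr : (0 : ℝ) < (c : ℝ) - 80000000 := by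
    have : ((80000000 : ℕ) : ℝ) < (c : ℝ) := Nat.cast_lt.2 hc
    push_cast at this
    linarith
  have hcos : Real.cos (((1792 - k : ℕ) : ℝ) * gu) = Real.sin (k * gu) := by
    rw [Nat.cast_sub h2, ← Real.cos_pi_div_two_sub]
    congr 1
    unfold gu
    push_cast
    ring
  rw [hcos] at he
  have hsin : 0 < Real.sin (k * gu) :=
    (mul_pos_iff_of_pos_left (by positivity : (0 : ℝ) < 2 ^ 60)).1 (lt_of_lt_of_le hcr he)
  have h7 : (2 : ℝ) ^ 120 ≤ (2 ^ 60 * Real.exp ((E : ℝ) / 2 ^ 30)) *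
      (2 ^ 60 * Real.sin (k * gu)) := by
    refine h6.trans ?_
    exact mul_le_mul h5 he hcr.le (by positivity)
  have h8 : 1 ≤ Real.exp ((E : ℝ) / 2 ^ 30) * Real.sin (k * gu) := by
    have : (2 ^ 60 * Real.exp ((E : ℝ) / 2 ^ 30)) * (2 ^ 60 * Real.sin (k * gu)) =
        2 ^ 120 * (Real.exp ((E : ℝ) / 2 ^ 30) * Real.sin (k * gu)) := by ring
    rw [this] at h7
    have h120 : (0 : ℝ) < 2 ^ 120 := by positivity
    refine le_of_mul_le_mul_left ?_ h120
    rw [mul_one]
    exact h7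
  have h9 : 0 ≤ (E : ℝ) / 2 ^ 30 + Real.log (Real.sin (k * gu)) := by
    have := Real.log_nonneg h8
    rwa [Real.log_mul (Real.exp_pos _).ne' hsin.ne', Real.log_exp] at this
  unfold GS
  have e2 : ((Int.negOfNat E : ℤ) : ℝ) = -(E : ℝ) := by
    rw [Int.negOfNat_eq, Int.cast_neg, Int.ofNat_eq_natCast, Int.cast_natCast]
  rw [e2]
  have h30 : (0 : ℝ) < 2 ^ 30 := by positivity
  have h10 : (2 : ℝ) ^ 30 * ((E : ℝ) / 2 ^ 30) = E := by field_simp
  have h11 := mul_nonneg h30.le h9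
  rw [mul_add, h10] at h11
  linarith

def chkC1 (C k c : Nat) : Bool :=
  Nat.ble (ent C k) 536870912 &&
    Nat.ble (Nat.mul (expHi (Nat.mul (ent C k) 1073741824)) (Nat.add c 80000000)) (Nat.pow 2 120)

def chkC (C : Nat) : Bool := Nat.beq (ent C 0) 0 &&
  rotAll (fun k c _ => Nat.beq k 0 || chkC1 C k c) 513 0 1152921504606846976 0

theorem e4_GC_nonneg (t : ℝ) : 0 ≤ GC t := by
  unfold GC
  have := Real.log_nonpos (cw_pos (t * gu)).le (cw_le_one (t * gu))
  nlinarith

theorem chkC_sound {C : ℕ} (h : chkC C = true) (k : ℕ) :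
    ((Int.ofNat (ent C (dist1024 k)) : ℤ) : ℝ) ≤ GC k := by
  unfold chkC at h
  rw [Bool.and_eq_true] at h
  obtain ⟨h0, hr⟩ := h
  have hd := e4_dist_le k
  have hcw := e4_cw_le k
  generalize dist1024 k = d at hd hcw
  have h3 : (Nat.beq d 0 || chkC1 C d (rot d).1) = true :=
    rotAll_sound hr (k := d) (by omega)
  rw [Bool.or_eq_true] at h3
  have e0 : ((Int.ofNat (ent C d) : ℤ) : ℝ) = ((ent C d : ℕ) : ℝ) := by
    rw [Int.ofNat_eq_natCast]
    exact Int.cast_natCast _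
  rw [e0]
  rcases h3 with h3 | h3
  · have hd0 : d = 0 := Nat.eq_of_beq_eq_true h3
    subst hd0
    rw [Nat.eq_of_beq_eq_true h0, Nat.cast_zero]
    exact e4_GC_nonneg _
  · unfold chkC1 at h3
    rw [Bool.and_eq_true] at h3
    have h4 := Nat.le_of_ble_eq_true h3.1
    have h5 := Nat.le_of_ble_eq_true h3.2
    clear h3 h0 hr e0
    generalize ent C d = E at h4 h5
    have h6 : 2 ^ 60 * Real.exp (((Nat.mul E 1073741824 : ℕ) : ℝ) / 2 ^ 60) ≤
        (expHi (Nat.mul E 1073741824) : ℝ) := by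
      refine le_expHi ?_
      have : Nat.mul E 1073741824 = E * 1073741824 := rfl
      rw [this]
      calc E * 1073741824 ≤ 536870912 * 1073741824 := Nat.mul_le_mul_right _ h4
        _ ≤ 2 ^ 59 := by norm_num
    rw [e4_exp_arg] at h6
    obtain ⟨he, -⟩ := e4_err (k := d) (by omega)
    generalize (rot d).1 = c at h5 he
    generalize expHi (Nat.mul E 1073741824) = x at h5 h6
    have h5' : x * (c + 80000000) ≤ 2 ^ 120 := h5
    have h7 : (x : ℝ) * ((c : ℝ) + 80000000) ≤ 2 ^ 120 := by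
      have := (Nat.cast_le (α := ℝ)).2 h5'
      rw [Nat.cast_mul, Nat.cast_add, Nat.cast_pow] at this
      have e3 : ((80000000 : ℕ) : ℝ) = 80000000 := Nat.cast_ofNat
      have e4 : ((2 : ℕ) : ℝ) = 2 := Nat.cast_ofNat
      rwa [e3, e4] at this
    have hcwpos := cw_pos (k * gu)
    have hcos : 0 < Real.cos (d * gu) := lt_of_lt_of_le hcwpos hcw
    have h8 : (2 ^ 60 * Real.exp ((E : ℝ) / 2 ^ 30)) * (2 ^ 60 * Real.cos (d * gu)) ≤
        2 ^ 120 := by
      refine le_trans ?_ h7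
      exact mul_le_mul h6 he (by positivity) (Nat.cast_nonneg _)
    have h9 : Real.exp ((E : ℝ) / 2 ^ 30) * Real.cos (d * gu) ≤ 1 := by
      have : (2 ^ 60 * Real.exp ((E : ℝ) / 2 ^ 30)) * (2 ^ 60 * Real.cos (d * gu)) =
          2 ^ 120 * (Real.exp ((E : ℝ) / 2 ^ 30) * Real.cos (d * gu)) := by ring
      rw [this] at h8
      have h120 : (0 : ℝ) < 2 ^ 120 := by positivity
      refine le_of_mul_le_mul_left ?_ h120
      rw [mul_one]
      exact h8
    have h10 : (E : ℝ) / 2 ^ 30 + Real.log (Real.cos (d * gu)) ≤ 0 := by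
      have := Real.log_nonpos (by positivity) h9
      rwa [Real.log_mul (Real.exp_pos _).ne' hcos.ne', Real.log_exp] at this
    have h11 : Real.log (cw (k * gu)) ≤ Real.log (Real.cos (d * gu)) :=
      Real.log_le_log hcwpos hcw
    unfold GC
    have h30 : (0 : ℝ) < 2 ^ 30 := by positivity
    have h12 : (2 : ℝ) ^ 30 * ((E : ℝ) / 2 ^ 30) = E := by field_simp
    have h13 := mul_le_mul_of_nonneg_left h11 h30.le
    have h14 := mul_nonneg h30.le (neg_nonneg.2 h10)
    rw [mul_neg, mul_add, h12] at h14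
    linarith

end Hepta
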