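import Pool.Agent.H69.Hep.C3
import Pool.Agent.H69.Hep.E1
import Pool.Agent.H69.Hep.E2

/-! # E5: check of the table `F` -/

set_option autoImplicit false

namespace Hepta

/-- The value `(rot 512).1`, an approximation of `2 ^ 60 cos (512 gu)`. -/
def q512 : Nat := 1038746382785984521

private theorem E5_rotAll :
    rotAll (fun k c _ => Nat.beq c q512 || Nat.blt k 512) 513 0 1152921504606846976 0 = true := by
  decide +kernel

theorem rot_512 : (rot 512).1 = q512 := by
  have h := rotAll_sound E5_rotAll (k := 512) (by norm_num)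
  generalize (rot 512).1 = x at h ⊢
  rw [Bool.or_eq_true] at h
  rcases h with h | h
  · exact Nat.eq_of_beq_eq_true h
  · exact absurd h (by decide)

/-- The check for the distance `512 - k`; here `q = q512`. -/
def chkF1 (F q k c : Nat) : Bool :=
  Nat.ble (ent F (Nat.sub 512 k)) 536870912 &&
    Nat.ble (Nat.mul (expHi (Nat.mul (ent F (Nat.sub 512 k)) 1073741824))
        (Nat.mul 2 (Nat.add q 80000000)))
      (Nat.mul 1152921504606846976 (Nat.add (Nat.add q 80000000) (Nat.sub c 80000000)))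

def chkF (F : Nat) : Bool := Nat.beq (ent F 0) 0 &&
  rotAll (fun k c _ => chkF1 F q512 k c) 512 0 1152921504606846976 0

private theorem E5_gu_lt : 512 * gu < Real.pi / 2 := by
  unfold gu
  have := Real.pi_pos
  linarith

/-- The cosine of `k gu` is not negative for `k ≤ 512`. -/
private theorem E5_cos_pos {k : ℕ} (hk : k ≤ 512) : 0 < Real.cos (k * gu) := by
  have h1 : (k : ℝ) ≤ 512 := by exact_mod_cast hk
  have hg := gu_pos
  apply Real.cos_pos_of_mem_Ioo
  constructor
  · have h2 : 0 ≤ (k : ℝ) * gu := by positivity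
    have := Real.pi_pos
    linarith
  · have h2 : (k : ℝ) * gu ≤ 512 * gu := by nlinarith
    linarith [E5_gu_lt]

/-- The value of `fw` at `d gu`, `d ≤ 512`. -/
private theorem E5_fw {d : ℕ} (hd : d ≤ 512) :
    fw (d * gu) = (1 + Real.cos (((512 - d : ℕ) : ℝ) * gu) / Real.cos (512 * gu)) / 2 := by
  have hg := gu_pos
  have hw : ww / 2 = 512 * gu := by rw [ww_eq]; ring
  have hdd : (d : ℝ) ≤ 512 := by exact_mod_cast hd
  have key : |(d : ℝ) * gu - round ((d : ℝ) * gu / ww) * ww| = d * gu := by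
    rcases Nat.lt_or_ge d 512 with h | h
    · have hr : round ((d : ℝ) * gu / ww) = 0 := by
        rw [round_eq_zero_iff]
        rw [ww_eq]
        have h2 : (d : ℝ) * gu / (1024 * gu) = d / 1024 := by
          field_simp
        rw [h2]
        have h3 : (d : ℝ) < 512 := by exact_mod_cast h
        have h4 : (0 : ℝ) ≤ d := by positivity
        constructor
        · linarith
        · linarith
      rw [hr]
      have h4 : (0 : ℝ) ≤ d * gu := by positivity
      simp only [Int.cast_zero, zero_mul, sub_zero]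
      exact abs_of_nonneg h4
    · have h5 : d = 512 := le_antisymm hd h
      subst h5
      have h2 : ((512 : ℕ) : ℝ) * gu / ww = 1 / 2 := by
        rw [ww_eq]
        push_cast
        field_simp
        norm_num
      rw [h2]
      have hr : round ((1 : ℝ) / 2) = 1 := by
        rw [round_eq]
        norm_num
      rw [hr, ww_eq]
      push_cast
      have h6 : (512 : ℝ) * gu - 1 * (1024 * gu) = -(512 * gu) := by ring
      rw [h6, abs_neg, abs_of_pos (by positivity)]
  unfold fw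
  rw [key, hw]
  have h7 : (512 : ℝ) * gu - d * gu = ((512 - d : ℕ) : ℝ) * gu := by
    rw [Nat.cast_sub hd]
    push_cast
    ring
  rw [h7]

private theorem E5_real {q c E f C Q : ℝ} (hC : 0 < C) (hQ : 0 < Q) (hc : c ≤ 2 ^ 60 * C)
    (hq : 2 ^ 60 * Q ≤ q) (hE : 2 ^ 60 * Real.exp (f / 2 ^ 30) ≤ E)
    (h : E * (2 * q) ≤ 2 ^ 60 * (q + c)) : f ≤ 2 ^ 30 * Real.log ((1 + C / Q) / 2) := by
  have hq0 : 0 < q := lt_of_lt_of_le (by positivity) hq
  have h6 : 2 ^ 60 * Real.exp (f / 2 ^ 30) * (2 * q) ≤ 2 ^ 60 * (q + 2 ^ 60 * C) := by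
    calc 2 ^ 60 * Real.exp (f / 2 ^ 30) * (2 * q) ≤ E * (2 * q) :=
          mul_le_mul_of_nonneg_right hE (by positivity)
      _ ≤ _ := h
      _ ≤ _ := by
          apply mul_le_mul_of_nonneg_left _ (by positivity)
          linarith
  have h7 : Real.exp (f / 2 ^ 30) * 2 ≤ 1 + 2 ^ 60 * C / q := by
    rw [← sub_nonneg]
    have h8 : 1 + 2 ^ 60 * C / q - Real.exp (f / 2 ^ 30) * 2 =
        (2 ^ 60 * (q + 2 ^ 60 * C) - 2 ^ 60 * Real.exp (f / 2 ^ 30) * (2 * q)) /
        (2 ^ 60 * q) := by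
      field_simp
    rw [h8]
    apply div_nonneg
    · linarith
    · positivity
  have h9 : 2 ^ 60 * C / q ≤ C / Q := by
    rw [div_le_div_iff₀ hq0 hQ]
    nlinarith [mul_le_mul_of_nonneg_left hq hC.le]
  have hexp : Real.exp (f / 2 ^ 30) ≤ (1 + C / Q) / 2 := by linarith
  have h11 : f / 2 ^ 30 ≤ Real.log ((1 + C / Q) / 2) := by
    rw [Real.le_log_iff_exp_le (by positivity)]
    exact hexp
  rw [div_le_iff₀ (by positivity)] at h11
  linarith

private theorem E5_nat {a q c E : ℕ} (h : E * (2 * (q + a)) ≤ 2 ^ 60 * (q + a + (c - a))) :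
    (E : ℝ) * (2 * ((q : ℝ) + a)) ≤ 2 ^ 60 * ((q : ℝ) + a + ((c - a : ℕ) : ℝ)) := by
  exact_mod_cast h

private theorem E5_sub {a c : ℕ} {x : ℝ} (hx : 0 < x) (h : |(c : ℝ) - x| ≤ a) :
    ((c - a : ℕ) : ℝ) ≤ x := by
  rw [abs_le] at h
  rcases Nat.le_total a c with h' | h'
  · rw [Nat.cast_sub h']
    linarith [h.2]
  · rw [Nat.sub_eq_zero_of_le h']
    simpa using hx.le

private theorem E5_conv {F q k c a b d : ℕ} (h : (Nat.ble (ent F (Nat.sub 512 k)) b &&
    Nat.ble (Nat.mul (expHi (Nat.mul (ent F (Nat.sub 512 k)) d)) (Nat.mul 2 (Nat.add q a)))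
      (Nat.mul (2 ^ 60) (Nat.add (Nat.add q a) (Nat.sub c a)))) = true) :
    ent F (512 - k) ≤ b ∧
      expHi (ent F (512 - k) * d) * (2 * (q + a)) ≤ 2 ^ 60 * (q + a + (c - a)) := by
  rw [Bool.and_eq_true] at h
  exact ⟨Nat.le_of_ble_eq_true h.1, Nat.le_of_ble_eq_true h.2⟩

private theorem E5_two60 : (1152921504606846976 : ℕ) = 2 ^ 60 := by norm_num

private theorem E5_exp {f b : ℕ} (h : f ≤ b) (hb : b * 1073741824 = 2 ^ 59) :
    2 ^ 60 * Real.exp ((f : ℝ) / 2 ^ 30) ≤ (expHi (f * 1073741824) : ℝ) := by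
  have hE := le_expHi (n := f * 1073741824) (by
    rw [← hb]
    exact Nat.mul_le_mul_right _ h)
  have h5 : (((f * 1073741824 : ℕ) : ℝ)) / 2 ^ 60 = (f : ℝ) / 2 ^ 30 := by
    push_cast
    ring
  rw [h5] at hE
  exact hE

/-- The bound for a distance that is not zero. -/
private theorem E5_one {F k : ℕ} (hk : k ≤ 512) (h : chkF1 F q512 k (rot k).1 = true) :
    ((ent F (512 - k) : ℕ) : ℝ) ≤ GF ((512 - k : ℕ) : ℝ) := by
  obtain ⟨e1, -⟩ := rot_err (k := k) (by omega)
  obtain ⟨e2, -⟩ := rot_err (k := 512) (by norm_num)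
  rw [rot_512] at e2
  generalize (rot k).1 = c at e1 h
  generalize q512 = q at e2 h
  unfold chkF1 at h
  rw [E5_two60] at h
  obtain ⟨h1, h2⟩ := E5_conv h
  have hE := E5_exp h1 (by norm_num)
  clear h h1
  generalize expHi (ent F (512 - k) * 1073741824) = E at hE h2
  generalize ent F (512 - k) = f at hE ⊢
  have h3 := E5_nat h2
  clear h2
  have hk' : (k : ℝ) ≤ 512 := by exact_mod_cast hk
  have hC := E5_cos_pos hk
  have hQ := E5_cos_pos (le_refl 512)
  rw [Nat.cast_ofNat] at e2 hQ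
  have hc := E5_sub (a := 80000000) (mul_pos (by positivity : (0 : ℝ) < 2 ^ 60) hC)
    (le_trans e1 (by rw [Nat.cast_ofNat]; linarith))
  rw [abs_le] at e2
  have hq : 2 ^ 60 * Real.cos (512 * gu) ≤ (q : ℝ) + ((80000000 : ℕ) : ℝ) := by
    rw [Nat.cast_ofNat]
    linarith [e2.1]
  unfold GF
  rw [E5_fw (by omega : 512 - k ≤ 512), Nat.sub_sub_self hk]
  exact E5_real hC hQ hc hq hE h3

theorem chkF_sound {F : ℕ} (h : chkF F = true) (k : ℕ) :
    ((Int.ofNat (ent F (dist1024 k)) : ℤ) : ℝ) ≤ GF k := by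
  unfold chkF at h
  rw [Bool.and_eq_true] at h
  obtain ⟨h0, h1⟩ := h
  have h0 := Nat.eq_of_beq_eq_true h0
  have hall : ∀ d : ℕ, d ≤ 512 → ((ent F d : ℕ) : ℝ) ≤ GF (d : ℝ) := by
    intro d hd
    rcases Nat.eq_zero_or_pos d with hd0 | hd0
    · subst hd0
      rw [h0]
      have hc := cos_half_pos'
      have : GF ((0 : ℕ) : ℝ) = 0 := by
        unfold GF fw
        simp only [Nat.cast_zero, zero_mul, zero_div, round_zero, Int.cast_zero, sub_zero, abs_zero]
        rw [div_self hc.ne']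
        norm_num
      rw [this]
      norm_num
    · have h2 := E5_one (F := F) (k := 512 - d) (by omega)
        (rotAll_sound h1 (k := 512 - d) (by omega))
      rw [Nat.sub_sub_self hd] at h2
      exact h2
  have hcast : ((Int.ofNat (ent F (dist1024 k)) : ℤ) : ℝ) = ((ent F (dist1024 k) : ℕ) : ℝ) := by
    simp
  rw [hcast]
  have hk : k % 1024 + 1024 * (k / 1024) = k := Nat.mod_add_div k 1024
  have hm : k % 1024 < 1024 := Nat.mod_lt _ (by norm_num)
  unfold dist1024
  have hmod : Nat.mod k 1024 = k % 1024 := rfl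
  rw [hmod]
  generalize k / 1024 = m at hk
  generalize k % 1024 = r at hk hm ⊢
  rcases Nat.le_total (r) 512 with h2 | h2
  · have hb : Nat.ble (r) 512 = true := Nat.ble_eq.mpr h2
    rw [hb, cond_true]
    have h3 := hall (r) h2
    have h4 : (k : ℝ) = ((r : ℕ) : ℝ) + ((m : ℤ) : ℝ) * 1024 := by
      have : ((r + 1024 * m : ℕ) : ℝ) = (k : ℝ) := by rw [hk]
      rw [← this]
      push_cast
      ring
    rw [h4, GF_add]
    exact h3
  · rcases Nat.eq_or_lt_of_le h2 with h5 | h5
    · have hb : Nat.ble (r) 512 = true := Nat.ble_eq.mpr h5.symm.le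
      rw [hb, cond_true]
      have h3 := hall (r) h5.symm.le
      have h4 : (k : ℝ) = ((r : ℕ) : ℝ) + ((m : ℤ) : ℝ) * 1024 := by
        have : ((r + 1024 * m : ℕ) : ℝ) = (k : ℝ) := by rw [hk]
        rw [← this]
        push_cast
        ring
      rw [h4, GF_add]
      exact h3
    · have hb : Nat.ble (r) 512 = false := by
        rw [Bool.eq_false_iff]
        intro h
        have := Nat.le_of_ble_eq_true h
        omega
      rw [hb, cond_false]
      have h3 := hall (1024 - r) (by omega)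
      have hs : Nat.sub 1024 (r) = 1024 - r := rfl
      rw [hs]
      have h4 : (k : ℝ) = -((1024 - r : ℕ) : ℝ) +
          (((m + 1 : ℕ) : ℤ) : ℝ) * 1024 := by
        have : ((r + 1024 * m : ℕ) : ℝ) = (k : ℝ) := by rw [hk]
        rw [← this, Nat.cast_sub hm.le]
        push_cast
        ring
      rw [h4, GF_add, GF_neg]
      exact h3

end Hepta
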