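import Pool.Agent.H69.Hep.C9
import Pool.Agent.H69.Hep.E3

/-! # E6: check of the table `V` -/

set_option autoImplicit false

namespace Hepta

/-- `∑ v_j sin (7 (j + 1) k gu)` in the unit `10 ^ (-9) 2 ^ (-60)`, `i` is the first `j + 1`. -/
def sumV (k : Nat) : Nat → List ℤ → Int
  | _, [] => 0
  | i, a :: v => Int.add (Int.mul a (sin1024 (Nat.mul i k))) (sumV k (Nat.succ i) v)

/-- The sum of the `|v_j|`. -/
def absV : List ℤ → Nat
  | [] => 0
  | a :: v => Nat.add (Int.natAbs a) (absV v)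

/-- The check for `k`: the entry `e` satisfies `e / 2 ^ 30 ≤ V (k gu)`. -/
def chkV1 (v : List ℤ) (V k : Nat) : Bool :=
  ile (Int.mul (Int.subNatNat (ent V k) 134217728) (Int.ofNat (Nat.mul 1000000000 1073741824)))
    (Int.sub (sumV k 1 v) (Int.ofNat (Nat.mul 268435456 (absV v))))

def chkVn (v : List ℤ) (V : Nat) : Nat → Bool
  | 0 => true
  | k + 1 => chkV1 v V k && chkVn v V k

def chkV (v : List ℤ) (V : Nat) : Bool := chkVn v V 1024

private theorem E6_ile {a b : ℤ} (h : ile a b = true) : a ≤ b := by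
  unfold ile at h
  have h1 : Int.sub b a = b - a := rfl
  rw [h1] at h
  cases h2 : b - a with
  | ofNat n =>
    have : 0 ≤ b - a := by rw [h2]; exact Int.natCast_nonneg n
    linarith
  | negSucc n =>
    rw [h2] at h
    simp at h

private theorem E6_chkVn {v : List ℤ} {V : ℕ} : ∀ {n : ℕ}, chkVn v V n = true → ∀ k < n,
    chkV1 v V k = true := by
  intro n
  induction n with
  | zero =>
    intro _ k hk
    exact absurd hk (Nat.not_lt_zero k)
  | succ n ih =>
    intro h k hk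
    unfold chkVn at h
    rw [Bool.and_eq_true] at h
    rcases Nat.lt_succ_iff_lt_or_eq.1 hk with h1 | h1
    · exact ih h.2 k h1
    · rw [h1]
      exact h.1

private theorem E6_sum (k : ℕ) (v : List ℤ) : ∀ i : ℕ,
    |((sumV k i v : ℤ) : ℝ) - 2 ^ 60 * ∑ j : Fin v.length, (v.get j : ℝ) *
      Real.sin (7 * ((((i + (j : ℕ)) * k : ℕ)) : ℝ) * gu)| ≤ 2 ^ 28 * (absV v : ℝ) := by
  induction v with
  | nil =>
    intro i
    simp [sumV, absV]
  | cons a v ih =>
    intro i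
    have h1 : sumV k i (a :: v) = a * sin1024 (i * k) + sumV k (i + 1) v := rfl
    have h2 : absV (a :: v) = a.natAbs + absV v := rfl
    have h3 : ∑ j : Fin (a :: v).length, ((a :: v).get j : ℝ) *
        Real.sin (7 * ((((i + (j : ℕ)) * k : ℕ)) : ℝ) * gu) =
        (a : ℝ) * Real.sin (7 * (((i * k : ℕ)) : ℝ) * gu) +
        ∑ j : Fin v.length, (v.get j : ℝ) *
          Real.sin (7 * ((((i + 1 + (j : ℕ)) * k : ℕ)) : ℝ) * gu) := by
      have h4 := Fin.sum_univ_succ (n := v.length) (fun j : Fin (v.length + 1) =>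
        ((a :: v).get j : ℝ) * Real.sin (7 * ((((i + (j : ℕ)) * k : ℕ)) : ℝ) * gu))
      refine h4.trans ?_
      congr 1
      refine Finset.sum_congr rfl fun j _ => ?_
      have h5 : i + ((j.succ : Fin (v.length + 1)) : ℕ) = i + 1 + (j : ℕ) := by
        rw [Fin.val_succ]
        ring
      rw [h5]
      rfl
    rw [h1, h2, h3]
    have h6 := sin1024_err (i * k)
    have h7 := ih (i + 1)
    have h8 : |(a : ℝ)| = ((a.natAbs : ℕ) : ℝ) := by
      rw [Nat.cast_natAbs, Int.cast_abs]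
    have h9 : |(a : ℝ) * (((sin1024 (i * k) : ℤ) : ℝ) -
        2 ^ 60 * Real.sin (7 * (((i * k : ℕ)) : ℝ) * gu))| ≤ ((a.natAbs : ℕ) : ℝ) * 2 ^ 28 := by
      rw [abs_mul, h8]
      exact mul_le_mul_of_nonneg_left h6 (Nat.cast_nonneg _)
    generalize hN : ((a.natAbs : ℕ) : ℝ) = N at h9
    have hN2 : (((a.natAbs + absV v : ℕ)) : ℝ) = N + absV v := by
      rw [Nat.cast_add, hN]
    rw [hN2]
    push_cast at h9 ⊢
    have h10 : (a : ℝ) * ((sin1024 (i * k) : ℤ) : ℝ) + ((sumV k (i + 1) v : ℤ) : ℝ) -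
        2 ^ 60 * ((a : ℝ) * Real.sin (7 * ((i : ℝ) * k) * gu) +
          ∑ j : Fin v.length, (v.get j : ℝ) * Real.sin (7 * ((((i : ℝ) + 1 + ((j : ℕ) : ℝ)) * k)) * gu)) =
        (a : ℝ) * (((sin1024 (i * k) : ℤ) : ℝ) - 2 ^ 60 * Real.sin (7 * ((i : ℝ) * k) * gu)) +
        (((sumV k (i + 1) v : ℤ) : ℝ) - 2 ^ 60 * ∑ j : Fin v.length, (v.get j : ℝ) *
          Real.sin (7 * ((((i : ℝ) + 1 + ((j : ℕ) : ℝ)) * k)) * gu)) := by ring
    rw [h10]
    push_cast at h7
    refine (abs_add_le _ _).trans ?_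
    linarith

private theorem E6_per (v : List ℤ) (x : ℝ) (q : ℕ) : Vl v (x + q * ww) = Vl v x := by
  induction q with
  | zero => simp
  | succ q ih =>
    have h1 : x + ((q + 1 : ℕ) : ℝ) * ww = x + q * ww + ww := by
      push_cast
      ring
    rw [h1, Vl_per, ih]

theorem chkV_sound {v : List ℤ} {V : ℕ} (h : chkV v V = true) (k : ℕ) :
    ((Int.subNatNat (ent V (k % 1024)) 134217728 : ℤ) : ℝ) ≤ GV (Vl v) k := by
  set k' := k % 1024 with hk'
  have hlt : k' < 1024 := Nat.mod_lt _ (by norm_num)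
  have h1 := E6_chkVn h k' hlt
  unfold chkV1 at h1
  have h2 := E6_ile h1
  have h4 := E6_sum k' v 1
  have h5 : GV (Vl v) k = GV (Vl v) k' := by
    unfold GV
    have h6 : (k : ℝ) * gu = (k' : ℝ) * gu + ((k / 1024 : ℕ) : ℝ) * ww := by
      have h7 : (k : ℝ) = (k' : ℝ) + 1024 * ((k / 1024 : ℕ) : ℝ) := by
        have h8 : k' + 1024 * (k / 1024) = k := Nat.mod_add_div k 1024
        exact_mod_cast h8.symm
      rw [ww_eq, h7]
      ring
    rw [h6, E6_per]
  rw [h5]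
  have h6 : GV (Vl v) k' = 2 ^ 30 / 10 ^ 9 * ∑ j : Fin v.length, (v.get j : ℝ) *
      Real.sin (7 * ((((1 + (j : ℕ)) * k' : ℕ)) : ℝ) * gu) := by
    unfold GV Vl
    rw [Finset.mul_sum, Finset.mul_sum]
    refine Finset.sum_congr rfl fun j _ => ?_
    have h7 : 7 * (((j : ℕ) : ℝ) + 1) * ((k' : ℝ) * gu) =
        7 * ((((1 + (j : ℕ)) * k' : ℕ)) : ℝ) * gu := by
      push_cast
      ring
    rw [h7]
    ring
  rw [h6]
  set S := ∑ j : Fin v.length, (v.get j : ℝ) *
      Real.sin (7 * ((((1 + (j : ℕ)) * k' : ℕ)) : ℝ) * gu)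
  have h7 : (Int.subNatNat (ent V k') 134217728) * ((1000000000 * 1073741824 : ℕ) : ℤ) ≤
      sumV k' 1 v - ((268435456 * absV v : ℕ) : ℤ) := h2
  have h8 : ((Int.subNatNat (ent V k') 134217728 : ℤ) : ℝ) * (1000000000 * 1073741824) ≤
      ((sumV k' 1 v : ℤ) : ℝ) - 268435456 * (absV v : ℝ) := by
    exact_mod_cast h7
  have h9 := (abs_le.1 h4).2
  generalize ((Int.subNatNat (ent V k') 134217728 : ℤ) : ℝ) = E at h8 ⊢
  norm_num at h9 ⊢
  linarith

end Hepta
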