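import Pool.Agent.H69.Hep.C9
import Pool.Agent.H69.Hep.E3

/-! # E7: check of the table `K` -/

set_option autoImplicit false

namespace Hepta

/-- `- ∑ 49 j ^ 2 v_j sin (7 j k gu)` in the unit `10 ^ (-9) 2 ^ (-60)`, `i` is the first `j`. -/
def sumK (k : Nat) : Nat → List ℤ → Int
  | _, [] => 0
  | i, a :: v => Int.sub (sumK k (Nat.succ i) v)
      (Int.mul (Int.mul a (Int.ofNat (Nat.mul 49 (Nat.mul i i)))) (sin1024 (Nat.mul i k)))

/-- `∑ (7 j) ^ p |v_j|` in the unit `10 ^ (-9)`. -/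
def absK (p : Nat) : Nat → List ℤ → Nat
  | _, [] => 0
  | i, a :: v => Nat.add (Nat.mul (Nat.pow (Nat.mul 7 i) p) (Int.natAbs a))
      (absK p (Nat.succ i) v)

/-- The check of the entry `e` at a point `k`: with `g = gu`, `2 ^ 30 g ^ 2 (V'' (k g) + C 8 g ^ 2) ≤ e`
where `C = absK 4`; the check uses `g ≤ 876567 / 10 ^ 9`. -/
def chkK1 (v : List ℤ) (e k : Nat) : Bool :=
  ile (Int.mul (Int.add (Int.add (sumK k 1 v) (Int.ofNat (Nat.mul 268435456 (absK 2 1 v))))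
      (Int.ofNat (Nat.succ (Nat.div (Nat.mul (Nat.mul (absK 4 1 v) 1152921504606846976)
        (Nat.mul 8 (Nat.mul 876567 876567))) (Nat.pow 10 18)))))
      (Int.ofNat (Nat.mul 1073741824 (Nat.mul 876567 876567))))
    (Int.ofNat (Nat.mul e (Nat.mul 1152921504606846976 (Nat.pow 10 27))))

/-- The block `i` consists of the interval `[8 i, 8 i + 8]`. -/
def chkKb (v : List ℤ) (K : Nat) : Nat → Bool
  | 0 => true
  | i + 1 => chkK1 v (ent16 K i) (Nat.mul 8 i) &&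
      chkK1 v (ent16 K i) (Nat.add (Nat.mul 8 i) 8) && chkKb v K i

/-- The levels `q = 1, …, 7`: the entry `(q, i)` is at least the entries `(q - 1, i)` and
`(q - 1, i + 2 ^ (q - 1))`. -/
def chkKl (K q : Nat) : Nat → Bool
  | 0 => true
  | i + 1 => Nat.ble (ent16 K (Nat.add (Nat.mul 128 (Nat.pred q)) i))
        (ent16 K (Nat.add (Nat.mul 128 q) i)) &&
      Nat.ble (ent16 K (Nat.add (Nat.mul 128 (Nat.pred q))
        (Nat.mod (Nat.add i (Nat.pow 2 (Nat.pred q))) 128)))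
        (ent16 K (Nat.add (Nat.mul 128 q) i)) && chkKl K q i

def chkK (v : List ℤ) (K : Nat) : Bool :=
  chkKb v K 128 && chkKl K 1 128 && chkKl K 2 128 && chkKl K 3 128 && chkKl K 4 128 &&
    chkKl K 5 128 && chkKl K 6 128 && chkKl K 7 128

/-- Sum over a list with an index. -/
private noncomputable def E7_ls (f : ℕ → ℤ → ℝ) : ℕ → List ℤ → ℝ
  | _, [] => 0
  | i, a :: v => f i a + E7_ls f (i + 1) v

private theorem E7_ls_eq (f : ℕ → ℤ → ℝ) (v : List ℤ) (i : ℕ) :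
    E7_ls f i v = ∑ j : Fin v.length, f (i + j) (v.get j) := by
  induction v generalizing i with
  | nil => simp [E7_ls]
  | cons a v ih =>
    have h1 := Fin.sum_univ_succ (n := v.length) (fun j => f (i + j) ((a :: v).get j))
    refine Eq.trans ?_ h1.symm
    show f i a + E7_ls f (i + 1) v = _
    rw [ih]
    congr 1
    apply Finset.sum_congr rfl
    intro j _
    have e : i + 1 + (j : ℕ) = i + ((j.succ : Fin (v.length + 1)) : ℕ) := by
      rw [Fin.val_succ]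
      ring
    rw [e]
    rfl

private theorem E7_ls_deriv {F F' : ℕ → ℤ → ℝ → ℝ} (h : ∀ j a t, HasDerivAt (F j a) (F' j a t) t)
    (v : List ℤ) (i : ℕ) (t : ℝ) :
    HasDerivAt (fun t => E7_ls (fun j a => F j a t) i v) (E7_ls (fun j a => F' j a t) i v) t := by
  induction v generalizing i with
  | nil => exact hasDerivAt_const t (0 : ℝ)
  | cons a v ih => exact (h i a t).add (ih (i + 1))

private noncomputable def E7_F0 (j : ℕ) (a : ℤ) (t : ℝ) : ℝ :=
  (a : ℝ) / 10 ^ 9 * Real.sin (7 * j * (t * gu))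
private noncomputable def E7_F1 (j : ℕ) (a : ℤ) (t : ℝ) : ℝ :=
  (a : ℝ) / 10 ^ 9 * (7 * j * gu) * Real.cos (7 * j * (t * gu))
private noncomputable def E7_F2 (j : ℕ) (a : ℤ) (t : ℝ) : ℝ :=
  -((a : ℝ) / 10 ^ 9 * (7 * j * gu) ^ 2 * Real.sin (7 * j * (t * gu)))
private noncomputable def E7_F3 (j : ℕ) (a : ℤ) (t : ℝ) : ℝ :=
  -((a : ℝ) / 10 ^ 9 * (7 * j * gu) ^ 3 * Real.cos (7 * j * (t * gu)))
private noncomputable def E7_F4 (j : ℕ) (a : ℤ) (t : ℝ) : ℝ :=
  (a : ℝ) / 10 ^ 9 * (7 * j * gu) ^ 4 * Real.sin (7 * j * (t * gu))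

private theorem E7_lin (j : ℕ) (t : ℝ) :
    HasDerivAt (fun t : ℝ => 7 * (j : ℝ) * (t * gu)) (7 * j * gu) t := by
  have h := ((hasDerivAt_id t).mul_const gu).const_mul (7 * (j : ℝ))
  simpa using h

private theorem E7_d0 (j : ℕ) (a : ℤ) (t : ℝ) : HasDerivAt (E7_F0 j a) (E7_F1 j a t) t := by
  have h := ((E7_lin j t).sin).const_mul ((a : ℝ) / 10 ^ 9)
  refine h.congr_deriv ?_
  unfold E7_F1
  ring

private theorem E7_d1 (j : ℕ) (a : ℤ) (t : ℝ) : HasDerivAt (E7_F1 j a) (E7_F2 j a t) t := by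
  have h := ((E7_lin j t).cos).const_mul ((a : ℝ) / 10 ^ 9 * (7 * j * gu))
  refine h.congr_deriv ?_
  unfold E7_F2
  ring

private theorem E7_d2 (j : ℕ) (a : ℤ) (t : ℝ) : HasDerivAt (E7_F2 j a) (E7_F3 j a t) t := by
  have h := (((E7_lin j t).sin).const_mul ((a : ℝ) / 10 ^ 9 * (7 * j * gu) ^ 2)).neg
  refine h.congr_deriv ?_
  unfold E7_F3
  ring

private theorem E7_d3 (j : ℕ) (a : ℤ) (t : ℝ) : HasDerivAt (E7_F3 j a) (E7_F4 j a t) t := by
  have h := (((E7_lin j t).cos).const_mul ((a : ℝ) / 10 ^ 9 * (7 * j * gu) ^ 3)).neg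
  refine h.congr_deriv ?_
  unfold E7_F4
  ring

/-- The second derivative. -/
private noncomputable def E7_G (v : List ℤ) (t : ℝ) : ℝ := E7_ls (fun j a => E7_F2 j a t) 1 v

private theorem E7_GV (v : List ℤ) (t : ℝ) :
    GV (Vl v) t = 2 ^ 30 * E7_ls (fun j a => E7_F0 j a t) 1 v := by
  unfold GV Vl
  rw [E7_ls_eq]
  congr 1
  apply Finset.sum_congr rfl
  intro j _
  unfold E7_F0
  push_cast
  rw [add_comm (1 : ℝ) (j : ℝ)]

private theorem E7_abs4 (v : List ℤ) (i : ℕ) (t : ℝ) :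
    |E7_ls (fun j a => E7_F4 j a t) i v| ≤ gu ^ 4 / 10 ^ 9 * (absK 4 i v : ℝ) := by
  induction v generalizing i with
  | nil => simp [E7_ls, absK]
  | cons a v ih =>
    have hg := gu_pos
    have e1 : absK 4 i (a :: v) = (7 * i) ^ 4 * a.natAbs + absK 4 (i + 1) v := rfl
    have e2 : E7_ls (fun j a => E7_F4 j a t) i (a :: v) =
        E7_F4 i a t + E7_ls (fun j a => E7_F4 j a t) (i + 1) v := rfl
    rw [e1, e2]
    have h1 : |E7_F4 i a t| ≤ gu ^ 4 / 10 ^ 9 * ((7 * i) ^ 4 * |(a : ℝ)|) := by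
      unfold E7_F4
      rw [abs_mul, abs_mul, abs_div]
      have h2 := Real.abs_sin_le_one (7 * i * (t * gu))
      have h3 : |(10 : ℝ) ^ 9| = 10 ^ 9 := abs_of_pos (by positivity)
      have h4 : |(7 * (i : ℝ) * gu) ^ 4| = (7 * (i : ℝ) * gu) ^ 4 := abs_of_nonneg (by positivity)
      rw [h3, h4]
      calc |(a : ℝ)| / 10 ^ 9 * (7 * (i : ℝ) * gu) ^ 4 * |Real.sin (7 * i * (t * gu))|
          ≤ |(a : ℝ)| / 10 ^ 9 * (7 * (i : ℝ) * gu) ^ 4 * 1 :=
            mul_le_mul_of_nonneg_left h2 (by positivity)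
        _ = gu ^ 4 / 10 ^ 9 * ((7 * i) ^ 4 * |(a : ℝ)|) := by ring
    have h5 := ih (i + 1)
    have h6 : ((a.natAbs : ℕ) : ℝ) = |(a : ℝ)| := by
      rw [Nat.cast_natAbs]
      push_cast
      rfl
    push_cast
    rw [h6]
    calc |E7_F4 i a t + E7_ls (fun j a => E7_F4 j a t) (i + 1) v|
        ≤ |E7_F4 i a t| + |E7_ls (fun j a => E7_F4 j a t) (i + 1) v| := abs_add_le _ _
      _ ≤ gu ^ 4 / 10 ^ 9 * ((7 * i) ^ 4 * |(a : ℝ)|) +
          gu ^ 4 / 10 ^ 9 * (absK 4 (i + 1) v : ℝ) := add_le_add h1 h5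
      _ = _ := by ring

private theorem E7_sum (k : ℕ) (v : List ℤ) (i : ℕ) :
    |((sumK k i v : ℤ) : ℝ) * gu ^ 2 - 2 ^ 60 * 10 ^ 9 * E7_ls (fun j a => E7_F2 j a k) i v| ≤
      2 ^ 28 * (absK 2 i v : ℝ) * gu ^ 2 := by
  induction v generalizing i with
  | nil => simp [E7_ls, absK, sumK]
  | cons a v ih =>
    have hg := gu_pos
    have e1 : absK 2 i (a :: v) = (7 * i) ^ 2 * a.natAbs + absK 2 (i + 1) v := rfl
    have e2 : E7_ls (fun j a => E7_F2 j a k) i (a :: v) =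
        E7_F2 i a k + E7_ls (fun j a => E7_F2 j a k) (i + 1) v := rfl
    have e3 : sumK k i (a :: v) =
        sumK k (i + 1) v - (a * ((49 * (i * i) : ℕ) : ℤ)) * sin1024 (i * k) := rfl
    rw [e1, e2, e3]
    have h5 := ih (i + 1)
    have h6 : ((a.natAbs : ℕ) : ℝ) = |(a : ℝ)| := by
      rw [Nat.cast_natAbs]
      push_cast
      rfl
    have h7 := sin1024_err (i * k)
    push_cast at h7 ⊢
    rw [h6]
    have e4 : (((sumK k (i + 1) v : ℤ) : ℝ) -
        ((a : ℝ) * (49 * ((i : ℝ) * i))) * ((sin1024 (i * k) : ℤ) : ℝ)) * gu ^ 2 -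
        2 ^ 60 * 10 ^ 9 * (E7_F2 i a k + E7_ls (fun j a => E7_F2 j a k) (i + 1) v) =
        (((sumK k (i + 1) v : ℤ) : ℝ) * gu ^ 2 -
          2 ^ 60 * 10 ^ 9 * E7_ls (fun j a => E7_F2 j a k) (i + 1) v) -
        (a : ℝ) * (49 * ((i : ℝ) * i)) * gu ^ 2 * (((sin1024 (i * k) : ℤ) : ℝ) -
          2 ^ 60 * Real.sin (7 * ((i : ℝ) * k) * gu)) := by
      unfold E7_F2
      have e5 : 7 * (i : ℝ) * ((k : ℝ) * gu) = 7 * ((i : ℝ) * k) * gu := by ring
      rw [e5]
      ring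
    rw [e4]
    calc |(((sumK k (i + 1) v : ℤ) : ℝ) * gu ^ 2 -
          2 ^ 60 * 10 ^ 9 * E7_ls (fun j a => E7_F2 j a k) (i + 1) v) -
        (a : ℝ) * (49 * ((i : ℝ) * i)) * gu ^ 2 * (((sin1024 (i * k) : ℤ) : ℝ) -
          2 ^ 60 * Real.sin (7 * ((i : ℝ) * k) * gu))|
        ≤ |((sumK k (i + 1) v : ℤ) : ℝ) * gu ^ 2 -
          2 ^ 60 * 10 ^ 9 * E7_ls (fun j a => E7_F2 j a k) (i + 1) v| +
        |(a : ℝ) * (49 * ((i : ℝ) * i)) * gu ^ 2 * (((sin1024 (i * k) : ℤ) : ℝ) -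
          2 ^ 60 * Real.sin (7 * ((i : ℝ) * k) * gu))| := abs_sub _ _
      _ = |((sumK k (i + 1) v : ℤ) : ℝ) * gu ^ 2 -
          2 ^ 60 * 10 ^ 9 * E7_ls (fun j a => E7_F2 j a k) (i + 1) v| +
        |(a : ℝ)| * (49 * ((i : ℝ) * i)) * gu ^ 2 * |((sin1024 (i * k) : ℤ) : ℝ) -
          2 ^ 60 * Real.sin (7 * ((i : ℝ) * k) * gu)| := by
          rw [abs_mul, abs_mul, abs_mul, abs_of_nonneg (show (0 : ℝ) ≤ 49 * ((i : ℝ) * i) by
            positivity), abs_of_nonneg (show (0 : ℝ) ≤ gu ^ 2 by positivity)]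
      _ ≤ 2 ^ 28 * (absK 2 (i + 1) v : ℝ) * gu ^ 2 +
        |(a : ℝ)| * (49 * ((i : ℝ) * i)) * gu ^ 2 * 2 ^ 28 :=
          add_le_add h5 (mul_le_mul_of_nonneg_left h7 (by positivity))
      _ = _ := by ring

private theorem E7_ile {a b : ℤ} (h : ile a b = true) : a ≤ b := by
  unfold ile at h
  have e : Int.sub b a = b - a := rfl
  rw [e] at h
  rcases hx : b - a with n | n
  · have : 0 ≤ b - a := by
      rw [hx]
      exact Int.natCast_nonneg n
    linarith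
  · rw [hx] at h
    exact absurd h (by simp)

private theorem E7_gu_le : gu ≤ 876567 / 10 ^ 9 := by
  unfold gu
  have h := Real.pi_lt_d6
  rw [div_le_div_iff₀ (by norm_num) (by norm_num)]
  nlinarith

private theorem E7_gu_sq : gu ^ 2 ≤ 876567 ^ 2 / 10 ^ 18 := by
  have h := E7_gu_le
  have h0 := gu_pos
  have h1 : gu ^ 2 ≤ (876567 / 10 ^ 9) ^ 2 := pow_le_pow_left₀ h0.le h 2
  calc gu ^ 2 ≤ (876567 / 10 ^ 9) ^ 2 := h1
    _ = 876567 ^ 2 / 10 ^ 18 := by norm_num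

/-- The check at a point. -/
private theorem E7_point {v : List ℤ} {e k : ℕ} (h : chkK1 v e k = true) :
    2 ^ 30 * (E7_G v k + 8 * (gu ^ 4 / 10 ^ 9 * (absK 4 1 v : ℝ))) ≤ e := by
  have hg := gu_pos
  have hg2 := E7_gu_sq
  have h1 := E7_ile h
  set c2 : ℕ := absK 2 1 v with hc2
  set c4 : ℕ := absK 4 1 v with hc4
  set q : ℕ := (c4 * 1152921504606846976 * (8 * (876567 * 876567))) / 10 ^ 18 with hq
  have h2 : ((sumK k 1 v + ((268435456 * c2 : ℕ) : ℤ)) + ((q + 1 : ℕ) : ℤ)) *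
      ((1073741824 * (876567 * 876567) : ℕ) : ℤ) ≤
      ((e * (1152921504606846976 * 10 ^ 27) : ℕ) : ℤ) := h1
  have h3 : (((sumK k 1 v : ℤ) : ℝ) + 268435456 * c2 + (q + 1)) *
      (1073741824 * (876567 * 876567)) ≤ e * (1152921504606846976 * 10 ^ 27) := by
    exact_mod_cast h2
  have h4 : (c4 : ℝ) * 1152921504606846976 * (8 * (876567 * 876567)) / 10 ^ 18 ≤ q + 1 := by
    have h5 := Nat.lt_succ_floor
      ((c4 : ℝ) * 1152921504606846976 * (8 * (876567 * 876567)) / 10 ^ 18)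
    have h6 : (c4 * 1152921504606846976 * (8 * (876567 * 876567))) < 10 ^ 18 * (q + 1) := by
      rw [hq]
      exact Nat.lt_mul_div_succ _ (by norm_num)
    have h7 : (c4 : ℝ) * 1152921504606846976 * (8 * (876567 * 876567)) < 10 ^ 18 * (q + 1) := by
      exact_mod_cast h6
    rw [div_le_iff₀ (by norm_num)]
    linarith
  have h8 := (abs_le.1 (E7_sum k v 1)).1
  rw [← hc2] at h8
  change -(2 ^ 28 * (c2 : ℝ) * gu ^ 2) ≤ ((sumK k 1 v : ℤ) : ℝ) * gu ^ 2 -
    2 ^ 60 * 10 ^ 9 * E7_G v k at h8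
  set X : ℝ := ((sumK k 1 v : ℤ) : ℝ) + 268435456 * c2 + (q + 1) with hX
  -- `2 ^ 60 10 ^ 9 (G + 8 C) ≤ gu ^ 2 X`
  have h9 : 2 ^ 60 * 10 ^ 9 * (E7_G v k + 8 * (gu ^ 4 / 10 ^ 9 * (c4 : ℝ))) ≤ gu ^ 2 * X := by
    have h10 : 2 ^ 60 * 10 ^ 9 * (8 * (gu ^ 4 / 10 ^ 9 * (c4 : ℝ))) ≤ gu ^ 2 * (q + 1) := by
      calc 2 ^ 60 * 10 ^ 9 * (8 * (gu ^ 4 / 10 ^ 9 * (c4 : ℝ)))
          = gu ^ 2 * (2 ^ 60 * 8 * (c4 : ℝ) * gu ^ 2) := by ring
        _ ≤ gu ^ 2 * (2 ^ 60 * 8 * (c4 : ℝ) * (876567 ^ 2 / 10 ^ 18)) := by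
            apply mul_le_mul_of_nonneg_left _ (by positivity)
            apply mul_le_mul_of_nonneg_left hg2 (by positivity)
        _ = gu ^ 2 * ((c4 : ℝ) * 1152921504606846976 * (8 * (876567 * 876567)) / 10 ^ 18) := by
            ring
        _ ≤ gu ^ 2 * (q + 1) := mul_le_mul_of_nonneg_left h4 (by positivity)
    have h11 : 2 ^ 60 * 10 ^ 9 * E7_G v k ≤
        gu ^ 2 * (((sumK k 1 v : ℤ) : ℝ) + 268435456 * c2) := by
      have : gu ^ 2 * (((sumK k 1 v : ℤ) : ℝ) + 268435456 * c2) =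
        ((sumK k 1 v : ℤ) : ℝ) * gu ^ 2 + 2 ^ 28 * (c2 : ℝ) * gu ^ 2 := by ring
      rw [this]
      linarith
    calc 2 ^ 60 * 10 ^ 9 * (E7_G v k + 8 * (gu ^ 4 / 10 ^ 9 * (c4 : ℝ)))
        = 2 ^ 60 * 10 ^ 9 * E7_G v k + 2 ^ 60 * 10 ^ 9 * (8 * (gu ^ 4 / 10 ^ 9 * (c4 : ℝ))) := by
          ring
      _ ≤ gu ^ 2 * (((sumK k 1 v : ℤ) : ℝ) + 268435456 * c2) + gu ^ 2 * (q + 1) :=
          add_le_add h11 h10
      _ = gu ^ 2 * X := by rw [hX]; ring
  have he : (0 : ℝ) ≤ e := Nat.cast_nonneg e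
  rcases le_or_gt X 0 with hX0 | hX0
  · have : gu ^ 2 * X ≤ 0 := mul_nonpos_of_nonneg_of_nonpos (by positivity) hX0
    nlinarith
  · have h12 : gu ^ 2 * X ≤ 876567 ^ 2 / 10 ^ 18 * X := mul_le_mul_of_nonneg_right hg2 hX0.le
    have h13 : 876567 ^ 2 / 10 ^ 18 * X * 2 ^ 30 ≤ e * (2 ^ 60 * 10 ^ 9) := by
      have : 876567 ^ 2 / 10 ^ 18 * X * 2 ^ 30 = X * (1073741824 * (876567 * 876567)) / 10 ^ 18 := by
        ring
      rw [this, div_le_iff₀ (by norm_num)]
      calc X * (1073741824 * (876567 * 876567)) ≤ e * (1152921504606846976 * 10 ^ 27) := h3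
        _ = e * (2 ^ 60 * 10 ^ 9) * 10 ^ 18 := by ring
    nlinarith

/-- The bound on a block. -/
private theorem E7_block {v : List ℤ} {e i : ℕ} (h0 : chkK1 v e (8 * i) = true)
    (h1 : chkK1 v e (8 * i + 8) = true) {t : ℝ} (ht : t ∈ Set.Icc (8 * (i : ℝ)) (8 * i + 8)) :
    2 ^ 30 * E7_G v t ≤ e := by
  set C : ℝ := gu ^ 4 / 10 ^ 9 * (absK 4 1 v : ℝ) with hC
  have hC0 : 0 ≤ C := by
    have := gu_pos
    positivity
  have p0 := E7_point h0
  have p1 := E7_point h1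
  rw [← hC] at p0 p1
  push_cast at p0 p1
  have hconc : ConcaveOn ℝ (Set.Icc (8 * (i : ℝ)) (8 * i + 8))
      fun t => (-E7_G v t) - C / 2 * t ^ 2 := by
    apply concaveOn_of_hasDerivWithinAt2_nonpos (convex_Icc _ _)
      (f' := fun t => -(E7_ls (fun j a => E7_F3 j a t) 1 v) - C * t)
      (f'' := fun t => -(E7_ls (fun j a => E7_F4 j a t) 1 v) - C)
    · intro x _
      have h2 := E7_ls_deriv E7_d2 v 1 x
      have h3 : ContinuousAt (fun t => (-E7_G v t) - C / 2 * t ^ 2) x :=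
        h2.continuousAt.neg.sub (by fun_prop)
      exact h3.continuousWithinAt
    · intro x _
      have h2 := E7_ls_deriv E7_d2 v 1 x
      have h3 := ((hasDerivAt_pow 2 x).const_mul (C / 2))
      have h4 := h2.neg.sub h3
      apply HasDerivAt.hasDerivWithinAt
      refine h4.congr_deriv ?_
      push_cast
      ring
    · intro x _
      have h2 := E7_ls_deriv E7_d3 v 1 x
      have h3 := (hasDerivAt_id x).const_mul C
      have h4 := h2.neg.sub h3
      apply HasDerivAt.hasDerivWithinAt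
      refine h4.congr_deriv ?_
      ring
    · intro x _
      have h2 := (abs_le.1 (E7_abs4 v 1 x)).1
      rw [← hC] at h2
      linarith
  have h2 := chord_le hC0 hconc (le_refl (-E7_G v (8 * i))) (le_refl (-E7_G v (8 * i + 8))) 0 ht
  have h3 : C * (8 * (i : ℝ) + 8 - 8 * i) ^ 2 / 8 = 8 * C := by ring
  rw [h3] at h2
  simp only [zero_mul, zero_add, sub_zero] at h2
  rcases min_choice (-E7_G v (8 * i)) (-E7_G v (8 * i + 8)) with h4 | h4
  · rw [h4] at h2
    linarith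
  · rw [h4] at h2
    linarith

private theorem E7_G_period (v : List ℤ) (q : ℕ) (t : ℝ) :
    E7_G v (t + q * 1024) = E7_G v t := by
  unfold E7_G
  congr 1
  funext j a
  unfold E7_F2
  congr 2
  have : 7 * (j : ℝ) * ((t + q * 1024) * gu) =
      7 * (j : ℝ) * (t * gu) + ((j * q : ℕ) : ℝ) * (2 * Real.pi) := by
    unfold gu
    push_cast
    ring
  rw [this, Real.sin_add_nat_mul_two_pi]

private theorem E7_chkKb {v : List ℤ} {K n : ℕ} (h : chkKb v K n = true) {i : ℕ} (hi : i < n) :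
    chkK1 v (ent16 K i) (8 * i) = true ∧ chkK1 v (ent16 K i) (8 * i + 8) = true := by
  induction n with
  | zero => omega
  | succ n ih =>
    have h' : (chkK1 v (ent16 K n) (8 * n) && chkK1 v (ent16 K n) (8 * n + 8) && chkKb v K n) =
        true := h
    simp only [Bool.and_eq_true] at h'
    rcases Nat.lt_succ_iff_lt_or_eq.1 hi with h1 | h1
    · exact ih h'.2 h1
    · rw [h1]
      exact h'.1

private theorem E7_chkKl {K q n : ℕ} (h : chkKl K (q + 1) n = true) {i : ℕ} (hi : i < n) :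
    ent16 K (128 * q + i) ≤ ent16 K (128 * (q + 1) + i) ∧
      ent16 K (128 * q + (i + 2 ^ q) % 128) ≤ ent16 K (128 * (q + 1) + i) := by
  induction n with
  | zero => omega
  | succ n ih =>
    have h' : (Nat.ble (ent16 K (128 * q + n)) (ent16 K (128 * (q + 1) + n)) &&
        Nat.ble (ent16 K (128 * q + (n + 2 ^ q) % 128)) (ent16 K (128 * (q + 1) + n)) &&
        chkKl K (q + 1) n) = true := h
    simp only [Bool.and_eq_true, Nat.ble_eq] at h'
    rcases Nat.lt_succ_iff_lt_or_eq.1 hi with h1 | h1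
    · exact ih h'.2 h1
    · rw [h1]
      exact h'.1

/-- The levels. -/
private theorem E7_level {K : ℕ} (h : ∀ q < 7, chkKl K (q + 1) 128 = true) {q : ℕ} (hq : q ≤ 7)
    {i j : ℕ} (hi : i < 128) (hj : j < 2 ^ q) :
    ent16 K ((i + j) % 128) ≤ ent16 K (128 * q + i) := by
  induction q generalizing i j with
  | zero =>
    have : j = 0 := by
      simpa using hj
    subst this
    rw [Nat.add_zero, Nat.mod_eq_of_lt hi]
    simp
  | succ q ih =>
    have h1 := E7_chkKl (h q (by omega)) hi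
    rcases lt_or_ge j (2 ^ q) with hj' | hj'
    · exact (ih (by omega) hi hj').trans h1.1
    · have h2 : (i + 2 ^ q) % 128 < 128 := Nat.mod_lt _ (by norm_num)
      have h3 : j - 2 ^ q < 2 ^ q := by
        rw [pow_succ] at hj
        omega
      have h4 := ih (by omega) h2 h3
      have h5 : ((i + 2 ^ q) % 128 + (j - 2 ^ q)) % 128 = (i + j) % 128 := by
        rw [Nat.mod_add_mod]
        congr 1
        omega
      rw [h5] at h4
      exact h4.trans h1.2

private theorem E7_kV {T : Tabs} (h : ∀ q < 7, chkKl T.K (q + 1) 128 = true) {a b i : ℕ}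
    (hi : a / 8 ≤ i) (hi' : i < (b + 7) / 8) : ent16 T.K (i % 128) ≤ kV T a b := by
  set A : ℕ := a / 8 with hA
  set B : ℕ := (b + 7) / 8 with hB
  have e : kV T a b = cond (Nat.ble 128 (B - A)) (ent16 T.K 896)
      (max (ent16 T.K (128 * Nat.log2 (B - A) + A % 128))
        (ent16 T.K (128 * Nat.log2 (B - A) + (B - 2 ^ Nat.log2 (B - A)) % 128))) := rfl
  rw [e]
  rcases lt_or_ge (B - A) 128 with hn | hn
  · have hb : Nat.ble 128 (B - A) = false := by
      rw [Bool.eq_false_iff]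
      intro hc
      have := Nat.le_of_ble_eq_true hc
      omega
    rw [hb]
    show ent16 T.K (i % 128) ≤ max _ _
    set n : ℕ := B - A with hn'
    have hn0 : n ≠ 0 := by omega
    have h1 : 2 ^ Nat.log2 n ≤ n := Nat.log2_self_le hn0
    have h2 : n < 2 ^ (Nat.log2 n + 1) := Nat.lt_log2_self
    set q : ℕ := Nat.log2 n with hq
    have hq7 : q ≤ 7 := by
      by_contra hc
      have h3 : 2 ^ 8 ≤ 2 ^ q := Nat.pow_le_pow_right (by norm_num) (by omega)
      omega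
    rw [pow_succ] at h2
    rcases lt_or_ge i (A + 2 ^ q) with h3 | h3
    · apply le_max_of_le_left
      have h4 := E7_level h hq7 (Nat.mod_lt A (show 0 < 128 by norm_num))
        (show i - A < 2 ^ q by omega)
      have h5 : (A % 128 + (i - A)) % 128 = i % 128 := by
        rw [Nat.mod_add_mod]
        congr 1
        omega
      rw [h5] at h4
      exact h4
    · apply le_max_of_le_right
      have h4 := E7_level h hq7 (Nat.mod_lt (B - 2 ^ q) (show 0 < 128 by norm_num))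
        (show i - (B - 2 ^ q) < 2 ^ q by omega)
      have h5 : ((B - 2 ^ q) % 128 + (i - (B - 2 ^ q))) % 128 = i % 128 := by
        rw [Nat.mod_add_mod]
        congr 1
        omega
      rw [h5] at h4
      exact h4
  · have hb : Nat.ble 128 (B - A) = true := Nat.ble_eq_true_of_le hn
    rw [hb]
    show ent16 T.K (i % 128) ≤ ent16 T.K 896
    have h4 := E7_level h (le_refl 7) (show 0 < 128 by norm_num)
      (show i % 128 < 2 ^ 7 from Nat.mod_lt _ (by norm_num))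
    simpa using h4

theorem chkK_sound {v : List ℤ} {T : Tabs} (h : chkK v T.K = true) {a b : ℕ} (hab : a ≤ b) :
    ConcaveOn ℝ (Set.Icc (a : ℝ) b) fun t => GV (Vl v) t - (kV T a b : ℝ) / 2 * t ^ 2 := by
  unfold chkK at h
  simp only [Bool.and_eq_true] at h
  obtain ⟨⟨⟨⟨⟨⟨⟨hb, h1⟩, h2⟩, h3⟩, h4⟩, h5⟩, h6⟩, h7⟩ := h
  have hl : ∀ q < 7, chkKl T.K (q + 1) 128 = true := by
    intro q hq
    interval_cases q
    exacts [h1, h2, h3, h4, h5, h6, h7]
  have e : (fun t => GV (Vl v) t - (kV T a b : ℝ) / 2 * t ^ 2) =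
      fun t => 2 ^ 30 * E7_ls (fun j a => E7_F0 j a t) 1 v - (kV T a b : ℝ) / 2 * t ^ 2 := by
    funext t
    rw [E7_GV]
  rw [e]
  apply concaveOn_of_hasDerivWithinAt2_nonpos (convex_Icc _ _)
    (f' := fun t => 2 ^ 30 * E7_ls (fun j a => E7_F1 j a t) 1 v - (kV T a b : ℝ) * t)
    (f'' := fun t => 2 ^ 30 * E7_ls (fun j a => E7_F2 j a t) 1 v - (kV T a b : ℝ))
  · intro x _
    have h2 := (E7_ls_deriv E7_d0 v 1 x).const_mul (2 ^ 30)
    have h3 : ContinuousAt (fun t => 2 ^ 30 * E7_ls (fun j a => E7_F0 j a t) 1 v -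
        (kV T a b : ℝ) / 2 * t ^ 2) x :=
      h2.continuousAt.sub (by fun_prop)
    exact h3.continuousWithinAt
  · intro x _
    have h2 := (E7_ls_deriv E7_d0 v 1 x).const_mul (2 ^ 30)
    have h3 := ((hasDerivAt_pow 2 x).const_mul ((kV T a b : ℝ) / 2))
    have h4 := h2.sub h3
    apply HasDerivAt.hasDerivWithinAt
    refine h4.congr_deriv ?_
    push_cast
    ring
  · intro x _
    have h2 := (E7_ls_deriv E7_d1 v 1 x).const_mul (2 ^ 30)
    have h3 := (hasDerivAt_id x).const_mul (kV T a b : ℝ)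
    have h4 := h2.sub h3
    apply HasDerivAt.hasDerivWithinAt
    refine h4.congr_deriv ?_
    ring
  · intro x hx
    rw [interior_Icc] at hx
    have hx0 : 0 ≤ x := le_trans (Nat.cast_nonneg a) hx.1.le
    set i : ℕ := ⌊x / 8⌋₊ with hi
    have hi1 : (i : ℝ) ≤ x / 8 := Nat.floor_le (by positivity)
    have hi2 : x / 8 < i + 1 := Nat.lt_floor_add_one _
    have ha : a / 8 ≤ i := by
      have h8 : (a : ℝ) < 8 * (i + 1) := by linarith [hx.1]
      have h9 : a < 8 * (i + 1) := by exact_mod_cast h8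
      omega
    have hb' : i < (b + 7) / 8 := by
      have h8 : 8 * (i : ℝ) < b := by linarith [hx.2]
      have h9 : 8 * i < b := by exact_mod_cast h8
      omega
    have hk := E7_kV hl ha hb'
    have h8 := E7_chkKb hb (Nat.mod_lt i (show 0 < 128 by norm_num))
    have h9 : x - (i / 128 : ℕ) * 1024 ∈
        Set.Icc (8 * ((i % 128 : ℕ) : ℝ)) (8 * ((i % 128 : ℕ) : ℝ) + 8) := by
      have h10 : (i : ℝ) = 128 * ((i / 128 : ℕ) : ℝ) + ((i % 128 : ℕ) : ℝ) := by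
        exact_mod_cast (Nat.div_add_mod i 128).symm
      constructor <;> linarith
    have h11 := E7_block h8.1 h8.2 h9
    have h12 := E7_G_period v (i / 128) (x - (i / 128 : ℕ) * 1024)
    rw [sub_add_cancel] at h12
    rw [← h12] at h11
    have h13 : ((ent16 T.K (i % 128) : ℕ) : ℝ) ≤ (kV T a b : ℝ) := by exact_mod_cast hk
    have h14 : E7_G v x = E7_ls (fun j a => E7_F2 j a x) 1 v := rfl
    rw [h14] at h11
    linarith

end Hepta
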