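import Pool.Agent.H69.Hep.C3
import Pool.Agent.H69.Hep.E2

/-! # E8: check of the constants `B` -/

set_option autoImplicit false

namespace Hepta

/-- The check for `b` and `Mh = m / 10 ^ 10`.  With the entry `e` and
`y = (e / 2 ^ 30 + 1536 Mh - 6 b) / (6 b)` it is `exp y ≤ 512 / b`. -/
def chkB1 (m B b : Nat) : Bool :=
  match Int.ediv
      (Int.mul (Int.sub (Int.add (Int.mul (Int.subNatNat (ent64 B (Nat.sub b 400))
        9223372036854775808) (Int.ofNat (Nat.pow 10 10)))
        (Int.ofNat (Nat.mul (Nat.mul 1536 m) 1073741824)))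
        (Int.ofNat (Nat.mul (Nat.mul 6 b) (Nat.mul 1073741824 (Nat.pow 10 10)))))
        (Int.ofNat 1073741824))
      (Int.ofNat (Nat.mul (Nat.mul 6 b) (Nat.pow 10 10))) with
  | Int.ofNat n => Nat.ble n 536870912000000000 &&
      Nat.ble (Nat.mul (expHi (Nat.succ n)) b) (Nat.mul 512 1152921504606846976)
  | Int.negSucc n => Nat.ble (Nat.mul b 1152921504606846976) (Nat.mul (expLo n) 512)

def chkBn (m B : Nat) : Nat → Bool
  | 0 => true
  | i + 1 => chkB1 m B (Nat.add 400 i) && chkBn m B i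

def chkB (m B : Nat) : Bool := chkBn m B 200

private lemma E8_exp_le {b : ℕ} (hb : 0 < b) {x L : ℝ} (hx : x ≤ Real.log (512 / b)) {num den q1 : ℝ}
    (hden : den = 6 * b * 10 ^ 10) (hq : num < q1 * den) (hq1 : q1 / 2 ^ 60 = x) {E M : ℝ}
    (hL : L = Real.log (512 / b))
    (hnum : num = (E * 10 ^ 10 + 1536 * M * 1073741824 - 6 * b * (1073741824 * 10 ^ 10)) *
      1073741824) : E ≤ 2 ^ 30 * (6 * b * L - 1536 * (M / 10 ^ 10 - b / 256)) := by
  have hb' : (0 : ℝ) < b := by exact_mod_cast hb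
  rw [← hL] at hx
  have h1 : q1 = 2 ^ 60 * x := by
    rw [← hq1]
    field_simp
  rw [h1, hden, hnum] at hq
  have h2 : 2 ^ 60 * x * (6 * b * 10 ^ 10) ≤ 2 ^ 60 * L * (6 * (b : ℝ) * 10 ^ 10) := by
    have : x * b ≤ L * b := mul_le_mul_of_nonneg_right hx hb'.le
    nlinarith
  have h3 := hq.trans_le h2
  nlinarith

private lemma E8_chkBn {m B : ℕ} : ∀ N : ℕ, chkBn m B N = true → ∀ i < N,
    chkB1 m B (400 + i) = true := by
  intro N
  induction N with
  | zero => intro _ i hi; exact absurd hi (Nat.not_lt_zero i)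
  | succ N ih =>
    intro h i hi
    have h' : (chkB1 m B (400 + N) && chkBn m B N) = true := h
    rw [Bool.and_eq_true] at h'
    rcases Nat.lt_succ_iff_lt_or_eq.mp hi with h1 | h1
    · exact ih h'.2 i h1
    · subst h1
      exact h'.1

private lemma E8_one {m B b : ℕ} (hb : 0 < b) (h : chkB1 m B b = true) :
    ((Int.subNatNat (ent64 B (b - 400)) 9223372036854775808 : ℤ) : ℝ) ≤
      2 ^ 30 * (6 * b * Real.log (512 / b) - 1536 * ((m : ℝ) / 10 ^ 10 - b / 256)) := by
  have hb' : (0 : ℝ) < b := by exact_mod_cast hb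
  unfold chkB1 at h
  generalize he : Int.subNatNat (ent64 B (Nat.sub b 400)) 9223372036854775808 = e at h
  generalize hq : Int.ediv _ _ = q at h
  have hq' : ((e * ((10 ^ 10 : ℕ) : ℤ) + ((1536 * m * 1073741824 : ℕ) : ℤ)) -
      ((6 * b * (1073741824 * 10 ^ 10) : ℕ) : ℤ)) * ((1073741824 : ℕ) : ℤ) /
      ((6 * b * 10 ^ 10 : ℕ) : ℤ) = q := hq
  have hdpos : (0 : ℤ) < ((6 * b * 10 ^ 10 : ℕ) : ℤ) := by positivity
  have hlt := Int.lt_ediv_add_one_mul_self (((e * ((10 ^ 10 : ℕ) : ℤ) +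
      ((1536 * m * 1073741824 : ℕ) : ℤ)) - ((6 * b * (1073741824 * 10 ^ 10) : ℕ) : ℤ)) *
      ((1073741824 : ℕ) : ℤ)) hdpos
  rw [hq'] at hlt
  have hltR : (((e : ℝ) * 10 ^ 10 + 1536 * m * 1073741824 - 6 * b * (1073741824 * 10 ^ 10)) *
      1073741824) < ((q : ℝ) + 1) * (6 * b * 10 ^ 10) := by
    have := (Int.cast_lt (R := ℝ)).mpr hlt
    push_cast at this
    linarith
  cases q with
  | ofNat n =>
    have h' : (Nat.ble n 536870912000000000 &&
      Nat.ble (expHi (n + 1) * b) (512 * 1152921504606846976)) = true := h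
    rw [Bool.and_eq_true] at h'
    obtain ⟨h1, h2⟩ := h'
    have h1' : n ≤ 536870912000000000 := Nat.le_of_ble_eq_true h1
    have h2' : expHi (n + 1) * b ≤ 512 * 1152921504606846976 := Nat.le_of_ble_eq_true h2
    have h3 := le_expHi (n := n + 1) (by norm_num; omega)
    have h4 : ((expHi (n + 1) : ℝ)) * b ≤ 512 * 1152921504606846976 := by exact_mod_cast h2'
    have h5 : ((Int.ofNat n : ℤ) : ℝ) + 1 = ((n + 1 : ℕ) : ℝ) := by
      push_cast
      rfl
    refine E8_exp_le hb (x := ((n + 1 : ℕ) : ℝ) / 2 ^ 60) ?_ rfl hltR (by rw [h5]) rfl rfl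
    rw [Real.le_log_iff_exp_le (by positivity), le_div_iff₀ hb']
    have h6 : 2 ^ 60 * Real.exp (((n + 1 : ℕ) : ℝ) / 2 ^ 60) * b ≤ 512 * 1152921504606846976 :=
      (mul_le_mul_of_nonneg_right h3 hb'.le).trans h4
    have e1 : (2 : ℝ) ^ 60 = 1152921504606846976 := by norm_num
    rw [e1] at h6
    rw [e1]
    refine le_of_mul_le_mul_right (a := (1152921504606846976 : ℝ)) ?_ (by norm_num)
    rw [mul_comm (1152921504606846976 : ℝ), mul_right_comm] at h6
    exact h6
  | negSucc n =>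
    have h' : Nat.ble (b * 1152921504606846976) (expLo n * 512) = true := h
    have h1' : b * 1152921504606846976 ≤ expLo n * 512 := Nat.le_of_ble_eq_true h'
    have h1 : (b : ℝ) * 1152921504606846976 ≤ expLo n * 512 := by exact_mod_cast h1'
    have h3 := expLo_le n
    have h5 : ((Int.negSucc n : ℤ) : ℝ) + 1 = -(n : ℝ) := by
      rw [Int.cast_negSucc]
      push_cast
      ring
    refine E8_exp_le hb (x := -((n : ℝ) / 2 ^ 60)) ?_ rfl hltR (by rw [h5]; ring) rfl rfl
    rw [Real.le_log_iff_exp_le (by positivity), Real.exp_neg, inv_le_comm₀ (Real.exp_pos _)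
      (by positivity), inv_div, div_le_iff₀ (by norm_num)]
    have e1 : (2 : ℝ) ^ 60 = 1152921504606846976 := by norm_num
    rw [e1] at h3
    rw [e1]
    refine le_of_mul_le_mul_right (a := (1152921504606846976 : ℝ)) (h1.trans ?_) (by norm_num)
    calc (expLo n : ℝ) * 512 ≤ 1152921504606846976 * Real.exp (n / 1152921504606846976) * 512 :=
          mul_le_mul_of_nonneg_right h3 (by norm_num)
      _ = _ := by ring

theorem chkB_sound {m B : ℕ} (h : chkB m B = true) (b : ℕ) (h1 : 400 ≤ b) (h2 : b < 600) :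
    ((Int.subNatNat (ent64 B (b - 400)) 9223372036854775808 : ℤ) : ℝ) ≤
      2 ^ 30 * (6 * b * Real.log (512 / b) - 1536 * ((m : ℝ) / 10 ^ 10 - b / 256)) := by
  unfold chkB at h
  have h3 := E8_chkBn 200 h (b - 400) (by omega)
  rw [show 400 + (b - 400) = b by omega] at h3
  exact E8_one (by omega) h3

end Hepta
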