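import Pool.Agent.H69.Hep.C1

/-! # F1: exact constants -/

set_option autoImplicit false

namespace Hepta

/-- Half of the width of the heptagon in the direction of an axis of symmetry. -/
noncomputable def FF : ℝ := (1 + 1 / Real.cos (ww / 2)) / 2

/-- The area of the critical triangle. -/
noncomputable def Ms : ℝ :=
  2 * FF * (Real.cos ww + Real.cos (3 / 2 * ww) - FF * (Real.cos ww * Real.cos (3 / 2 * ww))) /
    Real.sin ww

/-- The slope of the area in the direction of the rotation. -/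
noncomputable def k0 : ℝ :=
  2 * FF * (Real.sin ww + FF * Real.sin (ww / 2) - Real.sin (3 / 2 * ww)) / Real.sin ww

private theorem F1_half : ww / 2 = Real.pi / 7 := by
  unfold ww
  ring

private theorem F1_cos_ge : (17 : ℝ) / 20 ≤ Real.cos (ww / 2) := by
  have h := Real.one_sub_sq_div_two_le_cos (x := ww / 2)
  rw [F1_half] at *
  have hpi := Real.pi_lt_d2
  have hpi0 := Real.pi_pos
  have h2 : (Real.pi / 7) ^ 2 ≤ (3.15 / 7) ^ 2 := by
    apply pow_le_pow_left₀ (by positivity)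
    linarith
  norm_num at h2
  linarith

private theorem F1_root : 8 * Real.cos (ww / 2) ^ 3 - 4 * Real.cos (ww / 2) ^ 2 -
    4 * Real.cos (ww / 2) + 1 = 0 := by
  have hc1 := F1_cos_ge
  rw [F1_half] at *
  set x := Real.pi / 7 with hx
  set C := Real.cos x with hC
  have hroot : (C + 1) * (8 * C ^ 3 - 4 * C ^ 2 - 4 * C + 1) = 0 := by
    have h3 : Real.cos (3 * x) = 4 * C ^ 3 - 3 * C := by
      rw [hC, Real.cos_three_mul]
    have h4 : Real.cos (4 * x) = 8 * C ^ 4 - 8 * C ^ 2 + 1 := by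
      have e : 4 * x = 2 * (2 * x) := by ring
      rw [e, Real.cos_two_mul, Real.cos_two_mul]
      ring
    have h5 : Real.cos (3 * x) = - Real.cos (4 * x) := by
      rw [← Real.cos_pi_sub]
      congr 1
      rw [hx]
      ring
    rw [h3, h4] at h5
    linarith
  rcases mul_eq_zero.1 hroot with h | h
  · linarith
  · exact h

private theorem F1_c : Real.cos (ww / 2) ∈ Set.Icc (0.9009688679024 : ℝ) 0.9009688679025 := by
  have h1 := F1_cos_ge
  have hp := F1_root
  set C := Real.cos (ww / 2) with hC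
  constructor
  · by_contra hcon
    rw [not_le] at hcon
    have h2 : (8 * (0.9009688679024 : ℝ) ^ 3 - 4 * 0.9009688679024 ^ 2 - 4 * 0.9009688679024 + 1) -
        (8 * C ^ 3 - 4 * C ^ 2 - 4 * C + 1) =
        (0.9009688679024 - C) * (8 * (0.9009688679024 ^ 2 + 0.9009688679024 * C + C ^ 2) -
          4 * (0.9009688679024 + C) - 4) := by ring
    have h3 : 0 ≤ 8 * ((0.9009688679024 : ℝ) ^ 2 + 0.9009688679024 * C + C ^ 2) -
          4 * (0.9009688679024 + C) - 4 := by nlinarith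
    have h4 := mul_nonneg (sub_nonneg.2 hcon.le) h3
    rw [← h2, hp] at h4
    norm_num at h4
  · by_contra hcon
    rw [not_le] at hcon
    have h2 : (8 * C ^ 3 - 4 * C ^ 2 - 4 * C + 1) -
        (8 * (0.9009688679025 : ℝ) ^ 3 - 4 * 0.9009688679025 ^ 2 - 4 * 0.9009688679025 + 1) =
        (C - 0.9009688679025) * (8 * (0.9009688679025 ^ 2 + 0.9009688679025 * C + C ^ 2) -
          4 * (0.9009688679025 + C) - 4) := by ring
    have h3 : 0 ≤ 8 * ((0.9009688679025 : ℝ) ^ 2 + 0.9009688679025 * C + C ^ 2) -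
          4 * (0.9009688679025 + C) - 4 := by nlinarith
    have h4 := mul_nonneg (sub_nonneg.2 hcon.le) h3
    rw [← h2, hp] at h4
    norm_num at h4

theorem c_half : Real.cos (ww / 2) ∈ Set.Icc (0.90096886790 : ℝ) 0.90096886791 := by
  obtain ⟨h1, h2⟩ := F1_c
  constructor <;> norm_num at h1 h2 ⊢ <;> linarith

private theorem F1_s_pos : 0 < Real.sin (ww / 2) := by
  rw [F1_half]
  apply Real.sin_pos_of_pos_of_lt_pi <;> linarith [Real.pi_pos]

private theorem F1_s : Real.sin (ww / 2) ∈ Set.Icc (0.4338837391173 : ℝ) 0.4338837391178 := by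
  obtain ⟨h1, h2⟩ := F1_c
  have h3 := Real.sin_sq_add_cos_sq (ww / 2)
  have h4 := F1_s_pos
  set S := Real.sin (ww / 2) with hS
  set C := Real.cos (ww / 2) with hC
  have h5 : (0.9009688679024 : ℝ) ^ 2 ≤ C ^ 2 := pow_le_pow_left₀ (by norm_num) h1 2
  have h6 : C ^ 2 ≤ (0.9009688679025 : ℝ) ^ 2 := pow_le_pow_left₀ (by linarith) h2 2
  constructor
  · refine le_of_sq_le_sq ?_ h4.le
    norm_num at h5 h6 ⊢
    linarith
  · refine le_of_sq_le_sq ?_ (by norm_num)
    norm_num at h5 h6 ⊢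
    linarith

theorem s_half : Real.sin (ww / 2) ∈ Set.Icc (0.43388373911 : ℝ) 0.43388373912 := by
  obtain ⟨h1, h2⟩ := F1_s
  constructor <;> norm_num at h1 h2 ⊢ <;> linarith

private theorem F1_c_one : Real.cos ww = 2 * Real.cos (ww / 2) ^ 2 - 1 := by
  rw [← Real.cos_two_mul]
  congr 1
  ring

private theorem F1_s_one : Real.sin ww = 2 * Real.sin (ww / 2) * Real.cos (ww / 2) := by
  rw [← Real.sin_two_mul]
  congr 1
  ring

private theorem F1_c_three :
    Real.cos (3 / 2 * ww) = 4 * Real.cos (ww / 2) ^ 3 - 3 * Real.cos (ww / 2) := by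
  rw [← Real.cos_three_mul]
  congr 1
  ring

private theorem F1_s_three :
    Real.sin (3 / 2 * ww) = 3 * Real.sin (ww / 2) - 4 * Real.sin (ww / 2) ^ 3 := by
  rw [← Real.sin_three_mul]
  congr 1
  ring

theorem c_one : Real.cos ww ∈ Set.Icc (0.6234898018 : ℝ) 0.6234898019 := by
  obtain ⟨h1, h2⟩ := F1_c
  rw [F1_c_one]
  constructor <;> nlinarith

theorem s_one : Real.sin ww ∈ Set.Icc (0.7818314824 : ℝ) 0.7818314825 := by
  obtain ⟨h1, h2⟩ := F1_c
  obtain ⟨h3, h4⟩ := F1_s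
  rw [F1_s_one]
  constructor <;> nlinarith

theorem c_three : Real.cos (3 / 2 * ww) ∈ Set.Icc (0.2225209339 : ℝ) 0.2225209340 := by
  obtain ⟨h1, h2⟩ := F1_c
  have hp := F1_root
  rw [F1_c_three]
  have e : 4 * Real.cos (ww / 2) ^ 3 - 3 * Real.cos (ww / 2) =
      2 * Real.cos (ww / 2) ^ 2 - Real.cos (ww / 2) - 1 / 2 := by linarith
  rw [e]
  constructor <;> nlinarith

theorem s_three : Real.sin (3 / 2 * ww) ∈ Set.Icc (0.9749279121 : ℝ) 0.9749279122 := by
  obtain ⟨h1, h2⟩ := F1_c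
  obtain ⟨h3, h4⟩ := F1_s
  rw [F1_s_three]
  have e : 3 * Real.sin (ww / 2) - 4 * Real.sin (ww / 2) ^ 3 =
      Real.sin (ww / 2) * (4 * Real.cos (ww / 2) ^ 2 - 1) := by
    have h := Real.sin_sq_add_cos_sq (ww / 2)
    have h' : Real.cos (ww / 2) ^ 2 = 1 - Real.sin (ww / 2) ^ 2 := by linarith
    rw [h']
    ring
  rw [e]
  have h5 : (2.24697960371 : ℝ) ≤ 4 * Real.cos (ww / 2) ^ 2 - 1 := by nlinarith
  have h6 : 4 * Real.cos (ww / 2) ^ 2 - 1 ≤ (2.24697960372 : ℝ) := by nlinarith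
  constructor <;> nlinarith

theorem s_five : Real.sin (5 / 2 * ww) = Real.sin ww := by
  rw [← Real.sin_pi_sub]
  congr 1
  unfold ww
  ring

theorem c_five : Real.cos (5 / 2 * ww) = -Real.cos ww := by
  rw [← Real.cos_pi_sub]
  congr 1
  unfold ww
  ring

theorem t_half : Real.tan (ww / 2) ∈ Set.Icc (0.4815746187 : ℝ) 0.4815746189 := by
  obtain ⟨h1, h2⟩ := F1_c
  obtain ⟨h3, h4⟩ := F1_s
  rw [Real.tan_eq_sin_div_cos]
  constructor
  · rw [le_div_iff₀ (by linarith)]
    linarith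
  · rw [div_le_iff₀ (by linarith)]
    linarith

theorem FF_bd : FF ∈ Set.Icc (1.0549581320 : ℝ) 1.0549581321 := by
  obtain ⟨h1, h2⟩ := F1_c
  have h3 : (1.1099162641 : ℝ) ≤ 1 / Real.cos (ww / 2) := by
    rw [le_div_iff₀ (by linarith)]
    linarith
  have h4 : 1 / Real.cos (ww / 2) ≤ (1.1099162642 : ℝ) := by
    rw [div_le_iff₀ (by linarith)]
    linarith
  unfold FF
  constructor <;> linarith

private theorem F1_c2 : Real.cos ww ∈ Set.Icc (0.623489801858 : ℝ) 0.62348980186 := by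
  obtain ⟨h1, h2⟩ := F1_c
  rw [F1_c_one]
  constructor <;> nlinarith

private theorem F1_s2 : Real.sin ww ∈ Set.Icc (0.781831482467 : ℝ) 0.781831482469 := by
  obtain ⟨h1, h2⟩ := F1_c
  obtain ⟨h3, h4⟩ := F1_s
  rw [F1_s_one]
  constructor <;> nlinarith

private theorem F1_c3 : Real.cos (3 / 2 * ww) ∈ Set.Icc (0.222520933956 : ℝ) 0.222520933957 := by
  obtain ⟨h1, h2⟩ := F1_c
  have hp := F1_root
  rw [F1_c_three]
  have e : 4 * Real.cos (ww / 2) ^ 3 - 3 * Real.cos (ww / 2) =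
      2 * Real.cos (ww / 2) ^ 2 - Real.cos (ww / 2) - 1 / 2 := by linarith
  rw [e]
  constructor <;> nlinarith

private theorem F1_s3 : Real.sin (3 / 2 * ww) ∈ Set.Icc (0.974927912181 : ℝ) 0.974927912183 := by
  obtain ⟨h1, h2⟩ := F1_c
  obtain ⟨h3, h4⟩ := F1_s
  rw [F1_s_three]
  have e : 3 * Real.sin (ww / 2) - 4 * Real.sin (ww / 2) ^ 3 =
      Real.sin (ww / 2) * (4 * Real.cos (ww / 2) ^ 2 - 1) := by
    have h := Real.sin_sq_add_cos_sq (ww / 2)
    have h' : Real.cos (ww / 2) ^ 2 = 1 - Real.sin (ww / 2) ^ 2 := by linarith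
    rw [h']
    ring
  rw [e]
  have h5 : (2.246979603717 : ℝ) ≤ 4 * Real.cos (ww / 2) ^ 2 - 1 := by nlinarith
  have h6 : 4 * Real.cos (ww / 2) ^ 2 - 1 ≤ (2.246979603719 : ℝ) := by nlinarith
  constructor <;> nlinarith

private theorem F1_F : FF ∈ Set.Icc (1.05495813208 : ℝ) 1.05495813209 := by
  obtain ⟨h1, h2⟩ := F1_c
  have h3 : (1.10991626417 : ℝ) ≤ 1 / Real.cos (ww / 2) := by
    rw [le_div_iff₀ (by linarith)]
    linarith
  have h4 : 1 / Real.cos (ww / 2) ≤ (1.10991626418 : ℝ) := by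
    rw [div_le_iff₀ (by linarith)]
    linarith
  unfold FF
  constructor <;> linarith

theorem Ms_bd : Ms ∈ Set.Icc (1.88812451160 : ℝ) 1.88812451180 := by
  obtain ⟨a1, a2⟩ := F1_c2
  obtain ⟨b1, b2⟩ := F1_s2
  obtain ⟨c1, c2⟩ := F1_c3
  obtain ⟨f1, f2⟩ := F1_F
  have p1 : (0.138739533021 : ℝ) ≤ Real.cos ww * Real.cos (3 / 2 * ww) := by
    refine le_trans (by norm_num) (mul_le_mul a1 c1 (by norm_num) (by linarith))
  have p2 : Real.cos ww * Real.cos (3 / 2 * ww) ≤ (0.138739533023 : ℝ) := by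
    refine (mul_le_mul a2 c2 (by linarith) (by norm_num)).trans (by norm_num)
  have q1 : (0.14636439860 : ℝ) ≤ FF * (Real.cos ww * Real.cos (3 / 2 * ww)) := by
    refine le_trans (by norm_num) (mul_le_mul f1 p1 (by norm_num) (by linarith))
  have q2 : FF * (Real.cos ww * Real.cos (3 / 2 * ww)) ≤ (0.14636439861 : ℝ) := by
    refine (mul_le_mul f2 p2 (by linarith) (by norm_num)).trans (by norm_num)
  unfold Ms
  generalize Real.cos ww * Real.cos (3 / 2 * ww) = p at *
  generalize FF * p = q at *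
  generalize Real.cos ww = A at *
  generalize Real.cos (3 / 2 * ww) = C at *
  generalize Real.sin ww = S at *
  generalize FF = F at *
  constructor
  · rw [le_div_iff₀ (by linarith)]
    nlinarith
  · rw [div_le_iff₀ (by linarith)]
    nlinarith

theorem k0_bd : k0 ∈ Set.Icc (0.71416021700 : ℝ) 0.71416021830 := by
  obtain ⟨a1, a2⟩ := F1_s
  obtain ⟨b1, b2⟩ := F1_s2
  obtain ⟨c1, c2⟩ := F1_s3
  obtain ⟨f1, f2⟩ := F1_F
  have q1 : (0.45772917895 : ℝ) ≤ FF * Real.sin (ww / 2) := by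
    refine le_trans (by norm_num) (mul_le_mul f1 a1 (by norm_num) (by linarith))
  have q2 : FF * Real.sin (ww / 2) ≤ (0.45772917897 : ℝ) := by
    refine (mul_le_mul f2 a2 (by linarith) (by norm_num)).trans (by norm_num)
  unfold k0
  generalize FF * Real.sin (ww / 2) = q at *
  generalize Real.sin (3 / 2 * ww) = C at *
  generalize Real.sin ww = S at *
  generalize FF = F at *
  constructor
  · rw [le_div_iff₀ (by linarith)]
    nlinarith
  · rw [div_le_iff₀ (by linarith)]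
    nlinarith

end Hepta
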