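import Pool.Agent.H69.Hep.D4
import Pool.Agent.H69.Hep.F1

/-! # F10: the double lattice packing of heptagons -/

set_option autoImplicit false

namespace Hepta

/-- The height of a layer. -/
noncomputable def hh : ℝ := Ms / FF

/-- The centre of the heptagon `(false, i, j)` or of the turned heptagon `(true, i, j)`. -/
noncomputable def tc (b : Bool) (i j : ℤ) : EuclideanSpace ℝ (Fin 2) :=
  if b then !₂[(2 - hh * Real.sin ww) / Real.cos ww + 2 * FF * i, hh + 2 * hh * j]
  else !₂[2 * FF * i, 2 * hh * j]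

/-- The heptagons of the packing. -/
noncomputable def tile (q : Bool × ℤ × ℤ) : Set (EuclideanSpace ℝ (Fin 2)) :=
  (fun z => (if q.1 then -z else z) + tc q.1 q.2.1 q.2.2) '' hept

private theorem F10_tile_false (i j : ℤ) :
    tile (false, i, j) = (fun z => z + tc false i j) '' hept := by
  simp [tile]

private theorem F10_tile_true (i j : ℤ) :
    tile (true, i, j) = (fun z => -z + tc true i j) '' hept := by
  simp [tile]

theorem tile_iso (q : Bool × ℤ × ℤ) :
    ∃ f : EuclideanSpace ℝ (Fin 2) ≃ᵢ EuclideanSpace ℝ (Fin 2), tile q = f '' hept := by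
  obtain ⟨b, i, j⟩ := q
  cases b
  · exact ⟨IsometryEquiv.addRight (tc false i j), by rw [F10_tile_false]; rfl⟩
  · exact ⟨(IsometryEquiv.neg _).trans (IsometryEquiv.addRight (tc true i j)), by
      rw [F10_tile_true]; rfl⟩

private theorem F10_hh_sin : hh * Real.sin ww =
    2 * (Real.cos ww + Real.cos (3 / 2 * ww) - FF * (Real.cos ww * Real.cos (3 / 2 * ww))) := by
  have hs : 0 < Real.sin ww := by linarith [s_one.1]
  have hF : 0 < FF := by linarith [FF_bd.1]
  have hM : Ms = 2 * FF * (Real.cos ww + Real.cos (3 / 2 * ww) -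
    FF * (Real.cos ww * Real.cos (3 / 2 * ww))) / Real.sin ww := rfl
  unfold hh
  rw [hM]
  field_simp

/-- The key equation for the height: a chord of the doubled heptagon of length `2 FF`. -/
theorem hh_eq : (2 - hh * Real.sin ww) / Real.cos ww +
    (2 - hh * Real.sin (3 / 2 * ww)) / Real.cos (3 / 2 * ww) = 2 * FF := by
  have h1 : 0 < Real.cos ww := by linarith [c_one.1]
  have h3 : 0 < Real.cos (3 / 2 * ww) := by linarith [c_three.1]
  have h5 : Real.sin ww * Real.cos (3 / 2 * ww) + Real.cos ww * Real.sin (3 / 2 * ww) =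
      Real.sin ww := by
    rw [← Real.sin_add]
    have e : ww + 3 / 2 * ww = 5 / 2 * ww := by ring
    rw [e]
    exact s_five
  have h := F10_hh_sin
  rw [div_add_div _ _ h1.ne' h3.ne', div_eq_iff (mul_pos h1 h3).ne']
  linear_combination (-1 : ℝ) * h - hh * h5

private theorem F10_hh_bd : 1.78 ≤ hh := by
  have hF := FF_bd
  have hM := Ms_bd
  unfold hh
  rw [le_div_iff₀ (by linarith [hF.1])]
  linarith [hF.2, hM.1]

private theorem F10_sep {X Y : Set (EuclideanSpace ℝ (Fin 2))} {a b al : ℝ}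
    (hab : a ^ 2 + b ^ 2 = 1) (hX : ∀ z ∈ X, z 0 * a + z 1 * b ≤ al)
    (hY : ∀ z ∈ Y, al ≤ z 0 * a + z 1 * b) : Disjoint (interior X) (interior Y) := by
  rw [Set.disjoint_left]
  intro z hzX hzY
  obtain ⟨ε, hε, hb⟩ := Metric.isOpen_iff.1 isOpen_interior z hzX
  have h1 := hY z (interior_subset hzY)
  have h2 : z + (ε / 2) • (!₂[a, b] : EuclideanSpace ℝ (Fin 2)) ∈ X := by
    refine interior_subset (hb ?_)
    rw [Metric.mem_ball, dist_eq_norm, add_sub_cancel_left, norm_smul]
    have h3 : ‖(!₂[a, b] : EuclideanSpace ℝ (Fin 2))‖ = 1 := by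
      rw [EuclideanSpace.norm_eq]
      simp [hab]
    rw [h3, mul_one, Real.norm_eq_abs, abs_of_pos (by positivity)]
    linarith
  have h4 := hX _ h2
  simp only [PiLp.add_apply, PiLp.smul_apply, smul_eq_mul] at h4
  simp only [Fin.isValue, Matrix.cons_val_zero, Matrix.cons_val_one] at h4
  nlinarith

private theorem F10_sum_cos (x : ℝ) : Real.cos (x + 3 * ww) + Real.cos (x + 4 * ww) =
    -(2 * Real.cos (ww / 2)) * Real.cos x := by
  have e7 : 7 * ww = 2 * Real.pi := by unfold ww; ring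
  have e1 : x + 3 * ww = (x + Real.pi) - ww / 2 := by linarith
  have e2 : x + 4 * ww = (x + Real.pi) + ww / 2 := by linarith
  rw [e1, e2, Real.cos_sub, Real.cos_add (x + Real.pi), Real.cos_add_pi, Real.sin_add_pi]
  ring

private theorem F10_sum_sin (x : ℝ) : Real.sin (x + 3 * ww) + Real.sin (x + 4 * ww) =
    -(2 * Real.cos (ww / 2)) * Real.sin x := by
  have e7 : 7 * ww = 2 * Real.pi := by unfold ww; ring
  have e1 : x + 3 * ww = (x + Real.pi) - ww / 2 := by linarith
  have e2 : x + 4 * ww = (x + Real.pi) + ww / 2 := by linarith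
  rw [e1, e2, Real.sin_sub, Real.sin_add (x + Real.pi), Real.sin_add_pi, Real.cos_add_pi]
  ring

private theorem F10_lo {z : EuclideanSpace ℝ (Fin 2)} (hz : z ∈ hept) (m : ℤ) :
    1 - 2 * FF ≤ z 0 * Real.cos (m * ww) + z 1 * Real.sin (m * ww) := by
  have h3 := hz (m + 3)
  have h4 := hz (m + 4)
  have e3 : ((m + 3 : ℤ) : ℝ) * ww = m * ww + 3 * ww := by push_cast; ring
  have e4 : ((m + 4 : ℤ) : ℝ) * ww = m * ww + 4 * ww := by push_cast; ring
  rw [e3] at h3
  rw [e4] at h4
  have hc := F10_sum_cos (m * ww)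
  have hs := F10_sum_sin (m * ww)
  have hp : 0 < Real.cos (ww / 2) := by linarith [c_half.1]
  have hF : 2 * FF = 1 + 1 / Real.cos (ww / 2) := by unfold FF; ring
  have h5 : -(2 * Real.cos (ww / 2)) *
      (z 0 * Real.cos (m * ww) + z 1 * Real.sin (m * ww)) ≤ 2 := by
    calc -(2 * Real.cos (ww / 2)) * (z 0 * Real.cos (m * ww) + z 1 * Real.sin (m * ww))
        = z 0 * (-(2 * Real.cos (ww / 2)) * Real.cos (m * ww)) +
          z 1 * (-(2 * Real.cos (ww / 2)) * Real.sin (m * ww)) := by ring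
      _ = (z 0 * Real.cos (m * ww + 3 * ww) + z 1 * Real.sin (m * ww + 3 * ww)) +
          (z 0 * Real.cos (m * ww + 4 * ww) + z 1 * Real.sin (m * ww + 4 * ww)) := by
          rw [← hc, ← hs]; ring
      _ ≤ 2 := by linarith
  rw [hF]
  have h6 : 1 / Real.cos (ww / 2) * Real.cos (ww / 2) = 1 := by field_simp
  nlinarith

private theorem F10_cs (m : ℤ) : Real.cos (m * ww) ^ 2 + Real.sin (m * ww) ^ 2 = 1 :=
  Real.cos_sq_add_sin_sq _

/-- separation of a tile and a tile of the same orientation -/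
private theorem F10_same {t t' : EuclideanSpace ℝ (Fin 2)} (m : ℤ)
    (h : 2 * FF ≤ (t' 0 - t 0) * Real.cos (m * ww) + (t' 1 - t 1) * Real.sin (m * ww)) :
    Disjoint (interior ((fun z => z + t) '' hept)) (interior ((fun z => z + t') '' hept)) := by
  refine F10_sep (F10_cs m)
    (al := 1 + (t 0 * Real.cos (m * ww) + t 1 * Real.sin (m * ww))) ?_ ?_
  · rintro _ ⟨z, hz, rfl⟩
    have h1 := hz m
    simp only [PiLp.add_apply]
    linarith
  · rintro _ ⟨z, hz, rfl⟩
    have h1 := F10_lo hz m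
    simp only [PiLp.add_apply]
    linarith

private theorem F10_same' {t t' : EuclideanSpace ℝ (Fin 2)} (m : ℤ)
    (h : 2 * FF ≤ (t' 0 - t 0) * Real.cos (m * ww) + (t' 1 - t 1) * Real.sin (m * ww)) :
    Disjoint (interior ((fun z => -z + t) '' hept)) (interior ((fun z => -z + t') '' hept)) := by
  refine F10_sep (F10_cs m)
    (al := 2 * FF - 1 + (t 0 * Real.cos (m * ww) + t 1 * Real.sin (m * ww))) ?_ ?_
  · rintro _ ⟨z, hz, rfl⟩
    have h1 := F10_lo hz m
    simp only [PiLp.add_apply, PiLp.neg_apply]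
    linarith
  · rintro _ ⟨z, hz, rfl⟩
    have h1 := hz m
    simp only [PiLp.add_apply, PiLp.neg_apply]
    linarith

private theorem F10_opp {t t' : EuclideanSpace ℝ (Fin 2)} (m : ℤ)
    (h : 2 ≤ (t' 0 - t 0) * Real.cos (m * ww) + (t' 1 - t 1) * Real.sin (m * ww)) :
    Disjoint (interior ((fun z => z + t) '' hept)) (interior ((fun z => -z + t') '' hept)) := by
  refine F10_sep (F10_cs m)
    (al := 1 + (t 0 * Real.cos (m * ww) + t 1 * Real.sin (m * ww))) ?_ ?_
  · rintro _ ⟨z, hz, rfl⟩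
    have h1 := hz m
    simp only [PiLp.add_apply]
    linarith
  · rintro _ ⟨z, hz, rfl⟩
    have h1 := hz m
    simp only [PiLp.add_apply, PiLp.neg_apply]
    linarith

private theorem F10_two : Real.cos (2 * ww) = -Real.cos (3 / 2 * ww) ∧
    Real.sin (2 * ww) = Real.sin (3 / 2 * ww) := by
  have e7 : 7 * ww = 2 * Real.pi := by unfold ww; ring
  have e : 2 * ww = Real.pi - 3 / 2 * ww := by linarith
  rw [e, Real.cos_pi_sub, Real.sin_pi_sub]
  exact ⟨rfl, rfl⟩

private theorem F10_pos {k l : ℤ} (h : 0 < k ∨ (k = 0 ∧ 0 < l)) :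
    ∃ m : ℤ, 2 * FF ≤ 2 * FF * k * Real.cos (m * ww) + 2 * hh * l * Real.sin (m * ww) := by
  have hF := FF_bd
  rcases h with h | ⟨h0, h⟩
  · refine ⟨0, ?_⟩
    have h1 : (1 : ℝ) ≤ k := by exact_mod_cast h
    simp only [Int.cast_zero, zero_mul, Real.cos_zero, Real.sin_zero, mul_one, mul_zero, add_zero]
    nlinarith [hF.1]
  · refine ⟨2, ?_⟩
    have h1 : (1 : ℝ) ≤ l := by exact_mod_cast h
    have e : ((2 : ℤ) : ℝ) * ww = 2 * ww := by norm_num
    rw [e, F10_two.1, F10_two.2, h0]
    have hs := s_three.1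
    have hb := F10_hh_bd
    have h2 : 1.78 * 0.97 ≤ hh * l * Real.sin (3 / 2 * ww) := by
      have h3 : 1.78 ≤ hh * l := by nlinarith
      have h4 : (0.97 : ℝ) ≤ Real.sin (3 / 2 * ww) := by linarith
      have h5 : (0 : ℝ) ≤ hh * l := by linarith
      exact mul_le_mul h3 h4 (by norm_num) h5
    have h3 := hF.2
    push_cast
    linarith

private theorem F10_opp_pos (k l : ℤ) :
    ∃ m : ℤ, 2 ≤ ((2 - hh * Real.sin ww) / Real.cos ww + 2 * FF * k) * Real.cos (m * ww) +
      (hh + 2 * hh * l) * Real.sin (m * ww) := by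
  have hF : 0 < FF := by linarith [FF_bd.1]
  have hh0 : 0 < hh := by linarith [F10_hh_bd]
  have hc1 : 0 < Real.cos ww := by linarith [c_one.1]
  have hs1 : 0 < Real.sin ww := by linarith [s_one.1]
  have hc3 : 0 < Real.cos (3 / 2 * ww) := by linarith [c_three.1]
  have hs3 : 0 < Real.sin (3 / 2 * ww) := by linarith [s_three.1]
  have hv : (2 - hh * Real.sin ww) / Real.cos ww * Real.cos ww = 2 - hh * Real.sin ww :=
    div_mul_cancel₀ _ hc1.ne'
  have hw : (2 * FF - (2 - hh * Real.sin ww) / Real.cos ww) * Real.cos (3 / 2 * ww) =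
      2 - hh * Real.sin (3 / 2 * ww) := by
    rw [← hh_eq, add_sub_cancel_left]
    exact div_mul_cancel₀ _ hc3.ne'
  set v := (2 - hh * Real.sin ww) / Real.cos ww with hvdef
  have key1 : ∀ n : ℤ, 0 ≤ n → 0 ≤ k →
      2 ≤ (v + 2 * FF * k) * Real.cos ww + (hh + 2 * hh * n) * Real.sin ww := by
    intro n hn hk
    have hn' : (0 : ℝ) ≤ n := by exact_mod_cast hn
    have hk' : (0 : ℝ) ≤ k := by exact_mod_cast hk
    have e1 : 0 ≤ FF * k * Real.cos ww := by positivity
    have e2 : 0 ≤ hh * n * Real.sin ww := by positivity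
    nlinarith
  have key2 : ∀ n : ℤ, 0 ≤ n → k < 0 →
      2 ≤ (v + 2 * FF * k) * (-Real.cos (3 / 2 * ww)) +
        (hh + 2 * hh * n) * Real.sin (3 / 2 * ww) := by
    intro n hn hk
    have hn' : (0 : ℝ) ≤ n := by exact_mod_cast hn
    have hk' : (k : ℝ) ≤ -1 := by
      have : k ≤ -1 := by omega
      exact_mod_cast this
    have e1 : 0 ≤ FF * (-1 - k) * Real.cos (3 / 2 * ww) :=
      mul_nonneg (mul_nonneg hF.le (by linarith)) hc3.le
    have e2 : 0 ≤ hh * n * Real.sin (3 / 2 * ww) := by positivity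
    nlinarith
  rcases lt_or_ge l 0 with hl | hl
  · have hl' : hh + 2 * hh * l = -(hh + 2 * hh * ((-l - 1 : ℤ) : ℝ)) := by
      push_cast
      ring
    rcases lt_or_ge k 0 with hk | hk
    · refine ⟨-2, ?_⟩
      have e : ((-2 : ℤ) : ℝ) * ww = -(2 * ww) := by push_cast; ring
      rw [e, Real.cos_neg, Real.sin_neg, F10_two.1, F10_two.2, hl', neg_mul_neg]
      exact key2 _ (by omega) hk
    · refine ⟨-1, ?_⟩
      have e : ((-1 : ℤ) : ℝ) * ww = -ww := by push_cast; ring
      rw [e, Real.cos_neg, Real.sin_neg, hl', neg_mul_neg]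
      exact key1 _ (by omega) hk
  · rcases lt_or_ge k 0 with hk | hk
    · refine ⟨2, ?_⟩
      have e : ((2 : ℤ) : ℝ) * ww = 2 * ww := by push_cast; ring
      rw [e, F10_two.1, F10_two.2]
      exact key2 _ hl hk
    · refine ⟨1, ?_⟩
      have e : ((1 : ℤ) : ℝ) * ww = ww := by push_cast; ring
      rw [e]
      exact key1 _ hl hk

private theorem F10_tcf0 (i j : ℤ) : tc false i j 0 = 2 * FF * i := by simp [tc]

private theorem F10_tcf1 (i j : ℤ) : tc false i j 1 = 2 * hh * j := by simp [tc]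

private theorem F10_tct0 (i j : ℤ) :
    tc true i j 0 = (2 - hh * Real.sin ww) / Real.cos ww + 2 * FF * i := by simp [tc]

private theorem F10_tct1 (i j : ℤ) : tc true i j 1 = hh + 2 * hh * j := by simp [tc]

private theorem F10_mixed (i j i' j' : ℤ) :
    Disjoint (interior (tile (false, i, j))) (interior (tile (true, i', j'))) := by
  rw [F10_tile_false, F10_tile_true]
  obtain ⟨m, hm⟩ := F10_opp_pos (i' - i) (j' - j)
  refine F10_opp m ?_
  rw [F10_tcf0, F10_tcf1, F10_tct0, F10_tct1]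
  refine hm.trans (le_of_eq ?_)
  push_cast
  ring

theorem tile_disjoint {q q' : Bool × ℤ × ℤ} (h : q ≠ q') :
    Disjoint (interior (tile q)) (interior (tile q')) := by
  obtain ⟨b, i, j⟩ := q
  obtain ⟨b', i', j'⟩ := q'
  have hpos : b = b' → (0 < i' - i ∨ (i' - i = 0 ∧ 0 < j' - j)) ∨
      (0 < i - i' ∨ (i - i' = 0 ∧ 0 < j - j')) := by
    intro hb
    have h1 : ¬ (i = i' ∧ j = j') := by
      rintro ⟨rfl, rfl⟩
      exact h (by rw [hb])
    omega
  cases b <;> cases b'
  · rcases hpos rfl with hp | hp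
    · obtain ⟨m, hm⟩ := F10_pos hp
      rw [F10_tile_false, F10_tile_false]
      refine F10_same m ?_
      rw [F10_tcf0, F10_tcf1, F10_tcf0, F10_tcf1]
      refine hm.trans (le_of_eq ?_)
      push_cast
      ring
    · obtain ⟨m, hm⟩ := F10_pos hp
      rw [F10_tile_false, F10_tile_false]
      refine (F10_same m ?_).symm
      rw [F10_tcf0, F10_tcf1, F10_tcf0, F10_tcf1]
      refine hm.trans (le_of_eq ?_)
      push_cast
      ring
  · exact F10_mixed i j i' j'
  · exact (F10_mixed i' j' i j).symm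
  · rcases hpos rfl with hp | hp
    · obtain ⟨m, hm⟩ := F10_pos hp
      rw [F10_tile_true, F10_tile_true]
      refine F10_same' m ?_
      rw [F10_tct0, F10_tct1, F10_tct0, F10_tct1]
      refine hm.trans (le_of_eq ?_)
      push_cast
      ring
    · obtain ⟨m, hm⟩ := F10_pos hp
      rw [F10_tile_true, F10_tile_true]
      refine (F10_same' m ?_).symm
      rw [F10_tct0, F10_tct1, F10_tct0, F10_tct1]
      refine hm.trans (le_of_eq ?_)
      push_cast
      ring

theorem tile_injective : Function.Injective tile := by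
  intro q q' h
  by_contra hne
  have h1 := tile_disjoint hne
  rw [← h, disjoint_self] at h1
  obtain ⟨f, hf⟩ := tile_iso q
  have h2 : interior (tile q) = f '' interior hept := by
    rw [hf]
    exact (f.toHomeomorph.image_interior hept).symm
  rw [h2] at h1
  exact (hept_interior.image f).ne_empty h1

end Hepta
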