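import Pool.Agent.H69.Hep.F10

/-! # F11: the density of the double lattice packing -/

set_option autoImplicit false

namespace Hepta

open MeasureTheory

private theorem F11_add (t : EuclideanSpace ℝ (Fin 2)) (S : Set (EuclideanSpace ℝ (Fin 2))) :
    volume ((fun z => z + t) '' S) = volume S := by
  rw [Set.image_add_right]
  exact measure_preimage_add_right volume (-t) S

theorem tile_volume (q : Bool × ℤ × ℤ) :
    volume (tile q) = ENNReal.ofReal (7 * Real.tan (ww / 2)) := by
  rw [← hept_volume]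
  obtain ⟨b, i, j⟩ := q
  cases b
  · have h : tile (false, i, j) = (fun z => z + tc false i j) '' hept := by
      simp [tile]
    rw [h]
    exact F11_add _ _
  · have h : tile (true, i, j) = (fun z => z + tc true i j) '' (-hept) := by
      rw [← Set.image_neg_eq_neg, Set.image_image]
      simp [tile]
    rw [h, F11_add]
    exact Measure.measure_neg volume hept

private theorem F11_norm (w : EuclideanSpace ℝ (Fin 2)) : ‖w‖ ≤ |w 0| + |w 1| := by
  rw [EuclideanSpace.norm_eq, Fin.sum_univ_two, Real.norm_eq_abs, Real.norm_eq_abs]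
  refine Real.sqrt_le_iff.2 ⟨by positivity, ?_⟩
  nlinarith [mul_nonneg (abs_nonneg (w 0)) (abs_nonneg (w 1))]

private theorem F11_hept {z : EuclideanSpace ℝ (Fin 2)} (hz : z ∈ hept) : ‖z‖ ≤ 6 / 5 := by
  have h1 : (⟨z 0, z 1⟩ : ℂ) ∈ Hp 0 0 := by
    intro m
    have h := hz m
    unfold dt ui
    simpa using h
  have h2 := Hp_subset_ball 0 0 h1
  rw [mem_closedBall_zero_iff, Complex.norm_def, Complex.normSq_mk] at h2
  rw [EuclideanSpace.norm_eq, Fin.sum_univ_two, Real.norm_eq_abs, Real.norm_eq_abs, sq_abs, sq_abs]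
  have e : z 0 ^ 2 + z 1 ^ 2 = z 0 * z 0 + z 1 * z 1 := by ring
  rw [e]
  exact h2

/-- The cells. -/
private def F11_Q (p : ℤ × ℤ) : Set (EuclideanSpace ℝ (Fin 2)) :=
  {z | z 0 ∈ Set.Ico (2 * FF * p.1) (2 * FF * (p.1 + 1)) ∧
    z 1 ∈ Set.Ico (2 * hh * p.2) (2 * hh * (p.2 + 1))}

private theorem F11_FF : 2 * FF ≤ 2.2 ∧ 0 < FF :=
  ⟨by linarith [FF_bd.2], by linarith [FF_bd.1]⟩

private theorem F11_hh : 1.78 ≤ hh ∧ hh ≤ 1.8 := by
  have hF := FF_bd
  have hM := Ms_bd
  unfold hh
  constructor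
  · rw [le_div_iff₀ (by linarith [hF.1])]
    linarith [hF.2, hM.1]
  · rw [div_le_iff₀ (by linarith [hF.1])]
    linarith [hF.1, hM.2]

private theorem F11_vol (p : ℤ × ℤ) : volume (F11_Q p) = ENNReal.ofReal (4 * Ms) := by
  have hF := F11_FF.2
  have hh0 : 0 < hh := by linarith [F11_hh.1]
  have h1 : F11_Q p = (@WithLp.ofLp 2 (Fin 2 → ℝ)) ⁻¹' (Set.pi Set.univ fun a =>
      Set.Ico ((![2 * FF * p.1, 2 * hh * p.2] : Fin 2 → ℝ) a)
        ((![2 * FF * (p.1 + 1), 2 * hh * (p.2 + 1)] : Fin 2 → ℝ) a)) := by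
    ext z
    simp only [F11_Q, Set.mem_ofPred_eq, Set.mem_preimage, Set.mem_pi, Set.mem_univ, forall_const,
      Fin.forall_fin_two]
    simp
  rw [h1, (PiLp.volume_preserving_ofLp (Fin 2)).measure_preimage
    (MeasurableSet.univ_pi fun _ => measurableSet_Ico).nullMeasurableSet, Real.volume_pi_Ico]
  rw [Fin.prod_univ_two]
  simp only [Matrix.cons_val_zero, Matrix.cons_val_one]
  rw [← ENNReal.ofReal_mul (by nlinarith)]
  congr 1
  have e : Ms = hh * FF := by
    unfold hh
    field_simp
  rw [e]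
  ring

private theorem F11_cover (z : EuclideanSpace ℝ (Fin 2)) : ∃ p, z ∈ F11_Q p := by
  have hF : 0 < 2 * FF := by linarith [F11_FF.2]
  have hh0 : 0 < 2 * hh := by linarith [F11_hh.1]
  refine ⟨(⌊z 0 / (2 * FF)⌋, ⌊z 1 / (2 * hh)⌋), ⟨?_, ?_⟩, ?_, ?_⟩
  · have := Int.floor_le (z 0 / (2 * FF))
    rw [le_div_iff₀ hF] at this
    linarith
  · have := Int.lt_floor_add_one (z 0 / (2 * FF))
    rw [div_lt_iff₀ hF] at this
    linarith
  · have := Int.floor_le (z 1 / (2 * hh))
    rw [le_div_iff₀ hh0] at this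
    linarith
  · have := Int.lt_floor_add_one (z 1 / (2 * hh))
    rw [div_lt_iff₀ hh0] at this
    linarith

private theorem F11_sub {r : ℝ} {p : ℤ × ℤ} {z : EuclideanSpace ℝ (Fin 2)} (hz : z ∈ F11_Q p)
    (hr : ‖z‖ ≤ r - 10) (b : Bool) : tile (b, p) ⊆ Metric.closedBall 0 r := by
  obtain ⟨i, j⟩ := p
  have hF := F11_FF
  have hH := F11_hh
  obtain ⟨⟨h1, h2⟩, h3, h4⟩ := hz
  simp only at h1 h2 h3 h4
  have hd : ‖tc b i j - z‖ ≤ 8.8 := by
    refine (F11_norm _).trans ?_
    simp only [PiLp.sub_apply]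
    cases b
    · have e0 : tc false i j 0 = 2 * FF * i := by simp [tc]
      have e1 : tc false i j 1 = 2 * hh * j := by simp [tc]
      rw [e0, e1]
      have a0 : |2 * FF * i - z 0| ≤ 2.2 := by
        rw [abs_le]
        constructor <;> linarith
      have a1 : |2 * hh * j - z 1| ≤ 3.6 := by
        rw [abs_le]
        constructor <;> linarith
      linarith
    · have e0 : tc true i j 0 = (2 - hh * Real.sin ww) / Real.cos ww + 2 * FF * i := by simp [tc]
      have e1 : tc true i j 1 = hh + 2 * hh * j := by simp [tc]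
      rw [e0, e1]
      have hc := c_one
      have hs := s_one
      have v1 : 0 ≤ (2 - hh * Real.sin ww) / Real.cos ww := by
        refine div_nonneg ?_ (by linarith [hc.1])
        nlinarith [hs.1, hs.2]
      have v2 : (2 - hh * Real.sin ww) / Real.cos ww ≤ 1.1 := by
        rw [div_le_iff₀ (by linarith [hc.1])]
        nlinarith [hs.1, hs.2, hc.1, hc.2]
      have a0 : |(2 - hh * Real.sin ww) / Real.cos ww + 2 * FF * i - z 0| ≤ 2.2 := by
        rw [abs_le]
        constructor <;> linarith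
      have a1 : |hh + 2 * hh * j - z 1| ≤ 3.6 := by
        rw [abs_le]
        constructor <;> linarith
      linarith
  rintro _ ⟨y, hy, rfl⟩
  rw [mem_closedBall_zero_iff]
  have h5 := F11_hept hy
  have h6 : ‖(if b then -y else y)‖ ≤ 6 / 5 := by
    split_ifs
    · rwa [norm_neg]
    · exact h5
  have e : (if b then -y else y) + tc b i j = (if b then -y else y) + (tc b i j - z) + z := by
    abel
  show ‖(if b then -y else y) + tc b i j‖ ≤ r
  rw [e]
  have h7 := norm_add_le ((if b then -y else y) + (tc b i j - z)) z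
  have h8 := norm_add_le (if b then -y else y) (tc b i j - z)
  linarith

/-- The lower bound for the area of the heptagons in a disc. -/
theorem tile_lower {r : ℝ} (hr : 10 ≤ r) :
    ENNReal.ofReal (Real.pi * (r - 10) ^ 2 * (7 * Real.tan (ww / 2) / (2 * Ms))) ≤
      ∑' q : Bool × ℤ × ℤ, volume (tile q ∩ Metric.closedBall 0 r) := by
  have hM : 0 < Ms := by linarith [Ms_bd.1]
  have ht : 0 < Real.tan (ww / 2) := by linarith [t_half.1]
  set K : ℝ := 7 * Real.tan (ww / 2) / (2 * Ms) with hK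
  have hK0 : 0 ≤ K := by positivity
  have hcell : ∀ p : ℤ × ℤ, volume (F11_Q p ∩ Metric.closedBall 0 (r - 10)) * ENNReal.ofReal K ≤
      volume (tile (false, p) ∩ Metric.closedBall 0 r) +
        volume (tile (true, p) ∩ Metric.closedBall 0 r) := by
    intro p
    rcases Set.eq_empty_or_nonempty (F11_Q p ∩ Metric.closedBall 0 (r - 10)) with he | ⟨z, hz, hzr⟩
    · rw [he, measure_empty, zero_mul]
      exact zero_le
    · rw [mem_closedBall_zero_iff] at hzr
      rw [Set.inter_eq_left.2 (F11_sub hz hzr false), Set.inter_eq_left.2 (F11_sub hz hzr true),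
        tile_volume, tile_volume]
      calc volume (F11_Q p ∩ Metric.closedBall 0 (r - 10)) * ENNReal.ofReal K
          ≤ ENNReal.ofReal (4 * Ms) * ENNReal.ofReal K := by
            rw [← F11_vol p]
            exact mul_le_mul_left (measure_mono Set.inter_subset_left) _
        _ = ENNReal.ofReal (7 * Real.tan (ww / 2)) + ENNReal.ofReal (7 * Real.tan (ww / 2)) := by
            rw [← ENNReal.ofReal_mul (by positivity), ← ENNReal.ofReal_add (by positivity)
              (by positivity)]
            congr 1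
            rw [hK]
            field_simp
            ring
  have hball : ENNReal.ofReal (Real.pi * (r - 10) ^ 2) ≤
      ∑' p : ℤ × ℤ, volume (F11_Q p ∩ Metric.closedBall 0 (r - 10)) := by
    have h1 : volume (Metric.closedBall (0 : EuclideanSpace ℝ (Fin 2)) (r - 10)) =
        ENNReal.ofReal (Real.pi * (r - 10) ^ 2) := by
      rw [EuclideanSpace.volume_closedBall_fin_two, ← ENNReal.ofReal_pow (by linarith),
        mul_comm]
      rw [← NNReal.coe_real_pi, ENNReal.ofReal_mul (by positivity), ENNReal.ofReal_coe_nnreal]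
    rw [← h1]
    refine le_trans (measure_mono ?_) (measure_iUnion_le _)
    intro z hz
    obtain ⟨p, hp⟩ := F11_cover z
    exact Set.mem_iUnion.2 ⟨p, hp, hz⟩
  calc ENNReal.ofReal (Real.pi * (r - 10) ^ 2 * K)
      = ENNReal.ofReal (Real.pi * (r - 10) ^ 2) * ENNReal.ofReal K :=
        ENNReal.ofReal_mul (by positivity)
    _ ≤ (∑' p : ℤ × ℤ, volume (F11_Q p ∩ Metric.closedBall 0 (r - 10))) * ENNReal.ofReal K :=
        mul_le_mul_left hball _
    _ = ∑' p : ℤ × ℤ, volume (F11_Q p ∩ Metric.closedBall 0 (r - 10)) * ENNReal.ofReal K :=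
        ENNReal.tsum_mul_right.symm
    _ ≤ ∑' p : ℤ × ℤ, (volume (tile (false, p) ∩ Metric.closedBall 0 r) +
        volume (tile (true, p) ∩ Metric.closedBall 0 r)) := ENNReal.tsum_le_tsum hcell
    _ = ∑' p : ℤ × ℤ, volume (tile (false, p) ∩ Metric.closedBall 0 r) +
        ∑' p : ℤ × ℤ, volume (tile (true, p) ∩ Metric.closedBall 0 r) := ENNReal.tsum_add
    _ = ∑' q : Bool × ℤ × ℤ, volume (tile q ∩ Metric.closedBall 0 r) := by
        have h := ENNReal.tsum_prod' (f := fun q : Bool × ℤ × ℤ =>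
          volume (tile q ∩ Metric.closedBall 0 r))
        rw [h, tsum_bool]

end Hepta
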