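import Pool.Agent.H69.Hep.F1

/-! # F2: the area of a triangle near the critical triangle -/

set_option autoImplicit false

namespace Hepta

/-- The least distance of two heptagons of opposite orientation turned by `p`. -/
noncomputable def gg (p : ℝ) : ℝ := 1 + Real.cos p + Real.tan (ww / 2) * Real.sin |p|

/-- The least distance of two heptagons of the same orientation turned by `q`. -/
noncomputable def GG (q : ℝ) : ℝ := 1 + Real.cos q / Real.cos (ww / 2)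

noncomputable def aa (s p₁ : ℝ) : ℝ := Real.cos (ww - min p₁ 0 + s) / Real.cos s

noncomputable def bb (s p₁ p₂ : ℝ) : ℝ :=
  Real.cos (3 / 2 * ww + p₁ + min p₂ 0 - s) / Real.cos s

/-- The lower bound. -/
noncomputable def NN (s p₁ p₂ : ℝ) : ℝ :=
  GG (p₁ + p₂) * (gg p₁ * bb s p₁ p₂ + gg p₂ * aa s p₁) -
    GG (p₁ + p₂) ^ 2 * (aa s p₁ * bb s p₁ p₂)

/-- The identity behind the bound. -/
theorem four_sines (α β u v : ℝ) :
    Real.sin (α - u) * Real.sin (β + v) * Real.sin (α + β) =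
      Real.sin (β + v) * Real.cos u * Real.cos β + Real.sin (α - u) * Real.cos v * Real.cos α -
        Real.sin (α - u + (β + v)) * Real.cos α * Real.cos β := by
  obtain ⟨x, hx⟩ : ∃ x, x = α - u := ⟨_, rfl⟩
  obtain ⟨y, hy⟩ : ∃ y, y = β + v := ⟨_, rfl⟩
  have hu : u = α - x := by rw [hx]; ring
  have hv : v = y - β := by rw [hy]; ring
  rw [← hx, ← hy, hu, hv, Real.cos_sub, Real.cos_sub, Real.sin_add, Real.sin_add]
  have h1 := Real.sin_sq_add_cos_sq α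
  have h2 := Real.sin_sq_add_cos_sq β
  generalize Real.sin α = sa at *
  generalize Real.cos α = ca at *
  generalize Real.sin β = sb at *
  generalize Real.cos β = cb at *
  generalize Real.sin x = sx at *
  generalize Real.cos x = cx at *
  generalize Real.sin y = sy at *
  generalize Real.cos y = cy at *
  ring

/-- The final algebra: `q (K - q a b) ≥ G (K - G a b)`. -/
private theorem F2_alg {a b g₁ g₂ c₁ c₂ G q : ℝ} (ha : 3 / 5 ≤ a) (ha' : a ≤ 13 / 20)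
    (hb : 1 / 5 ≤ b) (hb' : b ≤ 1 / 4) (hg₁ : 199 / 100 ≤ g₁) (hg₂ : 199 / 100 ≤ g₂)
    (h₁ : g₁ ≤ c₁) (h₂ : g₂ ≤ c₂) (hG0 : 0 ≤ G) (hG : G ≤ 53 / 25) (hq : G ≤ q) (hq8 : q ≤ 8) :
    G * (g₁ * b + g₂ * a) - G ^ 2 * (a * b) ≤ q * (c₁ * b + c₂ * a - q * (a * b)) := by
  have h3 : g₁ * b + g₂ * a ≤ c₁ * b + c₂ * a := by
    have := mul_le_mul_of_nonneg_right h₁ (by linarith : (0 : ℝ) ≤ b)
    have := mul_le_mul_of_nonneg_right h₂ (by linarith : (0 : ℝ) ≤ a)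
    linarith
  have hq0 : 0 ≤ q := hG0.trans hq
  have h4 : (q + G) * (a * b) ≤ g₁ * b + g₂ * a := by
    have hab : 0 ≤ a * b := by nlinarith
    have h5 : (q + G) * (a * b) ≤ (8 + 53 / 25) * (a * b) :=
      mul_le_mul_of_nonneg_right (by linarith) hab
    have h6 : 199 / 100 * b + 199 / 100 * a ≤ g₁ * b + g₂ * a := by nlinarith
    nlinarith
  have h7 : 0 ≤ (q - G) * (g₁ * b + g₂ * a - (q + G) * (a * b)) :=
    mul_nonneg (by linarith) (by linarith)
  have h8 : q * (g₁ * b + g₂ * a - q * (a * b)) ≤ q * (c₁ * b + c₂ * a - q * (a * b)) :=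
    mul_le_mul_of_nonneg_left (by linarith) hq0
  nlinarith

private theorem F2_gu : gu ∈ Set.Icc (0.0008 : ℝ) 0.00088 := by
  unfold gu
  have h1 := Real.pi_gt_three
  have h2 := Real.pi_lt_d2
  constructor
  · rw [le_div_iff₀ (by norm_num)]
    linarith
  · rw [div_le_iff₀ (by norm_num)]
    linarith

/-- Bounds for a cosine near a known one. -/
private theorem F2_cos_near {x d : ℝ} : Real.cos x - |d| ≤ Real.cos (x + d) ∧
    Real.cos (x + d) ≤ Real.cos x + |d| := by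
  have h := Real.abs_cos_sub_cos_le (x + d) x
  rw [add_sub_cancel_left, abs_le] at h
  constructor <;> linarith [h.1, h.2]

theorem NN_le {R s x₁ x₂ p₁ p₂ : ℝ} (hR : 0 < R) (hR4 : R ≤ 4) (hs : |s| ≤ 9 * gu)
    (hp₁ : |p₁| ≤ 4 * gu) (hp₂ : |p₂| ≤ 4 * gu) (hx₁ : x₁ ∈ Set.Icc (-(215 * gu)) (-(194 * gu)))
    (hx₂ : x₂ ∈ Set.Icc (-(404 * gu)) (-(383 * gu)))
    (h₁ : gg p₁ ≤ 2 * R * Real.sin (3 / 2 * ww - s + x₂ + p₁) * Real.cos (x₁ - min p₁ 0))
    (h₂ : gg p₂ ≤ 2 * R * Real.sin (s + ww - x₁) * Real.cos (x₂ - min p₂ 0))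
    (h₃ : GG (p₁ + p₂) ≤ 2 * R * Real.sin (x₁ - x₂ + ww - p₁) * Real.cos s) :
    NN s p₁ p₂ ≤ 4 * R ^ 2 * (Real.sin (s + ww - x₁) * Real.sin (x₁ - x₂ + ww - p₁) *
      Real.sin (3 / 2 * ww - s + x₂ + p₁)) *
        Real.sin (5 / 2 * ww + max p₁ 0 + min p₂ 0) := by
  obtain ⟨g1, g2⟩ := F2_gu
  obtain ⟨c1, c2⟩ := c_one
  obtain ⟨d1, d2⟩ := c_three
  obtain ⟨e1, e2⟩ := c_half
  obtain ⟨t1, t2⟩ := t_half
  have hs' : |s| ≤ 0.008 := by linarith
  have hp₁' : |p₁| ≤ 0.0036 := by linarith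
  have hp₂' : |p₂| ≤ 0.0036 := by linarith
  have hm₁ : |min p₁ 0| ≤ |p₁| := by
    rcases le_total p₁ 0 with h | h
    · rw [min_eq_left h]
    · rw [min_eq_right h, abs_zero]
      exact abs_nonneg _
  have hm₂ : |min p₂ 0| ≤ |p₂| := by
    rcases le_total p₂ 0 with h | h
    · rw [min_eq_left h]
    · rw [min_eq_right h, abs_zero]
      exact abs_nonneg _
  have hcs : 0.9999 ≤ Real.cos s := by
    have h := Real.one_sub_sq_div_two_le_cos (x := s)
    have h2 : s ^ 2 ≤ 0.008 ^ 2 := by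
      rw [← sq_abs s]
      exact pow_le_pow_left₀ (abs_nonneg _) hs' 2
    linarith
  have hcs1 := Real.cos_le_one s
  have hcs0 : 0 < Real.cos s := by linarith
  -- the two cosines
  have hA : 0.61 ≤ Real.cos (ww - min p₁ 0 + s) ∧ Real.cos (ww - min p₁ 0 + s) ≤ 0.637 := by
    have h := F2_cos_near (x := ww) (d := -min p₁ 0 + s)
    have h2 : |-min p₁ 0 + s| ≤ 0.0117 := by
      refine (abs_add_le _ _).trans ?_
      rw [abs_neg]
      linarith
    have h3 : ww + (-min p₁ 0 + s) = ww - min p₁ 0 + s := by ring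
    rw [h3] at h
    constructor <;> linarith [h.1, h.2]
  have hB : 0.205 ≤ Real.cos (3 / 2 * ww + p₁ + min p₂ 0 - s) ∧
      Real.cos (3 / 2 * ww + p₁ + min p₂ 0 - s) ≤ 0.24 := by
    have h := F2_cos_near (x := 3 / 2 * ww) (d := p₁ + min p₂ 0 - s)
    have h2 : |p₁ + min p₂ 0 - s| ≤ 0.0153 := by
      refine (abs_sub _ _).trans ?_
      have := abs_add_le p₁ (min p₂ 0)
      linarith
    have h3 : 3 / 2 * ww + (p₁ + min p₂ 0 - s) = 3 / 2 * ww + p₁ + min p₂ 0 - s := by ring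
    rw [h3] at h
    constructor <;> linarith [h.1, h.2]
  have hgg : ∀ p : ℝ, |p| ≤ 0.0036 → 199 / 100 ≤ gg p := by
    intro p hp
    unfold gg
    have h := Real.one_sub_sq_div_two_le_cos (x := p)
    have h2 : p ^ 2 ≤ 0.0036 ^ 2 := by
      rw [← sq_abs p]
      exact pow_le_pow_left₀ (abs_nonneg _) hp 2
    have h3 : 0 ≤ Real.sin |p| := by
      apply Real.sin_nonneg_of_nonneg_of_le_pi (abs_nonneg _)
      linarith [Real.pi_gt_three]
    have h4 : 0 ≤ Real.tan (ww / 2) * Real.sin |p| := mul_nonneg (by linarith) h3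
    linarith
  have hGG : 0 ≤ GG (p₁ + p₂) ∧ GG (p₁ + p₂) ≤ 53 / 25 := by
    unfold GG
    have h1 := Real.cos_le_one (p₁ + p₂)
    have h2 := Real.neg_one_le_cos (p₁ + p₂)
    have hc : 0 < Real.cos (ww / 2) := by linarith
    have h3 : 0 ≤ Real.cos (p₁ + p₂) := by
      have h := Real.one_sub_sq_div_two_le_cos (x := p₁ + p₂)
      have h4 : |p₁ + p₂| ≤ 1 := (abs_add_le _ _).trans (by linarith)
      have h5 : (p₁ + p₂) ^ 2 ≤ 1 := by
        rw [← sq_abs]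
        exact pow_le_one₀ (abs_nonneg _) h4
      linarith
    constructor
    · have := div_nonneg h3 hc.le
      linarith
    · have h4 : Real.cos (p₁ + p₂) / Real.cos (ww / 2) ≤ 28 / 25 := by
        rw [div_le_iff₀ hc]
        linarith
      linarith
  -- names
  obtain ⟨α, hα⟩ : ∃ α, α = ww - min p₁ 0 + s := ⟨_, rfl⟩
  obtain ⟨β, hβ⟩ : ∃ β, β = 3 / 2 * ww + p₁ + min p₂ 0 - s := ⟨_, rfl⟩
  have e₁ : s + ww - x₁ = α - (x₁ - min p₁ 0) := by rw [hα]; ring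
  have e₂ : 3 / 2 * ww - s + x₂ + p₁ = β + (x₂ - min p₂ 0) := by rw [hβ]; ring
  have e₃ : Real.sin (x₁ - x₂ + ww - p₁) =
      Real.sin (α - (x₁ - min p₁ 0) + (β + (x₂ - min p₂ 0))) := by
    rw [← Real.sin_pi_sub]
    congr 1
    rw [hα, hβ]
    unfold ww
    ring
  have e₄ : 5 / 2 * ww + max p₁ 0 + min p₂ 0 = α + β := by
    have h := max_add_min p₁ 0
    rw [hα, hβ]
    linarith
  have key := four_sines α β (x₁ - min p₁ 0) (x₂ - min p₂ 0)
  rw [e₂] at h₁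
  rw [e₁] at h₂
  rw [e₃] at h₃
  rw [e₁, e₂, e₃, e₄]
  have haa : aa s p₁ = Real.cos α / Real.cos s := by rw [hα]; rfl
  have hbb : bb s p₁ p₂ = Real.cos β / Real.cos s := by rw [hβ]; rfl
  rw [← hα] at hA
  rw [← hβ] at hB
  obtain ⟨a, ha⟩ : ∃ a, a = Real.cos α / Real.cos s := ⟨_, rfl⟩
  obtain ⟨b, hb⟩ : ∃ b, b = Real.cos β / Real.cos s := ⟨_, rfl⟩
  have hca : Real.cos α = a * Real.cos s := by rw [ha]; field_simp
  have hcb : Real.cos β = b * Real.cos s := by rw [hb]; field_simp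
  have ha1 : 3 / 5 ≤ a := by
    rw [ha, le_div_iff₀ hcs0]
    linarith [hA.1]
  have ha2 : a ≤ 13 / 20 := by
    rw [ha, div_le_iff₀ hcs0]
    linarith [hA.2]
  have hb1 : 1 / 5 ≤ b := by
    rw [hb, le_div_iff₀ hcs0]
    linarith [hB.1]
  have hb2 : b ≤ 1 / 4 := by
    rw [hb, div_le_iff₀ hcs0]
    linarith [hB.2]
  have hNN : NN s p₁ p₂ = GG (p₁ + p₂) * (gg p₁ * b + gg p₂ * a) - GG (p₁ + p₂) ^ 2 * (a * b) := by
    unfold NN
    rw [haa, hbb, ← ha, ← hb]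
  obtain ⟨q, hq⟩ : ∃ q, q = 2 * R * Real.sin (α - (x₁ - min p₁ 0) + (β + (x₂ - min p₂ 0))) *
      Real.cos s := ⟨_, rfl⟩
  have hq8 : q ≤ 8 := by
    rw [hq]
    have h1 : 2 * R * Real.sin (α - (x₁ - min p₁ 0) + (β + (x₂ - min p₂ 0))) ≤ 8 := by
      have := mul_le_mul_of_nonneg_left (Real.sin_le_one (α - (x₁ - min p₁ 0) +
        (β + (x₂ - min p₂ 0)))) (by linarith : (0 : ℝ) ≤ 2 * R)
      linarith
    have h2 := mul_le_mul_of_nonneg_right h1 hcs0.le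
    linarith
  have h5 := F2_alg ha1 ha2 hb1 hb2 (hgg p₁ hp₁') (hgg p₂ hp₂') h₁ h₂ hGG.1 hGG.2
    (by rw [hq]; exact h₃) hq8
  rw [hNN]
  refine h5.trans (le_of_eq ?_)
  rw [hq]
  generalize Real.sin (α - (x₁ - min p₁ 0) + (β + (x₂ - min p₂ 0))) = z at *
  generalize Real.sin (α - (x₁ - min p₁ 0)) = x at *
  generalize Real.sin (β + (x₂ - min p₂ 0)) = y at *
  generalize Real.sin (α + β) = t at *
  rw [hca, hcb] at key
  have : 4 * R ^ 2 * (x * z * y) * t = 4 * R ^ 2 * z * (x * y * t) := by ring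
  rw [this, key]
  ring

end Hepta
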