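import Pool.Agent.H69.Hep.E3
import Pool.Agent.H69.Hep.F1

/-! # F3: the potential -/

set_option autoImplicit false

namespace Hepta

/-- The first coefficient of the potential. -/
noncomputable def a₁x : ℝ := k0 / 14 - 3 * (965 / 10 ^ 6) - 5 * (1216 / 10 ^ 6)

/-- The potential. -/
noncomputable def Wx (x : ℝ) : ℝ :=
  a₁x * Real.sin (7 * x) - 6987 / 10 ^ 6 * Real.sin (14 * x) + 965 / 10 ^ 6 * Real.sin (21 * x) -
    964 / 10 ^ 6 * Real.sin (28 * x) + 1216 / 10 ^ 6 * Real.sin (35 * x)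

theorem a₁x_bd : |a₁x - 42036444 / 10 ^ 9| ≤ 2 / 10 ^ 10 := by
  have h := k0_bd
  rw [Set.mem_Icc] at h
  unfold a₁x
  rw [abs_le]
  constructor <;> linarith [h.1, h.2]

theorem Wx_odd (x : ℝ) : Wx (-x) = -Wx x := by
  unfold Wx
  have h : ∀ k : ℝ, Real.sin (k * -x) = -Real.sin (k * x) := by
    intro k
    rw [mul_neg, Real.sin_neg]
  rw [h, h, h, h, h]
  ring

theorem Wx_per (x : ℝ) : Wx (x + ww) = Wx x := by
  unfold Wx
  have h : ∀ n : ℕ, Real.sin (7 * (n : ℝ) * (x + ww)) = Real.sin (7 * (n : ℝ) * x) := by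
    intro n
    have h1 : 7 * (n : ℝ) * (x + ww) = 7 * (n : ℝ) * x + n * (2 * Real.pi) := by
      unfold ww
      ring
    rw [h1, Real.sin_add_nat_mul_two_pi]
  have h1 := h 1
  have h2 := h 2
  have h3 := h 3
  have h4 := h 4
  have h5 := h 5
  norm_num at h1 h2 h3 h4 h5
  rw [h1, h2, h3, h4, h5]

/-- the derivative of the potential -/
private noncomputable def F3_D (x : ℝ) : ℝ :=
  7 * a₁x * Real.cos (7 * x) - 14 * (6987 / 10 ^ 6) * Real.cos (14 * x) +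
    21 * (965 / 10 ^ 6) * Real.cos (21 * x) - 28 * (964 / 10 ^ 6) * Real.cos (28 * x) +
      35 * (1216 / 10 ^ 6) * Real.cos (35 * x)

private theorem F3_sin (k t : ℝ) : HasDerivAt (fun x => Real.sin (k * x)) (k * Real.cos (k * t)) t := by
  have h := ((hasDerivAt_id t).const_mul k).sin
  simp only [id, mul_one] at h
  rw [mul_comm] at h
  exact h

private theorem F3_deriv (t : ℝ) : HasDerivAt Wx (F3_D t) t := by
  have h1 := (F3_sin 7 t).const_mul a₁x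
  have h2 := (F3_sin 14 t).const_mul (6987 / 10 ^ 6)
  have h3 := (F3_sin 21 t).const_mul (965 / 10 ^ 6)
  have h4 := (F3_sin 28 t).const_mul (964 / 10 ^ 6)
  have h5 := (F3_sin 35 t).const_mul (1216 / 10 ^ 6)
  have h := (((h1.sub h2).add h3).sub h4).add h5
  refine (h.congr_deriv ?_)
  unfold F3_D
  ring

/-- the polynomial of the derivative -/
private noncomputable def F3_P (u : ℝ) : ℝ :=
  0.010118 + 0.063751444 * u + 0.0029 * u ^ 2 - 0.11002 * u ^ 3 - 0.030848 * u ^ 4 +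
    0.09728 * u ^ 5

private theorem F3_D_eq (t : ℝ) : |F3_D t - 7 * F3_P (Real.cos (7 * t))| ≤ 14 / 10 ^ 10 := by
  set u := Real.cos (7 * t) with hu
  have h2 : Real.cos (14 * t) = 2 * u ^ 2 - 1 := by
    rw [show 14 * t = 2 * (7 * t) by ring, Real.cos_two_mul]
  have h3 : Real.cos (21 * t) = 4 * u ^ 3 - 3 * u := by
    rw [show 21 * t = 3 * (7 * t) by ring, Real.cos_three_mul]
  have h4 : Real.cos (28 * t) = 2 * (2 * u ^ 2 - 1) ^ 2 - 1 := by
    rw [show 28 * t = 2 * (14 * t) by ring, Real.cos_two_mul, h2]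
  have h5 : Real.cos (35 * t) = 2 * (2 * (2 * u ^ 2 - 1) ^ 2 - 1) * u - (4 * u ^ 3 - 3 * u) := by
    have e1 := Real.cos_add (28 * t) (7 * t)
    have e2 := Real.cos_sub (28 * t) (7 * t)
    rw [show 28 * t + 7 * t = 35 * t by ring] at e1
    rw [show 28 * t - 7 * t = 21 * t by ring, h3] at e2
    rw [h4] at e1 e2
    linarith
  have ha := a₁x_bd
  have h6 : F3_D t - 7 * F3_P u = 7 * ((a₁x - 42036444 / 10 ^ 9) * u) := by
    unfold F3_D F3_P
    rw [h2, h3, h4, h5, ← hu]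
    ring
  rw [h6, abs_mul, abs_mul]
  have h7 : |u| ≤ 1 := Real.abs_cos_le_one _
  have h8 : |a₁x - 42036444 / 10 ^ 9| * |u| ≤ 2 / 10 ^ 10 * 1 :=
    mul_le_mul ha h7 (abs_nonneg _) (by norm_num)
  rw [abs_of_pos (by norm_num : (0 : ℝ) < 7)]
  linarith

private theorem F3_mvt {lo hi A B : ℝ}
    (h : ∀ t, A ≤ t → t ≤ B → lo + 14 / 10 ^ 10 ≤ 7 * F3_P (Real.cos (7 * t)) ∧
      7 * F3_P (Real.cos (7 * t)) ≤ hi - 14 / 10 ^ 10) {x y : ℝ} (hy : A ≤ y) (hyx : y ≤ x)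
    (hx : x ≤ B) : lo * (x - y) ≤ Wx x - Wx y ∧ Wx x - Wx y ≤ hi * (x - y) := by
  rcases hyx.eq_or_lt with rfl | hlt
  · simp
  · obtain ⟨c, hc, hs⟩ := exists_hasDerivAt_eq_slope Wx F3_D hlt
      (fun t _ => (F3_deriv t).continuousAt.continuousWithinAt) (fun t _ => F3_deriv t)
    have h1 := h c (hy.trans hc.1.le) (hc.2.le.trans hx)
    have h2 := abs_le.1 (F3_D_eq c)
    have h3 : 0 < x - y := sub_pos.2 hlt
    rw [eq_div_iff h3.ne'] at hs
    rw [← hs]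
    constructor
    · exact mul_le_mul_of_nonneg_right (by linarith [h2.1, h1.1]) h3.le
    · exact mul_le_mul_of_nonneg_right (by linarith [h2.2, h1.2]) h3.le

private theorem F3_mono {f f' : ℝ → ℝ} (hf : ∀ x, HasDerivAt f (f' x) x) (h0 : f 0 = 0)
    (h : ∀ x, 0 ≤ x → 0 ≤ f' x) {x : ℝ} (hx : 0 ≤ x) : 0 ≤ f x := by
  have h1 : MonotoneOn f (Set.Ici 0) := by
    refine monotoneOn_of_deriv_nonneg (convex_Ici 0)
      (fun y _ => (hf y).continuousAt.continuousWithinAt)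
      (fun y _ => (hf y).differentiableAt.differentiableWithinAt) ?_
    intro y hy
    rw [interior_Ici] at hy
    rw [(hf y).deriv]
    exact h y (le_of_lt hy)
  have h2 := h1 (Set.mem_Ici.2 le_rfl) (Set.mem_Ici.2 hx) hx
  rwa [h0] at h2

private theorem F3_pow (n : ℕ) (c x : ℝ) :
    HasDerivAt (fun t : ℝ => c * t ^ n) (c * (n * x ^ (n - 1))) x :=
  (hasDerivAt_pow n x).const_mul c

private theorem F3_cos_up {x : ℝ} (hx : 0 ≤ x) : Real.cos x ≤ 1 - x ^ 2 / 2 + x ^ 4 / 24 := by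
  have h := F3_mono (f := fun x => 1 + (-1 / 2) * x ^ 2 + (1 / 24) * x ^ 4 - Real.cos x)
    (f' := fun x => (-1 / 2) * ((2 : ℕ) * x ^ (2 - 1)) + (1 / 24) * ((4 : ℕ) * x ^ (4 - 1)) -
      -Real.sin x)
    (fun x => (((F3_pow 2 (-1 / 2) x).const_add 1).add (F3_pow 4 (1 / 24) x)).sub
      (Real.hasDerivAt_cos x)) (by simp) (fun x hx => by
        have := Real.sin_ge_sub_cube hx
        push_cast
        norm_num
        linarith) hx
  linarith

private theorem F3_sin_up {x : ℝ} (hx : 0 ≤ x) :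
    Real.sin x ≤ x - x ^ 3 / 6 + x ^ 5 / 120 := by
  have h := F3_mono (f := fun x => 1 * x ^ 1 + (-1 / 6) * x ^ 3 + (1 / 120) * x ^ 5 - Real.sin x)
    (f' := fun x => 1 * ((1 : ℕ) * x ^ (1 - 1)) + (-1 / 6) * ((3 : ℕ) * x ^ (3 - 1)) +
      (1 / 120) * ((5 : ℕ) * x ^ (5 - 1)) - Real.cos x)
    (fun x => (((F3_pow 1 1 x).add (F3_pow 3 (-1 / 6) x)).add (F3_pow 5 (1 / 120) x)).sub
      (Real.hasDerivAt_sin x)) (by simp) (fun x hx => by
        have := F3_cos_up hx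
        push_cast
        norm_num
        linarith) hx
  linarith

private theorem F3_cos_lo {x : ℝ} (hx : 0 ≤ x) :
    1 - x ^ 2 / 2 + x ^ 4 / 24 - x ^ 6 / 720 ≤ Real.cos x := by
  have h := F3_mono
    (f := fun x => Real.cos x + -1 + (1 / 2) * x ^ 2 + (-1 / 24) * x ^ 4 + (1 / 720) * x ^ 6)
    (f' := fun x => -Real.sin x + (1 / 2) * ((2 : ℕ) * x ^ (2 - 1)) +
      (-1 / 24) * ((4 : ℕ) * x ^ (4 - 1)) + (1 / 720) * ((6 : ℕ) * x ^ (6 - 1)))
    (fun x => ((((Real.hasDerivAt_cos x).add_const (-1)).add (F3_pow 2 (1 / 2) x)).add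
      (F3_pow 4 (-1 / 24) x)).add (F3_pow 6 (1 / 720) x)) (by simp) (fun x hx => by
        have := F3_sin_up hx
        push_cast
        norm_num
        linarith) hx
  linarith

private theorem F3_poly₁ {u : ℝ} (h1 : 0.2241 ≤ u) (h2 : u ≤ 0.3943) :
    0.16302 ≤ 7 * F3_P u ∧ 7 * F3_P u ≤ 0.20401 := by
  unfold F3_P
  have h0 : (0 : ℝ) ≤ u := by linarith
  have a2 := pow_le_pow_left₀ h0 h2 2
  have a3 := pow_le_pow_left₀ h0 h2 3
  have b4 : 0 ≤ u ^ 4 := by positivity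
  have c2 : 0 ≤ u ^ 2 := by positivity
  have c3 : 0 ≤ u ^ 3 := by positivity
  norm_num at a2 a3
  constructor
  · have hQ : 0 ≤ 0.063751444 + 0.0029 * (u + 0.2241) - 0.11002 * (u ^ 2 + u * 0.2241 + 0.2241 ^ 2)
      - 0.030848 * (u ^ 3 + u ^ 2 * 0.2241 + u * 0.2241 ^ 2 + 0.2241 ^ 3) +
      0.09728 * (u ^ 4 + u ^ 3 * 0.2241 + u ^ 2 * 0.2241 ^ 2 + u * 0.2241 ^ 3 + 0.2241 ^ 4) := by
      norm_num
      linarith
    have := mul_nonneg (sub_nonneg.2 h1) hQ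
    norm_num at this ⊢
    linarith
  · have hQ : 0 ≤ 0.063751444 + 0.0029 * (u + 0.3943) - 0.11002 * (u ^ 2 + u * 0.3943 + 0.3943 ^ 2)
      - 0.030848 * (u ^ 3 + u ^ 2 * 0.3943 + u * 0.3943 ^ 2 + 0.3943 ^ 3) +
      0.09728 * (u ^ 4 + u ^ 3 * 0.3943 + u ^ 2 * 0.3943 ^ 2 + u * 0.3943 ^ 3 + 0.3943 ^ 4) := by
      norm_num
      linarith
    have := mul_nonneg (sub_nonneg.2 h2) hQ
    norm_num at this ⊢
    linarith

private theorem F3_poly₂ {v : ℝ} (h1 : 0.6844 ≤ v) (h2 : v ≤ 0.804) :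
    -0.1936 ≤ 7 * F3_P (-v) ∧ 7 * F3_P (-v) ≤ -0.12782 := by
  unfold F3_P
  have h0 : (0 : ℝ) ≤ v := by linarith
  have a1 := pow_le_pow_left₀ h0 h2 2
  have a3 := pow_le_pow_left₀ (by norm_num) h1 3
  have a4 := pow_le_pow_left₀ (by norm_num) h1 4
  norm_num at a1 a3 a4
  constructor
  · have hQ : 0 ≤ 0.063751444 - 0.0029 * (v + 0.804) - 0.11002 * (v ^ 2 + v * 0.804 + 0.804 ^ 2)
      + 0.030848 * (v ^ 3 + v ^ 2 * 0.804 + v * 0.804 ^ 2 + 0.804 ^ 3) +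
      0.09728 * (v ^ 4 + v ^ 3 * 0.804 + v ^ 2 * 0.804 ^ 2 + v * 0.804 ^ 3 + 0.804 ^ 4) := by
      norm_num
      linarith
    have := mul_nonneg (sub_nonneg.2 h2) hQ
    norm_num at this ⊢
    linarith
  · have hQ : 0 ≤ 0.063751444 - 0.0029 * (v + 0.6844) - 0.11002 * (v ^ 2 + v * 0.6844 + 0.6844 ^ 2)
      + 0.030848 * (v ^ 3 + v ^ 2 * 0.6844 + v * 0.6844 ^ 2 + 0.6844 ^ 3) +
      0.09728 * (v ^ 4 + v ^ 3 * 0.6844 + v ^ 2 * 0.6844 ^ 2 + v * 0.6844 ^ 3 + 0.6844 ^ 4) := by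
      norm_num
      linarith
    have := mul_nonneg (sub_nonneg.2 h1) hQ
    norm_num at this ⊢
    linarith

private theorem F3_poly₃ {v : ℝ} (h1 : 0.99448 ≤ v) (h2 : v ≤ 1) :
    -0.4819 ≤ 7 * F3_P (-v) ∧ 7 * F3_P (-v) ≤ -0.46901 := by
  unfold F3_P
  have h0 : (0 : ℝ) ≤ v := by linarith
  have a1 : v ^ 2 ≤ 1 := pow_le_one₀ h0 h2
  have a2 : 0.98899 ≤ v ^ 2 := by nlinarith
  have a3 := pow_le_pow_left₀ (by norm_num) h1 3
  have a4 := pow_le_pow_left₀ (by norm_num) h1 4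
  norm_num at a3 a4
  constructor
  · have hQ : 0 ≤ 0.063751444 - 0.0029 * (v + 1) - 0.11002 * (v ^ 2 + v * 1 + 1 ^ 2)
      + 0.030848 * (v ^ 3 + v ^ 2 * 1 + v * 1 ^ 2 + 1 ^ 3) +
      0.09728 * (v ^ 4 + v ^ 3 * 1 + v ^ 2 * 1 ^ 2 + v * 1 ^ 3 + 1 ^ 4) := by
      norm_num
      linarith
    have := mul_nonneg (sub_nonneg.2 h2) hQ
    norm_num at this ⊢
    linarith
  · have hQ : 0 ≤ 0.063751444 - 0.0029 * (v + 0.99448) -
      0.11002 * (v ^ 2 + v * 0.99448 + 0.99448 ^ 2)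
      + 0.030848 * (v ^ 3 + v ^ 2 * 0.99448 + v * 0.99448 ^ 2 + 0.99448 ^ 3) +
      0.09728 * (v ^ 4 + v ^ 3 * 0.99448 + v ^ 2 * 0.99448 ^ 2 + v * 0.99448 ^ 3 + 0.99448 ^ 4) := by
      norm_num
      linarith
    have := mul_nonneg (sub_nonneg.2 h1) hQ
    norm_num at this ⊢
    linarith

/-- The slopes of the potential near the three points. -/
theorem Wx_slope₁ {x y : ℝ} (hy : -0.1921 ≤ y) (hyx : y ≤ x) (hx : x ≤ -0.1665) :
    0.163 * (x - y) ≤ Wx x - Wx y ∧ Wx x - Wx y ≤ 0.2045 * (x - y) := by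
  refine F3_mvt (A := -0.1921) (B := -0.1665) ?_ hy hyx hx
  intro t ht1 ht2
  have hπ1 := Real.pi_gt_d6
  have hπ2 := Real.pi_lt_d6
  have e : Real.cos (7 * t) = Real.sin (Real.pi / 2 + 7 * t) := by
    rw [← Real.cos_neg (7 * t), ← Real.sin_pi_div_two_sub]
    congr 1
    ring
  have l1 : Real.sin 0.22609 ≤ Real.cos (7 * t) := by
    rw [e]
    exact Real.sin_le_sin_of_le_of_le_pi_div_two (by linarith) (by linarith) (by linarith)
  have l2 : Real.cos (7 * t) ≤ Real.sin 0.4053 := by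
    rw [e]
    exact Real.sin_le_sin_of_le_of_le_pi_div_two (by linarith) (by linarith) (by linarith)
  have l3 := Real.sin_ge_sub_cube (x := 0.22609) (by norm_num)
  have l4 := F3_sin_up (x := 0.4053) (by norm_num)
  have l5 : 0.2241 ≤ Real.cos (7 * t) := le_trans (by norm_num) (l3.trans l1)
  have l6 : Real.cos (7 * t) ≤ 0.3943 := (l2.trans l4).trans (by norm_num)
  have l7 := F3_poly₁ l5 l6
  constructor
  · exact le_trans (by norm_num) l7.1
  · exact l7.2.trans (by norm_num)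

theorem Wx_slope₂ {x y : ℝ} (hy : -0.3578 ≤ y) (hyx : y ≤ x) (hx : x ≤ -0.3321) :
    -0.194 * (x - y) ≤ Wx x - Wx y ∧ Wx x - Wx y ≤ -0.1275 * (x - y) := by
  refine F3_mvt (A := -0.3578) (B := -0.3321) ?_ hy hyx hx
  intro t ht1 ht2
  have hπ1 := Real.pi_gt_d6
  have hπ2 := Real.pi_lt_d6
  have e : Real.cos (7 * t) = -Real.cos (Real.pi + 7 * t) := by
    rw [add_comm, Real.cos_add_pi, neg_neg]
  have l1 : Real.cos (Real.pi + 7 * t) ≤ Real.cos 0.63699 :=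
    Real.cos_le_cos_of_nonneg_of_le_pi (by norm_num) (by linarith) (by linarith)
  have l2 : Real.cos 0.81691 ≤ Real.cos (Real.pi + 7 * t) :=
    Real.cos_le_cos_of_nonneg_of_le_pi (by linarith) (by linarith) (by linarith)
  have l3 := F3_cos_up (x := 0.63699) (by norm_num)
  have l4 := F3_cos_lo (x := 0.81691) (by norm_num)
  have l5 : 0.6844 ≤ Real.cos (Real.pi + 7 * t) := le_trans (by norm_num) (l4.trans l2)
  have l6' : Real.cos (Real.pi + 7 * t) ≤ 0.804 := (l1.trans l3).trans (by norm_num)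
  have l7 := F3_poly₂ l5 l6'
  rw [e]
  constructor
  · exact le_trans (by norm_num) l7.1
  · exact l7.2.trans (by norm_num)

theorem Wx_slope₃ {x y : ℝ} (hy : -(ww / 2) - 0.015 ≤ y) (hyx : y ≤ x)
    (hx : x ≤ -(ww / 2) + 0.015) :
    -0.482 * (x - y) ≤ Wx x - Wx y ∧ Wx x - Wx y ≤ -0.469 * (x - y) := by
  refine F3_mvt (A := -(ww / 2) - 0.015) (B := -(ww / 2) + 0.015) ?_ hy hyx hx
  intro t ht1 ht2
  have e : Real.cos (7 * t) = -Real.cos (7 * (t + ww / 2)) := by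
    have h1 : 7 * (t + ww / 2) = 7 * t + Real.pi := by
      unfold ww
      ring
    rw [h1, Real.cos_add_pi, neg_neg]
  have h2 : (t + ww / 2) ^ 2 ≤ 0.015 ^ 2 := by
    refine sq_le_sq' ?_ ?_ <;> linarith
  have l5 : 0.99448 ≤ Real.cos (7 * (t + ww / 2)) := by
    refine le_trans ?_ Real.one_sub_sq_div_two_le_cos
    nlinarith
  have l7 := F3_poly₃ l5 (Real.cos_le_one _)
  rw [e]
  constructor
  · exact le_trans (by norm_num) l7.1
  · exact l7.2.trans (by norm_num)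

/-- The potential on the axis of rotations. -/
theorem Wx_axis (s : ℝ) : Wx (s - ww / 2) - Wx s =
    -(2 * (a₁x * Real.sin (7 * s) + 965 / 10 ^ 6 * Real.sin (21 * s) +
      1216 / 10 ^ 6 * Real.sin (35 * s))) := by
  unfold Wx
  have h7 : Real.sin (7 * (s - ww / 2)) = -Real.sin (7 * s) := by
    rw [show 7 * (s - ww / 2) = 7 * s - Real.pi by unfold ww; ring, Real.sin_sub_pi]
  have h14 : Real.sin (14 * (s - ww / 2)) = Real.sin (14 * s) := by
    rw [show 14 * (s - ww / 2) = 14 * s - 2 * Real.pi by unfold ww; ring, Real.sin_sub_two_pi]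
  have h21 : Real.sin (21 * (s - ww / 2)) = -Real.sin (21 * s) := by
    rw [show 21 * (s - ww / 2) = 21 * s - 2 * Real.pi - Real.pi by unfold ww; ring,
      Real.sin_sub_pi, Real.sin_sub_two_pi]
  have h28 : Real.sin (28 * (s - ww / 2)) = Real.sin (28 * s) := by
    rw [show 28 * (s - ww / 2) = 28 * s - 2 * Real.pi - 2 * Real.pi by unfold ww; ring,
      Real.sin_sub_two_pi, Real.sin_sub_two_pi]
  have h35 : Real.sin (35 * (s - ww / 2)) = -Real.sin (35 * s) := by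
    rw [show 35 * (s - ww / 2) = 35 * s - 2 * Real.pi - 2 * Real.pi - Real.pi by unfold ww; ring,
      Real.sin_sub_pi, Real.sin_sub_two_pi, Real.sin_sub_two_pi]
  rw [h7, h14, h21, h28, h35]
  ring

theorem Wx_axis_bd {s : ℝ} (hs : |s| ≤ 0.0079) :
    |Wx (s - ww / 2) - Wx s + k0 * s| ≤ 0.25 * s ^ 2 := by
  have hk : k0 = 14 * a₁x + 42 * (965 / 10 ^ 6) + 70 * (1216 / 10 ^ 6) := by
    unfold a₁x
    ring
  have ha := abs_le.1 a₁x_bd
  rw [Wx_axis]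
  have e : -(2 * (a₁x * Real.sin (7 * s) + 965 / 10 ^ 6 * Real.sin (21 * s) +
      1216 / 10 ^ 6 * Real.sin (35 * s))) + k0 * s =
      2 * a₁x * (7 * s - Real.sin (7 * s)) + 2 * (965 / 10 ^ 6) * (21 * s - Real.sin (21 * s)) +
        2 * (1216 / 10 ^ 6) * (35 * s - Real.sin (35 * s)) := by
    rw [hk]
    ring
  rw [e]
  have h0 : ∀ k : ℝ, 0 ≤ k → |k * s - Real.sin (k * s)| ≤ k ^ 3 * |s| ^ 3 / 6 := by
    intro k hk
    have h1 := Real.abs_sub_sin_le (k * s)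
    rw [abs_mul, abs_of_nonneg hk, mul_pow] at h1
    exact h1
  have h7 := h0 7 (by norm_num)
  have h21 := h0 21 (by norm_num)
  have h35 := h0 35 (by norm_num)
  have hs0 : 0 ≤ |s| := abs_nonneg s
  have hs3 : |s| ^ 3 ≤ 0.0079 * s ^ 2 := by
    have : |s| ^ 3 = |s| * s ^ 2 := by
      rw [← sq_abs s]
      ring
    rw [this]
    exact mul_le_mul_of_nonneg_right hs (sq_nonneg s)
  have hs3' : 0 ≤ |s| ^ 3 := by positivity
  have ha1 : 0 ≤ a₁x := by linarith [ha.1]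
  have ha2 : a₁x ≤ 0.0421 := by linarith [ha.2]
  have t1 : |2 * a₁x * (7 * s - Real.sin (7 * s))| ≤ 2 * 0.0421 * (7 ^ 3 * |s| ^ 3 / 6) := by
    rw [abs_mul, abs_of_nonneg (by linarith : (0 : ℝ) ≤ 2 * a₁x)]
    exact mul_le_mul (by linarith) h7 (abs_nonneg _) (by norm_num)
  have t2 : |2 * (965 / 10 ^ 6) * (21 * s - Real.sin (21 * s))| ≤
      2 * (965 / 10 ^ 6) * (21 ^ 3 * |s| ^ 3 / 6) := by
    rw [abs_mul, abs_of_nonneg (by norm_num : (0 : ℝ) ≤ 2 * (965 / 10 ^ 6))]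
    exact mul_le_mul_of_nonneg_left h21 (by norm_num)
  have t3 : |2 * (1216 / 10 ^ 6) * (35 * s - Real.sin (35 * s))| ≤
      2 * (1216 / 10 ^ 6) * (35 ^ 3 * |s| ^ 3 / 6) := by
    rw [abs_mul, abs_of_nonneg (by norm_num : (0 : ℝ) ≤ 2 * (1216 / 10 ^ 6))]
    exact mul_le_mul_of_nonneg_left h35 (by norm_num)
  refine (abs_add_le _ _).trans ?_
  refine (add_le_add (abs_add_le _ _) le_rfl).trans ?_
  have hs2 : 0 ≤ s ^ 2 := sq_nonneg s
  norm_num at t1 t2 t3 hs3 ⊢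
  linarith

end Hepta
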