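import Pool.Agent.H69.Hep.F2
import Pool.Agent.H69.Hep.F3

/-! # F4: the inequality on the axis of rotations -/

set_option autoImplicit false

namespace Hepta

private theorem F4_gu : 9 * gu ≤ 0.0079 := by
  have h := Real.pi_lt_d6
  unfold gu
  linarith

private theorem F4_NN {s : ℝ} (hc : Real.cos s ≠ 0) :
    NN s 0 0 = 2 * Real.sin ww * (Ms - k0 * Real.tan s +
      2 * FF ^ 2 * Real.sin (3 / 2 * ww) * Real.tan s ^ 2) := by
  have hsw : Real.sin ww ≠ 0 := by
    have := s_one.1
    intro h0
    rw [h0] at this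
    norm_num at this
  have hgg : gg 0 = 2 := by
    unfold gg
    simp
    norm_num
  have hGG : GG (0 + 0) = 2 * FF := by
    unfold GG FF
    rw [add_zero, Real.cos_zero]
    ring
  have haa : aa s 0 = Real.cos ww - Real.sin ww * Real.tan s := by
    unfold aa
    rw [min_self, sub_zero, Real.cos_add, Real.tan_eq_sin_div_cos]
    field_simp
  have hbb : bb s 0 0 = Real.cos (3 / 2 * ww) + Real.sin (3 / 2 * ww) * Real.tan s := by
    unfold bb
    rw [min_self, add_zero, add_zero, Real.cos_sub, Real.tan_eq_sin_div_cos]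
    field_simp
  have hhalf : Real.sin (ww / 2) = Real.cos ww * Real.sin (3 / 2 * ww) -
      Real.sin ww * Real.cos (3 / 2 * ww) := by
    have h1 : ww / 2 = 3 / 2 * ww - ww := by ring
    rw [h1, Real.sin_sub]
    ring
  have hMs : Ms * Real.sin ww =
      2 * FF * (Real.cos ww + Real.cos (3 / 2 * ww) -
        FF * (Real.cos ww * Real.cos (3 / 2 * ww))) := by
    unfold Ms
    rw [div_mul_cancel₀ _ hsw]
  have hk0 : k0 * Real.sin ww =
      2 * FF * (Real.sin ww + FF * Real.sin (ww / 2) - Real.sin (3 / 2 * ww)) := by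
    unfold k0
    rw [div_mul_cancel₀ _ hsw]
  rw [hhalf] at hk0
  unfold NN
  rw [hgg, hGG, haa, hbb]
  linear_combination -2 * hMs + 2 * Real.tan s * hk0

/-- On the axis. -/
theorem NN_zero {s : ℝ} (hs : |s| ≤ 9 * gu) :
    2 * Real.sin ww * (Ms + (Wx (s - ww / 2) - Wx s)) ≤ NN s 0 0 := by
  have hs1 : |s| ≤ 0.0079 := hs.trans F4_gu
  obtain ⟨hsl, hsu⟩ := abs_le.1 hs1
  have hcos : 0.99 ≤ Real.cos s := by
    have := Real.one_sub_sq_div_two_le_cos (x := s)
    nlinarith
  have hc0 : Real.cos s ≠ 0 := by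
    intro h0
    rw [h0] at hcos
    norm_num at hcos
  rw [F4_NN hc0]
  have hsw := s_one.1
  have hax := (abs_le.1 (Wx_axis_bd hs1)).2
  have hpi := Real.pi_gt_three
  have hk1 := k0_bd.1
  have hk2 := k0_bd.2
  have hF := FF_bd.1
  have hs3 := s_three.1
  have hFF : (2 : ℝ) ≤ 2 * FF ^ 2 * Real.sin (3 / 2 * ww) := by
    have h1 : (1.1 : ℝ) ≤ FF ^ 2 := by nlinarith
    nlinarith
  have ht2 : s ^ 2 ≤ Real.tan s ^ 2 ∧ k0 * (Real.tan s - s) ≤ 0.006 * s ^ 2 := by
    rcases lt_trichotomy s 0 with h0 | h0 | h0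
    · have h1 : -s < Real.tan (-s) := Real.lt_tan (by linarith) (by linarith)
      rw [Real.tan_neg] at h1
      constructor
      · nlinarith
      · have h2 : Real.tan s - s ≤ 0 := by linarith
        have h3 : 0 ≤ s ^ 2 := sq_nonneg s
        nlinarith
    · subst h0
      simp
    · have h1 : s < Real.tan s := Real.lt_tan h0 (by linarith)
      constructor
      · nlinarith
      · have h2 : Real.tan s * Real.cos s = Real.sin s := by
          rw [Real.tan_eq_sin_div_cos, div_mul_cancel₀ _ hc0]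
        have h3 : Real.sin s ≤ s := Real.sin_le h0.le
        have h4 := Real.one_sub_sq_div_two_le_cos (x := s)
        have h5 : Real.tan s ≤ 2 * s := by
          by_contra h6
          rw [not_le] at h6
          nlinarith
        have h6 : Real.tan s - s ≤ 2 * s * (s ^ 2 / 2) := by
          have h7 : Real.tan s * (1 - s ^ 2 / 2) ≤ s := by
            have h8 : Real.tan s * (1 - s ^ 2 / 2) ≤ Real.tan s * Real.cos s :=
              mul_le_mul_of_nonneg_left h4 (by linarith)
            linarith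
          have h9 : Real.tan s * (s ^ 2 / 2) ≤ 2 * s * (s ^ 2 / 2) :=
            mul_le_mul_of_nonneg_right h5 (by positivity)
          linarith
        have h10 : s * s ^ 2 ≤ 0.0079 * s ^ 2 := mul_le_mul_of_nonneg_right hsu (sq_nonneg s)
        have h8 : k0 * (Real.tan s - s) ≤ 0.7142 * (Real.tan s - s) :=
          mul_le_mul_of_nonneg_right (by linarith) (by linarith)
        have h9 : Real.tan s - s ≤ 0.0079 * s ^ 2 := by linarith
        have h11 : 0 ≤ s ^ 2 := sq_nonneg s
        linarith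
  have h3 : Real.tan s ^ 2 * 2 ≤ 2 * FF ^ 2 * Real.sin (3 / 2 * ww) * Real.tan s ^ 2 := by
    have := mul_le_mul_of_nonneg_right hFF (sq_nonneg (Real.tan s))
    linarith
  refine mul_le_mul_of_nonneg_left ?_ (by linarith)
  obtain ⟨h4, h5⟩ := ht2
  have h6 : 0 ≤ s ^ 2 := sq_nonneg s
  linarith

end Hepta
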