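import Pool.Agent.H69.Hep.F5d

/-! # F5: the numerical bounds for the parts -/

set_option autoImplicit false

namespace Hepta

theorem F5_bd {s p₁ p₂ f : ℝ} (hs' : |s| ≤ 0.0079) (hx : |p₁| ≤ 0.0036) (hy : |p₂| ≤ 0.0036)
    (ht1 : |Real.tan s| ≤ 0.00791) (hf : |f + 0.71416 * s| ≤ 0.0001) :
    Bd (2 * FF) (Real.tan (ww / 2)) (Real.cos ww) (Real.sin ww) (a0 s) (b0 s)
      (Real.sin ww + Real.cos ww * Real.tan s) (Real.sin (3 / 2 * ww) - Real.cos (3 / 2 * ww) *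
      Real.tan s) (2 * FF * (2 - 2 * FF * Real.cos ww) + 2 * FF * (2 * FF) * Real.sin ww *
      Real.tan s) (2 * FF * (2 - 2 * FF * Real.cos (3 / 2 * ww)) - 2 * FF * (2 * FF) *
      Real.sin (3 / 2 * ww) * Real.tan s) Ms f |p₁| |p₂| := by
  have cn := F5_cn
  obtain ⟨A1, A2⟩ := c_one
  obtain ⟨B1, B2⟩ := c_three
  obtain ⟨S1, S2⟩ := s_one
  obtain ⟨R1, R2⟩ := s_three
  obtain ⟨T1, T2⟩ := t_half
  obtain ⟨M1, M2⟩ := Ms_bd
  obtain ⟨F1, F2⟩ := FF_bd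
  obtain ⟨m1, m1'⟩ := cn.m1
  obtain ⟨m2, m2'⟩ := cn.m2
  obtain ⟨m3, m3'⟩ := cn.m3
  obtain ⟨m4, m4'⟩ := cn.m4
  obtain ⟨ta, tb⟩ := abs_le.1 ht1
  have hff := abs_le.1 hf
  have hss := abs_le.1 hs'
  have b1 := F5_mul S1 S2 ht1
  have b2 := F5_mul R1 R2 ht1
  have b3 := F5_mul A1 A2 ht1
  have b4 := F5_mul B1 B2 ht1
  have b5 := F5_mul m2 m2' ht1
  have b6 := F5_mul m4 m4' ht1
  refine ⟨⟨?_, ?_⟩, ⟨?_, ?_⟩, ⟨?_, ?_⟩, ⟨?_, ?_⟩, ⟨?_, ?_⟩, ⟨?_, ?_⟩, ⟨?_, ?_⟩, ⟨?_, ?_⟩, ⟨?_, ?_⟩,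
    ⟨?_, ?_⟩, ⟨?_, ?_⟩, ⟨abs_nonneg _, hx⟩, ⟨abs_nonneg _, hy⟩⟩
  · linarith only [F1]
  · linarith only [F2]
  · linarith only [T1]
  · linarith only [T2]
  · linarith only [A1]
  · linarith only [A2]
  · linarith only [S1]
  · linarith only [S2]
  · unfold a0; linarith only [b1.2, tb, A1]
  · unfold a0; linarith only [b1.1, ta, A2]
  · unfold b0; linarith only [b2.1, ta, B1]
  · unfold b0; linarith only [b2.2, tb, B2]
  · linarith only [b3.1, ta, S1]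
  · linarith only [b3.2, tb, S2]
  · linarith only [b4.2, tb, R1]
  · linarith only [b4.1, ta, R2]
  · linarith only [b5.1, ta, m1]
  · linarith only [b5.2, tb, m1']
  · linarith only [b6.2, tb, m3]
  · linarith only [b6.1, ta, m3']
  · linarith only [hff.1, hss.2, M1]
  · linarith only [hff.2, hss.1, M2]

end Hepta
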