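import Pool.Agent.H69.Hep.F5d

/-! # F5, the case of two nonnegative angles -/

set_option autoImplicit false

namespace Hepta

theorem F5_pp {F T A₀ S₁ a b k₁ k₃ n₁ n₃ M f x y g₁ g₂ B dS D : ℝ}
    (h : Bd F T A₀ S₁ a b k₁ k₃ n₁ n₃ M f x y)
    (hX : 0.07 ≤ F * T * b - n₁ * k₃ + 2 * (A₀ * (M + f)) - 2 * 0.6865 * S₁)
    (hY : 0.07 ≤ F * T * a - 2 * 0.3545 * S₁)
    (hB : |B - b + x * k₃| ≤ 0.13 * x ^ 2) (h₁ : T * x - 0.501 * x ^ 2 ≤ g₁ - 2)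
    (h₂ : T * y - 0.501 * y ^ 2 ≤ g₂ - 2) (hS : -A₀ * x - 0.4 * x ^ 2 ≤ dS)
    (hS' : dS ≤ -A₀ * x + 0.001 * x ^ 2) (hD : D ≤ 0.6865 * x + 0.3545 * y) :
    2 * (S₁ + dS) * (M + f + D) - 2 * S₁ * (M + f) ≤
      F * ((g₁ - 2) * B + (g₂ - 2) * a) + n₁ * (B - b) - 0.7 * (x + y) ^ 2 := by
  obtain ⟨⟨F1, F2⟩, ⟨T1, T2⟩, ⟨A1, A2⟩, ⟨S1, S2⟩, ⟨a1, a2⟩, ⟨b1, b2⟩, -, ⟨k1, k2⟩, ⟨n1, n2⟩, -,
    ⟨M1, M2⟩, ⟨x1, x2⟩, ⟨y1, y2⟩⟩ := h
  rw [abs_le] at hB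
  obtain ⟨hB1, hB2⟩ := hB
  have hxx : x ^ 2 ≤ 0.0036 * x := by linarith only [mul_le_mul_of_nonneg_right x2 x1]
  have hyy : y ^ 2 ≤ 0.0036 * y := by linarith only [mul_le_mul_of_nonneg_right y2 y1]
  have hxy : (x + y) ^ 2 ≤ 0.0072 * (x + y) := by
    linarith only [mul_le_mul_of_nonneg_right (add_le_add x2 y2) (add_nonneg x1 y1)]
  have hx2 := sq_nonneg x
  have hy2 := sq_nonneg y
  -- the sine
  have hdS0 : dS ≤ 0 := by
    have h3 : 0.6234 * x ≤ A₀ * x := mul_le_mul_of_nonneg_right A1 x1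
    linarith only [h3, hS', hxx, x1]
  have hA0x : A₀ * x ≤ 0.6235 * x := mul_le_mul_of_nonneg_right A2 x1
  have hdS1 : 0 ≤ S₁ + dS := by
    linarith only [hS, hA0x, hxx, S1, x1, x2]
  have hDb : 0 ≤ 0.6865 * x + 0.3545 * y := by positivity
  have l1 : (S₁ + dS) * D ≤ S₁ * (0.6865 * x + 0.3545 * y) := by
    refine (mul_le_mul_of_nonneg_left hD hdS1).trans ?_
    exact mul_le_mul_of_nonneg_right (by linarith only [hdS0]) hDb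
  have l2 : dS * (M + f) ≤ (-A₀ * x + 0.001 * x ^ 2) * (M + f) :=
    mul_le_mul_of_nonneg_right hS' (by linarith only [M1])
  have l3 : 0.001 * x ^ 2 * (M + f) ≤ 0.001 * x ^ 2 * 1.9 :=
    mul_le_mul_of_nonneg_left M2 (by positivity)
  -- the cosine
  have hkx : x * k₃ ≤ 0.978 * x := by linarith only [mul_le_mul_of_nonneg_left k2 x1]
  have hB3 : b - 0.98 * x ≤ B := by
    linarith only [hB1, hkx, hxx, x1]
  have hB4 : B ≤ 0.24 := by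
    have : 0 ≤ x * k₃ := by positivity
    linarith only [this, hB2, hxx, x1, x2, b2]
  have hB0 : 0 ≤ B := by
    linarith only [hB3, b1, x2]
  have m1 : (T * x - 0.501 * x ^ 2) * B ≤ (g₁ - 2) * B := mul_le_mul_of_nonneg_right h₁ hB0
  have m2 : T * x * (b - 0.98 * x) ≤ T * x * B :=
    mul_le_mul_of_nonneg_left hB3 (by positivity)
  have m3 : 0.501 * x ^ 2 * B ≤ 0.501 * x ^ 2 * 0.24 :=
    mul_le_mul_of_nonneg_left hB4 (by positivity)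
  have m4 : T * (0.98 * x ^ 2) ≤ 0.4816 * (0.98 * x ^ 2) :=
    mul_le_mul_of_nonneg_right T2 (by positivity)
  have m5 : (T * y - 0.501 * y ^ 2) * a ≤ (g₂ - 2) * a :=
    mul_le_mul_of_nonneg_right h₂ (by linarith only [a1])
  have m6 : 0.501 * y ^ 2 * a ≤ 0.501 * y ^ 2 * 0.63 :=
    mul_le_mul_of_nonneg_left a2 (by positivity)
  have m7 : T * x * b + T * y * a - 0.6 * x ^ 2 - 0.32 * y ^ 2 ≤ (g₁ - 2) * B + (g₂ - 2) * a := by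
    linarith only [m1, m2, m3, m4, m5, m6, hx2, hy2]
  have m8 : F * (T * x * b + T * y * a - 0.6 * x ^ 2 - 0.32 * y ^ 2) ≤
      F * ((g₁ - 2) * B + (g₂ - 2) * a) := mul_le_mul_of_nonneg_left m7 (by linarith only [F1])
  have m9 : F * (0.6 * x ^ 2 + 0.32 * y ^ 2) ≤ 2.11 * (0.6 * x ^ 2 + 0.32 * y ^ 2) :=
    mul_le_mul_of_nonneg_right F2 (by positivity)
  have m10 : n₁ * (-(x * k₃) - 0.13 * x ^ 2) ≤ n₁ * (B - b) :=
    mul_le_mul_of_nonneg_left (by linarith only [hB1]) (by linarith only [n1])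
  have m11 : n₁ * (0.13 * x ^ 2) ≤ 1.5 * (0.13 * x ^ 2) :=
    mul_le_mul_of_nonneg_right n2 (by positivity)
  have c1 : 0.07 * x ≤ (F * T * b - n₁ * k₃ + 2 * (A₀ * (M + f)) - 2 * 0.6865 * S₁) * x :=
    mul_le_mul_of_nonneg_right hX x1
  have c2 : 0.07 * y ≤ (F * T * a - 2 * 0.3545 * S₁) * y := mul_le_mul_of_nonneg_right hY y1
  linarith only [l1, l2, l3, m8, m9, m10, m11, c1, c2, hxx, hyy, hxy, hx2, hy2, x1, y1]

end Hepta
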