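import Pool.Agent.H69.Hep.F5d

/-! # F5, the case of two nonpositive angles -/

set_option autoImplicit false

namespace Hepta

theorem F5_mm {F T A₀ S₁ a b k₁ k₃ n₁ n₃ M f x y g₁ g₂ A B dS D : ℝ}
    (h : Bd F T A₀ S₁ a b k₁ k₃ n₁ n₃ M f x y)
    (hX : 0.05 ≤ F * T * b + n₁ * k₃ - n₃ * k₁ + 2 * 0.632 * S₁)
    (hY : 0.08 ≤ F * T * a + n₁ * k₃ - 2 * (A₀ * (M + f)) + 2 * 0.275 * S₁)
    (hB : |B - b - (x + y) * k₃| ≤ 0.13 * (x + y) ^ 2) (hA : -(x * k₁) - 0.33 * x ^ 2 ≤ A - a)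
    (hA' : A - a ≤ -(x * k₁)) (h₁ : T * x - 0.501 * x ^ 2 ≤ g₁ - 2)
    (h₂ : T * y - 0.501 * y ^ 2 ≤ g₂ - 2) (hS : A₀ * y - 0.4 * y ^ 2 ≤ dS)
    (hS' : dS ≤ A₀ * y + 0.001 * y ^ 2) (hD : D ≤ -(0.632 * x) - 0.275 * y) :
    2 * (S₁ + dS) * (M + f + D) - 2 * S₁ * (M + f) ≤
      F * ((g₁ - 2) * B + (g₂ - 2) * A) + n₁ * (B - b) + n₃ * (A - a) -
        F ^ 2 * ((A - a) * (B - b)) - 0.7 * (x + y) ^ 2 := by
  obtain ⟨⟨F1, F2⟩, ⟨T1, T2⟩, ⟨A1, A2⟩, ⟨S1, S2⟩, ⟨a1, a2⟩, ⟨b1, b2⟩, ⟨j1, j2⟩, ⟨k1, k2⟩, ⟨n1, n2⟩,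
    ⟨i1, i2⟩, ⟨M1, M2⟩, ⟨x1, x2⟩, ⟨y1, y2⟩⟩ := h
  rw [abs_le] at hB
  obtain ⟨hB1, hB2⟩ := hB
  have hxx : x ^ 2 ≤ 0.0036 * x := by linarith only [mul_le_mul_of_nonneg_right x2 x1]
  have hyy : y ^ 2 ≤ 0.0036 * y := by linarith only [mul_le_mul_of_nonneg_right y2 y1]
  have hxy : (x + y) ^ 2 ≤ 0.0072 * (x + y) := by
    linarith only [mul_le_mul_of_nonneg_right (add_le_add x2 y2) (add_nonneg x1 y1)]
  have hxyy : 0 ≤ x * y := mul_nonneg x1 y1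
  have hxy2 : x * y ≤ 0.0036 * x := by linarith only [mul_le_mul_of_nonneg_left y2 x1]
  have hx2 := sq_nonneg x
  have hy2 := sq_nonneg y
  have hz2 := sq_nonneg (x + y)
  have hxk : 0.972 * x ≤ x * k₃ ∧ x * k₃ ≤ 0.978 * x :=
    ⟨by linarith only [mul_le_mul_of_nonneg_left k1 x1], by linarith only [mul_le_mul_of_nonneg_left k2 x1]⟩
  have hyk : 0.972 * y ≤ y * k₃ ∧ y * k₃ ≤ 0.978 * y :=
    ⟨by linarith only [mul_le_mul_of_nonneg_left k1 y1], by linarith only [mul_le_mul_of_nonneg_left k2 y1]⟩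
  have hyA : 0.6234 * y ≤ A₀ * y ∧ A₀ * y ≤ 0.6235 * y :=
    ⟨mul_le_mul_of_nonneg_right A1 y1, mul_le_mul_of_nonneg_right A2 y1⟩
  have hxj : 0.776 * x ≤ x * k₁ ∧ x * k₁ ≤ 0.788 * x :=
    ⟨by linarith only [mul_le_mul_of_nonneg_left j1 x1], by linarith only [mul_le_mul_of_nonneg_left j2 x1]⟩
  have hdS0 : 0 ≤ dS := by linarith only [hS, hyA.1, hyy, y1]
  have l1 : (S₁ + dS) * D ≤ S₁ * (-(0.632 * x) - 0.275 * y) := by
    refine (mul_le_mul_of_nonneg_left hD (by linarith only [hdS0, S1])).trans ?_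
    have h3 : dS * (-(0.632 * x) - 0.275 * y) ≤ 0 :=
      mul_nonpos_of_nonneg_of_nonpos hdS0 (by linarith only [x1, y1])
    linarith only [h3]
  have l2 : dS * (M + f) ≤ (A₀ * y + 0.001 * y ^ 2) * (M + f) :=
    mul_le_mul_of_nonneg_right hS' (by linarith only [M1])
  have l3 : 0.001 * y ^ 2 * (M + f) ≤ 0.001 * y ^ 2 * 1.9 :=
    mul_le_mul_of_nonneg_left M2 (by positivity)
  have hB3 : b ≤ B := by linarith only [hB1, hxk.1, hyk.1, hxy, x1, y1]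
  have hB4 : B ≤ 0.24 := by linarith only [hB2, hxk.2, hyk.2, hxy, x1, y1, x2, y2, b2]
  have hA3 : a - 0.8 * x ≤ A := by linarith only [hA, hxj.2, hxx, x1]
  have hA4 : A ≤ a := by linarith only [hA', hxj.1, x1]
  have m1 : (T * x - 0.501 * x ^ 2) * B ≤ (g₁ - 2) * B :=
    mul_le_mul_of_nonneg_right h₁ (by linarith only [hB3, b1])
  have m2 : T * x * b ≤ T * x * B := mul_le_mul_of_nonneg_left hB3 (by positivity)
  have m3 : 0.501 * x ^ 2 * B ≤ 0.501 * x ^ 2 * 0.24 :=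
    mul_le_mul_of_nonneg_left hB4 (by positivity)
  have m5 : (T * y - 0.501 * y ^ 2) * A ≤ (g₂ - 2) * A :=
    mul_le_mul_of_nonneg_right h₂ (by linarith only [hA3, a1, x2])
  have m6 : 0.501 * y ^ 2 * A ≤ 0.501 * y ^ 2 * 0.63 :=
    mul_le_mul_of_nonneg_left (by linarith only [hA4, a2]) (by positivity)
  have m4 : T * y * (a - 0.8 * x) ≤ T * y * A := mul_le_mul_of_nonneg_left hA3 (by positivity)
  have m4' : T * (0.8 * (x * y)) ≤ 0.4816 * (0.8 * (x * y)) :=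
    mul_le_mul_of_nonneg_right T2 (by positivity)
  have m7 : T * x * b + T * y * a - 0.13 * x ^ 2 - 0.32 * y ^ 2 - 0.4 * (x * y) ≤
      (g₁ - 2) * B + (g₂ - 2) * A := by
    linarith only [m1, m2, m3, m4, m4', m5, m6, hx2, hy2, hxyy]
  have m8 : F * (T * x * b + T * y * a - 0.13 * x ^ 2 - 0.32 * y ^ 2 - 0.4 * (x * y)) ≤
      F * ((g₁ - 2) * B + (g₂ - 2) * A) := mul_le_mul_of_nonneg_left m7 (by linarith only [F1])
  have m9 : F * (0.13 * x ^ 2 + 0.32 * y ^ 2 + 0.4 * (x * y)) ≤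
      2.11 * (0.13 * x ^ 2 + 0.32 * y ^ 2 + 0.4 * (x * y)) :=
    mul_le_mul_of_nonneg_right F2 (by positivity)
  have m10 : n₁ * ((x + y) * k₃ - 0.13 * (x + y) ^ 2) ≤ n₁ * (B - b) :=
    mul_le_mul_of_nonneg_left (by linarith only [hB1]) (by linarith only [n1])
  have m11 : n₁ * (0.13 * (x + y) ^ 2) ≤ 1.5 * (0.13 * (x + y) ^ 2) :=
    mul_le_mul_of_nonneg_right n2 (by positivity)
  have m12 : n₃ * (-(x * k₁) - 0.33 * x ^ 2) ≤ n₃ * (A - a) :=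
    mul_le_mul_of_nonneg_left hA (by linarith only [i1])
  have m13 : n₃ * (0.33 * x ^ 2) ≤ 3.3 * (0.33 * x ^ 2) :=
    mul_le_mul_of_nonneg_right i2 (by positivity)
  have m14 : F ^ 2 * ((A - a) * (B - b)) ≤ 0 :=
    mul_nonpos_of_nonneg_of_nonpos (sq_nonneg _)
      (mul_nonpos_of_nonpos_of_nonneg (by linarith only [hA4]) (by linarith only [hB3]))
  have c1 : 0.05 * x ≤ (F * T * b + n₁ * k₃ - n₃ * k₁ + 2 * 0.632 * S₁) * x :=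
    mul_le_mul_of_nonneg_right hX x1
  have c2 : 0.08 * y ≤ (F * T * a + n₁ * k₃ - 2 * (A₀ * (M + f)) + 2 * 0.275 * S₁) * y :=
    mul_le_mul_of_nonneg_right hY y1
  linarith only [l1, l2, l3, m8, m9, m10, m11, m12, m13, m14, c1, c2, hxx, hyy, hxy2, hxyy, hx2, hy2, hz2, x1, y1]

end Hepta
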