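import Pool.Agent.H69.Hep.F5c
import Pool.Agent.H69.Hep.F5e
import Pool.Agent.H69.Hep.F5p
import Pool.Agent.H69.Hep.F5q
import Pool.Agent.H69.Hep.F5r
import Pool.Agent.H69.Hep.F5s

/-! # F5: the inequality near the axis of rotations -/

set_option autoImplicit false

namespace Hepta

/-- The effect of `p₁` and `p₂`.  Here `f` is the value of the potential on the axis and `D` its
change. -/
theorem NN_diff {s p₁ p₂ f D : ℝ} (hs : |s| ≤ 9 * gu) (hp₁ : |p₁| ≤ 4 * gu)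
    (hp₂ : |p₂| ≤ 4 * gu) (hf : |f + 0.71416 * s| ≤ 0.0001)
    (hD : D ≤ max (0.6865 * p₁) (0.632 * p₁) + max (0.3545 * p₂) (0.275 * p₂)) :
    2 * Real.sin (5 / 2 * ww + max p₁ 0 + min p₂ 0) * (Ms + f + D) - 2 * Real.sin ww * (Ms + f) ≤
      NN s p₁ p₂ - NN s 0 0 := by
  have hgu := F5_gu
  have hgu0 := gu_pos
  have hs' : |s| ≤ 0.0079 := by linarith only [hs, hgu]
  have hx : |p₁| ≤ 0.0036 := by linarith only [hp₁, hgu]
  have hy : |p₂| ≤ 0.0036 := by linarith only [hp₂, hgu]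
  have ht := tan_bd hs
  have cn := F5_cn
  obtain ⟨A1, A2⟩ := c_one
  obtain ⟨B1, B2⟩ := c_three
  obtain ⟨S1, S2⟩ := s_one
  obtain ⟨R1, R2⟩ := s_three
  obtain ⟨T1, T2⟩ := t_half
  obtain ⟨M1, M2⟩ := Ms_bd
  obtain ⟨F1, F2⟩ := FF_bd
  have ht1 : |Real.tan s| ≤ 0.00791 := by
    have h := abs_add_le (Real.tan s - s) s
    rw [sub_add_cancel] at h
    norm_num at ht hs' ⊢
    linarith only [h, ht, hs']
  obtain ⟨cX, cX', cY, cY'⟩ := F5_coef cn
    ⟨by linarith only [A1], by linarith only [A2]⟩ ⟨by linarith only [S1], by linarith only [S2]⟩ hs' ht hf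
  obtain ⟨ta, tb⟩ := abs_le.1 ht1
  obtain ⟨m1, m1'⟩ := cn.m1
  obtain ⟨m2, m2'⟩ := cn.m2
  obtain ⟨m3, m3'⟩ := cn.m3
  obtain ⟨m4, m4'⟩ := cn.m4
  have hff := abs_le.1 hf
  have hss := abs_le.1 hs'
  have bd := F5_bd hs' hx hy ht1 hf
  have ea : 2 * FF * (2 - 2 * FF * Real.cos ww) + 2 * FF * (2 * FF) * Real.sin ww * Real.tan s =
      2 * FF * (2 - 2 * FF * a0 s) := by
    unfold a0
    ring
  have eb : 2 * FF * (2 - 2 * FF * Real.cos (3 / 2 * ww)) - 2 * FF * (2 * FF) *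
      Real.sin (3 / 2 * ww) * Real.tan s = 2 * FF * (2 - 2 * FF * b0 s) := by
    unfold b0
    ring
  have haa := aa_bd hs hp₁
  have hbb := bb_bd hs hp₁ hp₂
  have hg₁ := gg_bd hp₁
  have hg₂ := gg_bd hp₂
  have hGG := GG_bd (q := p₁ + p₂)
  have hNN0 : NN s 0 0 = 2 * FF * (2 * b0 s + 2 * a0 s) - (2 * FF) ^ 2 * (a0 s * b0 s) := by
    unfold NN
    rw [aa_zero hs, bb_zero hs]
    have e1 : gg 0 = 2 := by
      unfold gg
      rw [abs_zero, Real.cos_zero, Real.sin_zero]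
      norm_num
    have e2 : GG (0 + 0) = 2 * FF := by
      unfold GG FF
      rw [add_zero, Real.cos_zero]
      ring
    rw [e1, e2]
  have ha0 : a0 s = Real.cos ww - Real.sin ww * Real.tan s := rfl
  have hb0 : b0 s = Real.cos (3 / 2 * ww) + Real.sin (3 / 2 * ww) * Real.tan s := rfl
  have ha0b := bd.a
  have hb0b := bd.b
  have k1b := bd.k1
  have k3b := bd.k3
  rw [← ha0] at cY cY'
  rw [← hb0] at cX cX'
  -- bounds for `aa` and `bb`
  have hm₁ : |min p₁ 0| ≤ 0.0036 := by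
    rcases le_total p₁ 0 with h | h
    · rw [min_eq_left h]; exact hx
    · rw [min_eq_right h, abs_zero]; norm_num
  have hm₂ : |min p₂ 0| ≤ 0.0036 := by
    rcases le_total p₂ 0 with h | h
    · rw [min_eq_left h]; exact hy
    · rw [min_eq_right h, abs_zero]; norm_num
  have hA : 0.61 ≤ aa s p₁ ∧ aa s p₁ ≤ 0.64 := by
    have h1 : (min p₁ 0) ^ 2 ≤ 0.0036 ^ 2 := by
      rw [← sq_abs]
      exact pow_le_pow_left₀ (abs_nonneg _) hm₁ 2
    have h2 : |-min p₁ 0 * (Real.sin ww + Real.cos ww * Real.tan s)| ≤ 0.0036 * 0.788 := by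
      rw [abs_mul, abs_neg, abs_of_nonneg (by linarith only [k1b.1] :
        0 ≤ Real.sin ww + Real.cos ww * Real.tan s)]
      exact mul_le_mul hm₁ k1b.2 (by linarith only [k1b.1]) (by norm_num)
    have h3 := abs_le.1 h2
    constructor <;> linarith only [haa.1, haa.2, ha0b.1, ha0b.2, h1, h3.1, h3.2, sq_nonneg (min p₁ 0)]
  have hB : 0.205 ≤ bb s p₁ p₂ ∧ bb s p₁ p₂ ≤ 0.24 := by
    have h0 : |p₁ + min p₂ 0| ≤ 0.0072 := by
      refine (abs_add_le _ _).trans ?_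
      linarith only [hx, hm₂]
    have h1 : (p₁ + min p₂ 0) ^ 2 ≤ 0.0072 ^ 2 := by
      rw [← sq_abs]
      exact pow_le_pow_left₀ (abs_nonneg _) h0 2
    have h2 : |(p₁ + min p₂ 0) * (Real.sin (3 / 2 * ww) - Real.cos (3 / 2 * ww) * Real.tan s)| ≤
        0.0072 * 0.978 := by
      rw [abs_mul, abs_of_nonneg (by linarith only [k3b.1] :
        0 ≤ Real.sin (3 / 2 * ww) - Real.cos (3 / 2 * ww) * Real.tan s)]
      exact mul_le_mul h0 k3b.2 (by linarith only [k3b.1]) (by norm_num)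
    have h3 := abs_le.1 h2
    have h4 := abs_le.1 hbb
    constructor <;> linarith only [h4.1, h4.2, hb0b.1, hb0b.2, h1, h3.1, h3.2, sq_nonneg (p₁ + min p₂ 0)]
  have hgT : ∀ p : ℝ, |p| ≤ 0.0036 → gg p - 2 ≤ Real.tan (ww / 2) * |p| → gg p ≤ 2.002 := by
    intro p h1 h2
    have h3 : Real.tan (ww / 2) * |p| ≤ 0.4816 * 0.0036 :=
      mul_le_mul (by linarith only [T2]) h1 (abs_nonneg _) (by norm_num)
    linarith only [h2, h3]
  have hQ : (p₁ + p₂) ^ 2 ≤ 0.0072 ^ 2 := by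
    rw [← sq_abs]
    refine pow_le_pow_left₀ (abs_nonneg _) ((abs_add_le _ _).trans ?_) 2
    linarith only [hx, hy]
  have base := F5_base (a := a0 s) (b := b0 s) (by linarith only [F1] : (2.1099 : ℝ) ≤ 2 * FF) hGG.2 hGG.1
    (by linarith only [hGG.1, hQ, F1]) hA.1 hA.2 hB.1 hB.2 (hgT p₁ hx hg₁.2) (hgT p₂ hy hg₂.2)
  rw [← ea, ← eb] at base
  have hNN : NN s p₁ p₂ - NN s 0 0 = GG (p₁ + p₂) * (gg p₁ * bb s p₁ p₂ + gg p₂ * aa s p₁) -
      GG (p₁ + p₂) ^ 2 * (aa s p₁ * bb s p₁ p₂) -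
      (2 * FF * (2 * b0 s + 2 * a0 s) - (2 * FF) ^ 2 * (a0 s * b0 s)) := by
    rw [hNN0]
    rfl
  rw [hNN]
  refine le_trans ?_ base
  have hsv : ∀ v : ℝ, |v| ≤ 0.0072 → |v| ≤ 8 * gu → True := fun _ _ _ => trivial
  clear hsv
  rcases le_total 0 p₁ with h₁ | h₁ <;> rcases le_total 0 p₂ with h₂ | h₂
  · have e1 : max p₁ 0 = p₁ := max_eq_left h₁
    have e2 : min p₂ 0 = 0 := min_eq_right h₂
    have e3 : min p₁ 0 = 0 := min_eq_right h₁
    have e4 : aa s p₁ = a0 s := by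
      rw [e3] at haa
      norm_num at haa
      linarith only [haa.1, haa.2]
    rw [abs_of_nonneg h₁, abs_of_nonneg h₂] at bd
    rw [abs_of_nonneg h₁] at hg₁ hp₁
    rw [abs_of_nonneg h₂] at hg₂
    rw [e2, add_zero] at hbb
    have h5 := sin_five_bd (v := p₁) (by rw [abs_of_nonneg h₁]; linarith only [hp₁, hgu0])
    rw [e1, e2, add_zero, e4]
    have h6 := F5_pp (dS := Real.sin (5 / 2 * ww + p₁) - Real.sin ww) (D := D) bd cX cY hbb hg₁.1
      hg₂.1 (by linarith only [h5.1]) (by linarith only [h5.2]) (by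
        rw [max_eq_left (by linarith only [h₁]), max_eq_left (by linarith only [h₂])] at hD
        exact hD)
    rw [add_sub_cancel] at h6
    refine h6.trans (le_of_eq ?_)
    ring
  · have e1 : max p₁ 0 = p₁ := max_eq_left h₁
    have e2 : min p₂ 0 = p₂ := min_eq_left h₂
    have e3 : min p₁ 0 = 0 := min_eq_right h₁
    have e4 : aa s p₁ = a0 s := by
      rw [e3] at haa
      norm_num at haa
      linarith only [haa.1, haa.2]
    rw [abs_of_nonneg h₁, abs_of_nonpos h₂] at bd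
    rw [abs_of_nonneg h₁] at hg₁ hp₁
    rw [abs_of_nonpos h₂] at hg₂ hp₂
    rw [e2] at hbb
    have h5 := sin_five_bd (v := p₁ + p₂) (by rw [abs_le]; constructor <;> linarith only [h₁, h₂, hp₁, hp₂, hgu0])
    rw [e1, e2, e4]
    have h6 := F5_pm (dS := Real.sin (5 / 2 * ww + (p₁ + p₂)) - Real.sin ww) (D := D) (y := -p₂)
      bd cX cY' (by rw [sub_neg_eq_add]; exact hbb) hg₁.1
      (by rw [neg_sq]; exact hg₂.1) (by rw [sub_neg_eq_add]; linarith only [h5.1])
      (by rw [sub_neg_eq_add]; linarith only [h5.2]) (by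
        rw [max_eq_left (by linarith only [h₁]), max_eq_right (by linarith only [h₂])] at hD
        linarith only [hD])
    rw [add_sub_cancel, sub_neg_eq_add] at h6
    have e5 : 5 / 2 * ww + p₁ + p₂ = 5 / 2 * ww + (p₁ + p₂) := by ring
    rw [e5]
    refine h6.trans (le_of_eq ?_)
    ring
  · have e1 : max p₁ 0 = 0 := max_eq_right h₁
    have e2 : min p₂ 0 = 0 := min_eq_right h₂
    have e3 : min p₁ 0 = p₁ := min_eq_left h₁
    rw [abs_of_nonpos h₁, abs_of_nonneg h₂] at bd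
    rw [abs_of_nonpos h₁] at hg₁ hp₁
    rw [abs_of_nonneg h₂] at hg₂ hp₂
    rw [e2, add_zero] at hbb
    rw [e3] at haa
    rw [e1, e2, add_zero, add_zero, s_five]
    have h6 := F5_mp (D := D) (x := -p₁) (A := aa s p₁) (B := bb s p₁ p₂) (g₁ := gg p₁)
      (g₂ := gg p₂) bd cX' cY (by rw [neg_sq]; rw [neg_mul, sub_neg_eq_add]; exact hbb)
      (by rw [neg_sq]; linarith only [haa.1]) (by linarith only [haa.2]) (by rw [neg_sq]; exact hg₁.1)
      hg₂.1 (by
        rw [max_eq_right (by linarith only [h₁]), max_eq_left (by linarith only [h₂])] at hD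
        linarith only [hD])
    refine h6.trans (le_of_eq ?_)
    ring
  · have e1 : max p₁ 0 = 0 := max_eq_right h₁
    have e2 : min p₂ 0 = p₂ := min_eq_left h₂
    have e3 : min p₁ 0 = p₁ := min_eq_left h₁
    rw [abs_of_nonpos h₁, abs_of_nonpos h₂] at bd
    rw [abs_of_nonpos h₁] at hg₁ hp₁
    rw [abs_of_nonpos h₂] at hg₂ hp₂
    rw [e2] at hbb
    rw [e3] at haa
    have h5 := sin_five_bd (v := p₂) (by rw [abs_of_nonpos h₂]; linarith only [hp₂, hgu0])
    rw [e1, e2, add_zero]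
    have h6 := F5_mm (dS := Real.sin (5 / 2 * ww + p₂) - Real.sin ww) (D := D) (x := -p₁)
      (y := -p₂) (A := aa s p₁) (B := bb s p₁ p₂) (g₁ := gg p₁) (g₂ := gg p₂) bd cX' cY'
      (by
        have e : bb s p₁ p₂ - b0 s - (-p₁ + -p₂) * (Real.sin (3 / 2 * ww) -
            Real.cos (3 / 2 * ww) * Real.tan s) = bb s p₁ p₂ - b0 s + (p₁ + p₂) *
            (Real.sin (3 / 2 * ww) - Real.cos (3 / 2 * ww) * Real.tan s) := by ring
        have e' : (-p₁ + -p₂) ^ 2 = (p₁ + p₂) ^ 2 := by ring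
        rw [e, e']
        exact hbb)
      (by rw [neg_sq]; linarith only [haa.1]) (by linarith only [haa.2]) (by rw [neg_sq]; exact hg₁.1)
      (by rw [neg_sq]; exact hg₂.1) (by rw [neg_sq]; linarith only [h5.1])
      (by rw [neg_sq]; linarith only [h5.2]) (by
        rw [max_eq_right (by linarith only [h₁]), max_eq_right (by linarith only [h₂])] at hD
        linarith only [hD])
    rw [add_sub_cancel] at h6
    refine h6.trans (le_of_eq ?_)
    ring

end Hepta
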