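import Pool.Agent.H69.Hep.F2

/-! # F5a: bounds for the parts of `NN` -/

set_option autoImplicit false

namespace Hepta

/-- `aa s 0` and `bb s 0 0`. -/
noncomputable def a0 (s : ℝ) : ℝ := Real.cos ww - Real.sin ww * Real.tan s
noncomputable def b0 (s : ℝ) : ℝ := Real.cos (3 / 2 * ww) + Real.sin (3 / 2 * ww) * Real.tan s

private theorem F5a_gu : gu ∈ Set.Icc (0.0008 : ℝ) 0.00088 := by
  unfold gu
  have h1 := Real.pi_gt_three
  have h2 := Real.pi_lt_d2
  constructor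
  · rw [le_div_iff₀ (by norm_num)]
    linarith
  · rw [div_le_iff₀ (by norm_num)]
    linarith

private theorem F5a_s {s : ℝ} (hs : |s| ≤ 9 * gu) : |s| ≤ 0.008 := by
  have h := F5a_gu.2
  linarith

private theorem F5a_cos_pos {s : ℝ} (hs : |s| ≤ 9 * gu) : 0.9999 ≤ Real.cos s := by
  have h := Real.one_sub_sq_div_two_le_cos (x := s)
  have h2 : s ^ 2 ≤ 0.008 ^ 2 := by
    rw [← sq_abs s]
    exact pow_le_pow_left₀ (abs_nonneg _) (F5a_s hs) 2
  norm_num at h2 ⊢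
  linarith

/-- Bounds for the sine. -/
private theorem F5a_sin (x : ℝ) : |Real.sin x - x| ≤ |x| ^ 3 / 6 := by
  have key : ∀ y : ℝ, 0 ≤ y → |Real.sin y - y| ≤ y ^ 3 / 6 := by
    intro y hy
    have h1 := Real.sin_ge_sub_cube hy
    have h2 := Real.sin_le hy
    rw [abs_le]
    constructor
    · linarith
    · have : 0 ≤ y ^ 3 / 6 := by positivity
      linarith
  rcases le_total 0 x with h | h
  · rw [abs_of_nonneg h]
    exact key x h
  · have h1 := key (-x) (by linarith)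
    rw [abs_of_nonpos h]
    rw [Real.sin_neg] at h1
    rw [← abs_neg]
    refine le_trans (le_of_eq ?_) h1
    congr 1
    ring

private theorem F5a_cos (x : ℝ) : 1 - x ^ 2 / 2 ≤ Real.cos x ∧ Real.cos x ≤ 1 :=
  ⟨Real.one_sub_sq_div_two_le_cos, Real.cos_le_one x⟩

private theorem F5a_cos_le {r : ℝ} (h0 : 0 ≤ r) (h1 : r ≤ 1) : Real.cos r ≤ 1 - 0.4 * r ^ 2 := by
  have h2 : Real.cos r = 1 - 2 * Real.sin (r / 2) ^ 2 := by
    have h := Real.cos_sq (r / 2)
    have h3 := Real.sin_sq_add_cos_sq (r / 2)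
    have h4 : 2 * (r / 2) = r := by ring
    rw [h4] at h
    linarith
  have h3 := Real.sin_ge_sub_cube (x := r / 2) (by linarith)
  have h4 : 0.45 * r ≤ Real.sin (r / 2) := by nlinarith [mul_nonneg h0 h0]
  have h5 : (0.45 * r) ^ 2 ≤ Real.sin (r / 2) ^ 2 := pow_le_pow_left₀ (by positivity) h4 2
  rw [h2]
  nlinarith [sq_nonneg r]

theorem tan_bd {s : ℝ} (hs : |s| ≤ 9 * gu) : |Real.tan s - s| ≤ 1 / 10 ^ 6 := by
  have hc := F5a_cos_pos hs
  have hs' := F5a_s hs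
  have h1 := F5a_sin s
  have h2 := F5a_cos s
  have hc0 : 0 < Real.cos s := by norm_num at hc; linarith
  have h3 : |s| ^ 3 ≤ 0.008 ^ 3 := pow_le_pow_left₀ (abs_nonneg _) hs' 3
  have h4 : |s| ^ 2 ≤ 0.008 ^ 2 := pow_le_pow_left₀ (abs_nonneg _) hs' 2
  have h5 : |s * (1 - Real.cos s)| ≤ 0.008 ^ 3 / 2 := by
    rw [abs_mul, abs_of_nonneg (by linarith : 0 ≤ 1 - Real.cos s)]
    rw [← sq_abs s] at h2
    calc |s| * (1 - Real.cos s) ≤ 0.008 * (0.008 ^ 2 / 2) :=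
          mul_le_mul hs' (by linarith) (by linarith) (by norm_num)
      _ = _ := by norm_num
  have h6 : Real.tan s - s = (Real.sin s - s + s * (1 - Real.cos s)) / Real.cos s := by
    rw [Real.tan_eq_sin_div_cos]
    field_simp
    ring
  rw [h6, abs_div, abs_of_pos hc0, div_le_iff₀ hc0]
  have h7 := abs_add_le (Real.sin s - s) (s * (1 - Real.cos s))
  norm_num at h3 h5 h7 hc ⊢
  linarith

private theorem F5a_aa {s : ℝ} (hs : |s| ≤ 9 * gu) (p : ℝ) :
    aa s p = a0 s * Real.cos (min p 0) +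
      (Real.sin ww + Real.cos ww * Real.tan s) * Real.sin (min p 0) := by
  have hc := F5a_cos_pos hs
  have hc0 : Real.cos s ≠ 0 := by norm_num at hc; exact (by linarith : 0 < Real.cos s).ne'
  unfold aa a0
  rw [Real.tan_eq_sin_div_cos, show ww - min p 0 + s = (ww + s) - min p 0 by ring, Real.cos_sub,
    Real.cos_add, Real.sin_add]
  field_simp

private theorem F5a_bb {s : ℝ} (hs : |s| ≤ 9 * gu) (p q : ℝ) :
    bb s p q = b0 s * Real.cos (p + min q 0) -
      (Real.sin (3 / 2 * ww) - Real.cos (3 / 2 * ww) * Real.tan s) * Real.sin (p + min q 0) := by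
  have hc := F5a_cos_pos hs
  have hc0 : Real.cos s ≠ 0 := by norm_num at hc; exact (by linarith : 0 < Real.cos s).ne'
  unfold bb b0
  rw [Real.tan_eq_sin_div_cos, show 3 / 2 * ww + p + min q 0 - s =
    (3 / 2 * ww - s) + (p + min q 0) by ring, Real.cos_add, Real.cos_sub, Real.sin_sub]
  field_simp

theorem aa_zero {s : ℝ} (hs : |s| ≤ 9 * gu) : aa s 0 = a0 s := by
  rw [F5a_aa hs, min_self, Real.cos_zero, Real.sin_zero]
  ring

theorem bb_zero {s : ℝ} (hs : |s| ≤ 9 * gu) : bb s 0 0 = b0 s := by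
  rw [F5a_bb hs, min_self, add_zero, Real.cos_zero, Real.sin_zero]
  ring

private theorem F5a_tan {s : ℝ} (hs : |s| ≤ 9 * gu) : |Real.tan s| ≤ 0.0081 := by
  have h1 := tan_bd hs
  have h2 := F5a_s hs
  have h3 := abs_add_le (Real.tan s - s) s
  rw [sub_add_cancel] at h3
  norm_num at h1 h2 ⊢
  linarith

theorem aa_bd {s p₁ : ℝ} (hs : |s| ≤ 9 * gu) (hp₁ : |p₁| ≤ 4 * gu) :
    -(-min p₁ 0 * (Real.sin ww + Real.cos ww * Real.tan s)) - 0.33 * (min p₁ 0) ^ 2 ≤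
      aa s p₁ - a0 s ∧
    aa s p₁ - a0 s ≤ -(-min p₁ 0 * (Real.sin ww + Real.cos ww * Real.tan s)) := by
  have ht := abs_le.1 (F5a_tan hs)
  have hg := F5a_gu.2
  obtain ⟨c1, c2⟩ := c_one
  obtain ⟨s1, s2⟩ := s_one
  obtain ⟨r, hr⟩ : ∃ r, r = -min p₁ 0 := ⟨_, rfl⟩
  have hr0 : 0 ≤ r := by rw [hr]; linarith [min_le_right p₁ 0]
  have hr1 : r ≤ 0.0036 := by
    rw [hr]
    rcases le_total p₁ 0 with h | h
    · rw [min_eq_left h]
      rw [abs_of_nonpos h] at hp₁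
      linarith
    · rw [min_eq_right h]
      norm_num
  have hm : min p₁ 0 = -r := by rw [hr]; ring
  have haa := F5a_aa hs p₁
  rw [hm, Real.cos_neg, Real.sin_neg] at haa
  rw [haa, hm]
  have hc := F5a_cos r
  have hcu := F5a_cos_le hr0 (by linarith)
  have hs1 := Real.sin_ge_sub_cube hr0
  have hs2 := Real.sin_le hr0
  have ha0 : 0.61 ≤ a0 s ∧ a0 s ≤ 0.63 := by
    unfold a0
    constructor <;> nlinarith
  have hk : 0.77 ≤ Real.sin ww + Real.cos ww * Real.tan s ∧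
      Real.sin ww + Real.cos ww * Real.tan s ≤ 0.79 := by
    constructor <;> nlinarith
  generalize a0 s = A at *
  generalize Real.sin ww + Real.cos ww * Real.tan s = k at *
  generalize Real.cos r = cr at *
  generalize Real.sin r = sr at *
  have hr3 : r ^ 3 ≤ 0.0036 * r ^ 2 := by nlinarith [sq_nonneg r]
  have h1 : 0 ≤ r - sr := by linarith
  have h2 : r - sr ≤ 0.0006 * r ^ 2 := by linarith
  have h3 : 0 ≤ k * (r - sr) := mul_nonneg (by linarith [hk.1]) h1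
  have h4 : k * (r - sr) ≤ 0.79 * (0.0006 * r ^ 2) :=
    mul_le_mul hk.2 h2 h1 (by norm_num)
  have h5 : A * (1 - cr) ≤ 0.63 * (r ^ 2 / 2) := by
    refine mul_le_mul ha0.2 ?_ ?_ (by norm_num) <;> linarith [hc.1, hc.2]
  have h6 : 0.61 * (0.4 * r ^ 2) ≤ A * (1 - cr) := by
    refine mul_le_mul ha0.1 ?_ (by positivity) ?_ <;> linarith [ha0.1]
  constructor <;> nlinarith

theorem bb_bd {s p₁ p₂ : ℝ} (hs : |s| ≤ 9 * gu) (hp₁ : |p₁| ≤ 4 * gu) (hp₂ : |p₂| ≤ 4 * gu) :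
    |bb s p₁ p₂ - b0 s + (p₁ + min p₂ 0) * (Real.sin (3 / 2 * ww) -
      Real.cos (3 / 2 * ww) * Real.tan s)| ≤ 0.13 * (p₁ + min p₂ 0) ^ 2 := by
  have ht := abs_le.1 (F5a_tan hs)
  have hg := F5a_gu.2
  obtain ⟨c1, c2⟩ := c_three
  obtain ⟨s1, s2⟩ := s_three
  rw [F5a_bb hs]
  obtain ⟨q, hq⟩ : ∃ q, q = p₁ + min p₂ 0 := ⟨_, rfl⟩
  rw [← hq]
  have hq1 : |q| ≤ 0.0072 := by
    have h1 : |min p₂ 0| ≤ |p₂| := by
      rcases le_total p₂ 0 with h | h
      · rw [min_eq_left h]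
      · rw [min_eq_right h, abs_zero]
        exact abs_nonneg _
    rw [hq]
    refine (abs_add_le _ _).trans ?_
    norm_num at hg ⊢
    linarith
  have hb0 : 0.2 ≤ b0 s ∧ b0 s ≤ 0.231 := by
    unfold b0
    constructor <;> nlinarith
  have hk : 0.97 ≤ Real.sin (3 / 2 * ww) - Real.cos (3 / 2 * ww) * Real.tan s ∧
      Real.sin (3 / 2 * ww) - Real.cos (3 / 2 * ww) * Real.tan s ≤ 0.98 := by
    constructor <;> nlinarith
  have hc := F5a_cos q
  have hsn := F5a_sin q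
  have hq3 : |q| ^ 3 ≤ 0.0072 * q ^ 2 := by
    rw [← sq_abs q]
    nlinarith [sq_nonneg |q|]
  have e : b0 s * Real.cos q - (Real.sin (3 / 2 * ww) - Real.cos (3 / 2 * ww) * Real.tan s) *
      Real.sin q - b0 s + q * (Real.sin (3 / 2 * ww) - Real.cos (3 / 2 * ww) * Real.tan s) =
      -(b0 s * (1 - Real.cos q)) - (Real.sin (3 / 2 * ww) - Real.cos (3 / 2 * ww) * Real.tan s) *
        (Real.sin q - q) := by ring
  rw [e]
  generalize b0 s = B at *
  generalize Real.sin (3 / 2 * ww) - Real.cos (3 / 2 * ww) * Real.tan s = k at *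
  have h1 : |B * (1 - Real.cos q)| ≤ 0.231 * (q ^ 2 / 2) := by
    rw [abs_mul, abs_of_nonneg (by linarith [hb0.1] : 0 ≤ B),
      abs_of_nonneg (by linarith [hc.2] : 0 ≤ 1 - Real.cos q)]
    refine mul_le_mul hb0.2 ?_ ?_ (by norm_num) <;> linarith [hc.1, hc.2]
  have h2 : |k * (Real.sin q - q)| ≤ 0.98 * (0.0012 * q ^ 2) := by
    rw [abs_mul, abs_of_nonneg (by linarith [hk.1] : 0 ≤ k)]
    refine mul_le_mul hk.2 ?_ (abs_nonneg _) (by norm_num)
    linarith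
  have h3 := abs_sub (-(B * (1 - Real.cos q))) (k * (Real.sin q - q))
  rw [abs_neg] at h3
  nlinarith [sq_nonneg q]

theorem sin_five_bd {v : ℝ} (hv : |v| ≤ 8 * gu) :
    -Real.cos ww * v - 0.4 * v ^ 2 ≤ Real.sin (5 / 2 * ww + v) - Real.sin ww ∧
      Real.sin (5 / 2 * ww + v) - Real.sin ww ≤ -Real.cos ww * v + 0.001 * v ^ 2 := by
  have hg := F5a_gu.2
  obtain ⟨c1, c2⟩ := c_one
  obtain ⟨s1, s2⟩ := s_one
  rw [Real.sin_add, s_five, c_five]
  have hc := F5a_cos v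
  have hsn := F5a_sin v
  have hv1 : |v| ≤ 0.0072 := by
    norm_num at hg ⊢
    linarith
  have hv3 : |v| ^ 3 ≤ 0.0072 * v ^ 2 := by
    rw [← sq_abs v]
    nlinarith [sq_nonneg |v|]
  generalize Real.cos ww = C at *
  generalize Real.sin ww = S at *
  have h1 : 0 ≤ S * (1 - Real.cos v) := mul_nonneg (by linarith) (by linarith [hc.2])
  have h2 : S * (1 - Real.cos v) ≤ 0.782 * (v ^ 2 / 2) := by
    refine mul_le_mul (by linarith) ?_ ?_ (by norm_num) <;> linarith [hc.1, hc.2]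
  have h3 : |C * (Real.sin v - v)| ≤ 0.624 * (0.0012 * v ^ 2) := by
    rw [abs_mul, abs_of_nonneg (by linarith : 0 ≤ C)]
    refine mul_le_mul (by linarith) ?_ (abs_nonneg _) (by norm_num)
    linarith
  rw [abs_le] at h3
  constructor <;> nlinarith [sq_nonneg v]

theorem gg_bd {p : ℝ} (hp : |p| ≤ 4 * gu) :
    Real.tan (ww / 2) * |p| - 0.501 * p ^ 2 ≤ gg p - 2 ∧ gg p - 2 ≤ Real.tan (ww / 2) * |p| := by
  have hg := F5a_gu.2
  obtain ⟨t1, t2⟩ := t_half
  have hc := F5a_cos p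
  have hr0 := abs_nonneg p
  have hs1 := Real.sin_ge_sub_cube hr0
  have hs2 := Real.sin_le hr0
  have hp1 : |p| ≤ 0.0036 := by
    norm_num at hg ⊢
    linarith
  have hp3 : |p| ^ 3 ≤ 0.0036 * p ^ 2 := by
    rw [← sq_abs p]
    nlinarith [sq_nonneg |p|]
  unfold gg
  generalize Real.tan (ww / 2) = T at *
  have h1 : 0 ≤ T * (|p| - Real.sin |p|) := mul_nonneg (by linarith) (by linarith)
  have h2 : T * (|p| - Real.sin |p|) ≤ 0.5 * (0.0006 * p ^ 2) := by
    refine mul_le_mul (by linarith) ?_ ?_ (by norm_num) <;> linarith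
  constructor <;> nlinarith [sq_nonneg p]

theorem GG_bd {q : ℝ} : 2 * FF - 0.556 * q ^ 2 ≤ GG q ∧ GG q ≤ 2 * FF := by
  obtain ⟨c1, c2⟩ := c_half
  have hc := F5a_cos q
  have hc0 : 0 < Real.cos (ww / 2) := by linarith
  have e : 2 * FF - GG q = (1 - Real.cos q) / Real.cos (ww / 2) := by
    unfold FF GG
    field_simp
    ring
  have h1 : 0 ≤ (1 - Real.cos q) / Real.cos (ww / 2) :=
    div_nonneg (by linarith [hc.2]) hc0.le
  have h2 : (1 - Real.cos q) / Real.cos (ww / 2) ≤ 0.556 * q ^ 2 := by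
    rw [div_le_iff₀ hc0]
    nlinarith [sq_nonneg q, hc.1]
  constructor <;> linarith

end Hepta
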