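import Pool.Agent.H69.Hep.F5a

/-! # F5, part b: auxiliary inequalities and numerical values -/

set_option autoImplicit false

namespace Hepta

theorem F5_gu : gu ≤ 0.0008766 := by
  unfold gu
  have h2 := Real.pi_lt_d4
  rw [div_le_iff₀ (by norm_num)]
  norm_num at h2 ⊢
  linarith

theorem F5_mul {u lo hi t τ : ℝ} (h1 : lo ≤ u) (h2 : u ≤ hi) (ht : |t| ≤ τ) :
    lo * t - (hi - lo) * τ ≤ u * t ∧ u * t ≤ lo * t + (hi - lo) * τ := by
  have h3 : |(u - lo) * t| ≤ (hi - lo) * τ := by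
    rw [abs_mul, abs_of_nonneg (by linarith : 0 ≤ u - lo)]
    exact mul_le_mul (by linarith) ht (abs_nonneg _) (by linarith)
  rw [abs_le] at h3
  constructor <;> linarith

theorem F5_prod {x y a b c d : ℝ} (hx1 : a ≤ x) (hx2 : x ≤ b) (hy1 : c ≤ y) (hy2 : y ≤ d)
    (ha : 0 ≤ a) (hc : 0 ≤ c) : a * c ≤ x * y ∧ x * y ≤ b * d :=
  ⟨mul_le_mul hx1 hy1 hc (ha.trans hx1), mul_le_mul hx2 hy2 (hc.trans hy1) ((ha.trans hx1).trans hx2)⟩

/-- The numerical values of the products. -/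
structure Cn (F T A₀ B₀ S₁ S₃ m₁ m₂ m₃ m₄ M : ℝ) : Prop where
  u1 : 0.22609 ≤ F * T * B₀ ∧ F * T * B₀ ≤ 0.22611
  u2 : 0.99055 ≤ F * T * S₃ ∧ F * T * S₃ ≤ 0.99065
  u3 : 0.63351 ≤ F * T * A₀ ∧ F * T * A₀ ≤ 0.63353
  u4 : 0.7943 ≤ F * T * S₁ ∧ F * T * S₁ ≤ 0.7945
  m1 : 1.4442 ≤ m₁ ∧ m₁ ≤ 1.44423
  m2 : 3.4804 ≤ m₂ ∧ m₂ ≤ 3.4806
  m3 : 3.2292 ≤ m₃ ∧ m₃ ≤ 3.22925
  m4 : 4.3400 ≤ m₄ ∧ m₄ ≤ 4.3402
  u5 : 1.40798 ≤ m₁ * S₃ ∧ m₁ * S₃ ≤ 1.40803
  u6 : 3.3930 ≤ m₂ * S₃ ∧ m₂ * S₃ ≤ 3.3934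
  u7 : 0.3213 ≤ m₁ * B₀ ∧ m₁ * B₀ ≤ 0.3214
  u8 : 0.7744 ≤ m₂ * B₀ ∧ m₂ * B₀ ≤ 0.7746
  u9 : 2.52468 ≤ m₃ * S₁ ∧ m₃ * S₁ ≤ 2.52474
  u10 : 2.0133 ≤ m₃ * A₀ ∧ m₃ * A₀ ≤ 2.0135
  u11 : 3.3931 ≤ m₄ * S₁ ∧ m₄ * S₁ ≤ 3.3934
  u12 : 2.7059 ≤ m₄ * A₀ ∧ m₄ * A₀ ≤ 2.7061
  u13 : 1.17722 ≤ A₀ * M ∧ A₀ * M ≤ 1.17724

theorem F5_cn : Cn (2 * FF) (Real.tan (ww / 2)) (Real.cos ww) (Real.cos (3 / 2 * ww))
    (Real.sin ww) (Real.sin (3 / 2 * ww)) (2 * FF * (2 - 2 * FF * Real.cos ww))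
    (2 * FF * (2 * FF) * Real.sin ww) (2 * FF * (2 - 2 * FF * Real.cos (3 / 2 * ww)))
    (2 * FF * (2 * FF) * Real.sin (3 / 2 * ww)) Ms := by
  obtain ⟨f1, f2⟩ := FF_bd
  obtain ⟨t1, t2⟩ := t_half
  obtain ⟨a1, a2⟩ := c_one
  obtain ⟨b1, b2⟩ := c_three
  obtain ⟨c1, c2⟩ := s_one
  obtain ⟨d1, d2⟩ := s_three
  obtain ⟨e1, e2⟩ := Ms_bd
  obtain ⟨F, hF⟩ : ∃ F, F = 2 * FF := ⟨_, rfl⟩
  have g1 : 2.1099162 ≤ F := by rw [hF]; norm_num at f1 ⊢; linarith only [f1]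
  have g2 : F ≤ 2.1099163 := by rw [hF]; norm_num at f2 ⊢; linarith only [f2]
  rw [← hF]
  generalize Real.tan (ww / 2) = T at *
  generalize Real.cos ww = A₀ at *
  generalize Real.cos (3 / 2 * ww) = B₀ at *
  generalize Real.sin ww = S₁ at *
  generalize Real.sin (3 / 2 * ww) = S₃ at *
  generalize Ms = M at *
  have hFT := F5_prod g1 g2 t1 t2 (by norm_num) (by norm_num)
  have hFF := F5_prod g1 g2 g1 g2 (by norm_num) (by norm_num)
  have hFA := F5_prod g1 g2 a1 a2 (by norm_num) (by norm_num)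
  have hFB := F5_prod g1 g2 b1 b2 (by norm_num) (by norm_num)
  norm_num at hFT hFF hFA hFB
  have m1 : 1.4442 ≤ F * (2 - F * A₀) ∧ F * (2 - F * A₀) ≤ 1.44423 := by
    have h := F5_prod g1 g2 (c := 0.684488) (d := 0.684489) (y := 2 - F * A₀)
      (by linarith only [hFA.2]) (by linarith only [hFA.1]) (by norm_num) (by norm_num)
    norm_num at h ⊢
    constructor <;> linarith only [h.1, h.2]
  have m2 : 3.4804 ≤ F * F * S₁ ∧ F * F * S₁ ≤ 3.4806 := by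
    have h := F5_prod hFF.1 hFF.2 c1 c2 (by norm_num) (by norm_num)
    norm_num at h ⊢
    constructor <;> linarith only [h.1, h.2]
  have m3 : 3.2292 ≤ F * (2 - F * B₀) ∧ F * (2 - F * B₀) ≤ 3.22925 := by
    have h := F5_prod g1 g2 (c := 1.530499) (d := 1.530500) (y := 2 - F * B₀)
      (by linarith only [hFB.2]) (by linarith only [hFB.1]) (by norm_num) (by norm_num)
    norm_num at h ⊢
    constructor <;> linarith only [h.1, h.2]
  have m4 : 4.3400 ≤ F * F * S₃ ∧ F * F * S₃ ≤ 4.3402 := by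
    have h := F5_prod hFF.1 hFF.2 d1 d2 (by norm_num) (by norm_num)
    norm_num at h ⊢
    constructor <;> linarith only [h.1, h.2]
  refine ⟨?_, ?_, ?_, ?_, m1, m2, m3, m4, ?_, ?_, ?_, ?_, ?_, ?_, ?_, ?_, ?_⟩
  · have h := F5_prod hFT.1 hFT.2 b1 b2 (by norm_num) (by norm_num)
    norm_num at h ⊢
    constructor <;> linarith only [h.1, h.2]
  · have h := F5_prod hFT.1 hFT.2 d1 d2 (by norm_num) (by norm_num)
    norm_num at h ⊢
    constructor <;> linarith only [h.1, h.2]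
  · have h := F5_prod hFT.1 hFT.2 a1 a2 (by norm_num) (by norm_num)
    norm_num at h ⊢
    constructor <;> linarith only [h.1, h.2]
  · have h := F5_prod hFT.1 hFT.2 c1 c2 (by norm_num) (by norm_num)
    norm_num at h ⊢
    constructor <;> linarith only [h.1, h.2]
  · have h := F5_prod m1.1 m1.2 d1 d2 (by norm_num) (by norm_num)
    norm_num at h ⊢
    constructor <;> linarith only [h.1, h.2]
  · have h := F5_prod m2.1 m2.2 d1 d2 (by norm_num) (by norm_num)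
    norm_num at h ⊢
    constructor <;> linarith only [h.1, h.2]
  · have h := F5_prod m1.1 m1.2 b1 b2 (by norm_num) (by norm_num)
    norm_num at h ⊢
    constructor <;> linarith only [h.1, h.2]
  · have h := F5_prod m2.1 m2.2 b1 b2 (by norm_num) (by norm_num)
    norm_num at h ⊢
    constructor <;> linarith only [h.1, h.2]
  · have h := F5_prod m3.1 m3.2 c1 c2 (by norm_num) (by norm_num)
    norm_num at h ⊢
    constructor <;> linarith only [h.1, h.2]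
  · have h := F5_prod m3.1 m3.2 a1 a2 (by norm_num) (by norm_num)
    norm_num at h ⊢
    constructor <;> linarith only [h.1, h.2]
  · have h := F5_prod m4.1 m4.2 c1 c2 (by norm_num) (by norm_num)
    norm_num at h ⊢
    constructor <;> linarith only [h.1, h.2]
  · have h := F5_prod m4.1 m4.2 a1 a2 (by norm_num) (by norm_num)
    norm_num at h ⊢
    constructor <;> linarith only [h.1, h.2]
  · have h := F5_prod a1 a2 e1 e2 (by norm_num) (by norm_num)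
    norm_num at h ⊢
    constructor <;> linarith only [h.1, h.2]

end Hepta
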