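import Pool.Agent.H69.Hep.F5b

/-! # F5, part c: the coefficients -/

set_option autoImplicit false

namespace Hepta

/-- The four coefficients. -/
theorem F5_coef {F T A₀ B₀ S₁ S₃ m₁ m₂ m₃ m₄ M s t f : ℝ}
    (h : Cn F T A₀ B₀ S₁ S₃ m₁ m₂ m₃ m₄ M) (ha : A₀ ∈ Set.Icc (0.6234 : ℝ) 0.6235)
    (hs1 : S₁ ∈ Set.Icc (0.7818 : ℝ) 0.78184)
    (hs : |s| ≤ 0.0079) (ht : |t - s| ≤ 1 / 10 ^ 6) (hf : |f + 0.71416 * s| ≤ 0.0001) :
    0.07 ≤ F * T * (B₀ + S₃ * t) - (m₁ + m₂ * t) * (S₃ - B₀ * t) + 2 * (A₀ * (M + f)) -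
      2 * 0.6865 * S₁ ∧
    0.05 ≤ F * T * (B₀ + S₃ * t) + (m₁ + m₂ * t) * (S₃ - B₀ * t) -
      (m₃ - m₄ * t) * (S₁ + A₀ * t) + 2 * 0.632 * S₁ ∧
    0.07 ≤ F * T * (A₀ - S₁ * t) - 2 * 0.3545 * S₁ ∧
    0.08 ≤ F * T * (A₀ - S₁ * t) + (m₁ + m₂ * t) * (S₃ - B₀ * t) - 2 * (A₀ * (M + f)) +
      2 * 0.275 * S₁ := by
  obtain ⟨u1, u2, u3, u4, m1, m2, m3, m4, u5, u6, u7, u8, u9, u10, u11, u12, u13⟩ := h
  have ht1 : |t| ≤ 0.00791 := by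
    have h := abs_add_le (t - s) s
    rw [sub_add_cancel] at h
    norm_num at ht hs ⊢
    linarith
  have ht2 : |t ^ 2| ≤ 0.0001 := by
    rw [abs_pow]
    have h := pow_le_pow_left₀ (abs_nonneg t) ht1 2
    norm_num at h ⊢
    linarith
  have htt := abs_le.1 ht
  have hss := abs_le.1 hs
  have hff := abs_le.1 hf
  have v2 := F5_mul u2.1 u2.2 ht1
  have v4 := F5_mul u4.1 u4.2 ht1
  have v6 := F5_mul u6.1 u6.2 ht1
  have v7 := F5_mul u7.1 u7.2 ht1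
  have v8 := F5_mul u8.1 u8.2 ht2
  have v10 := F5_mul u10.1 u10.2 ht1
  have v11 := F5_mul u11.1 u11.2 ht1
  have v12 := F5_mul u12.1 u12.2 ht2
  have t2 := abs_le.1 ht2
  have hf1 : |f| ≤ 0.0058 := by
    have h := abs_add_le (f + 0.71416 * s) (-(0.71416 * s))
    rw [add_neg_cancel_right, abs_neg, abs_mul, abs_of_pos (by norm_num : (0 : ℝ) < 0.71416)] at h
    norm_num at hf hs h ⊢
    linarith
  have v14 := F5_mul ha.1 ha.2 hf1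
  have e1 : F * T * (B₀ + S₃ * t) = F * T * B₀ + F * T * S₃ * t := by ring
  have e2 : F * T * (A₀ - S₁ * t) = F * T * A₀ - F * T * S₁ * t := by ring
  have e3 : (m₁ + m₂ * t) * (S₃ - B₀ * t) = m₁ * S₃ + (m₂ * S₃) * t - (m₁ * B₀) * t -
      (m₂ * B₀) * t ^ 2 := by ring
  have e4 : (m₃ - m₄ * t) * (S₁ + A₀ * t) = m₃ * S₁ + (m₃ * A₀) * t - (m₄ * S₁) * t -
      (m₄ * A₀) * t ^ 2 := by ring
  have e5 : A₀ * (M + f) = A₀ * M + A₀ * f := by ring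
  rw [e1, e2, e3, e4, e5]
  generalize F * T * B₀ = w1 at *
  generalize F * T * S₃ * t = w2 at *
  generalize F * T * A₀ = w3 at *
  generalize F * T * S₁ * t = w4 at *
  generalize m₁ * S₃ = w5 at *
  generalize m₂ * S₃ * t = w6 at *
  generalize m₁ * B₀ * t = w7 at *
  generalize m₂ * B₀ * t ^ 2 = w8 at *
  generalize m₃ * S₁ = w9 at *
  generalize m₃ * A₀ * t = w10 at *
  generalize m₄ * S₁ * t = w11 at *
  generalize m₄ * A₀ * t ^ 2 = w12 at *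
  generalize A₀ * M = w13 at *
  generalize A₀ * f = w14 at *
  obtain ⟨hs2, hs3⟩ := hs1
  norm_num at *
  refine ⟨?_, ?_, ?_, ?_⟩ <;> linarith

end Hepta
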