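import Pool.Agent.H69.Hep.F5b

/-! # F5, part d: the replacement of `G` by `F` -/

set_option autoImplicit false

namespace Hepta

/-- The replacement of `G` by `F`. -/
theorem F5_base {G F g₁ g₂ A B a b Q : ℝ} (hF : 2.1099 ≤ F) (hGF : G ≤ F)
    (hG : F - 0.556 * Q ≤ G) (hG1 : 2.1 ≤ G) (hA : 0.61 ≤ A) (hA' : A ≤ 0.64)
    (hB : 0.205 ≤ B) (hB' : B ≤ 0.24) (h₁ : g₁ ≤ 2.002) (h₂ : g₂ ≤ 2.002) :
    F * ((g₁ - 2) * B + (g₂ - 2) * A) + F * (2 - F * a) * (B - b) + F * (2 - F * b) * (A - a) -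
      F ^ 2 * ((A - a) * (B - b)) - 0.7 * Q ≤
    G * (g₁ * B + g₂ * A) - G ^ 2 * (A * B) - (F * (2 * b + 2 * a) - F ^ 2 * (a * b)) := by
  have h3 : g₁ * B ≤ 2.002 * 0.24 := by
    refine (mul_le_mul_of_nonneg_right h₁ (by linarith)).trans ?_
    exact mul_le_mul_of_nonneg_left hB' (by norm_num)
  have h4 : g₂ * A ≤ 2.002 * 0.64 := by
    refine (mul_le_mul_of_nonneg_right h₂ (by linarith)).trans ?_
    exact mul_le_mul_of_nonneg_left hA' (by norm_num)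
  have h5 : 0.61 * 0.205 ≤ A * B := mul_le_mul hA hB (by norm_num) (by linarith)
  have h6 : (2.1099 + 2.1) * (0.61 * 0.205) ≤ (F + G) * (A * B) :=
    mul_le_mul (by linarith) h5 (by norm_num) (by linarith)
  have h7 : (F - G) * (g₁ * B + g₂ * A - (F + G) * (A * B)) ≤ 0.7 * Q := by
    have h8 : (F - G) * (g₁ * B + g₂ * A - (F + G) * (A * B)) ≤ (F - G) * 1.24 :=
      mul_le_mul_of_nonneg_left (by norm_num at h3 h4 h6 ⊢; linarith) (by linarith)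
    have h9 : (F - G) * 1.24 ≤ 0.556 * Q * 1.24 :=
      mul_le_mul_of_nonneg_right (by linarith) (by norm_num)
    refine (h8.trans h9).trans ?_
    norm_num
    nlinarith
  nlinarith

/-- Numerical bounds for the parts. -/
structure Bd (F T A₀ S₁ a b k₁ k₃ n₁ n₃ M f x y : ℝ) : Prop where
  F : 2.1099 ≤ F ∧ F ≤ 2.11
  T : 0.4815 ≤ T ∧ T ≤ 0.4816
  A : 0.6234 ≤ A₀ ∧ A₀ ≤ 0.6235
  S : 0.7818 ≤ S₁ ∧ S₁ ≤ 0.7819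
  a : 0.615 ≤ a ∧ a ≤ 0.63
  b : 0.214 ≤ b ∧ b ≤ 0.231
  k1 : 0.776 ≤ k₁ ∧ k₁ ≤ 0.788
  k3 : 0.972 ≤ k₃ ∧ k₃ ≤ 0.978
  n1 : 1.4 ≤ n₁ ∧ n₁ ≤ 1.5
  n3 : 3.1 ≤ n₃ ∧ n₃ ≤ 3.3
  Mf : 1.87 ≤ M + f ∧ M + f ≤ 1.9
  x : 0 ≤ x ∧ x ≤ 0.0036
  y : 0 ≤ y ∧ y ≤ 0.0036

end Hepta
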