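import Pool.Agent.H69.Hep.C6a
import Pool.Agent.H69.Hep.F4
import Pool.Agent.H69.Hep.F5

/-! # F6: the inequality near the critical triangle -/

set_option autoImplicit false

namespace Hepta

private theorem F6_gu : 0.0008765 < gu ∧ gu < 0.00087657 := by
  unfold gu
  constructor
  · rw [lt_div_iff₀ (by norm_num)]
    linarith [Real.pi_gt_d4]
  · rw [div_lt_iff₀ (by norm_num)]
    linarith [Real.pi_lt_d4]

private theorem F6_sin {x : ℝ} (h1 : 896 * gu ≤ x) (h2 : x ≤ 1792 * gu) : 1 / 2 ≤ Real.sin x := by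
  have hg : gu = Real.pi / 3584 := rfl
  have hpi := Real.pi_pos
  have h3 := Real.mul_le_sin (x := x) (by rw [hg] at h1; linarith) (by rw [hg] at h2; linarith)
  have h4 : 2 / Real.pi * (896 * gu) = 1 / 2 := by
    rw [hg]; field_simp; norm_num
  have h5 : 2 / Real.pi * (896 * gu) ≤ 2 / Real.pi * x :=
    mul_le_mul_of_nonneg_left h1 (by positivity)
  linarith

private theorem F6_Wx (x : ℝ) : |Wx x| ≤ 0.053 := by
  have ha := abs_le.mp a₁x_bd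
  have h1 := abs_le.mp (Real.abs_sin_le_one (7 * x))
  have h2 := abs_le.mp (Real.abs_sin_le_one (14 * x))
  have h3 := abs_le.mp (Real.abs_sin_le_one (21 * x))
  have h4 := abs_le.mp (Real.abs_sin_le_one (28 * x))
  have h5 := abs_le.mp (Real.abs_sin_le_one (35 * x))
  have h6 : |a₁x * Real.sin (7 * x)| ≤ 0.04204 := by
    rw [abs_mul]
    have h7 : |a₁x| ≤ 0.04204 := by
      rw [abs_le]
      constructor <;> linarith [ha.1, ha.2]
    calc |a₁x| * |Real.sin (7 * x)| ≤ 0.04204 * 1 :=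
          mul_le_mul h7 (Real.abs_sin_le_one _) (abs_nonneg _) (by norm_num)
      _ = 0.04204 := by norm_num
  have h8 := abs_le.mp h6
  unfold Wx
  rw [abs_le]
  constructor <;> linarith [h1.1, h1.2, h2.1, h2.2, h3.1, h3.2, h4.1, h4.2, h5.1, h5.2, h8.1, h8.2]

/-- the change of the potential -/
private theorem F6_D {s x₁ x₂ p₁ p₂ : ℝ} (hs : |s| ≤ 9 * gu)
    (hp₁ : |p₁| ≤ 4 * gu) (hp₂ : |p₂| ≤ 4 * gu) (hx₁ : x₁ ∈ Set.Icc (-(215 * gu)) (-(194 * gu)))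
    (hx₂ : x₂ ∈ Set.Icc (-(404 * gu)) (-(383 * gu))) :
    (Wx x₁ - Wx (x₁ - p₁)) + (Wx x₂ - Wx (x₂ - p₂)) +
      (Wx (s - ww / 2 - p₁ - p₂) - Wx (s - ww / 2)) ≤
      max (0.6865 * p₁) (0.632 * p₁) + max (0.3545 * p₂) (0.275 * p₂) := by
  obtain ⟨hg1, hg2⟩ := F6_gu
  obtain ⟨hs1, hs2⟩ := abs_le.mp hs
  obtain ⟨hp1, hp1'⟩ := abs_le.mp hp₁
  obtain ⟨hp2, hp2'⟩ := abs_le.mp hp₂
  obtain ⟨hx1, hx1'⟩ := hx₁
  obtain ⟨hx2, hx2'⟩ := hx₂
  have d1 : (0 ≤ p₁ ∧ Wx x₁ - Wx (x₁ - p₁) ≤ 0.2045 * p₁) ∨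
      (p₁ ≤ 0 ∧ Wx x₁ - Wx (x₁ - p₁) ≤ 0.163 * p₁) := by
    rcases le_total 0 p₁ with h | h
    · left
      refine ⟨h, ?_⟩
      have h1 := (Wx_slope₁ (x := x₁) (y := x₁ - p₁) (by linarith) (by linarith)
        (by linarith)).2
      linarith
    · right
      refine ⟨h, ?_⟩
      have h1 := (Wx_slope₁ (x := x₁ - p₁) (y := x₁) (by linarith) (by linarith)
        (by linarith)).1
      linarith
  have d2 : (0 ≤ p₂ ∧ Wx x₂ - Wx (x₂ - p₂) ≤ -0.1275 * p₂) ∨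
      (p₂ ≤ 0 ∧ Wx x₂ - Wx (x₂ - p₂) ≤ -0.194 * p₂) := by
    rcases le_total 0 p₂ with h | h
    · left
      refine ⟨h, ?_⟩
      have h1 := (Wx_slope₂ (x := x₂) (y := x₂ - p₂) (by linarith) (by linarith)
        (by linarith)).2
      linarith
    · right
      refine ⟨h, ?_⟩
      have h1 := (Wx_slope₂ (x := x₂ - p₂) (y := x₂) (by linarith) (by linarith)
        (by linarith)).1
      linarith
  have d3 : (0 ≤ p₁ + p₂ ∧ Wx (s - ww / 2 - p₁ - p₂) - Wx (s - ww / 2) ≤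
        0.482 * (p₁ + p₂)) ∨
      (p₁ + p₂ ≤ 0 ∧ Wx (s - ww / 2 - p₁ - p₂) - Wx (s - ww / 2) ≤ 0.469 * (p₁ + p₂)) := by
    rcases le_total 0 (p₁ + p₂) with h | h
    · left
      refine ⟨h, ?_⟩
      have h1 := (Wx_slope₃ (x := s - ww / 2) (y := s - ww / 2 - p₁ - p₂) (by linarith)
        (by linarith) (by linarith)).1
      linarith
    · right
      refine ⟨h, ?_⟩
      have h1 := (Wx_slope₃ (x := s - ww / 2 - p₁ - p₂) (y := s - ww / 2) (by linarith)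
        (by linarith) (by linarith)).2
      linarith
  have m1 := le_max_left (0.6865 * p₁) (0.632 * p₁)
  have m2 := le_max_right (0.6865 * p₁) (0.632 * p₁)
  have m3 := le_max_left (0.3545 * p₂) (0.275 * p₂)
  have m4 := le_max_right (0.3545 * p₂) (0.275 * p₂)
  rcases d1 with ⟨a1, b1⟩ | ⟨a1, b1⟩ <;> rcases d2 with ⟨a2, b2⟩ | ⟨a2, b2⟩ <;>
    rcases d3 with ⟨a3, b3⟩ | ⟨a3, b3⟩ <;> linarith

/-- The inequality near the critical triangle. -/
theorem crit_ineq {R s x₁ x₂ p₁ p₂ : ℝ} (hR : 0 < R) (hs : |s| ≤ 9 * gu)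
    (hp₁ : |p₁| ≤ 4 * gu) (hp₂ : |p₂| ≤ 4 * gu) (hx₁ : x₁ ∈ Set.Icc (-(215 * gu)) (-(194 * gu)))
    (hx₂ : x₂ ∈ Set.Icc (-(404 * gu)) (-(383 * gu)))
    (h₁ : gg p₁ ≤ 2 * R * Real.sin (3 / 2 * ww - s + x₂ + p₁) * Real.cos (x₁ - min p₁ 0))
    (h₂ : gg p₂ ≤ 2 * R * Real.sin (s + ww - x₁) * Real.cos (x₂ - min p₂ 0))
    (h₃ : GG (p₁ + p₂) ≤ 2 * R * Real.sin (x₁ - x₂ + ww - p₁) * Real.cos s) :
    Ms + ((Wx x₁ - Wx (x₁ - p₁)) + (Wx x₂ - Wx (x₂ - p₂)) +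
      (Wx (s - ww / 2 - p₁ - p₂) - Wx s)) ≤
    2 * R ^ 2 * (Real.sin (s + ww - x₁) * Real.sin (x₁ - x₂ + ww - p₁) *
      Real.sin (3 / 2 * ww - s + x₂ + p₁)) := by
  obtain ⟨hg1, hg2⟩ := F6_gu
  obtain ⟨hs1, hs2⟩ := abs_le.mp hs
  obtain ⟨hp1, hp1'⟩ := abs_le.mp hp₁
  obtain ⟨hp2, hp2'⟩ := abs_le.mp hp₂
  obtain ⟨hx1, hx1'⟩ := hx₁
  obtain ⟨hx2, hx2'⟩ := hx₂
  have hww := ww_eq
  have hMs := Ms_bd.2
  set P : ℝ := Real.sin (s + ww - x₁) * Real.sin (x₁ - x₂ + ww - p₁) *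
      Real.sin (3 / 2 * ww - s + x₂ + p₁) with hP
  rcases le_total R 4 with hR4 | hR4
  · set S : ℝ := Real.sin (5 / 2 * ww + max p₁ 0 + min p₂ 0) with hS
    set f : ℝ := Wx (s - ww / 2) - Wx s with hf
    set D : ℝ := (Wx x₁ - Wx (x₁ - p₁)) + (Wx x₂ - Wx (x₂ - p₂)) +
      (Wx (s - ww / 2 - p₁ - p₂) - Wx (s - ww / 2)) with hDdef
    have hD : D ≤ max (0.6865 * p₁) (0.632 * p₁) + max (0.3545 * p₂) (0.275 * p₂) :=
      F6_D hs hp₁ hp₂ ⟨hx1, hx1'⟩ ⟨hx2, hx2'⟩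
    have hfb : |f + 0.71416 * s| ≤ 0.0001 := by
      have h1 := abs_le.mp (Wx_axis_bd (s := s) (by
        rw [abs_le]; constructor <;> linarith))
      obtain ⟨k1, k2⟩ := k0_bd
      have h2 : s ^ 2 ≤ 0.0079 ^ 2 := by
        rw [sq_le_sq, abs_of_nonneg (show (0 : ℝ) ≤ 0.0079 by norm_num), abs_le]
        constructor <;> linarith
      have h3 : |(k0 - 0.71416) * s| ≤ 0.00001 := by
        rw [abs_mul]
        have h4 : |k0 - 0.71416| ≤ 0.001 := by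
          rw [abs_le]; constructor <;> linarith
        have h5 : |s| ≤ 0.01 := by
          rw [abs_le]; constructor <;> linarith
        calc |k0 - 0.71416| * |s| ≤ 0.001 * 0.01 :=
              mul_le_mul h4 h5 (abs_nonneg _) (by norm_num)
          _ = 0.00001 := by norm_num
      obtain ⟨h4, h5⟩ := abs_le.mp h3
      rw [abs_le]
      constructor
      · linarith only [h1.1, h2, h4, h5]
      · linarith only [h1.2, h2, h4, h5]
    have hSpos : 0 < S := by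
      have hg : gu = Real.pi / 3584 := rfl
      have hpi := Real.pi_pos
      have m1 : max p₁ 0 ≤ 4 * gu := max_le hp1' (by linarith)
      have m2 : 0 ≤ max p₁ 0 := le_max_right _ _
      have m3 : -(4 * gu) ≤ min p₂ 0 := le_min hp2 (by linarith)
      have m4 : min p₂ 0 ≤ 0 := min_le_right _ _
      apply Real.sin_pos_of_pos_of_lt_pi
      · linarith
      · have h1 : Real.pi = 3584 * gu := by rw [hg]; ring
        linarith
    have h4 := NN_le hR hR4 hs hp₁ hp₂ ⟨hx1, hx1'⟩ ⟨hx2, hx2'⟩ h₁ h₂ h₃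
    have h5 := NN_zero hs
    have h6 := NN_diff hs hp₁ hp₂ hfb hD
    rw [← hS, ← hP] at h4
    rw [← hf] at h5
    rw [← hS] at h6
    have h7 : 2 * S * (Ms + f + D) ≤ 4 * R ^ 2 * P * S := by linarith only [h4, h5, h6]
    have h8 : 2 * S * (Ms + f + D) ≤ 2 * S * (2 * R ^ 2 * P) := by linarith only [h7]
    have h9 : Ms + f + D ≤ 2 * R ^ 2 * P := le_of_mul_le_mul_left h8 (by linarith only [hSpos])
    have h10 : Ms + ((Wx x₁ - Wx (x₁ - p₁)) + (Wx x₂ - Wx (x₂ - p₂)) +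
      (Wx (s - ww / 2 - p₁ - p₂) - Wx s)) = Ms + f + D := by
      rw [hf, hDdef]; ring
    rw [h10]
    exact h9
  · have s1 : 1 / 2 ≤ Real.sin (s + ww - x₁) := F6_sin (by linarith) (by linarith)
    have s2 : 1 / 2 ≤ Real.sin (x₁ - x₂ + ww - p₁) := F6_sin (by linarith) (by linarith)
    have s3 : 1 / 2 ≤ Real.sin (3 / 2 * ww - s + x₂ + p₁) := F6_sin (by linarith) (by linarith)
    have hP8 : 1 / 8 ≤ P := by
      have h1 : 1 / 2 * (1 / 2) ≤ Real.sin (s + ww - x₁) * Real.sin (x₁ - x₂ + ww - p₁) :=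
        mul_le_mul s1 s2 (by norm_num) (le_trans (by norm_num) s1)
      have h2 := mul_le_mul h1 s3 (by norm_num) (le_trans (by norm_num) h1)
      rw [hP]
      exact le_trans (by norm_num) h2
    have hR2 : 4 * 4 ≤ R * R := mul_le_mul hR4 hR4 (by norm_num) hR.le
    have h1 : 4 ≤ 2 * R ^ 2 * P := by
      have h2 := mul_le_mul hR2 hP8 (by norm_num) (le_trans (by norm_num) hR2)
      linarith only [h2]
    have w1 := abs_le.mp (F6_Wx x₁)
    have w2 := abs_le.mp (F6_Wx (x₁ - p₁))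
    have w3 := abs_le.mp (F6_Wx x₂)
    have w4 := abs_le.mp (F6_Wx (x₂ - p₂))
    have w5 := abs_le.mp (F6_Wx (s - ww / 2 - p₁ - p₂))
    have w6 := abs_le.mp (F6_Wx s)
    linarith only [w1.2, w2.1, w3.2, w4.1, w5.2, w6.1, h1, hMs]

end Hepta
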