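import Pool.Agent.H69.Hep.F6

/-! # F6b: the exceptional regions -/

set_option autoImplicit false

namespace Hepta

private theorem F6b_abs {y : ℝ} (h : |y| ≤ ww / 2) : |y - round (y / ww) * ww| = |y| := by
  have hw : 0 < ww := by
    rw [ww_eq]
    have := gu_pos
    linarith
  apply le_antisymm
  · have h1 := round_le (y / ww) 0
    have h2 : |y - round (y / ww) * ww| = |y / ww - round (y / ww)| * ww := by
      rw [← abs_of_pos hw, ← abs_mul, abs_of_pos hw]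
      congr 1
      field_simp
    have h3 : |y| = |y / ww - ((0 : ℤ) : ℝ)| * ww := by
      rw [← abs_of_pos hw, ← abs_mul, abs_of_pos hw]
      congr 1
      push_cast
      field_simp
      ring
    rw [h2, h3]
    exact mul_le_mul_of_nonneg_right h1 hw.le
  · generalize round (y / ww) = r
    rcases eq_or_ne r 0 with h0 | h0
    · rw [h0]
      simp
    · have h1 : (1 : ℝ) ≤ |(r : ℝ)| := by
        have : 1 ≤ |r| := Int.one_le_abs h0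
        exact_mod_cast this
      have h2 : |(r : ℝ) * ww| ≤ |y - r * ww| + |y| := by
        have h3 := abs_add_le (-(y - r * ww)) y
        rw [abs_neg] at h3
        have h4 : -(y - r * ww) + y = r * ww := by ring
        rwa [h4] at h3
      rw [abs_mul, abs_of_pos hw] at h2
      have h4 : 1 * ww ≤ |(r : ℝ)| * ww := mul_le_mul_of_nonneg_right h1 hw.le
      linarith

private theorem F6b_cw {y : ℝ} (h : |y| ≤ ww / 2) : cw y = Real.cos y := by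
  unfold cw
  rw [← Real.cos_abs (y - _), F6b_abs h, Real.cos_abs]

private theorem F6b_fw {y : ℝ} (h : |y| ≤ ww / 2) :
    fw y = (1 + Real.cos (ww / 2 - |y|) / Real.cos (ww / 2)) / 2 := by
  unfold fw
  rw [F6b_abs h]

private theorem F6b_gg {p : ℝ} (h : |p| ≤ ww / 2) : fw p = gg p / 2 := by
  rw [F6b_fw h]
  have hc := cos_half_pos'
  unfold gg
  rw [Real.cos_sub, Real.cos_abs, Real.tan_eq_sin_div_cos]
  field_simp
  ring

private theorem F6b_GG {q : ℝ} (h : |q| ≤ ww / 2) : fw (ww / 2 + q) = GG q / 2 := by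
  obtain ⟨ha, hb⟩ := abs_le.1 h
  unfold GG
  rcases le_total q 0 with h0 | h0
  · have h1 : |ww / 2 + q| = ww / 2 + q := abs_of_nonneg (by linarith)
    rw [F6b_fw (by rw [h1]; linarith), h1]
    have h2 : ww / 2 - (ww / 2 + q) = -q := by ring
    rw [h2, Real.cos_neg]
  · have h3 : ww / 2 + q = (q - ww / 2) + ((1 : ℤ) : ℝ) * ww := by
      push_cast
      ring
    have h1 : |q - ww / 2| = ww / 2 - q := by
      rw [abs_of_nonpos (by linarith)]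
      ring
    rw [h3, fw_add, F6b_fw (by rw [h1]; linarith), h1]
    have h2 : ww / 2 - (ww / 2 - q) = q := by ring
    rw [h2]

private theorem F6b_W (x : ℝ) (n : ℕ) : Wx (x + n * ww) = Wx x := by
  induction n with
  | zero => simp
  | succ n ih =>
    have h : x + ((n + 1 : ℕ) : ℝ) * ww = (x + n * ww) + ww := by
      push_cast
      ring
    rw [h, Wx_per, ih]

/-- for negative `x` the cosine is larger at the argument nearer to zero -/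
private theorem F6b_max {x p : ℝ} (hx : x ≤ -(194 * gu)) (hx' : -(404 * gu) ≤ x)
    (hp : |p| ≤ 4 * gu) : max (Real.cos x) (Real.cos (x - p)) = Real.cos (x - min p 0) := by
  obtain ⟨h1, h2⟩ := abs_le.1 hp
  have hg := gu_pos
  have hpi : 3584 * gu = Real.pi := by
    unfold gu
    ring
  rcases le_total p 0 with h0 | h0
  · rw [min_eq_left h0]
    apply max_eq_right
    rw [← Real.cos_abs x, ← Real.cos_abs (x - p), abs_of_nonpos (by linarith : x ≤ 0),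
      abs_of_nonpos (by linarith : x - p ≤ 0)]
    apply Real.cos_le_cos_of_nonneg_of_le_pi <;> linarith
  · rw [min_eq_right h0, sub_zero]
    apply max_eq_left
    rw [← Real.cos_abs x, ← Real.cos_abs (x - p), abs_of_nonpos (by linarith : x ≤ 0),
      abs_of_nonpos (by linarith : x - p ≤ 0)]
    apply Real.cos_le_cos_of_nonneg_of_le_pi <;> linarith

private theorem F6b_main (k : ℕ) {ξ₁ ξ₂ ξ₃ α₁ α₂ α₃ R : ℝ} (h1 : ξ₁ ∈ Set.Icc (809 : ℝ) 830)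
    (h2 : ξ₂ ∈ Set.Icc (620 : ℝ) 641) (h3 : ξ₁ + α₁ ∈ Set.Icc (2039 : ℝ) 2057)
    (h4 : ξ₂ + α₂ + 1024 - ξ₁ ∈ Set.Icc (2044 : ℝ) 2052)
    (h5 : ξ₃ + α₃ + 1024 - ξ₂ ∈ Set.Icc (2044 + 1024 * k : ℝ) (2052 + 1024 * k))
    (ha : α₃ = 3584 - α₁ - α₂) (hR : 0 < R)
    (e1 : Eg R ξ₁ (ξ₂ + α₂) α₃) (e2 : Eg R ξ₂ (ξ₃ + α₃) α₁) (e3 : Eg R ξ₃ (ξ₁ + α₁) α₂) :
    Ms + (Wx (ξ₁ * gu) - Wx ((ξ₁ + α₁) * gu) + (Wx (ξ₂ * gu) - Wx ((ξ₂ + α₂) * gu)) +
      (Wx (ξ₃ * gu) - Wx ((ξ₃ + α₃) * gu))) ≤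
      2 * R ^ 2 * (Real.sin (α₁ * gu) * Real.sin (α₂ * gu) * Real.sin (α₃ * gu)) := by
  have hg := gu_pos
  have hpi : 3584 * gu = Real.pi := by
    unfold gu
    ring
  have hw : ww = 1024 * gu := ww_eq
  obtain ⟨h1a, h1b⟩ := h1
  obtain ⟨h2a, h2b⟩ := h2
  obtain ⟨h3a, h3b⟩ := h3
  obtain ⟨h4a, h4b⟩ := h4
  obtain ⟨h5a, h5b⟩ := h5
  obtain ⟨x₁, hx₁⟩ : ∃ x, x = (ξ₁ - 1024) * gu := ⟨_, rfl⟩
  obtain ⟨x₂, hx₂⟩ : ∃ x, x = (ξ₂ - 1024) * gu := ⟨_, rfl⟩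
  obtain ⟨s, hs⟩ : ∃ x, x = (ξ₁ + α₁ - 2048) * gu := ⟨_, rfl⟩
  obtain ⟨p₁, hp₁⟩ : ∃ x, x = (1024 + ξ₁ - (ξ₂ + α₂)) * gu := ⟨_, rfl⟩
  obtain ⟨p₂, hp₂⟩ : ∃ x, x = (1024 * (k + 1) + ξ₂ - (ξ₃ + α₃)) * gu := ⟨_, rfl⟩
  have bx₁ : x₁ ∈ Set.Icc (-(215 * gu)) (-(194 * gu)) := by
    rw [hx₁]
    constructor <;> nlinarith
  have bx₂ : x₂ ∈ Set.Icc (-(404 * gu)) (-(383 * gu)) := by
    rw [hx₂]
    constructor <;> nlinarith
  have bs : |s| ≤ 9 * gu := by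
    rw [hs, abs_le]
    constructor <;> nlinarith
  have bp₁ : |p₁| ≤ 4 * gu := by
    rw [hp₁, abs_le]
    constructor <;> nlinarith
  have bp₂ : |p₂| ≤ 4 * gu := by
    rw [hp₂, abs_le]
    constructor <;> nlinarith
  have bq : |p₁ + p₂| ≤ 8 * gu := (abs_add_le _ _).trans (by linarith)
  -- the arguments
  have a1 : α₁ * gu = s + ww - x₁ := by
    rw [hs, hx₁, hw]
    ring
  have a2 : α₂ * gu = x₁ - x₂ + ww - p₁ := by
    rw [hp₁, hx₁, hx₂, hw]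
    ring
  have a3 : α₃ * gu = 3 / 2 * ww - s + x₂ + p₁ := by
    rw [hs, hp₁, hx₂, hw, ha]
    ring
  have u1 : ξ₁ * gu = x₁ + ((1 : ℕ) : ℝ) * ww := by
    rw [hx₁, hw]
    push_cast
    ring
  have u2 : ξ₂ * gu = x₂ + ((1 : ℕ) : ℝ) * ww := by
    rw [hx₂, hw]
    push_cast
    ring
  have u3 : ξ₃ * gu = (s - ww / 2 - p₁ - p₂) + ((k + 1 : ℕ) : ℝ) * ww := by
    rw [hs, hp₁, hp₂, hw]
    push_cast
    rw [ha]
    ring
  have v1 : (ξ₁ + α₁) * gu = s + ((2 : ℕ) : ℝ) * ww := by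
    rw [hs, hw]
    push_cast
    ring
  have v2 : (ξ₂ + α₂) * gu = (x₁ - p₁) + ((2 : ℕ) : ℝ) * ww := by
    rw [hx₁, hp₁, hw]
    push_cast
    ring
  have v3 : (ξ₃ + α₃) * gu = (x₂ - p₂) + ((k + 2 : ℕ) : ℝ) * ww := by
    rw [hx₂, hp₂, hw]
    push_cast
    ring
  have hcwN : ∀ (x : ℝ) (n : ℕ), cw (x + n * ww) = cw x := by
    intro x n
    have := cw_add x (n : ℤ)
    simpa using this
  have hfwN : ∀ (x : ℝ) (n : ℕ), fw (x + n * ww) = fw x := by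
    intro x n
    have := fw_add x (n : ℤ)
    simpa using this
  have bx₁' : |x₁| ≤ ww / 2 := by
    rw [abs_le, hw]
    constructor <;> linarith [bx₁.1, bx₁.2]
  have bx₂' : |x₂| ≤ ww / 2 := by
    rw [abs_le, hw]
    constructor <;> linarith [bx₂.1, bx₂.2]
  have hq1 := abs_le.1 bp₁
  have hq2 := abs_le.1 bp₂
  have hq3 := abs_le.1 bs
  have hq4 := abs_le.1 bq
  have bxp₁ : |x₁ - p₁| ≤ ww / 2 := by
    rw [abs_le, hw]
    constructor <;> linarith [bx₁.1, bx₁.2, hq1.1, hq1.2]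
  have bxp₂ : |x₂ - p₂| ≤ ww / 2 := by
    rw [abs_le, hw]
    constructor <;> linarith [bx₂.1, bx₂.2, hq2.1, hq2.2]
  have bs' : |s| ≤ ww / 2 := by
    rw [hw]
    linarith
  have c1 : cw (ξ₁ * gu) = Real.cos x₁ := by rw [u1, hcwN, F6b_cw bx₁']
  have c2 : cw (ξ₂ * gu) = Real.cos x₂ := by rw [u2, hcwN, F6b_cw bx₂']
  have d1 : cw ((ξ₁ + α₁) * gu) = Real.cos s := by rw [v1, hcwN, F6b_cw bs']
  have d2 : cw ((ξ₂ + α₂) * gu) = Real.cos (x₁ - p₁) := by rw [v2, hcwN, F6b_cw bxp₁]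
  have d3 : cw ((ξ₃ + α₃) * gu) = Real.cos (x₂ - p₂) := by rw [v3, hcwN, F6b_cw bxp₂]
  have c3 : cw (ξ₃ * gu) ≤ Real.cos s := by
    rw [u3, hcwN]
    rcases le_total (s - (p₁ + p₂)) 0 with h0 | h0
    · have t1 : s - ww / 2 - p₁ - p₂ = (ww / 2 + (s - (p₁ + p₂))) + ((-1 : ℤ) : ℝ) * ww := by
        push_cast
        ring
      have t2 : |ww / 2 + (s - (p₁ + p₂))| = ww / 2 + (s - (p₁ + p₂)) := by
        apply abs_of_nonneg
        rw [hw]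
        linarith [hq3.1, hq4.2]
      rw [t1, cw_add, F6b_cw (by rw [t2]; linarith), ← Real.cos_abs s]
      apply Real.cos_le_cos_of_nonneg_of_le_pi (abs_nonneg _)
      · rw [hw]
        linarith [hq3.1, hq4.1, hq4.2]
      · rw [hw]
        linarith [hq3.1, hq4.1, hq4.2]
    · have t2 : |s - ww / 2 - p₁ - p₂| = ww / 2 - (s - (p₁ + p₂)) := by
        rw [abs_of_nonpos]
        · ring
        · rw [hw]
          linarith [hq3.2, hq4.1]
      rw [F6b_cw (by rw [t2]; linarith), ← Real.cos_abs s, ← Real.cos_abs (s - ww / 2 - p₁ - p₂), t2]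
      apply Real.cos_le_cos_of_nonneg_of_le_pi (abs_nonneg _)
      · rw [hw]
        linarith [hq3.2, hq4.1, hq4.2]
      · rw [hw]
        linarith [hq3.2, hq4.1, hq4.2]
  have f1 : fw ((ξ₂ + α₂ - ξ₁) * gu) = gg p₁ / 2 := by
    have t : (ξ₂ + α₂ - ξ₁) * gu = -p₁ + ((1 : ℕ) : ℝ) * ww := by
      rw [hp₁, hw]
      push_cast
      ring
    rw [t, hfwN, fw_neg, F6b_gg]
    rw [hw]
    linarith
  have f2 : fw ((ξ₃ + α₃ - ξ₂) * gu) = gg p₂ / 2 := by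
    have t : (ξ₃ + α₃ - ξ₂) * gu = -p₂ + ((k + 1 : ℕ) : ℝ) * ww := by
      rw [hp₂, hw]
      push_cast
      ring
    rw [t, hfwN, fw_neg, F6b_gg]
    rw [hw]
    linarith
  have f3 : fw ((ξ₁ + α₁ - ξ₃) * gu) = GG (p₁ + p₂) / 2 := by
    have t : (ξ₁ + α₁ - ξ₃) * gu = (ww / 2 + (p₁ + p₂)) + ((1 - k : ℤ) : ℝ) * ww := by
      rw [sub_mul, v1, u3]
      push_cast
      ring
    rw [t, fw_add, F6b_GG]
    rw [hw]
    linarith
  unfold Eg at e1 e2 e3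
  have g1 : gg p₁ ≤ 2 * R * Real.sin (3 / 2 * ww - s + x₂ + p₁) * Real.cos (x₁ - min p₁ 0) := by
    rw [f1, c1, d2, a3, F6b_max bx₁.2 (by linarith [bx₁.1]) bp₁] at e1
    linarith
  have g2 : gg p₂ ≤ 2 * R * Real.sin (s + ww - x₁) * Real.cos (x₂ - min p₂ 0) := by
    rw [f2, c2, d3, a1, F6b_max (by linarith [bx₂.2]) bx₂.1 bp₂] at e2
    linarith
  have g3 : GG (p₁ + p₂) ≤ 2 * R * Real.sin (x₁ - x₂ + ww - p₁) * Real.cos s := by
    rw [f3, d1, max_eq_right c3, a2] at e3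
    linarith
  have hfin := crit_ineq hR bs bp₁ bp₂ bx₁ bx₂ g1 g2 g3
  rw [a1, a2, a3, u1, u2, u3, v1, v2, v3, F6b_W, F6b_W, F6b_W, F6b_W, F6b_W, F6b_W]
  linarith

/-- The case `υ₃ ≡ ξ₂ + 1024`. -/
theorem reg_ok₁ : RegOK Wx Ms ⟨809, 830, 620, 641, 2039, 2057, 2044, 2052, 2044, 2052, 0, 0, 0⟩ := by
  intro ξ₁ ξ₂ ξ₃ α₁ α₂ α₃ R h1 h2 h3 h4 h5 ha _ _ _ _ hR e1 e2 e3
  refine F6b_main 0 (by simpa using h1) (by simpa using h2) (by simpa using h3)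
    (by simpa using h4) ?_ ha hR e1 e2 e3
  norm_num at h5 ⊢
  exact h5

/-- The case `υ₃ ≡ ξ₂ + 2048`. -/
theorem reg_ok₂ : RegOK Wx Ms ⟨809, 830, 620, 641, 2039, 2057, 2044, 2052, 3068, 3076, 0, 0, 0⟩ := by
  intro ξ₁ ξ₂ ξ₃ α₁ α₂ α₃ R h1 h2 h3 h4 h5 ha _ _ _ _ hR e1 e2 e3
  refine F6b_main 1 (by simpa using h1) (by simpa using h2) (by simpa using h3)
    (by simpa using h4) ?_ ha hR e1 e2 e3
  norm_num at h5 ⊢
  exact h5

end Hepta
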