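import Pool.Agent.H69.Hep.C8
import Pool.Agent.H69.Hep.F3

/-! # F7: crude bounds for the potential -/

set_option autoImplicit false

namespace Hepta

private theorem F7_a : 42036 / 10 ^ 6 ≤ a₁x ∧ a₁x ≤ 420366 / 10 ^ 7 := by
  have h := abs_le.1 a₁x_bd
  constructor <;> norm_num at h ⊢ <;> linarith [h.1, h.2]

private theorem F7_mul {c d b : ℝ} (hc : 0 ≤ c) (h : |d| ≤ b) : c * d ≤ c * b ∧ -(c * b) ≤ c * d := by
  have h' := abs_le.1 h
  constructor
  · exact mul_le_mul_of_nonneg_left h'.2 hc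
  · nlinarith [h'.1]

private theorem F7_diff (x y : ℝ) {b1 b2 b3 b4 b5 : ℝ}
    (h1 : |Real.sin (7 * x) - Real.sin (7 * y)| ≤ b1)
    (h2 : |Real.sin (14 * x) - Real.sin (14 * y)| ≤ b2)
    (h3 : |Real.sin (21 * x) - Real.sin (21 * y)| ≤ b3)
    (h4 : |Real.sin (28 * x) - Real.sin (28 * y)| ≤ b4)
    (h5 : |Real.sin (35 * x) - Real.sin (35 * y)| ≤ b5) :
    Wx x - Wx y ≤ a₁x * b1 + 6987 / 10 ^ 6 * b2 + 965 / 10 ^ 6 * b3 + 964 / 10 ^ 6 * b4 +
      1216 / 10 ^ 6 * b5 := by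
  have ha := F7_a
  have e1 := (F7_mul (show 0 ≤ a₁x by linarith [ha.1]) h1).1
  have e2 := (F7_mul (show (0 : ℝ) ≤ 6987 / 10 ^ 6 by norm_num) h2).2
  have e3 := (F7_mul (show (0 : ℝ) ≤ 965 / 10 ^ 6 by norm_num) h3).1
  have e4 := (F7_mul (show (0 : ℝ) ≤ 964 / 10 ^ 6 by norm_num) h4).2
  have e5 := (F7_mul (show (0 : ℝ) ≤ 1216 / 10 ^ 6 by norm_num) h5).1
  unfold Wx
  nlinarith

private theorem F7_lip (k x y : ℝ) (hk : 0 ≤ k) :
    |Real.sin (k * x) - Real.sin (k * y)| ≤ k * |x - y| := by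
  refine (Real.abs_sin_sub_sin_le _ _).trans (le_of_eq ?_)
  rw [← mul_sub, abs_mul, abs_of_nonneg hk]

private theorem F7_two (A B : ℝ) : |Real.sin A - Real.sin B| ≤ 2 := by
  have h1 := Real.sin_le_one A
  have h2 := Real.neg_one_le_sin A
  have h3 := Real.sin_le_one B
  have h4 := Real.neg_one_le_sin B
  rw [abs_le]
  constructor <;> linarith

/-- The two main terms together. -/
private theorem F7_main (t : ℝ) :
    |a₁x * Real.sin t - 6987 / 10 ^ 6 * Real.sin (2 * t)| ≤ 477 / 10 ^ 4 := by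
  have ha := F7_a
  have hsc := Real.sin_sq_add_cos_sq t
  rw [Real.sin_two_mul]
  set u := Real.sin t
  set c := Real.cos t
  set a := a₁x
  have e : a * u - 6987 / 10 ^ 6 * (2 * u * c) = u * (a - 13974 / 10 ^ 6 * c) := by ring
  rw [e]
  apply abs_le_of_sq_le_sq _ (by norm_num)
  have hu : u ^ 2 = 1 - c ^ 2 := by linarith
  have h1 : (a - 13974 / 10 ^ 6 * c) ^ 2 ≤ 2275 / 10 ^ 6 + 90 / 10 ^ 5 * c ^ 2 := by
    have h2 : a ^ 2 ≤ (420366 / 10 ^ 7) ^ 2 := by
      have : (0 : ℝ) ≤ a := by linarith [ha.1]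
      exact pow_le_pow_left₀ this ha.2 2
    have h3 : (a - 13974 / 10 ^ 6 * c) ^ 2 = a ^ 2 - 2 * a * (13974 / 10 ^ 6 * c) +
        (13974 / 10 ^ 6) ^ 2 * c ^ 2 := by ring
    have h4 : 0 ≤ (a / 2 + 2 * (13974 / 10 ^ 6 * c)) ^ 2 := sq_nonneg _
    have h5 : -(2 * a * (13974 / 10 ^ 6 * c)) ≤ a ^ 2 / 4 + 4 * (13974 / 10 ^ 6) ^ 2 * c ^ 2 := by
      nlinarith
    rw [h3]
    have h6 : 0 ≤ c ^ 2 := sq_nonneg c
    norm_num at h2 h5 ⊢
    nlinarith
  have h6 : 0 ≤ c ^ 2 := sq_nonneg c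
  have h7 : c ^ 2 ≤ 1 := by nlinarith [sq_nonneg u]
  rw [mul_pow, hu]
  have h8 : (1 - c ^ 2) * (a - 13974 / 10 ^ 6 * c) ^ 2 ≤
      (1 - c ^ 2) * (2275 / 10 ^ 6 + 90 / 10 ^ 5 * c ^ 2) :=
    mul_le_mul_of_nonneg_left h1 (by linarith)
  refine h8.trans ?_
  nlinarith

private theorem F7_W (x : ℝ) : |Wx x| ≤ 50845 / 10 ^ 6 := by
  have h0 := F7_main (7 * x)
  have e : 2 * (7 * x) = 14 * x := by ring
  rw [e] at h0
  have h0' := abs_le.1 h0
  have h3 : |Real.sin (21 * x)| ≤ 1 := Real.abs_sin_le_one _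
  have h4 : |Real.sin (28 * x)| ≤ 1 := Real.abs_sin_le_one _
  have h5 : |Real.sin (35 * x)| ≤ 1 := Real.abs_sin_le_one _
  have h3' := abs_le.1 h3
  have h4' := abs_le.1 h4
  have h5' := abs_le.1 h5
  unfold Wx
  rw [abs_le]
  constructor
  · linarith [h0'.1, h3'.1, h4'.2, h5'.1]
  · linarith [h0'.2, h3'.2, h4'.1, h5'.2]

private theorem F7_quot (p : ℝ) :
    Real.cos (ww / 2 - p) / Real.cos (ww / 2) =
      Real.cos p + Real.tan (ww / 2) * Real.sin p := by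
  have h := cos_half_pos'
  rw [Real.tan_eq_sin_div_cos, Real.cos_sub]
  field_simp

/-- The lower bound of the length. -/
private theorem F7_G {p : ℝ} (h0 : 0 ≤ p) (h1 : p ≤ 1 / 4) :
    1 - p ^ 2 / 2 + 4815 / 10000 * (p - p ^ 3 / 6) ≤
      Real.cos (ww / 2 - p) / Real.cos (ww / 2) := by
  rw [F7_quot]
  have hs : p - p ^ 3 / 6 ≤ Real.sin p := Real.sin_ge_sub_cube h0
  have hs0 : 0 ≤ p - p ^ 3 / 6 := by nlinarith [mul_nonneg h0 h0]
  have hc := Real.one_sub_sq_div_two_le_cos (x := p)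
  have ht : 4815 / 10000 ≤ Real.tan (ww / 2) := by
    have := t_half.1
    norm_num at this ⊢
    linarith
  have h2 : 4815 / 10000 * (p - p ^ 3 / 6) ≤ Real.tan (ww / 2) * Real.sin p :=
    mul_le_mul ht hs hs0 (by linarith)
  linarith

private theorem F7_G_quarter {p : ℝ} (h0 : 1 / 4 ≤ p) (h1 : p ≤ ww / 2) :
    1 + 875 / 10000 ≤ Real.cos (ww / 2 - p) / Real.cos (ww / 2) := by
  have hc0 := cos_half_pos'
  have hπ4 := Real.pi_lt_four
  have hw : ww / 2 = Real.pi / 7 := by unfold ww; ring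
  have h2 : Real.cos (ww / 2 - 1 / 4) ≤ Real.cos (ww / 2 - p) :=
    Real.cos_le_cos_of_nonneg_of_le_pi (by linarith) (by rw [hw]; linarith [Real.pi_pos])
      (by linarith)
  have h3 := F7_G (p := 1 / 4) (by norm_num) le_rfl
  have h4 : Real.cos (ww / 2 - 1 / 4) / Real.cos (ww / 2) ≤
      Real.cos (ww / 2 - p) / Real.cos (ww / 2) := div_le_div_of_nonneg_right h2 hc0.le
  norm_num at h3 ⊢
  linarith

theorem edgeOK_Wx : EdgeOK Wx := by
  have ha := F7_a
  have H1 : ∀ x y, Wx x - Wx y ≤ 10169 / 10 ^ 5 := by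
    intro x y
    have hx := abs_le.1 (F7_W x)
    have hy := abs_le.1 (F7_W y)
    linarith [hx.2, hy.1]
  refine ⟨fun x y => ?_, fun x y l hl hE => ?_⟩
  · have h := H1 x y
    linarith
  · have hfw := hE.fw_le hl
    have hmax : max (cw x) (cw y) ≤ 1 := max_le (cw_le_one x) (cw_le_one y)
    have hl2 : 2 * fw (x - y) ≤ l := by
      refine hfw.trans ?_
      calc l * max (cw x) (cw y) ≤ l * 1 := mul_le_mul_of_nonneg_left hmax hl.le
        _ = l := mul_one l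
    obtain ⟨n, hn⟩ : ∃ n : ℤ, n = round ((x - y) / ww) := ⟨_, rfl⟩
    obtain ⟨σ, hσ⟩ : ∃ σ : ℝ, σ = x - y - n * ww := ⟨_, rfl⟩
    have hp1 : |σ| ≤ ww / 2 := by
      rw [hσ, hn]
      exact abs_sub_round (x - y)
    have hG : Real.cos (ww / 2 - |σ|) / Real.cos (ww / 2) - 1 ≤ l - 2 := by
      have h2 : 2 * fw (x - y) = 1 + Real.cos (ww / 2 - |σ|) / Real.cos (ww / 2) := by
        unfold fw
        rw [← hn, ← hσ]
        ring
      linarith
    have hW : Wx x - Wx y = Wx (y + σ) - Wx y := by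
      have h3 : x = y + σ + n * ww := by rw [hσ]; ring
      have hper : Function.Periodic Wx ww := Wx_per
      rw [h3, hper.int_mul n (y + σ)]
    have hp0 : 0 ≤ |σ| := abs_nonneg σ
    have hsub : |y + σ - y| = |σ| := by rw [add_sub_cancel_left]
    rw [hW]
    rcases le_total |σ| (1 / 4) with h4 | h4
    · have hg := F7_G hp0 h4
      rcases le_total |σ| (195 / 1000) with h5 | h5
      · have h := F7_diff (y + σ) y (F7_lip 7 _ _ (by norm_num)) (F7_lip 14 _ _ (by norm_num))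
          (F7_lip 21 _ _ (by norm_num)) (F7_lip 28 _ _ (by norm_num)) (F7_lip 35 _ _ (by norm_num))
        rw [hsub] at h
        have hL : Wx (y + σ) - Wx y ≤ 48190 / 10 ^ 5 * |σ| := by
          refine h.trans ?_
          have := mul_le_mul_of_nonneg_right ha.2 (show 0 ≤ 7 * |σ| by positivity)
          norm_num at this ⊢
          linarith
        have hsq : |σ| ^ 2 ≤ 38025 / 10 ^ 6 := (pow_le_pow_left₀ hp0 h5 2).trans (by norm_num)
        have hcu : |σ| ^ 3 ≤ 7415 / 10 ^ 6 := (pow_le_pow_left₀ hp0 h5 3).trans (by norm_num)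
        linarith
      · have h7 : |Real.sin (7 * (y + σ)) - Real.sin (7 * y)| ≤ 2 * (7 / 8) := by
          refine (F7_lip 7 (y + σ) y (by norm_num)).trans ?_
          rw [hsub]
          linarith
        have h := F7_diff (y + σ) y h7 (F7_two _ _) (F7_two _ _) (F7_two _ _) (F7_two _ _)
        have h8 : Wx (y + σ) - Wx y ≤ 9383 / 10 ^ 5 := by
          refine h.trans ?_
          norm_num
          linarith [ha.2]
        have hG2 : 1 + 742 / 10000 ≤ 1 - |σ| ^ 2 / 2 + 4815 / 10000 * (|σ| - |σ| ^ 3 / 6) := by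
          nlinarith [mul_nonneg (sub_nonneg.2 h5) (sub_nonneg.2 h4),
            mul_nonneg (mul_nonneg (sub_nonneg.2 h5) (sub_nonneg.2 h4)) hp0]
        linarith
    · have hg := F7_G_quarter h4 hp1
      have h := H1 (y + σ) y
      linarith

end Hepta
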