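import Pool.Agent.H69.Hep.C4
import Pool.Agent.H69.Hep.E0
import Pool.Agent.H69.Hep.E4
import Pool.Agent.H69.Hep.E5
import Pool.Agent.H69.Hep.E6
import Pool.Agent.H69.Hep.E7
import Pool.Agent.H69.Hep.E8
import Pool.Agent.H69.Hep.F3

/-! # F8: the tables are correct -/

set_option autoImplicit false

namespace Hepta

/-- The rational potential near `Wx`. -/
def v1 : List ℤ := [42036444, -6987000, 965000, -964000, 1216000]

/-- `∑ i < n, 2 ^ (b i)` -/
def ones (b : Nat) : Nat → Nat
  | 0 => 0
  | n + 1 => Nat.add (Nat.pow 2 (Nat.mul b n)) (ones b n)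

/-- The table `V` raised by one unit. -/
def tabV1 : Nat := Nat.add tabV (ones 32 1024)

/-- The table `K` lowered by one unit. -/
def tabK1 : Nat := Nat.sub tabK (ones 16 1024)

private theorem F8_chkS : chkS tabS = true := by decide +kernel

private theorem F8_chkC : chkC tabC = true := by decide +kernel

private theorem F8_chkF : chkF tabF = true := by decide +kernel

private theorem F8_chkB : chkB 18881245118 tabB = true := by decide +kernel

/-- The potential `Wx` is a convex combination of the potentials `F8_p` and `F8_m`. -/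
private def F8_p : List ℤ := [42036445, -6987000, 965000, -964000, 1216000]

private def F8_m : List ℤ := [42036443, -6987000, 965000, -964000, 1216000]

private theorem F8_chkVp : chkV F8_p tabV = true := by decide +kernel

private theorem F8_chkVm : chkV F8_m tabV = true := by decide +kernel

private theorem F8_chkKp : chkK F8_p tabs.K = true := by decide +kernel

private theorem F8_chkKm : chkK F8_m tabs.K = true := by decide +kernel

private theorem F8_Vl (a b c d e : ℤ) (x : ℝ) :
    Vl [a, b, c, d, e] x = (a : ℝ) / 10 ^ 9 * Real.sin (7 * x) +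
      (b : ℝ) / 10 ^ 9 * Real.sin (14 * x) + (c : ℝ) / 10 ^ 9 * Real.sin (21 * x) +
      (d : ℝ) / 10 ^ 9 * Real.sin (28 * x) + (e : ℝ) / 10 ^ 9 * Real.sin (35 * x) := by
  have h : Vl [a, b, c, d, e] x = ∑ j : Fin 5, ((([a, b, c, d, e] : List ℤ).get j : ℤ) : ℝ) /
      10 ^ 9 * Real.sin (7 * (((j : ℕ) : ℝ) + 1) * x) := rfl
  rw [h]
  simp only [Fin.sum_univ_five, List.get_eq_getElem]
  have e1 : 7 * ((((0 : Fin 5) : ℕ) : ℝ) + 1) * x = 7 * x := by norm_num
  have e2 : 7 * ((((1 : Fin 5) : ℕ) : ℝ) + 1) * x = 14 * x := by norm_num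
  have e3 : 7 * ((((2 : Fin 5) : ℕ) : ℝ) + 1) * x = 21 * x := by norm_num
  have e4 : 7 * ((((3 : Fin 5) : ℕ) : ℝ) + 1) * x = 28 * x := by norm_num
  have e5 : 7 * ((((4 : Fin 5) : ℕ) : ℝ) + 1) * x = 35 * x := by norm_num
  rw [e1, e2, e3, e4, e5]
  rfl

private noncomputable def F8_l : ℝ := (a₁x - 42036443 / 10 ^ 9) * (10 ^ 9 / 2)

private theorem F8_l_mem : 0 ≤ F8_l ∧ 0 ≤ 1 - F8_l := by
  have h := abs_le.1 a₁x_bd
  unfold F8_l
  constructor <;> norm_num at h ⊢ <;> linarith [h.1, h.2]

private theorem F8_GV (t : ℝ) : GV Wx t =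
    F8_l * GV (Vl F8_p) t + (1 - F8_l) * GV (Vl F8_m) t := by
  unfold GV F8_p F8_m
  rw [F8_Vl, F8_Vl]
  unfold Wx F8_l
  push_cast
  ring

theorem tabs_ok : TabsOK tabs Wx Ms where
  hS k h1 h2 := by
    have h := chkS_sound F8_chkS k h1 h2
    rw [Int.negOfNat_eq] at h
    push_cast at h
    exact h
  hC k := by
    have h := chkC_sound F8_chkC k
    rw [Int.ofNat_eq_natCast, Int.cast_natCast] at h
    exact h
  hF k := by
    have h := chkF_sound F8_chkF k
    rw [Int.ofNat_eq_natCast, Int.cast_natCast] at h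
    exact h
  hV k := by
    have hp := chkV_sound F8_chkVp k
    have hm := chkV_sound F8_chkVm k
    rw [Int.subNatNat_eq_coe] at hp hm
    push_cast at hp hm
    obtain ⟨h1, h2⟩ := F8_l_mem
    show (ent tabV (k % 1024) : ℝ) - 134217728 ≤ GV Wx k
    rw [F8_GV]
    have h3 := mul_le_mul_of_nonneg_left hp h1
    have h4 := mul_le_mul_of_nonneg_left hm h2
    linarith
  hK a b hab := by
    have hp := chkK_sound (T := tabs) F8_chkKp hab
    have hm := chkK_sound (T := tabs) F8_chkKm hab
    obtain ⟨h1, h2⟩ := F8_l_mem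
    have h3 := (hp.smul h1).add (hm.smul h2)
    refine h3.congr fun t _ => ?_
    show F8_l * (GV (Vl F8_p) t - (kV tabs a b : ℝ) / 2 * t ^ 2) +
      (1 - F8_l) * (GV (Vl F8_m) t - (kV tabs a b : ℝ) / 2 * t ^ 2) = _
    rw [F8_GV]
    ring
  hB b h1 h2 := by
    have h := chkB_sound F8_chkB b h1 h2
    rw [Int.subNatNat_eq_coe] at h
    push_cast at h
    have h3 := Ms_bd.2
    refine h.trans ?_
    have h4 : Ms - (b : ℝ) / 256 ≤ 18881245118 / 10 ^ 10 - (b : ℝ) / 256 := by
      norm_num at h3 ⊢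
      exact h3
    have h5 : (6 : ℝ) * b * Real.log (512 / b) - 1536 * (18881245118 / 10 ^ 10 - (b : ℝ) / 256) ≤
        6 * b * Real.log (512 / b) - 1536 * (Ms - (b : ℝ) / 256) := by linarith
    exact mul_le_mul_of_nonneg_left h5 (by norm_num)

end Hepta
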