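import Pool.Agent.H69.Hep.F1

/-! # F9: the closed form of the density -/

set_option autoImplicit false

namespace Hepta

private theorem F9_min : 8 * Real.cos (ww / 2) ^ 3 - 4 * Real.cos (ww / 2) ^ 2 -
    4 * Real.cos (ww / 2) + 1 = 0 := by
  have h7 : ww / 2 = Real.pi / 7 := by
    unfold ww
    ring
  have h1 : Real.cos (4 * (ww / 2)) = -Real.cos (3 * (ww / 2)) := by
    rw [← Real.cos_pi_sub, h7]
    congr 1
    ring
  have h2 : Real.cos (4 * (ww / 2)) = 2 * (2 * Real.cos (ww / 2) ^ 2 - 1) ^ 2 - 1 := by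
    have e : 4 * (ww / 2) = 2 * (2 * (ww / 2)) := by ring
    rw [e, Real.cos_two_mul, Real.cos_two_mul]
  rw [Real.cos_three_mul, h2] at h1
  have h3 : (Real.cos (ww / 2) + 1) * (8 * Real.cos (ww / 2) ^ 3 - 4 * Real.cos (ww / 2) ^ 2 -
      4 * Real.cos (ww / 2) + 1) = 0 := by
    linear_combination h1
  rcases mul_eq_zero.1 h3 with h | h
  · have := c_half.1
    linarith
  · exact h

private theorem F9_one : Real.cos ww = 2 * Real.cos (ww / 2) ^ 2 - 1 := by
  have e : ww = 2 * (ww / 2) := by ring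
  conv_lhs => rw [e]
  exact Real.cos_two_mul _

private theorem F9_sin : Real.sin ww = 2 * Real.sin (ww / 2) * Real.cos (ww / 2) := by
  have e : ww = 2 * (ww / 2) := by ring
  conv_lhs => rw [e]
  exact Real.sin_two_mul _

private theorem F9_three : Real.cos (3 / 2 * ww) =
    4 * Real.cos (ww / 2) ^ 3 - 3 * Real.cos (ww / 2) := by
  have e : 3 / 2 * ww = 3 * (ww / 2) := by ring
  rw [e]
  exact Real.cos_three_mul _

theorem density_form : 7 * Real.tan (ww / 2) / (2 * Ms) =
    28 * Real.sin (2 * Real.pi / 7) ^ 2 /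
      ((1 + Real.cos (Real.pi / 7)) *
        (4 * Real.cos (Real.pi / 7) + 12 * Real.cos (2 * Real.pi / 7) - 1)) := by
  have h7 : Real.pi / 7 = ww / 2 := by
    unfold ww
    ring
  have h27 : 2 * Real.pi / 7 = ww := rfl
  have hMs := Ms_bd.1
  have hc := c_half.1
  have hs := s_half.1
  have hmin := F9_min
  rw [h27, h7, Real.tan_eq_sin_div_cos]
  have hM : Ms = 2 * FF * (Real.cos ww + Real.cos (3 / 2 * ww) -
      FF * (Real.cos ww * Real.cos (3 / 2 * ww))) / Real.sin ww := rfl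
  have hF : FF = (1 + 1 / Real.cos (ww / 2)) / 2 := rfl
  rw [F9_one, F9_three, F9_sin] at hM
  rw [F9_one, F9_sin]
  set c := Real.cos (ww / 2) with hcdef
  set s := Real.sin (ww / 2) with hsdef
  have hc0 : 0 < c := by linarith
  have hs0 : 0 < s := by linarith
  have hD : 0 < (1 + c) * (4 * c + 12 * (2 * c ^ 2 - 1) - 1) := by
    have : 0 < 4 * c + 12 * (2 * c ^ 2 - 1) - 1 := by nlinarith
    positivity
  have hM0 : 0 < 2 * Ms := by linarith
  rw [div_eq_div_iff hM0.ne' hD.ne', hM, hF]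
  field_simp
  linear_combination (56 * c ^ 4 + 140 * c ^ 3 + 28 * c ^ 2 - 147 * c - 91) * hmin

theorem density_bd : 7 * Real.tan (ww / 2) / (2 * Ms) ∈ Set.Ioo (0.89269068 : ℝ) 0.89269069 := by
  have h1 := t_half
  have h2 := Ms_bd
  have hM0 : 0 < 2 * Ms := by linarith [h2.1]
  constructor
  · rw [lt_div_iff₀ hM0]
    linarith [h1.1, h2.2]
  · rw [div_lt_iff₀ hM0]
    linarith [h1.2, h2.1]

end Hepta
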