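import Pool.Agent.H69.Hep.C6
import Pool.Agent.H69.Hep.C7b
import Pool.Agent.H69.Hep.C8b
import Pool.Agent.H69.Hep.F6b
import Pool.Agent.H69.Hep.F7
import Pool.Agent.H69.Hep.F8
import Pool.Agent.H69.Hep.R1
import Pool.Agent.H69.Hep.R2
import Pool.Agent.H69.Hep.R3
import Pool.Agent.H69.Hep.R4
import Pool.Agent.H69.Hep.R5
import Pool.Agent.H69.Hep.R6
import Pool.Agent.H69.Hep.R7
import Pool.Agent.H69.Hep.R8
import Pool.Agent.H69.Hep.R9
import Pool.Agent.H69.Hep.R10
import Pool.Agent.H69.Hep.R11

/-! # G1: the inequality for triangles -/

set_option autoImplicit false

namespace Hepta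

private theorem reg {B : Box} (hB : B ∈ tabs.E) : RegOK Wx Ms B := by
  have h : tabs.E = [⟨809, 830, 620, 641, 2039, 2057, 2044, 2052, 2044, 2052, 0, 0, 0⟩,
      ⟨809, 830, 620, 641, 2039, 2057, 2044, 2052, 3068, 3076, 0, 0, 0⟩] := rfl
  rw [h] at hB
  rcases List.mem_cons.1 hB with rfl | hB
  · exact reg_ok₁
  · rcases List.mem_cons.1 hB with rfl | hB
    · exact reg_ok₂
    · exact absurd hB List.not_mem_nil

private theorem rs {ops : List ℕ} {st st' : List Box} (h : run tabs ops st = some st')
    (hst : ∀ B ∈ st', BoxOK Wx Ms B) : ∀ B ∈ st, BoxOK Wx Ms B :=
  run_sound tabs_ok Wx_odd Wx_per (fun _ hB => reg hB) h hst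

theorem root_ok : BoxOK Wx Ms root := by
  have h : ∀ B ∈ stk128, BoxOK Wx Ms B := by
    intro B hB
    unfold stk128 at hB
    exact absurd hB List.not_mem_nil
  replace h := rs run127 h
  replace h := rs run126 h
  replace h := rs run125 h
  replace h := rs run124 h
  replace h := rs run123 h
  replace h := rs run122 h
  replace h := rs run121 h
  replace h := rs run120 h
  replace h := rs run119 h
  replace h := rs run118 h
  replace h := rs run117 h
  replace h := rs run116 h
  replace h := rs run115 h
  replace h := rs run114 h
  replace h := rs run113 h
  replace h := rs run112 h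
  replace h := rs run111 h
  replace h := rs run110 h
  replace h := rs run109 h
  replace h := rs run108 h
  replace h := rs run107 h
  replace h := rs run106 h
  replace h := rs run105 h
  replace h := rs run104 h
  replace h := rs run103 h
  replace h := rs run102 h
  replace h := rs run101 h
  replace h := rs run100 h
  replace h := rs run99 h
  replace h := rs run98 h
  replace h := rs run97 h
  replace h := rs run96 h
  replace h := rs run95 h
  replace h := rs run94 h
  replace h := rs run93 h
  replace h := rs run92 h
  replace h := rs run91 h
  replace h := rs run90 h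
  replace h := rs run89 h
  replace h := rs run88 h
  replace h := rs run87 h
  replace h := rs run86 h
  replace h := rs run85 h
  replace h := rs run84 h
  replace h := rs run83 h
  replace h := rs run82 h
  replace h := rs run81 h
  replace h := rs run80 h
  replace h := rs run79 h
  replace h := rs run78 h
  replace h := rs run77 h
  replace h := rs run76 h
  replace h := rs run75 h
  replace h := rs run74 h
  replace h := rs run73 h
  replace h := rs run72 h
  replace h := rs run71 h
  replace h := rs run70 h
  replace h := rs run69 h
  replace h := rs run68 h
  replace h := rs run67 h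
  replace h := rs run66 h
  replace h := rs run65 h
  replace h := rs run64 h
  replace h := rs run63 h
  replace h := rs run62 h
  replace h := rs run61 h
  replace h := rs run60 h
  replace h := rs run59 h
  replace h := rs run58 h
  replace h := rs run57 h
  replace h := rs run56 h
  replace h := rs run55 h
  replace h := rs run54 h
  replace h := rs run53 h
  replace h := rs run52 h
  replace h := rs run51 h
  replace h := rs run50 h
  replace h := rs run49 h
  replace h := rs run48 h
  replace h := rs run47 h
  replace h := rs run46 h
  replace h := rs run45 h
  replace h := rs run44 h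
  replace h := rs run43 h
  replace h := rs run42 h
  replace h := rs run41 h
  replace h := rs run40 h
  replace h := rs run39 h
  replace h := rs run38 h
  replace h := rs run37 h
  replace h := rs run36 h
  replace h := rs run35 h
  replace h := rs run34 h
  replace h := rs run33 h
  replace h := rs run32 h
  replace h := rs run31 h
  replace h := rs run30 h
  replace h := rs run29 h
  replace h := rs run28 h
  replace h := rs run27 h
  replace h := rs run26 h
  replace h := rs run25 h
  replace h := rs run24 h
  replace h := rs run23 h
  replace h := rs run22 h
  replace h := rs run21 h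
  replace h := rs run20 h
  replace h := rs run19 h
  replace h := rs run18 h
  replace h := rs run17 h
  replace h := rs run16 h
  replace h := rs run15 h
  replace h := rs run14 h
  replace h := rs run13 h
  replace h := rs run12 h
  replace h := rs run11 h
  replace h := rs run10 h
  replace h := rs run9 h
  replace h := rs run8 h
  replace h := rs run7 h
  replace h := rs run6 h
  replace h := rs run5 h
  replace h := rs run4 h
  replace h := rs run3 h
  replace h := rs run2 h
  replace h := rs run1 h
  replace h := rs run0 h
  exact h root (List.mem_cons_self)

theorem Ms_pos : 0 < Ms := by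
  have h := Ms_bd.1
  norm_num at h
  linarith

theorem Ms_le : Ms ≤ 18882 / 10000 := by
  have h := Ms_bd.2
  norm_num at h
  linarith

theorem locT_Wx : LocT Wx (2 * Ms) (14 / 5) := by
  have h1 := Ms_pos
  have h2 := Ms_le
  refine locT_of edgeOK_Wx (by linarith) (by linarith) ?_
  have e : (2 * Ms / 2) = Ms := by ring
  rw [e]
  exact locU_of_locS Wx_odd (locS_of_root Wx_per root_ok)

theorem locE_Wx : LocE Wx (2 * Ms) (14 / 5) := by
  have h1 := Ms_pos
  have h2 := Ms_le
  exact locE_of edgeOK_Wx (by linarith) (by linarith)

end Hepta
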