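import Pool.Agent.H69.Hep.B5
import Pool.Agent.H69.Hep.D4
import Pool.Agent.H69.Hep.G1

/-! # G2: the packings of the plane by regular heptagons -/

set_option autoImplicit false

namespace Hepta

open MeasureTheory

/-- The area of the members of a packing by heptagons in the disc of radius `r`. -/
theorem packing_area_le (F : Set (Set (EuclideanSpace ℝ (Fin 2))))
    (hF : ∀ X ∈ F, ∃ f : EuclideanSpace ℝ (Fin 2) → EuclideanSpace ℝ (Fin 2),
      Isometry f ∧ X = f '' hept)
    (hd : F.Pairwise fun X Y => Disjoint (interior X) (interior Y)) {r : ℝ} (hr : 0 < r) :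
    ∑' X : F, volume ((X : Set (EuclideanSpace ℝ (Fin 2))) ∩ Metric.closedBall 0 r) ≤
      ENNReal.ofReal (Real.pi * (r + 6 / 5 + Real.sqrt 2) ^ 2 *
        (7 * Real.tan (ww / 2) / (2 * Ms))) := by
  have hM := Ms_pos
  have hG : ∀ (N : ℕ) (c : Fin N → ℂ) (θ : Fin N → ℝ),
      (Pairwise fun i j => Disjoint (interior (Hp (c i) (θ i))) (interior (Hp (c j) (θ j)))) →
      (N : ℝ) * (2 * Ms) ≤ (volume (⋃ i, Metric.ball (c i) (Real.sqrt 2))).toReal := by
    intro N c θ h
    have hpi := Real.pi_gt_three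
    have h2 := Ms_le
    have h1 := hept_global Wx_per (by linarith) locE_Wx locT_Wx c θ h
    rwa [Fintype.card_fin] at h1
  refine (plane_sum_le (by linarith) hG F hF hd hr).trans (ENNReal.ofReal_le_ofReal ?_)
  exact le_of_eq (by ring)

end Hepta
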